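import Pool.Agent.Lib.MP_8b264c_pr.QV.Spec

/-!
# ASA: almost sure bounds along the scales `n_k`
-/

set_option autoImplicit false

open MeasureTheory Set ProbabilityTheory Filter Topology

namespace Pool.Agent.Lib.MP_8b264c_pr.QV

open Pool.Agent.BMR

namespace ASAM

/-- Borel-Cantelli in the form of a convergent series. -/
lemma series_bound {Ω : Type} [MeasurableSpace Ω] (P : Measure Ω) (F : ℕ → Ω → ENNReal)
    (hF : ∀ k, AEMeasurable (F k) P) (M : ENNReal) (hM : M ≠ ⊤) (hFM : ∀ k, ∫⁻ ω, F k ω ∂P ≤ M)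
    (κ : ℝ) (hκ : 1 < κ) :
    ∀ᵐ ω ∂P, ∃ R : ℝ, 0 ≤ R ∧ ∀ k, F k ω ≤ ENNReal.ofReal (R * κ ^ k) := by
  have hκ0 : 0 < κ := lt_trans one_pos hκ
  have hinv0 : 0 < κ⁻¹ := inv_pos.mpr hκ0
  have hinv1 : κ⁻¹ < 1 := inv_lt_one_of_one_lt₀ hκ
  have hm : ∀ k, AEMeasurable (fun ω => ENNReal.ofReal ((κ⁻¹) ^ k) * F k ω) P := fun k =>
    (hF k).const_mul _
  have hint : ∫⁻ ω, ∑' k, ENNReal.ofReal ((κ⁻¹) ^ k) * F k ω ∂P ≠ ⊤ := by
    rw [lintegral_tsum hm]
    have h1 : ∀ k, ∫⁻ ω, ENNReal.ofReal ((κ⁻¹) ^ k) * F k ω ∂P ≤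
        ENNReal.ofReal ((κ⁻¹) ^ k) * M := fun k => by
      rw [lintegral_const_mul'' _ (hF k)]
      exact mul_le_mul' le_rfl (hFM k)
    refine ne_top_of_le_ne_top ?_ (ENNReal.tsum_le_tsum h1)
    rw [ENNReal.tsum_mul_right]
    refine ENNReal.mul_ne_top ?_ hM
    have h2 : Summable fun k : ℕ => (κ⁻¹) ^ k := summable_geometric_of_lt_one hinv0.le hinv1
    rw [← ENNReal.ofReal_tsum_of_nonneg (fun k => by positivity) h2]
    exact ENNReal.ofReal_ne_top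
  filter_upwards [ae_lt_top' (AEMeasurable.tsum hm) hint] with ω hω
  refine ⟨(∑' k, ENNReal.ofReal ((κ⁻¹) ^ k) * F k ω).toReal, ENNReal.toReal_nonneg, fun k => ?_⟩
  have h3 : ENNReal.ofReal ((κ⁻¹) ^ k) * F k ω ≤ ∑' k, ENNReal.ofReal ((κ⁻¹) ^ k) * F k ω :=
    ENNReal.le_tsum k
  have h4 : F k ω = ENNReal.ofReal (κ ^ k) * (ENNReal.ofReal ((κ⁻¹) ^ k) * F k ω) := by
    rw [← mul_assoc, ← ENNReal.ofReal_mul (by positivity), ← mul_pow, mul_inv_cancel₀ hκ0.ne',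
      one_pow, ENNReal.ofReal_one, one_mul]
  rw [h4, mul_comm (_ : ℝ) (κ ^ k), ENNReal.ofReal_mul (by positivity), ENNReal.ofReal_toReal hω.ne]
  exact mul_le_mul' le_rfl h3

lemma nk_real (k : ℕ) : ((nk k : ℕ) : ℝ) = 4 ^ (8 * k) := by
  unfold nk
  push_cast
  rfl

end ASAM

open ASAM in
/-- ASA -/
theorem specASA (_hIND : SpecIND) (hMOM : SpecMOM) (hBAD : SpecBAD) (hOSC : SpecOSC) :
    SpecASA := by
  obtain ⟨C₁, lam₀, hC₁, hl0, hl1, hBAD⟩ := hBAD
  refine ⟨max lam₀ (1 / 4 ^ 7), le_max_right _ _, max_lt hl1 (by norm_num), ?_⟩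
  set lam : ℝ := max lam₀ (1 / 4 ^ 7) with hlam
  have hlam0 : 0 < lam := lt_of_lt_of_le hl0 (le_max_left _ _)
  intro Ω _ P _ B hB κ hκ
  have hκ0 : 0 < κ := lt_trans one_pos hκ
  -- the area
  obtain ⟨C₂, hC₂, W, hW1, hW2, hW3⟩ := hB.areaBd
  -- the bad pairs
  have hle : ∀ k : ℕ, k ≤ nk k := fun k => by
    unfold nk
    calc k ≤ 8 * k := by omega
      _ ≤ 4 ^ (8 * k) := (Nat.lt_pow_self (by norm_num)).le
  choose V hV1 hV2 hV3 using fun k : ℕ => hBAD Ω P B hB (nk k) k (hle k)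
  -- the oscillations
  obtain ⟨C₃, hC₃, hOSC⟩ := hOSC Ω P B (hMOM Ω P B hB).1 2 le_rfl
  choose U hU1 hU2 hU3 using fun k : ℕ => hOSC (nk k)
  have e1 := series_bound P (fun k ω => ((nk k : ℕ) : ENNReal) * W (nk k) ω)
    (fun k => (hW1 (nk k)).const_mul _) C₂ hC₂ (fun k => by
      rw [lintegral_const_mul'' _ (hW1 (nk k))]
      exact hW2 (nk k)) κ hκ
  have hN0 : ∀ k, (0 : ℝ) < nk k := fun k => by rw [nk_real]; positivity
  have e2 := series_bound P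
    (fun k ω => ENNReal.ofReal (4 ^ (nk k) * nk k * lam ^ k)⁻¹ * V k ω)
    (fun k => (hV1 k).const_mul _) (ENNReal.ofReal (3 * C₁)) ENNReal.ofReal_ne_top (fun k => by
      have hD : (0 : ℝ) < 4 ^ (nk k) * nk k * lam ^ k := by
        have := hN0 k
        positivity
      rw [lintegral_const_mul'' _ (hV1 k)]
      refine (mul_le_mul' le_rfl (hV2 k)).trans ?_
      rw [← ENNReal.ofReal_mul (inv_nonneg.mpr hD.le)]
      refine ENNReal.ofReal_le_ofReal ?_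
      rw [inv_mul_le_iff₀ hD]
      have hN1 : (1 : ℝ) ≤ nk k := by
        rw [nk_real]
        exact one_le_pow₀ (by norm_num)
      have a1 : (4 : ℝ) ^ k ≤ nk k * lam ^ k := by
        have h1 : (1 / 4 ^ 7 : ℝ) ^ k ≤ lam ^ k :=
          pow_le_pow_left₀ (by norm_num) (le_max_right _ _) k
        calc (4 : ℝ) ^ k = nk k * (1 / 4 ^ 7 : ℝ) ^ k := by
              rw [nk_real, pow_mul, ← mul_pow]
              norm_num
          _ ≤ nk k * lam ^ k := mul_le_mul_of_nonneg_left h1 (hN0 k).le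
      have a2 : ((nk k : ℝ) + 1) * lam₀ ^ k ≤ 2 * (nk k * lam ^ k) := by
        have h1 : lam₀ ^ k ≤ lam ^ k := pow_le_pow_left₀ hl0.le (le_max_left _ _) k
        calc ((nk k : ℝ) + 1) * lam₀ ^ k ≤ (2 * nk k) * lam ^ k :=
              mul_le_mul (by linarith) h1 (by positivity) (by positivity)
          _ = _ := by ring
      calc C₁ * 4 ^ (nk k) * (4 ^ k + (nk k + 1) * lam₀ ^ k) ≤
            C₁ * 4 ^ (nk k) * (3 * (nk k * lam ^ k)) :=
            mul_le_mul_of_nonneg_left (by linarith) (by positivity)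
        _ = 4 ^ (nk k) * nk k * lam ^ k * (3 * C₁) := by ring) κ hκ
  have e3 := series_bound P (fun k ω => ENNReal.ofReal (4 ^ (nk k))⁻¹ * U k ω)
    (fun k => (hU1 k).const_mul _) (ENNReal.ofReal C₃) ENNReal.ofReal_ne_top (fun k => by
      have hD : (0 : ℝ) < 4 ^ (nk k) := by positivity
      rw [lintegral_const_mul'' _ (hU1 k)]
      refine (mul_le_mul' le_rfl (hU2 k)).trans ?_
      rw [← ENNReal.ofReal_mul (inv_nonneg.mpr hD.le)]
      refine ENNReal.ofReal_le_ofReal (le_of_eq ?_)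
      field_simp) κ hκ
  filter_upwards [e1, e2, e3] with ω h1 h2 h3
  obtain ⟨R₁, hR₁, h1⟩ := h1
  obtain ⟨R₂, hR₂, h2⟩ := h2
  obtain ⟨R₃, hR₃, h3⟩ := h3
  refine ⟨R₁ + R₂ + R₃, by positivity, fun k hk => ⟨?_, ?_, ?_⟩⟩
  · have hk2 : 2 ≤ nk k := by
      unfold nk
      calc 2 ≤ 4 ^ 1 := by norm_num
        _ ≤ 4 ^ (8 * k) := Nat.pow_le_pow_right (by norm_num) (by omega)
    have a1 : ((nk k : ℕ) : ENNReal) * volume (nb ((fun t => B t ω) '' Icc (0 : ℝ) 1)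
        (1 / 2 ^ (nk k))) ≤ ENNReal.ofReal (R₁ * κ ^ k) :=
      (mul_le_mul' le_rfl (hW3 ω (nk k) hk2)).trans (h1 k)
    have a2 := ENNReal.toReal_mono ENNReal.ofReal_ne_top a1
    rw [ENNReal.toReal_mul, ENNReal.toReal_natCast, ENNReal.toReal_ofReal (by positivity)] at a2
    unfold nuK trace
    rw [le_div_iff₀ (hN0 k), mul_comm]
    refine a2.trans ?_
    exact mul_le_mul_of_nonneg_right (by linarith) (by positivity)
  · have hD : (0 : ℝ) < 4 ^ (nk k) * nk k * lam ^ k := by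
      have := hN0 k
      positivity
    have a1 : ENNReal.ofReal (4 ^ (nk k) * nk k * lam ^ k)⁻¹ *
        ((badN (fun t => B t ω) (nk k) k : ℕ) : ENNReal) ≤ ENNReal.ofReal (R₂ * κ ^ k) :=
      (mul_le_mul' le_rfl (hV3 k ω)).trans (h2 k)
    have a2 := ENNReal.toReal_mono ENNReal.ofReal_ne_top a1
    rw [ENNReal.toReal_mul, ENNReal.toReal_natCast,
      ENNReal.toReal_ofReal (inv_nonneg.mpr hD.le),
      ENNReal.toReal_ofReal (by positivity : 0 ≤ R₂ * κ ^ k), inv_mul_le_iff₀ hD] at a2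
    refine a2.trans ?_
    rw [mul_comm]
    refine mul_le_mul_of_nonneg_right ?_ hD.le
    exact mul_le_mul_of_nonneg_right (by linarith) (by positivity)
  · have hD : (0 : ℝ) < 4 ^ (nk k) := by positivity
    have hFS : 0 ≤ FS (fun t => B t ω) 2 (nk k) := by
      unfold FS
      refine Finset.sum_nonneg fun j _ => ?_
      rw [pow_mul]
      positivity
    have a1 : ENNReal.ofReal (4 ^ (nk k))⁻¹ *
        ENNReal.ofReal (FS (fun t => B t ω) 2 (nk k)) ≤ ENNReal.ofReal (R₃ * κ ^ k) :=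
      (mul_le_mul' le_rfl (hU3 k ω)).trans (h3 k)
    have a2 := ENNReal.toReal_mono ENNReal.ofReal_ne_top a1
    rw [ENNReal.toReal_mul, ENNReal.toReal_ofReal (inv_nonneg.mpr hD.le),
      ENNReal.toReal_ofReal hFS, ENNReal.toReal_ofReal (by positivity : 0 ≤ R₃ * κ ^ k),
      inv_mul_le_iff₀ hD] at a2
    refine a2.trans ?_
    rw [mul_comm]
    refine mul_le_mul_of_nonneg_right ?_ hD.le
    exact mul_le_mul_of_nonneg_right (by linarith) (by positivity)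

end Pool.Agent.Lib.MP_8b264c_pr.QV
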