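import Pool.Agent.Lib.MP_8b264c_pr.QV.Spec

/-!
# ASD: the slices are null
-/

set_option autoImplicit false

open MeasureTheory Set Filter Topology

namespace Pool.Agent.Lib.MP_8b264c_pr.QV

open Pool.Agent.BMR

namespace ASDM

/-- The bound with `w = ω^k`, `q = 4^k`, `N = q^8`, `D = 4^N`. -/
lemma bound (R C w q N D Qs nu b F : ℝ) (hR : 0 ≤ R) (hC : 0 ≤ C) (hw : 1 ≤ w) (hq : 1 ≤ q)
    (hN : N = q ^ 8) (hD : 0 < D) (hQ : Qs ≤ C * w ^ 2) (hnu : nu ≤ R * w ^ 2 / N)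
    (hb : b ≤ R * w ^ 2 * (D * N * (w⁻¹) ^ 64)) (hF : F ≤ R * w ^ 2 * D) :
    36 * Real.sqrt Qs * (w ^ 4 * q * Real.sqrt nu +
      w ^ 4 * Real.sqrt (b / (D * (N * (w⁻¹) ^ 32)) + N * (w⁻¹) ^ 32 * nu) +
      Real.sqrt (F / D) / w ^ 4) ≤
    36 * Real.sqrt C * (Real.sqrt R * (w ^ 6 / q ^ 3) + Real.sqrt (2 * R) * (w⁻¹) ^ 10 +
      Real.sqrt R * (w⁻¹) ^ 2) := by
  have hw0 : 0 < w := lt_of_lt_of_le one_pos hw
  have hq0 : 0 < q := lt_of_lt_of_le one_pos hq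
  have hN0 : 0 < N := by rw [hN]; positivity
  have s1 : Real.sqrt Qs ≤ Real.sqrt C * w := by
    calc Real.sqrt Qs ≤ Real.sqrt (C * w ^ 2) := Real.sqrt_le_sqrt hQ
      _ = Real.sqrt C * w := by rw [Real.sqrt_mul hC, Real.sqrt_sq hw0.le]
  have s2 : Real.sqrt nu ≤ Real.sqrt R * (w / q ^ 4) := by
    calc Real.sqrt nu ≤ Real.sqrt (R * (w / q ^ 4) ^ 2) := by
          refine Real.sqrt_le_sqrt (hnu.trans (le_of_eq ?_))
          rw [hN]
          field_simp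
      _ = Real.sqrt R * (w / q ^ 4) := by rw [Real.sqrt_mul hR, Real.sqrt_sq (by positivity)]
  have s3 : Real.sqrt (b / (D * (N * (w⁻¹) ^ 32)) + N * (w⁻¹) ^ 32 * nu) ≤
      Real.sqrt (2 * R) * (w⁻¹) ^ 15 := by
    have h1 : b / (D * (N * (w⁻¹) ^ 32)) ≤ R * ((w⁻¹) ^ 15) ^ 2 := by
      rw [div_le_iff₀ (by positivity)]
      refine hb.trans (le_of_eq ?_)
      field_simp
    have h2 : N * (w⁻¹) ^ 32 * nu ≤ R * ((w⁻¹) ^ 15) ^ 2 := by
      calc N * (w⁻¹) ^ 32 * nu ≤ N * (w⁻¹) ^ 32 * (R * w ^ 2 / N) :=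
            mul_le_mul_of_nonneg_left hnu (by positivity)
        _ = R * ((w⁻¹) ^ 15) ^ 2 := by field_simp
    calc Real.sqrt (b / (D * (N * (w⁻¹) ^ 32)) + N * (w⁻¹) ^ 32 * nu) ≤
          Real.sqrt (2 * R * ((w⁻¹) ^ 15) ^ 2) := Real.sqrt_le_sqrt (by linarith)
      _ = Real.sqrt (2 * R) * (w⁻¹) ^ 15 := by
          rw [Real.sqrt_mul (by positivity), Real.sqrt_sq (by positivity)]
  have s4 : Real.sqrt (F / D) ≤ Real.sqrt R * w := by
    calc Real.sqrt (F / D) ≤ Real.sqrt (R * w ^ 2) := by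
          refine Real.sqrt_le_sqrt ?_
          rw [div_le_iff₀ hD]
          exact hF
      _ = Real.sqrt R * w := by rw [Real.sqrt_mul hR, Real.sqrt_sq hw0.le]
  have a1 : w ^ 4 * q * Real.sqrt nu ≤ w ^ 4 * q * (Real.sqrt R * (w / q ^ 4)) :=
    mul_le_mul_of_nonneg_left s2 (by positivity)
  have a2 : w ^ 4 * Real.sqrt (b / (D * (N * (w⁻¹) ^ 32)) + N * (w⁻¹) ^ 32 * nu) ≤
      w ^ 4 * (Real.sqrt (2 * R) * (w⁻¹) ^ 15) := mul_le_mul_of_nonneg_left s3 (by positivity)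
  have a3 : Real.sqrt (F / D) / w ^ 4 ≤ Real.sqrt R * w / w ^ 4 :=
    div_le_div_of_nonneg_right s4 (by positivity)
  have hsum : 0 ≤ w ^ 4 * q * Real.sqrt nu +
      w ^ 4 * Real.sqrt (b / (D * (N * (w⁻¹) ^ 32)) + N * (w⁻¹) ^ 32 * nu) +
      Real.sqrt (F / D) / w ^ 4 := by positivity
  calc 36 * Real.sqrt Qs * (w ^ 4 * q * Real.sqrt nu +
      w ^ 4 * Real.sqrt (b / (D * (N * (w⁻¹) ^ 32)) + N * (w⁻¹) ^ 32 * nu) +
      Real.sqrt (F / D) / w ^ 4) ≤ 36 * (Real.sqrt C * w) * (w ^ 4 * q * Real.sqrt nu +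
      w ^ 4 * Real.sqrt (b / (D * (N * (w⁻¹) ^ 32)) + N * (w⁻¹) ^ 32 * nu) +
      Real.sqrt (F / D) / w ^ 4) :=
        mul_le_mul_of_nonneg_right (mul_le_mul_of_nonneg_left s1 (by norm_num)) hsum
    _ ≤ 36 * (Real.sqrt C * w) * (w ^ 4 * q * (Real.sqrt R * (w / q ^ 4)) +
        w ^ 4 * (Real.sqrt (2 * R) * (w⁻¹) ^ 15) + Real.sqrt R * w / w ^ 4) :=
        mul_le_mul_of_nonneg_left (by linarith) (by positivity)
    _ = _ := by
        generalize Real.sqrt (2 * R) = r2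
        generalize Real.sqrt R = r1
        generalize Real.sqrt C = c1
        field_simp

end ASDM

open ASDM in
/-- ASD -/
theorem specASD (hDET : SpecDET) : SpecASD := by
  intro lam hlam1 hlam2 μ hμ hμlam β f R C hβ hf hR hC hk hQ g h hg hh
  set ω : ℝ := Real.sqrt μ⁻¹ with hω
  have hμ1 : μ < 1 := by
    by_contra hcon
    push Not at hcon
    have : 1 ≤ μ ^ 32 := one_le_pow₀ hcon
    linarith
  have hω0 : 0 < ω := Real.sqrt_pos.mpr (inv_pos.mpr hμ)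
  have hω2 : ω ^ 2 = μ⁻¹ := Real.sq_sqrt (inv_pos.mpr hμ).le
  have hω1 : 1 < ω := by
    rw [hω, Real.lt_sqrt (by norm_num)]
    rw [one_pow]
    exact (one_lt_inv₀ hμ).mpr hμ1
  have hμω : μ = (ω⁻¹) ^ 2 := by
    rw [inv_pow, hω2, inv_inv]
  have hωlt : ω < 2 := by
    by_contra hcon
    push Not at hcon
    have h1 : (2 : ℝ) ^ 64 ≤ ω ^ 64 := pow_le_pow_left₀ (by norm_num) hcon 64
    have h2 : lam = (ω ^ 64)⁻¹ := by
      rw [← hμlam, hμω, ← pow_mul, inv_pow]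
    have h3 : ω ^ 64 ≤ 4 ^ 7 := by
      rw [h2, one_div] at hlam1
      exact (inv_le_inv₀ (by positivity) (by positivity)).mp hlam1
    norm_num at h1 h3
    linarith
  -- the bound tends to zero
  set T : ℕ → ℝ := fun k => 36 * Real.sqrt C * (Real.sqrt R * ((ω ^ 6 / 64) ^ k) +
    Real.sqrt (2 * R) * ((ω⁻¹) ^ 10) ^ k + Real.sqrt R * ((ω⁻¹) ^ 2) ^ k) with hT
  have hTlim : Tendsto T atTop (𝓝 0) := by
    have hinv : ω⁻¹ < 1 := inv_lt_one_of_one_lt₀ hω1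
    have hinv0 : 0 < ω⁻¹ := inv_pos.mpr hω0
    have h1 : Tendsto (fun k : ℕ => (ω ^ 6 / 64) ^ k) atTop (𝓝 0) := by
      refine tendsto_pow_atTop_nhds_zero_of_lt_one (by positivity) ?_
      rw [div_lt_one (by norm_num)]
      calc ω ^ 6 < 2 ^ 6 := pow_lt_pow_left₀ hωlt hω0.le (by norm_num)
        _ = 64 := by norm_num
    have h2 : Tendsto (fun k : ℕ => ((ω⁻¹) ^ 10) ^ k) atTop (𝓝 0) :=
      tendsto_pow_atTop_nhds_zero_of_lt_one (by positivity)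
        (pow_lt_one₀ hinv0.le hinv (by norm_num))
    have h3 : Tendsto (fun k : ℕ => ((ω⁻¹) ^ 2) ^ k) atTop (𝓝 0) :=
      tendsto_pow_atTop_nhds_zero_of_lt_one (by positivity)
        (pow_lt_one₀ hinv0.le hinv (by norm_num))
    have h4 := (((h1.const_mul (Real.sqrt R)).add (h2.const_mul (Real.sqrt (2 * R)))).add
      (h3.const_mul (Real.sqrt R))).const_mul (36 * Real.sqrt C)
    simp only [mul_zero, add_zero] at h4
    exact h4
  -- the majorants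
  have hG : ∀ k : ℕ, 1 ≤ k → ∃ G : ℝ → ENNReal, Measurable G ∧
      (∀ v, volume ((fun z => g (f z)) '' {z | z ∈ trace β ∧ h z = v}) ≤ G v) ∧
      ∫⁻ v, G v ≤ ENNReal.ofReal (T k) := by
    intro k hk1
    set w : ℝ := ω ^ k with hw
    have hw1 : 1 ≤ w := one_le_pow₀ hω1.le
    have hw0 : 0 < w := lt_of_lt_of_le one_pos hw1
    have hwinv : (μ⁻¹) ^ k = w ^ 2 := by
      rw [← hω2, ← pow_mul, ← pow_mul, mul_comm]
    have hlamk : lam ^ k = (w⁻¹) ^ 64 := by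
      rw [← hμlam, hμω, hw]
      simp only [← pow_mul, inv_pow]
      congr 2
      ring
    have hq1 : (1 : ℝ) ≤ 4 ^ k := one_le_pow₀ (by norm_num)
    have hN : ((nk k : ℕ) : ℝ) = (4 ^ k) ^ 8 := by
      unfold nk
      push_cast
      rw [← pow_mul, mul_comm]
    have hN0 : (0 : ℝ) < nk k := by rw [hN]; positivity
    obtain ⟨G, hG1, hG2, hG3⟩ := hDET β f g h (nk k) k (w ^ 4) (nk k * (w⁻¹) ^ 32) hβ hf hg hh
      (one_le_pow₀ hw1) (by positivity)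
    refine ⟨G, hG1, hG2, hG3.trans (ENNReal.ofReal_le_ofReal ?_)⟩
    obtain ⟨k1, k2, k3⟩ := hk k hk1
    have kQ := hQ k hk1
    rw [hwinv] at k1 k2 k3 kQ
    rw [hlamk] at k2
    have hb := bound R C w (4 ^ k) (nk k) (4 ^ (nk k)) (QS (f ∘ β) (nk k)) (nuK β (nk k))
      (badN β (nk k) k) (FS β 2 (nk k)) hR hC hw1 hq1 hN (by positivity) kQ k1 k2 k3
    refine hb.trans (le_of_eq ?_)
    rw [hT, hw]
    simp only
    congr 2
    · congr 2
      · rw [div_pow, ← pow_mul, ← pow_mul, ← pow_mul, mul_comm k 6, mul_comm k 3]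
        congr 1
        rw [pow_mul]
        norm_num
      · rw [← inv_pow, ← pow_mul, ← pow_mul, mul_comm k 10]
    · rw [← inv_pow, ← pow_mul, ← pow_mul, mul_comm k 2]
  refine null_of _ 1 ?_
  intro ε hε
  refine ⟨fun _ v => volume ((fun z => g (f z)) '' {z | z ∈ trace β ∧ h z = v}),
    fun _ _ _ _ => le_rfl, fun v => le_iSup_of_le 0 le_rfl, fun _ => ?_⟩
  obtain ⟨k, hk1, hk2⟩ := ((eventually_ge_atTop 1).and
    (hTlim.eventually (gt_mem_nhds hε))).exists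
  obtain ⟨G, hG1, hG2, hG3⟩ := hG k hk1
  refine ⟨G, hG1, hG2, hG3.trans (ENNReal.ofReal_le_ofReal ?_)⟩
  rw [mul_one]
  exact hk2.le

end Pool.Agent.Lib.MP_8b264c_pr.QV
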