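import Pool.Agent.Lib.MP_8b264c_pr.QV.Spec

/-!
# QV, module BAD: a measurable majorant of the number of bad pairs
-/

set_option autoImplicit false

open MeasureTheory Set ProbabilityTheory Filter Topology

namespace Pool.Agent.Lib.MP_8b264c_pr.QV

open Pool.Agent.BMR

namespace BADM

/-! ## Deterministic facts -/

lemma Near.symm {z w : ℂ} {r : ℝ} (h : Near z w r) : Near w z r := by
  unfold Near at *
  rw [abs_sub_comm w.re, abs_sub_comm w.im]
  exact h

lemma Near.norm_le {z w : ℂ} {r : ℝ} (h : Near z w r) : ‖z - w‖ ≤ 2 * r := by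
  have h1 := Complex.norm_le_abs_re_add_abs_im (z - w)
  rw [Complex.sub_re, Complex.sub_im] at h1
  linarith [h.1, h.2]

lemma meet_symm {β : ℝ → ℂ} {n I j k : ℕ} (h : meet β n I j k) : meet β n I k j := by
  obtain ⟨s, hs, t, ht, h⟩ := h
  exact ⟨t, ht, s, hs, h.symm⟩

lemma tm_nonneg (n j : ℕ) : 0 ≤ tm n j := by unfold tm; positivity

lemma tm_le_one {n j : ℕ} (h : j ≤ 4 ^ n) : tm n j ≤ 1 := by
  unfold tm
  rw [div_le_one (by positivity)]
  exact_mod_cast h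

lemma mem_EI {n m I p a : ℕ} (hp : p + 4 ^ I ≤ 4 ^ n) (ha : a ≤ 4 ^ I * 4 ^ m) :
    tm n p + tm (n + m) a ∈ EI n I p := by
  have h1 : tm (n + m) a ≤ (4 ^ I : ℝ) / 4 ^ n := by
    unfold tm
    rw [div_le_div_iff₀ (by positivity) (by positivity)]
    have h2 : (a : ℝ) ≤ 4 ^ I * 4 ^ m := by exact_mod_cast ha
    calc (a : ℝ) * 4 ^ n ≤ (4 ^ I * 4 ^ m) * 4 ^ n := by gcongr
      _ = 4 ^ I * 4 ^ (n + m) := by rw [pow_add]; ring
  have h3 : tm n (p + 4 ^ I) = tm n p + (4 ^ I : ℝ) / 4 ^ n := by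
    unfold tm; push_cast; ring
  have h4 := tm_le_one hp
  have h5 := tm_nonneg (n + m) a
  refine ⟨by linarith, le_min (by linarith) (by linarith)⟩

/-- far apart images are not close on fine grids -/
lemma far {β : ℝ → ℂ} (hβ : Continuous β) {n I p q : ℕ} (hp : p + 4 ^ I ≤ 4 ^ n)
    (hq : q + 4 ^ I ≤ 4 ^ n) (h : ¬ meet β n I p q) :
    ∀ᶠ m : ℕ in atTop, ∀ a b : ℕ, a ≤ 4 ^ I * 4 ^ m → b ≤ 4 ^ I * 4 ^ m →
      ¬ Near (β (tm n p + tm (n + m) a)) (β (tm n q + tm (n + m) b)) (1 / 2 ^ (n + m)) := by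
  have hK : IsCompact (EI n I p ×ˢ EI n I q) := isCompact_Icc.prod isCompact_Icc
  have hne : (EI n I p ×ˢ EI n I q).Nonempty :=
    ⟨(tm n p + tm (n + 0) 0, tm n q + tm (n + 0) 0), mem_EI hp (Nat.zero_le _),
      mem_EI hq (Nat.zero_le _)⟩
  have hcont : ContinuousOn (fun x : ℝ × ℝ => ‖β x.1 - β x.2‖) (EI n I p ×ˢ EI n I q) := by
    have : Continuous (fun x : ℝ × ℝ => ‖β x.1 - β x.2‖) := by fun_prop
    exact this.continuousOn
  obtain ⟨x, hx, hmin⟩ := hK.exists_isMinOn hne hcont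
  have hpos : 0 < ‖β x.1 - β x.2‖ := by
    rw [norm_pos_iff, sub_ne_zero]
    intro hcon
    exact h ⟨x.1, hx.1, x.2, hx.2, hcon⟩
  have hlim : Tendsto (fun m : ℕ => 2 * (1 / 2 : ℝ) ^ (n + m)) atTop (𝓝 0) := by
    have h1 := tendsto_pow_atTop_nhds_zero_of_lt_one (r := (1 / 2 : ℝ)) (by norm_num) (by norm_num)
    have h2 := (h1.const_mul (2 * (1 / 2 : ℝ) ^ n))
    rw [mul_zero] at h2
    refine h2.congr fun m => ?_
    rw [pow_add]; ring
  filter_upwards [hlim.eventually (gt_mem_nhds hpos)] with m hm a b ha hb hnear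
  have h1 := Near.norm_le hnear
  have h2 : ‖β x.1 - β x.2‖ ≤ ‖β (tm n p + tm (n + m) a) - β (tm n q + tm (n + m) b)‖ :=
    hmin (a := (tm n p + tm (n + m) a, tm n q + tm (n + m) b)) ⟨mem_EI hp ha, mem_EI hq hb⟩
  have h3 : (1 / 2 : ℝ) ^ (n + m) = 1 / 2 ^ (n + m) := by rw [one_div_pow]
  rw [h3] at hm
  linarith

/-! ## The sums -/

/-- `∑_{l < N} 1/l` -/
noncomputable def HN (N : ℕ) : ℝ := ∑ l ∈ Finset.range N, (1 : ℝ) / l

lemma HN_nonneg (N : ℕ) : 0 ≤ HN N := Finset.sum_nonneg fun _ _ => by positivity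

lemma HN_le (n : ℕ) : HN (4 ^ n) ≤ 1 + 2 * n := by
  have h1 : HN (4 ^ n) ≤ ((harmonic (4 ^ n) : ℚ) : ℝ) := by
    have h2 : ∀ N : ℕ, HN (N + 1) = ((harmonic N : ℚ) : ℝ) := by
      intro N
      unfold HN harmonic
      rw [Finset.sum_range_succ']
      push_cast
      simp
    have h3 : HN (4 ^ n) ≤ HN (4 ^ n + 1) := by
      unfold HN
      rw [Finset.sum_range_succ]
      have : (0 : ℝ) ≤ 1 / ((4 ^ n : ℕ) : ℝ) := by positivity
      linarith
    rw [h2] at h3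
    exact h3
  have h2 := harmonic_le_one_add_log (4 ^ n)
  have h3 : Real.log ((4 ^ n : ℕ) : ℝ) ≤ 2 * n := by
    push_cast
    rw [Real.log_pow]
    have h4 : Real.log 4 ≤ 2 := by
      have h5 : Real.log 4 = 2 * Real.log 2 := by
        rw [show (4 : ℝ) = 2 ^ 2 by norm_num, Real.log_pow]; norm_num
      rw [h5]
      have := Real.log_two_lt_d9
      linarith
    nlinarith [Nat.cast_nonneg (α := ℝ) n]
  linarith

/-- the bound for the pair `p ≤ q` as a function of the difference -/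
noncomputable def gg (n I : ℕ) (lam : ℝ) (q l : ℕ) : ℝ :=
  (if l < 2 * 4 ^ I then 1 else 0) + (if 4 ^ n < q + 4 ^ I then 1 else 0) * (1 / l) +
    3 * lam ^ I * (1 / l)

lemma gg_nonneg {n I : ℕ} {lam : ℝ} (hl : 0 ≤ lam) (q l : ℕ) : 0 ≤ gg n I lam q l := by
  unfold gg
  have : (0 : ℝ) ≤ 1 / l := by positivity
  split_ifs <;> positivity

lemma sum_gg {n I : ℕ} {lam : ℝ} (q : ℕ) :
    ∑ l ∈ Finset.range (4 ^ n), gg n I lam q l ≤
      2 * 4 ^ I + (if 4 ^ n < q + 4 ^ I then 1 else 0) * HN (4 ^ n) + 3 * lam ^ I * HN (4 ^ n) := by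
  unfold gg
  rw [Finset.sum_add_distrib, Finset.sum_add_distrib, ← Finset.mul_sum, ← Finset.mul_sum]
  have h1 : ∑ l ∈ Finset.range (4 ^ n), (if l < 2 * 4 ^ I then (1 : ℝ) else 0) ≤ 2 * 4 ^ I := by
    rw [← Finset.sum_filter, Finset.sum_const, nsmul_eq_mul, mul_one]
    have h2 : (Finset.range (4 ^ n)).filter (fun l => l < 2 * 4 ^ I) ⊆ Finset.range (2 * 4 ^ I) := by
      intro l hl
      exact Finset.mem_range.2 (Finset.mem_filter.1 hl).2
    have h3 := Finset.card_le_card h2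
    rw [Finset.card_range] at h3
    exact_mod_cast h3
  unfold HN
  linarith

lemma sum_pair {n I : ℕ} {lam : ℝ} (hl : 0 ≤ lam) (hI : I ≤ n) :
    ∑ q ∈ Finset.range (4 ^ n), ∑ p ∈ Finset.range (4 ^ n),
      (if p ≤ q then gg n I lam q (q - p) else 0) ≤
      4 ^ n * (4 * 4 ^ I + 6 * (n + 1) * lam ^ I) := by
  have h1 : ∀ q ∈ Finset.range (4 ^ n), ∑ p ∈ Finset.range (4 ^ n),
      (if p ≤ q then gg n I lam q (q - p) else 0) ≤ ∑ l ∈ Finset.range (4 ^ n), gg n I lam q l := by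
    intro q hq
    rw [← Finset.sum_filter]
    have h2 : ∑ p ∈ (Finset.range (4 ^ n)).filter (fun p => p ≤ q), gg n I lam q (q - p) =
        ∑ l ∈ ((Finset.range (4 ^ n)).filter (fun p => p ≤ q)).image (fun p => q - p),
          gg n I lam q l := by
      rw [Finset.sum_image]
      intro p hp p' hp' h
      have h3 := (Finset.mem_filter.1 (Finset.mem_coe.1 hp)).2
      have h4 := (Finset.mem_filter.1 (Finset.mem_coe.1 hp')).2
      dsimp only at h
      omega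
    rw [h2]
    refine Finset.sum_le_sum_of_subset_of_nonneg ?_ fun l _ _ => gg_nonneg hl q l
    intro l hl'
    obtain ⟨p, hp, rfl⟩ := Finset.mem_image.1 hl'
    rw [Finset.mem_range] at hq ⊢
    omega
  refine (Finset.sum_le_sum fun q hq => (h1 q hq).trans (sum_gg q)).trans ?_
  rw [Finset.sum_add_distrib, Finset.sum_add_distrib]
  have hH := HN_le n
  have hH0 := HN_nonneg (4 ^ n)
  have h2 : ∑ q ∈ Finset.range (4 ^ n), (if 4 ^ n < q + 4 ^ I then (1 : ℝ) else 0) ≤ 4 ^ I := by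
    rw [← Finset.sum_filter, Finset.sum_const, nsmul_eq_mul, mul_one]
    have h3 : (Finset.range (4 ^ n)).filter (fun q => 4 ^ n < q + 4 ^ I) ⊆
        Finset.Ico (4 ^ n - 4 ^ I) (4 ^ n) := by
      intro q hq
      rw [Finset.mem_filter, Finset.mem_range] at hq
      rw [Finset.mem_Ico]
      omega
    have h4 := Finset.card_le_card h3
    rw [Nat.card_Ico] at h4
    have h5 : ((Finset.range (4 ^ n)).filter (fun q => 4 ^ n < q + 4 ^ I)).card ≤ 4 ^ I := by
      refine h4.trans ?_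
      generalize (4 ^ n : ℕ) = x
      generalize (4 ^ I : ℕ) = y
      omega
    exact_mod_cast h5
  simp only [Finset.sum_const, Finset.card_range, nsmul_eq_mul]
  push_cast
  have h3 : (1 : ℝ) + 2 * n ≤ 2 * 4 ^ n := by
    have h4 : n + 1 ≤ 4 ^ n := Nat.lt_pow_self (by norm_num)
    have h5 : (n : ℝ) + 1 ≤ 4 ^ n := by exact_mod_cast h4
    linarith
  have h4 : ∑ q ∈ Finset.range (4 ^ n), (if 4 ^ n < q + 4 ^ I then (1 : ℝ) else 0) * HN (4 ^ n) ≤
      4 ^ I * (2 * 4 ^ n) := by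
    rw [← Finset.sum_mul]
    exact mul_le_mul h2 (hH.trans h3) hH0 (by positivity)
  have h5 : (4 : ℝ) ^ n * (3 * lam ^ I * HN (4 ^ n)) ≤ 4 ^ n * (3 * lam ^ I * (2 * (n + 1))) := by
    have : HN (4 ^ n) ≤ 2 * (n + 1) := by linarith
    gcongr
  nlinarith

/-- the bound for the pair `p ≤ q` -/
noncomputable def cc (n I : ℕ) (lam : ℝ) (p q : ℕ) : ℝ :=
  if q < p + 2 * 4 ^ I then 1 else if 4 ^ n < q + 4 ^ I then 1 / ((q : ℝ) - p)
  else 3 * lam ^ I / ((q : ℝ) - p)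

lemma cc_le {n I : ℕ} {lam : ℝ} (hl : 0 ≤ lam) {p q : ℕ} (hpq : p ≤ q) :
    cc n I lam p q ≤ gg n I lam q (q - p) := by
  unfold cc gg
  rw [Nat.cast_sub hpq]
  have h1 : (0 : ℝ) ≤ (q : ℝ) - p := by
    rw [sub_nonneg]; exact_mod_cast hpq
  have h2 : (0 : ℝ) ≤ 1 / ((q : ℝ) - p) := by positivity
  have h3 : (0 : ℝ) ≤ 3 * lam ^ I * (1 / ((q : ℝ) - p)) := by positivity
  by_cases ha : q < p + 2 * 4 ^ I
  · have ha' : q - p < 2 * 4 ^ I := by omega
    rw [if_pos ha, if_pos ha']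
    have h4 : (0 : ℝ) ≤ (if 4 ^ n < q + 4 ^ I then (1 : ℝ) else 0) * (1 / ((q : ℝ) - p)) := by
      split_ifs <;> linarith
    linarith
  · have ha' : ¬ q - p < 2 * 4 ^ I := by omega
    rw [if_neg ha, if_neg ha']
    by_cases hb : 4 ^ n < q + 4 ^ I
    · rw [if_pos hb, if_pos hb]
      linarith
    · rw [if_neg hb, if_neg hb, zero_mul, mul_one_div]
      linarith

lemma cc_nonneg {n I : ℕ} {lam : ℝ} (hl : 0 ≤ lam) {p q : ℕ} (hpq : p ≤ q) :
    0 ≤ cc n I lam p q := by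
  unfold cc
  have h1 : (0 : ℝ) ≤ (q : ℝ) - p := by
    rw [sub_nonneg]; exact_mod_cast hpq
  split_ifs <;> positivity

lemma sum_cc {n I : ℕ} {lam : ℝ} (hl : 0 ≤ lam) (hI : I ≤ n) :
    ∑ x ∈ Finset.range (4 ^ n) ×ˢ Finset.range (4 ^ n), cc n I lam (min x.1 x.2) (max x.1 x.2) ≤
      12 * 4 ^ n * (4 ^ I + (n + 1) * lam ^ I) := by
  have h1 : ∀ x : ℕ × ℕ, cc n I lam (min x.1 x.2) (max x.1 x.2) ≤
      (if x.1 ≤ x.2 then gg n I lam x.2 (x.2 - x.1) else 0) +
      (if x.2 ≤ x.1 then gg n I lam x.1 (x.1 - x.2) else 0) := by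
    intro x
    rcases le_total x.1 x.2 with h | h
    · rw [min_eq_left h, max_eq_right h, if_pos h]
      have h2 : (0 : ℝ) ≤ (if x.2 ≤ x.1 then gg n I lam x.1 (x.1 - x.2) else 0) := by
        split_ifs
        · exact gg_nonneg hl _ _
        · exact le_rfl
      linarith [cc_le (n := n) (I := I) hl h]
    · rw [min_eq_right h, max_eq_left h, if_pos h]
      have h2 : (0 : ℝ) ≤ (if x.1 ≤ x.2 then gg n I lam x.2 (x.2 - x.1) else 0) := by
        split_ifs
        · exact gg_nonneg hl _ _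
        · exact le_rfl
      linarith [cc_le (n := n) (I := I) hl h]
  refine (Finset.sum_le_sum fun x _ => h1 x).trans ?_
  rw [Finset.sum_add_distrib]
  have h2 := sum_pair (n := n) (I := I) hl hI
  have h3 : ∑ x ∈ Finset.range (4 ^ n) ×ˢ Finset.range (4 ^ n),
      (if x.1 ≤ x.2 then gg n I lam x.2 (x.2 - x.1) else 0) =
      ∑ q ∈ Finset.range (4 ^ n), ∑ p ∈ Finset.range (4 ^ n),
      (if p ≤ q then gg n I lam q (q - p) else 0) := by
    rw [Finset.sum_product_right]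
  have h4 : ∑ x ∈ Finset.range (4 ^ n) ×ˢ Finset.range (4 ^ n),
      (if x.2 ≤ x.1 then gg n I lam x.1 (x.1 - x.2) else 0) =
      ∑ q ∈ Finset.range (4 ^ n), ∑ p ∈ Finset.range (4 ^ n),
      (if p ≤ q then gg n I lam q (q - p) else 0) := by
    rw [Finset.sum_product]
  rw [h3, h4]
  have h5 : (0 : ℝ) ≤ 4 ^ n * 4 ^ I := by positivity
  nlinarith

/-! ## The events -/

variable {Ω : Type} [MeasurableSpace Ω]

/-- the event of PAI -/
def Pv (B : ℝ → Ω → ℂ) (n I m p q : ℕ) : Set Ω :=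
  {ω | Near (B (tm n p) ω) (B (tm n q) ω) (1 / 2 ^ n) ∧
      ∀ a b : ℕ, a ≤ 4 ^ I * 4 ^ m → b ≤ 4 ^ I * 4 ^ m →
        ¬ Near (B (tm n p + tm (n + m) a) ω) (B (tm n q + tm (n + m) b) ω) (1 / 2 ^ (n + m))}

/-- the event for the pair `p ≤ q` -/
def Ev (B : ℝ → Ω → ℂ) (n I m p q : ℕ) : Set Ω :=
  if q < p + 2 * 4 ^ I then univ else if 4 ^ n < q + 4 ^ I then
    {ω | Near (B (tm n p) ω) (B (tm n q) ω) (1 / 2 ^ n)} else Pv B n I m p q

/-- the closed square -/
def Sq (r : ℝ) : Set ℂ := {z | |z.re| ≤ r ∧ |z.im| ≤ r}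

lemma Sq_meas (r : ℝ) : MeasurableSet (Sq r) := by
  unfold Sq
  have h1 : MeasurableSet {z : ℂ | |z.re| ≤ r} :=
    measurableSet_le (Complex.measurable_re.abs) measurable_const
  have h2 : MeasurableSet {z : ℂ | |z.im| ≤ r} :=
    measurableSet_le (Complex.measurable_im.abs) measurable_const
  exact h1.inter h2

lemma Sq_vol {r : ℝ} (hr : 0 ≤ r) : volume (Sq r) = ENNReal.ofReal ((2 * r) ^ 2) := by
  have h1 : Sq r = Complex.measurableEquivRealProd ⁻¹' (Icc (-r) r ×ˢ Icc (-r) r) := by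
    ext z
    simp [Sq, Complex.measurableEquivRealProd, abs_le]
    tauto
  rw [h1, Complex.volume_preserving_equiv_real_prod.measure_preimage
    (measurableSet_Icc.prod measurableSet_Icc).nullMeasurableSet, Measure.volume_eq_prod,
    Measure.prod_prod, Real.volume_Icc, ← ENNReal.ofReal_mul (by linarith)]
  congr 1
  ring

lemma near_iff (z w : ℂ) (r : ℝ) : Near z w r ↔ w - z ∈ Sq r := by
  unfold Near Sq
  rw [abs_sub_comm z.re, abs_sub_comm z.im]
  simp

lemma near_nullMeas {P : Measure Ω} {X Y : Ω → ℂ} (hX : AEMeasurable X P) (hY : AEMeasurable Y P)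
    (r : ℝ) : NullMeasurableSet {ω | Near (X ω) (Y ω) r} P := by
  have h1 : {ω | Near (X ω) (Y ω) r} = (fun ω => Y ω - X ω) ⁻¹' (Sq r) := by
    ext ω
    exact near_iff _ _ _
  rw [h1]
  exact (hY.sub hX).nullMeasurable (Sq_meas r)

lemma Ev_nullMeas {P : Measure Ω} {B : ℝ → Ω → ℂ}
    (hB : ∀ t ∈ Icc (0 : ℝ) 1, AEMeasurable (B t) P) {n I p q : ℕ} (m : ℕ) (hpq : p ≤ q)
    (hq : q < 4 ^ n) : NullMeasurableSet (Ev B n I m p q) P := by
  have hB' : ∀ j, j ≤ 4 ^ n → AEMeasurable (B (tm n j)) P :=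
    fun j hj => hB _ ⟨tm_nonneg _ _, tm_le_one hj⟩
  have hN := near_nullMeas (hB' p (by omega)) (hB' q (by omega)) (1 / 2 ^ n)
  unfold Ev
  split_ifs with h1 h2
  · exact MeasurableSet.univ.nullMeasurableSet
  · exact hN
  · have hp' : p + 4 ^ I ≤ 4 ^ n := by
      generalize (4 ^ n : ℕ) = x at *
      generalize (4 ^ I : ℕ) = y at *
      omega
    have hq' : q + 4 ^ I ≤ 4 ^ n := not_lt.1 h2
    have h3 : Pv B n I m p q = {ω | Near (B (tm n p) ω) (B (tm n q) ω) (1 / 2 ^ n)} ∩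
        ⋂ a : ℕ, ⋂ b : ℕ, ⋂ _ : a ≤ 4 ^ I * 4 ^ m, ⋂ _ : b ≤ 4 ^ I * 4 ^ m,
        {ω | Near (B (tm n p + tm (n + m) a) ω) (B (tm n q + tm (n + m) b) ω)
          (1 / 2 ^ (n + m))}ᶜ := by
      ext ω
      simp [Pv]
    rw [h3]
    refine hN.inter ?_
    refine NullMeasurableSet.iInter fun a => NullMeasurableSet.iInter fun b =>
      NullMeasurableSet.iInter fun ha => NullMeasurableSet.iInter fun hb => ?_
    have hsub : ∀ j : ℕ, EI n I j ⊆ Icc (0 : ℝ) 1 := fun j t ht =>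
      ⟨(tm_nonneg _ _).trans ht.1, ht.2.trans (min_le_left _ _)⟩
    exact (near_nullMeas (hB _ (hsub p (mem_EI hp' ha))) (hB _ (hsub q (mem_EI hq' hb))) _).compl

lemma Ev_prob {P : Measure Ω} [IsProbabilityMeasure P] {B : ℝ → Ω → ℂ} {lam : ℝ} (hl : 0 < lam)
    (hD : ∀ s t : ℝ, 0 ≤ s → s < t → t ≤ 1 → ∀ E : Set ℂ, MeasurableSet E →
      P {ω | B t ω - B s ω ∈ E} ≤ ENNReal.ofReal (1 / (2 * Real.pi * (t - s))) * volume E)
    (hP : ∀ n m I j k : ℕ, n ≤ m → j + 2 * 4 ^ I ≤ k → k + 4 ^ I ≤ 4 ^ n →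
      P {ω | Near (B (tm n j) ω) (B (tm n k) ω) (1 / 2 ^ n) ∧
        ∀ a b : ℕ, a ≤ 4 ^ I * 4 ^ (m - n) → b ≤ 4 ^ I * 4 ^ (m - n) →
          ¬ Near (B (tm n j + tm m a) ω) (B (tm n k + tm m b) ω) (1 / 2 ^ m)} ≤
      ENNReal.ofReal (3 * lam ^ I / ((k : ℝ) - j)))
    {n I p q : ℕ} (m : ℕ) (hq : q < 4 ^ n) :
    P (Ev B n I m p q) ≤ ENNReal.ofReal (cc n I lam p q) := by
  unfold Ev cc
  split_ifs with h1 h2
  · rw [ENNReal.ofReal_one]
    exact prob_le_one
  · have hpq : p < q := by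
      have : 0 < 4 ^ I := by positivity
      generalize (4 ^ I : ℕ) = y at *
      omega
    have hpq' : (0 : ℝ) < (q : ℝ) - p := by
      rw [sub_pos]; exact_mod_cast hpq
    have h3 : {ω | Near (B (tm n p) ω) (B (tm n q) ω) (1 / 2 ^ n)} =
        {ω | B (tm n q) ω - B (tm n p) ω ∈ Sq (1 / 2 ^ n)} := by
      ext ω
      exact near_iff _ _ _
    have h4 : tm n q - tm n p = ((q : ℝ) - p) / 4 ^ n := by
      unfold tm; ring
    have h5 : tm n p < tm n q := by
      rw [← sub_pos, h4]; positivity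
    rw [h3]
    refine (hD _ _ (tm_nonneg _ _) h5 (tm_le_one hq.le) _ (Sq_meas _)).trans ?_
    rw [Sq_vol (by positivity), ← ENNReal.ofReal_mul (by rw [h4]; positivity)]
    refine ENNReal.ofReal_le_ofReal ?_
    rw [h4]
    have h6 : (2 * (1 / 2 ^ n) : ℝ) ^ 2 = 4 / 4 ^ n := by
      rw [mul_pow, one_div_pow, ← pow_mul, mul_comm n 2, pow_mul]
      norm_num
      ring
    rw [h6]
    have h7 : 1 / (2 * Real.pi * (((q : ℝ) - p) / 4 ^ n)) * (4 / 4 ^ n) =
        (2 / Real.pi) * (1 / ((q : ℝ) - p)) := by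
      have := Real.pi_pos
      field_simp
      norm_num
    rw [h7]
    have h8 : 2 / Real.pi ≤ 1 := by
      rw [div_le_one Real.pi_pos]; exact Real.two_le_pi
    have h9 : (0 : ℝ) ≤ 1 / ((q : ℝ) - p) := by positivity
    nlinarith
  · have h3 := hP n (n + m) I p q (by omega) (not_lt.1 h1) (not_lt.1 h2)
    rw [Nat.add_sub_cancel_left] at h3
    exact h3

/-- the majorant at level `m` -/
noncomputable def Vm (B : ℝ → Ω → ℂ) (n I m : ℕ) (ω : Ω) : ENNReal :=
  ∑ x ∈ Finset.range (4 ^ n) ×ˢ Finset.range (4 ^ n),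
    (Ev B n I m (min x.1 x.2) (max x.1 x.2)).indicator 1 ω

omit [MeasurableSpace Ω] in
lemma Vm_le {B : ℝ → Ω → ℂ} (hc : ∀ ω, Continuous fun t => B t ω) (n I : ℕ) (ω : Ω) :
    ∀ᶠ m : ℕ in atTop, (badN (fun t => B t ω) n I : ENNReal) ≤ Vm B n I m ω := by
  classical
  have h1 : ∀ x ∈ Finset.range (4 ^ n) ×ˢ Finset.range (4 ^ n), ∀ᶠ m : ℕ in atTop,
      (if Near (B (tm n x.1) ω) (B (tm n x.2) ω) (1 / 2 ^ n) ∧
        ¬ meet (fun t => B t ω) n I x.1 x.2 then (1 : ENNReal) else 0) ≤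
      (Ev B n I m (min x.1 x.2) (max x.1 x.2)).indicator 1 ω := by
    intro x hx
    by_cases h : Near (B (tm n x.1) ω) (B (tm n x.2) ω) (1 / 2 ^ n) ∧
        ¬ meet (fun t => B t ω) n I x.1 x.2
    · rw [if_pos h]
      have h2 : ∀ᶠ m : ℕ in atTop, ω ∈ Ev B n I m (min x.1 x.2) (max x.1 x.2) := by
        have h3 : Near (B (tm n (min x.1 x.2)) ω) (B (tm n (max x.1 x.2)) ω) (1 / 2 ^ n) ∧
            ¬ meet (fun t => B t ω) n I (min x.1 x.2) (max x.1 x.2) := by
          rcases le_total x.1 x.2 with h' | h'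
          · rw [min_eq_left h', max_eq_right h']; exact h
          · rw [min_eq_right h', max_eq_left h']
            exact ⟨Near.symm h.1, fun h4 => h.2 (meet_symm h4)⟩
        have hpq : min x.1 x.2 ≤ max x.1 x.2 := min_le_max
        generalize min x.1 x.2 = p at *
        generalize max x.1 x.2 = q at *
        unfold Ev
        split_ifs with h4 h5
        · exact Eventually.of_forall fun _ => mem_univ _
        · exact Eventually.of_forall fun _ => h3.1
        · have hq' : q + 4 ^ I ≤ 4 ^ n := not_lt.1 h5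
          have hp' : p + 4 ^ I ≤ 4 ^ n := by
            generalize (4 ^ n : ℕ) = x at *
            generalize (4 ^ I : ℕ) = y at *
            omega
          filter_upwards [far (hc ω) hp' hq' h3.2] with m hm
          exact ⟨h3.1, hm⟩
      filter_upwards [h2] with m hm
      rw [indicator_of_mem hm]
      exact le_rfl
    · rw [if_neg h]
      exact Eventually.of_forall fun _ => bot_le
  filter_upwards [(Filter.eventually_all_finset _).2 h1] with m hm
  unfold Vm badN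
  rw [Finset.card_filter]
  push_cast
  refine le_trans (le_of_eq ?_) (Finset.sum_le_sum hm)
  refine Finset.sum_congr rfl fun x _ => ?_
  congr

end BADM

open BADM in
theorem specBAD (hIND : SpecIND) (hDEN : SpecDEN) (hPAI : SpecPAI) : SpecBAD := by
  obtain ⟨lam, hl0, hl1, hP⟩ := hPAI
  refine ⟨12, lam, by norm_num, hl0, hl1, ?_⟩
  intro Ω _ P _ B hB n I hI
  have hmeas := (hIND Ω P B hB).1
  have hEm : ∀ m : ℕ, ∀ x ∈ Finset.range (4 ^ n) ×ˢ Finset.range (4 ^ n),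
      NullMeasurableSet (Ev B n I m (min x.1 x.2) (max x.1 x.2)) P := by
    intro m x hx
    rw [Finset.mem_product, Finset.mem_range, Finset.mem_range] at hx
    exact Ev_nullMeas hmeas m min_le_max (max_lt hx.1 hx.2)
  have hVm : ∀ m : ℕ, AEMeasurable (Vm B n I m) P := by
    intro m
    have : Vm B n I m = fun ω => ∑ x ∈ Finset.range (4 ^ n) ×ˢ Finset.range (4 ^ n),
      (Ev B n I m (min x.1 x.2) (max x.1 x.2)).indicator 1 ω := rfl
    rw [this]
    refine Finset.aemeasurable_fun_sum _ fun x hx => ?_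
    exact aemeasurable_one.indicator₀ (hEm m x hx)
  have hVi : ∀ m : ℕ, ∫⁻ ω, Vm B n I m ω ∂P ≤
      ENNReal.ofReal (12 * 4 ^ n * (4 ^ I + (n + 1) * lam ^ I)) := by
    intro m
    unfold Vm
    have hae : ∀ x ∈ Finset.range (4 ^ n) ×ˢ Finset.range (4 ^ n), AEMeasurable
        (fun ω => (Ev B n I m (min x.1 x.2) (max x.1 x.2)).indicator (1 : Ω → ENNReal) ω) P :=
      fun x hx => aemeasurable_one.indicator₀ (hEm m x hx)
    rw [lintegral_finsetSum' _ hae]
    refine le_trans (Finset.sum_le_sum fun x hx => (?_ : _ ≤ ENNReal.ofReal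
      (cc n I lam (min x.1 x.2) (max x.1 x.2)))) ?_
    · rw [lintegral_indicator_one₀ (hEm m x hx)]
      rw [Finset.mem_product, Finset.mem_range, Finset.mem_range] at hx
      exact Ev_prob hl0 (hDEN Ω P B hB) (fun n m I j k => hP Ω P B hB n m I j k) m
        (max_lt hx.1 hx.2)
    · rw [← ENNReal.ofReal_sum_of_nonneg fun x _ => cc_nonneg hl0.le min_le_max]
      exact ENNReal.ofReal_le_ofReal (sum_cc hl0.le hI)
  refine ⟨fun ω => liminf (fun m => Vm B n I m ω) atTop, ?_, ?_, ?_⟩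
  · exact aemeasurable_liminf hVm
  · refine (lintegral_liminf_le' hVm).trans ?_
    refine Filter.liminf_le_of_frequently_le' ?_
    exact Frequently.of_forall fun m => hVi m
  · intro ω
    exact le_liminf_of_le (by isBoundedDefault) (Vm_le hB.cont n I ω)

end Pool.Agent.Lib.MP_8b264c_pr.QV
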