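import Pool.Agent.Lib.MP_8b264c_pr.QV.Spec

/-!
# QV, module CEL: the number of cells and the area of the neighbourhood
-/

set_option autoImplicit false

open MeasureTheory Set ProbabilityTheory Filter Topology

namespace Pool.Agent.Lib.MP_8b264c_pr.QV

open Pool.Agent.BMR

namespace CELM

/-- the half open dyadic square -/
def sq (n : ℕ) (c : ℤ × ℤ) : Set (ℝ × ℝ) :=
  Ico ((c.1 : ℝ) / 2 ^ n) (((c.1 : ℝ) + 1) / 2 ^ n) ×ˢ
    Ico ((c.2 : ℝ) / 2 ^ n) (((c.2 : ℝ) + 1) / 2 ^ n)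

theorem mem_ico {n : ℕ} {c : ℤ} {x : ℝ} :
    x ∈ Ico ((c : ℝ) / 2 ^ n) (((c : ℝ) + 1) / 2 ^ n) ↔ ⌊2 ^ n * x⌋ = c := by
  rw [Int.floor_eq_iff, mem_Ico, div_le_iff₀ (by positivity), lt_div_iff₀ (by positivity),
    mul_comm x]

theorem vol_sq (n : ℕ) (c : ℤ × ℤ) : volume (sq n c) = ENNReal.ofReal (1 / 4 ^ n) := by
  unfold sq
  have h0 : (0 : ℝ) < 2 ^ n := by positivity
  have h4 : (4 : ℝ) ^ n = 2 ^ n * 2 ^ n := by
    rw [← mul_pow]
    norm_num
  have h1 : ∀ a : ℤ, ((a : ℝ) + 1) / 2 ^ n - (a : ℝ) / 2 ^ n = 1 / 2 ^ n := by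
    intro a
    field_simp
    ring
  rw [Measure.volume_eq_prod, Measure.prod_prod, Real.volume_Ico, Real.volume_Ico, h1, h1,
    ← ENNReal.ofReal_mul (by positivity), h4]
  congr 1
  field_simp

theorem close {n : ℕ} {c : ℤ} {x y : ℝ}
    (hx : x ∈ Ico ((c : ℝ) / 2 ^ n) (((c : ℝ) + 1) / 2 ^ n))
    (hy : y ∈ Ico ((c : ℝ) / 2 ^ n) (((c : ℝ) + 1) / 2 ^ n)) : |x - y| ≤ 1 / 2 ^ n := by
  obtain ⟨h1, h2⟩ := hx
  obtain ⟨h3, h4⟩ := hy
  rw [add_div] at h2 h4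
  rw [abs_le]
  constructor <;> linarith

end CELM

open CELM in
theorem specCEL : SpecCEL := by
  intro β n hβ
  have h4 : (0 : ℝ) < 4 ^ n := by positivity
  set F := (Finset.range (4 ^ n)).image (cell β n) with hF
  have hsub : (⋃ c ∈ F, sq n c) ⊆ nb (trace β) (1 / 2 ^ n) := by
    intro p hp
    simp only [mem_iUnion, exists_prop] at hp
    obtain ⟨c, hc, hp1, hp2⟩ := hp
    obtain ⟨j, hj, rfl⟩ := Finset.mem_image.1 hc
    refine ⟨β (tm n j), ⟨tm n j, ⟨?_, ?_⟩, rfl⟩, ?_, ?_⟩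
    · unfold tm
      positivity
    · unfold tm
      rw [div_le_one h4]
      have h5 : j < 4 ^ n := Finset.mem_range.1 hj
      exact_mod_cast h5.le
    · exact close (mem_ico.2 rfl) hp1
    · exact close (mem_ico.2 rfl) hp2
  have hdisj : (F : Set (ℤ × ℤ)).PairwiseDisjoint (sq n) := by
    intro c _ c' _ hne
    rw [Function.onFun, Set.disjoint_left]
    rintro p ⟨h1, h2⟩ ⟨h3, h5⟩
    exact hne (Prod.ext ((mem_ico.1 h1).symm.trans (mem_ico.1 h3))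
      ((mem_ico.1 h2).symm.trans (mem_ico.1 h5)))
  have hvol : volume (⋃ c ∈ F, sq n c) = ENNReal.ofReal ((F.card : ℝ) * (1 / 4 ^ n)) := by
    rw [measure_biUnion_finset hdisj fun c _ => measurableSet_Ico.prod measurableSet_Ico,
      Finset.sum_congr rfl fun c _ => vol_sq n c, Finset.sum_const, nsmul_eq_mul,
      ENNReal.ofReal_mul (Nat.cast_nonneg _), ENNReal.ofReal_natCast]
  have hK : IsCompact (trace β) := isCompact_Icc.image hβ
  have hle : (F.card : ℝ) * (1 / 4 ^ n) ≤ nuK β n := by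
    have h1 := measure_mono (μ := volume) hsub
    rw [hvol] at h1
    exact (ENNReal.ofReal_le_iff_le_toReal (vol_nb_ne_top hK _)).1 h1
  have h5 : (cellN β n : ℝ) = 4 ^ n * ((F.card : ℝ) * (1 / 4 ^ n)) := by
    unfold cellN
    rw [← hF, mul_one_div, mul_comm, div_mul_cancel₀ _ h4.ne']
  rw [h5]
  exact mul_le_mul_of_nonneg_left hle h4.le

end Pool.Agent.Lib.MP_8b264c_pr.QV
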