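import Pool.Agent.Lib.MP_8b264c_pr.QV.Spec

/-!
# CRI: null slices imply holomorphic
-/

set_option autoImplicit false

open MeasureTheory Set Filter Topology Complex

namespace Pool.Agent.Lib.MP_8b264c_pr.QV

open Pool.Agent.BMR

/-- CRI -/
theorem specCRI : SpecCRI := by
  intro K f hKc hK hnull0 r1 i1 r2 i2
  refine differentiable_of_bd f.continuous fun x y s t hs ht => ?_
  have hf := f.continuous
  have hcc : Continuous cc := by unfold cc; fun_prop
  -- null sets
  have hnull : (volume.prod volume) (cc ⁻¹' K) = 0 := by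
    rw [← Measure.volume_eq_prod]
    exact hnull0
  have hmeas : MeasurableSet (cc ⁻¹' K) := (hKc.preimage hcc).measurableSet
  have n1 : ∀ᵐ a : ℝ, volume (Prod.mk a ⁻¹' (cc ⁻¹' K)) = 0 :=
    (Measure.measure_prod_null hmeas).mp hnull
  have n2 : ∀ᵐ u : ℝ, volume ((fun a : ℝ => (a, u)) ⁻¹' (cc ⁻¹' K)) = 0 := by
    have h1 : (volume.prod volume) (Prod.swap ⁻¹' (cc ⁻¹' K) : Set (ℝ × ℝ)) = 0 := by
      rw [Measure.measurePreserving_swap.measure_preimage hmeas.nullMeasurableSet]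
      exact hnull
    exact (Measure.measure_prod_null (hmeas.preimage measurable_swap)).mp h1
  -- integrability
  set G : ℝ × ℝ → ℂ := fun p => Df (⇑f) K (cc p) with hG
  have hint : Integrable G ((volume.restrict (Icc x (x + s))).prod
      (volume.restrict (Icc y (y + t)))) := by
    rw [Measure.prod_restrict, ← Measure.volume_eq_prod]
    exact integrableOn_Df_rect f hKc hK x (x + s) y (y + t)
  have g1 := hint.prod_right_ae
  have g2 := hint.prod_left_ae
  have hder : ∀ z, z ∉ K → HasDerivAt (⇑f) (Df (⇑f) K z) z := fun z hz => by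
    rw [Df_of_notMem hz]
    exact (hK.differentiableAt (hKc.isOpen_compl.mem_nhds hz)).hasDerivAt
  -- horizontal lines
  have H : ∀ᵐ u ∂(volume.restrict (Icc y (y + t))), ∫ a in Icc x (x + s), G (a, u) =
      f (((x + s : ℝ) : ℂ) + (u : ℂ) * I) - f ((x : ℂ) + (u : ℂ) * I) := by
    filter_upwards [g2, ae_restrict_of_ae n2, ae_restrict_of_ae r1, ae_restrict_of_ae i1,
      ae_restrict_mem measurableSet_Icc] with u hu1 hu2 hu3 hu4 hu5
    have hcl : IsClosed {a : ℝ | (a : ℂ) + (u : ℂ) * I ∈ K} :=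
      hKc.preimage (by fun_prop : Continuous fun a : ℝ => (a : ℂ) + (u : ℂ) * I)
    have hu3' : volume ((fun a : ℝ => (f ((a : ℂ) + (u : ℂ) * I)).re) ''
        ({a : ℝ | (a : ℂ) + (u : ℂ) * I ∈ K} ∩ Icc x (x + s))) = 0 := by
      refine measure_mono_null ?_ hu3
      rintro _ ⟨a, ⟨h1, h2⟩, rfl⟩
      exact ⟨(a : ℂ) + (u : ℂ) * I, ⟨h1, by simp⟩, rfl⟩
    have hu4' : volume ((fun a : ℝ => (f ((a : ℂ) + (u : ℂ) * I)).im) ''
        ({a : ℝ | (a : ℂ) + (u : ℂ) * I ∈ K} ∩ Icc x (x + s))) = 0 := by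
      refine measure_mono_null ?_ hu4
      rintro _ ⟨a, ⟨h1, h2⟩, rfl⟩
      exact ⟨(a : ℂ) + (u : ℂ) * I, ⟨h1, by simp⟩, rfl⟩
    have h1 := line_ftc_complex (fun a : ℝ => f ((a : ℂ) + (u : ℂ) * I)) (fun a => G (a, u))
      (by fun_prop) {a : ℝ | (a : ℂ) + (u : ℂ) * I ∈ K} hcl x (x + s) (by linarith)
      (measure_mono_null inter_subset_left hu2) ?_ hu1 hu3' hu4'
    · rw [intervalIntegral.integral_of_le (by linarith), ← integral_Icc_eq_integral_Ioc] at h1
      exact h1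
    · intro a ha
      exact ((hder _ ha).comp_add_const (a : ℂ) ((u : ℂ) * I)).comp_ofReal
  -- vertical lines
  have V : ∀ᵐ a ∂(volume.restrict (Icc x (x + s))), ∫ b in Icc y (y + t), G (a, b) * I =
      f ((a : ℂ) + ((y + t : ℝ) : ℂ) * I) - f ((a : ℂ) + (y : ℂ) * I) := by
    filter_upwards [g1, ae_restrict_of_ae n1, ae_restrict_of_ae r2, ae_restrict_of_ae i2,
      ae_restrict_mem measurableSet_Icc] with u hu1 hu2 hu3 hu4 hu5
    have hcl : IsClosed {b : ℝ | (u : ℂ) + (b : ℂ) * I ∈ K} :=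
      hKc.preimage (by fun_prop : Continuous fun b : ℝ => (u : ℂ) + (b : ℂ) * I)
    have hu3' : volume ((fun b : ℝ => (f ((u : ℂ) + (b : ℂ) * I)).re) ''
        ({b : ℝ | (u : ℂ) + (b : ℂ) * I ∈ K} ∩ Icc y (y + t))) = 0 := by
      refine measure_mono_null ?_ hu3
      rintro _ ⟨a, ⟨h1, h2⟩, rfl⟩
      exact ⟨(u : ℂ) + (a : ℂ) * I, ⟨h1, by simp⟩, rfl⟩
    have hu4' : volume ((fun b : ℝ => (f ((u : ℂ) + (b : ℂ) * I)).im) ''
        ({b : ℝ | (u : ℂ) + (b : ℂ) * I ∈ K} ∩ Icc y (y + t))) = 0 := by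
      refine measure_mono_null ?_ hu4
      rintro _ ⟨a, ⟨h1, h2⟩, rfl⟩
      exact ⟨(u : ℂ) + (a : ℂ) * I, ⟨h1, by simp⟩, rfl⟩
    have h1 := line_ftc_complex (fun b : ℝ => f ((u : ℂ) + (b : ℂ) * I)) (fun b => G (u, b) * I)
      (by fun_prop) {b : ℝ | (u : ℂ) + (b : ℂ) * I ∈ K} hcl y (y + t) (by linarith)
      (measure_mono_null inter_subset_left hu2) ?_ (hu1.mul_const I) hu3' hu4'
    · rw [intervalIntegral.integral_of_le (by linarith), ← integral_Icc_eq_integral_Ioc] at h1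
      exact h1
    · intro b hb
      have h2 : HasDerivAt (fun w : ℂ => (u : ℂ) + w * I) I (b : ℂ) := by
        simpa using ((hasDerivAt_id (b : ℂ)).mul_const I).const_add (u : ℂ)
      exact (HasDerivAt.comp (b : ℂ) (hder _ hb) h2).comp_ofReal
  -- conclusion
  have sw := integral_integral_swap (f := fun a b => G (a, b)) hint
  have e1 : ∫ a in Icc x (x + s), (f ((a : ℂ) + ((y + t : ℝ) : ℂ) * I) -
      f ((a : ℂ) + (y : ℂ) * I)) = (∫ a in Icc x (x + s), ∫ b in Icc y (y + t), G (a, b)) * I := by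
    rw [← integral_mul_const]
    refine integral_congr_ae ?_
    filter_upwards [V] with a ha
    rw [← ha, integral_mul_const]
  have e2 : ∫ u in Icc y (y + t), (f (((x + s : ℝ) : ℂ) + (u : ℂ) * I) -
      f ((x : ℂ) + (u : ℂ) * I)) = ∫ u in Icc y (y + t), ∫ a in Icc x (x + s), G (a, u) := by
    refine integral_congr_ae ?_
    filter_upwards [H] with a ha
    exact ha.symm
  have e : bd (⇑f) x y s t =
      -(∫ a in x..(x + s), (f ((a : ℂ) + ((y + t : ℝ) : ℂ) * I) - f ((a : ℂ) + (y : ℂ) * I))) +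
      I * (∫ u in y..(y + t), (f (((x + s : ℝ) : ℂ) + (u : ℂ) * I) -
        f ((x : ℂ) + (u : ℂ) * I))) := by
    rw [intervalIntegral.integral_sub (ii_h hf (y + t) _ _) (ii_h hf y _ _),
      intervalIntegral.integral_sub (ii_v hf (x + s) _ _) (ii_v hf x _ _)]
    unfold bd
    ring
  rw [e, intervalIntegral.integral_of_le (by linarith), intervalIntegral.integral_of_le
    (by linarith), ← integral_Icc_eq_integral_Ioc, ← integral_Icc_eq_integral_Ioc, e1, e2]
  have sw' : ∫ a in Icc x (x + s), ∫ b in Icc y (y + t), G (a, b) =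
      ∫ u in Icc y (y + t), ∫ a in Icc x (x + s), G (a, u) := sw
  rw [sw']
  ring

end Pool.Agent.Lib.MP_8b264c_pr.QV
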