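import Pool.Agent.Lib.MP_8b264c_pr.QV.Spec

set_option autoImplicit false

open MeasureTheory Set ProbabilityTheory Filter Topology

namespace Pool.Agent.Lib.MP_8b264c_pr.QV

open Pool.Agent.BMR

namespace DECM

lemma tm_pos (m : ℕ) {A : ℕ} (hA : 1 ≤ A) : 0 < tm m A := by
  unfold tm
  have : (0 : ℝ) < A := by exact_mod_cast hA
  positivity

lemma tm_nonneg (m A : ℕ) : 0 ≤ tm m A := by
  unfold tm
  positivity

lemma tm_mono (m : ℕ) {a b : ℕ} (h : a ≤ b) : tm m a ≤ tm m b := by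
  unfold tm
  have : (a : ℝ) ≤ b := by exact_mod_cast h
  gcongr

lemma tm_add (m a b : ℕ) : tm m (a + b) = tm m a + tm m b := by
  unfold tm
  push_cast
  ring

lemma tm_four (m A : ℕ) : tm m (4 * A) = 4 * tm m A := by
  unfold tm
  push_cast
  ring

lemma tm_three (m A : ℕ) : tm m (3 * A) = 3 * tm m A := by
  unfold tm
  push_cast
  ring

lemma tm_two (m A : ℕ) : tm m (2 * A) = 2 * tm m A := by
  unfold tm
  push_cast
  ring

lemma sq_le (d a b : ℂ) : ‖d + a - b‖ₑ ^ 2 ≤ 2 * ‖d‖ₑ ^ 2 + 4 * ‖a‖ₑ ^ 2 + 4 * ‖b‖ₑ ^ 2 := by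
  have h1 : ‖d + a - b‖ ^ 2 ≤ 2 * ‖d‖ ^ 2 + 4 * ‖a‖ ^ 2 + 4 * ‖b‖ ^ 2 := by
    have h2 : ‖d + a - b‖ ≤ ‖d‖ + ‖a‖ + ‖b‖ :=
      (norm_sub_le _ _).trans (by linarith [norm_add_le d a])
    have h3 := norm_nonneg (d + a - b)
    have h4 : ‖d + a - b‖ ^ 2 ≤ (‖d‖ + ‖a‖ + ‖b‖) ^ 2 := by gcongr
    nlinarith [sq_nonneg (‖d‖ - (‖a‖ + ‖b‖)), sq_nonneg (‖a‖ - ‖b‖)]
  simp only [← ofReal_norm]
  have e : ∀ x : ℂ, ENNReal.ofReal ‖x‖ ^ 2 = ENNReal.ofReal (‖x‖ ^ 2) := fun x =>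
    (ENNReal.ofReal_pow (norm_nonneg x) 2).symm
  rw [e, e, e, e]
  have e2 : (2 : ENNReal) = ENNReal.ofReal 2 := by norm_num
  have e4 : (4 : ENNReal) = ENNReal.ofReal 4 := by norm_num
  rw [e2, e4, ← ENNReal.ofReal_mul (by norm_num), ← ENNReal.ofReal_mul (by norm_num),
    ← ENNReal.ofReal_mul (by norm_num), ← ENNReal.ofReal_add (by positivity) (by positivity),
    ← ENNReal.ofReal_add (by positivity) (by positivity)]
  exact ENNReal.ofReal_le_ofReal h1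

lemma measurableSet_near {E : Type*} [MeasurableSpace E] {f g : E → ℂ} (hf : Measurable f)
    (hg : Measurable g) (r : ℝ) : MeasurableSet {x | Near (f x) (g x) r} := by
  have h1 : Measurable fun x => |(f x).re - (g x).re| := by fun_prop
  have h2 : Measurable fun x => |(f x).im - (g x).im| := by fun_prop
  exact (h1 measurableSet_Iic).inter (h2 measurableSet_Iic)

lemma near_add (a b c : ℂ) (r : ℝ) : Near (c + a) (c + b) r ↔ Near a b r := by
  unfold Near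
  simp only [Complex.add_re, Complex.add_im, add_sub_add_left_eq_sub]

section Walk

variable {Ω : Type} [MeasurableSpace Ω] {P : Measure Ω} [IsProbabilityMeasure P]
  {B : ℝ → Ω → ℂ}

/-- The event that there is no hit up to `A`. -/
def NI (B : ℝ → Ω → ℂ) (m : ℕ) (s₁ s₂ : ℝ) (u : ℂ) (A : ℕ) : Set Ω :=
  {ω | ∀ a b : ℕ, a ≤ A → b ≤ A → ω ∉ hit B m s₁ s₂ u a b}

/-- The event that there is no hit in the block. -/
def NJ (B : ℝ → Ω → ℂ) (m : ℕ) (s₁ s₂ : ℝ) (d : ℂ) (A : ℕ) : Set Ω :=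
  {ω | ∀ a b : ℕ, A ≤ a → a < 2 * A → A ≤ b → b < 2 * A → ω ∉ hit B m s₁ s₂ d a b}

/-- The difference. -/
noncomputable def DD (B : ℝ → Ω → ℂ) (m : ℕ) (s₁ s₂ : ℝ) (u : ℂ) (A : ℕ) (ω : Ω) : ℂ :=
  u + (B (s₁ + tm m A) ω - B s₁ ω) - (B (s₂ + tm m A) ω - B s₂ ω)

/-- The functional. -/
noncomputable def Phi (P : Measure Ω) (B : ℝ → Ω → ℂ) (m : ℕ) (s₁ s₂ : ℝ) (u : ℂ) (α : ℝ)
    (A : ℕ) : ENNReal :=
  ∫⁻ ω, (NI B m s₁ s₂ u A).indicator
    (fun ω => 1 + ENNReal.ofReal (α / tm m A) * ‖DD B m s₁ s₂ u A ω‖ₑ ^ 2) ω ∂P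

lemma second (hMOM : SpecMOM) (hB : IsPBM P B) (hmeas : ∀ t ∈ Icc (0 : ℝ) 1, AEMeasurable (B t) P)
    (d : ℂ) {s₁ s₂ T : ℝ} (h1 : 0 ≤ s₁) (h2 : 0 ≤ s₂) (hT : 0 ≤ T) (h3 : s₁ + T ≤ 1)
    (h4 : s₂ + T ≤ 1) :
    ∫⁻ ω, ‖d + (B (s₁ + T) ω - B s₁ ω) - (B (s₂ + T) ω - B s₂ ω)‖ₑ ^ 2 ∂P ≤
      ENNReal.ofReal (2 * ‖d‖ ^ 2 + 16 * T) := by
  have hM := (hMOM Ω P B hB).2
  have a1 : s₁ ∈ Icc (0 : ℝ) 1 := ⟨h1, by linarith⟩
  have a2 : s₂ ∈ Icc (0 : ℝ) 1 := ⟨h2, by linarith⟩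
  have a3 : s₁ + T ∈ Icc (0 : ℝ) 1 := ⟨by linarith, h3⟩
  have a4 : s₂ + T ∈ Icc (0 : ℝ) 1 := ⟨by linarith, h4⟩
  have m1 : AEMeasurable (fun ω => 4 * ‖B (s₁ + T) ω - B s₁ ω‖ₑ ^ 2) P := by
    have := (hmeas _ a3).sub (hmeas _ a1)
    exact (this.enorm.pow_const 2).const_mul 4
  have e2 : (2 : ENNReal) = ENNReal.ofReal 2 := by norm_num
  have e4 : (4 : ENNReal) = ENNReal.ofReal 4 := by norm_num
  calc ∫⁻ ω, ‖d + (B (s₁ + T) ω - B s₁ ω) - (B (s₂ + T) ω - B s₂ ω)‖ₑ ^ 2 ∂P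
      ≤ ∫⁻ ω, (2 * ‖d‖ₑ ^ 2 + 4 * ‖B (s₁ + T) ω - B s₁ ω‖ₑ ^ 2 +
          4 * ‖B (s₂ + T) ω - B s₂ ω‖ₑ ^ 2) ∂P := lintegral_mono fun ω => sq_le _ _ _
    _ = 2 * ‖d‖ₑ ^ 2 + 4 * ∫⁻ ω, ‖B (s₁ + T) ω - B s₁ ω‖ₑ ^ 2 ∂P +
          4 * ∫⁻ ω, ‖B (s₂ + T) ω - B s₂ ω‖ₑ ^ 2 ∂P := by
        have m2 : AEMeasurable (fun ω => ‖B (s₁ + T) ω - B s₁ ω‖ₑ ^ 2) P :=
          ((hmeas _ a3).sub (hmeas _ a1)).enorm.pow_const 2
        have m3 : AEMeasurable (fun ω => ‖B (s₂ + T) ω - B s₂ ω‖ₑ ^ 2) P :=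
          ((hmeas _ a4).sub (hmeas _ a2)).enorm.pow_const 2
        have m4 : AEMeasurable (fun ω => 2 * ‖d‖ₑ ^ 2 + 4 * ‖B (s₁ + T) ω - B s₁ ω‖ₑ ^ 2) P :=
          aemeasurable_const.add m1
        rw [lintegral_add_left' m4, lintegral_add_left' aemeasurable_const,
          lintegral_const_mul'' _ m2, lintegral_const_mul'' _ m3, lintegral_const, measure_univ,
          mul_one]
    _ ≤ ENNReal.ofReal (2 * ‖d‖ ^ 2) + ENNReal.ofReal (8 * T) + ENNReal.ofReal (8 * T) := by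
        have b1 := hM s₁ a1 (s₁ + T) a3
        have b2 := hM s₂ a2 (s₂ + T) a4
        rw [show |s₁ + T - s₁| = T by rw [add_sub_cancel_left, abs_of_nonneg hT]] at b1
        rw [show |s₂ + T - s₂| = T by rw [add_sub_cancel_left, abs_of_nonneg hT]] at b2
        have c1 : 4 * ∫⁻ ω, ‖B (s₁ + T) ω - B s₁ ω‖ₑ ^ 2 ∂P ≤ ENNReal.ofReal (8 * T) := by
          refine (mul_le_mul' le_rfl b1).trans (le_of_eq ?_)
          rw [e4, ← ENNReal.ofReal_mul (by norm_num)]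
          congr 1
          ring
        have c2 : 4 * ∫⁻ ω, ‖B (s₂ + T) ω - B s₂ ω‖ₑ ^ 2 ∂P ≤ ENNReal.ofReal (8 * T) := by
          refine (mul_le_mul' le_rfl b2).trans (le_of_eq ?_)
          rw [e4, ← ENNReal.ofReal_mul (by norm_num)]
          congr 1
          ring
        refine add_le_add (add_le_add (le_of_eq ?_) c1) c2
        rw [← ofReal_norm, ← ENNReal.ofReal_pow (norm_nonneg _), e2,
          ← ENNReal.ofReal_mul (by norm_num)]
    _ = ENNReal.ofReal (2 * ‖d‖ ^ 2 + 16 * T) := by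
        rw [← ENNReal.ofReal_add (by positivity) (by positivity),
          ← ENNReal.ofReal_add (by positivity) (by positivity)]
        congr 1
        ring

/-- The one step bound. -/
lemma onestep (hIND : SpecIND) (hMOM : SpecMOM) {δ : ℝ} (hδ0 : 0 < δ) (hδ1 : δ ≤ 1)
    (hTWO : ∀ (m A : ℕ) (s₁ s₂ : ℝ) (d : ℂ), 1 ≤ A → 0 ≤ s₁ →
      s₁ + tm m (2 * A) ≤ s₂ → s₂ + tm m (2 * A) ≤ 1 → |d.re| ≤ 10 * Real.sqrt (tm m A) →
      |d.im| ≤ 10 * Real.sqrt (tm m A) →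
      ENNReal.ofReal δ ≤ P {ω | ∃ a b : ℕ, A ≤ a ∧ a < 2 * A ∧ A ≤ b ∧ b < 2 * A ∧
        ω ∈ hit B m s₁ s₂ d a b})
    (hB : IsPBM P B) {m A : ℕ} (hA : 1 ≤ A) {s₁ s₂ : ℝ} (h1 : 0 ≤ s₁)
    (h2 : s₁ + tm m (3 * A) ≤ s₂) (h3 : s₂ + tm m (3 * A) ≤ 1) (d : ℂ) :
    ∫⁻ ω, (NJ B m s₁ s₂ d A).indicator (fun ω => 1 + ENNReal.ofReal (δ / 124 / tm m (4 * A)) *
      ‖DD B m s₁ s₂ d (3 * A) ω‖ₑ ^ 2) ω ∂P ≤
      ENNReal.ofReal (1 - δ / 10) * (1 + ENNReal.ofReal (δ / 124 / tm m A) * ‖d‖ₑ ^ 2) := by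
  have hT := tm_pos m hA
  set T := tm m A with hTdef
  have hmeas := (hIND Ω P B hB).1
  have h33 : tm m (3 * A) = 3 * T := tm_three m A
  have h44 : tm m (4 * A) = 4 * T := tm_four m A
  have h22 : tm m (2 * A) = 2 * T := tm_two m A
  -- measurability of `NJ`
  have hnm : ∀ a b : ℕ, a < 2 * A → b < 2 * A → NullMeasurableSet (hit B m s₁ s₂ d a b) P := by
    intro a b ha hb
    have i1 : s₁ + tm m a ∈ Icc (0 : ℝ) 1 := by
      have : tm m a ≤ tm m (3 * A) := tm_mono m (by omega)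
      have := tm_nonneg m a
      have := tm_nonneg m (3 * A)
      constructor <;> linarith
    have i2 : s₂ + tm m b ∈ Icc (0 : ℝ) 1 := by
      have : tm m b ≤ tm m (3 * A) := tm_mono m (by omega)
      have := tm_nonneg m b
      have := tm_nonneg m (3 * A)
      constructor <;> linarith
    have i3 : s₁ ∈ Icc (0 : ℝ) 1 := by
      have := tm_nonneg m (3 * A)
      constructor <;> linarith
    have i4 : s₂ ∈ Icc (0 : ℝ) 1 := by
      have := tm_nonneg m (3 * A)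
      constructor <;> linarith
    have hm : AEMeasurable (fun ω => (d + (B (s₁ + tm m a) ω - B s₁ ω),
        B (s₂ + tm m b) ω - B s₂ ω)) P :=
      (((hmeas _ i1).sub (hmeas _ i3)).const_add d).prodMk ((hmeas _ i2).sub (hmeas _ i4))
    exact hm.nullMeasurableSet_preimage
      (measurableSet_near (f := Prod.fst) (g := Prod.snd) measurable_fst measurable_snd (1 / 2 ^ m))
  have hNJ : NullMeasurableSet {ω | ∃ a b : ℕ, A ≤ a ∧ a < 2 * A ∧ A ≤ b ∧ b < 2 * A ∧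
      ω ∈ hit B m s₁ s₂ d a b} P := by
    have e : {ω | ∃ a b : ℕ, A ≤ a ∧ a < 2 * A ∧ A ≤ b ∧ b < 2 * A ∧ ω ∈ hit B m s₁ s₂ d a b} =
        ⋃ a : ℕ, ⋃ b : ℕ, ⋃ (_ : A ≤ a ∧ a < 2 * A ∧ A ≤ b ∧ b < 2 * A), hit B m s₁ s₂ d a b := by
      ext ω
      simp only [Set.mem_ofPred_eq, mem_iUnion, exists_prop]
      constructor
      · rintro ⟨a, b, c1, c2, c3, c4, c5⟩
        exact ⟨a, b, ⟨c1, c2, c3, c4⟩, c5⟩
      · rintro ⟨a, b, ⟨c1, c2, c3, c4⟩, c5⟩
        exact ⟨a, b, c1, c2, c3, c4, c5⟩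
    rw [e]
    exact NullMeasurableSet.iUnion fun a => NullMeasurableSet.iUnion fun b =>
      NullMeasurableSet.iUnion fun h => hnm a b h.2.1 h.2.2.2
  have hcompl : NJ B m s₁ s₂ d A = {ω | ∃ a b : ℕ, A ≤ a ∧ a < 2 * A ∧ A ≤ b ∧ b < 2 * A ∧
      ω ∈ hit B m s₁ s₂ d a b}ᶜ := by
    ext ω
    simp only [NJ, Set.mem_ofPred_eq, mem_compl_iff, not_exists, not_and]
  have hNJ' : NullMeasurableSet (NJ B m s₁ s₂ d A) P := by
    rw [hcompl]
    exact hNJ.compl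
  -- the second moment
  have hsec := second hMOM hB hmeas d (s₁ := s₁) (s₂ := s₂) (T := 3 * T) h1
    (by linarith) (by positivity) (by linarith) (by linarith)
  have hLHS : ∫⁻ ω, (NJ B m s₁ s₂ d A).indicator
      (fun ω => 1 + ENNReal.ofReal (δ / 124 / tm m (4 * A)) *
      ‖DD B m s₁ s₂ d (3 * A) ω‖ₑ ^ 2) ω ∂P ≤ P (NJ B m s₁ s₂ d A) +
        ENNReal.ofReal (δ / 124 * (‖d‖ ^ 2 / T / 2 + 12)) := by
    calc ∫⁻ ω, (NJ B m s₁ s₂ d A).indicator (fun ω => 1 +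
          ENNReal.ofReal (δ / 124 / tm m (4 * A)) * ‖DD B m s₁ s₂ d (3 * A) ω‖ₑ ^ 2) ω ∂P
        ≤ ∫⁻ ω, ((NJ B m s₁ s₂ d A).indicator (fun _ => (1 : ENNReal)) ω +
          ENNReal.ofReal (δ / 124 / tm m (4 * A)) * ‖DD B m s₁ s₂ d (3 * A) ω‖ₑ ^ 2) ∂P := by
          refine lintegral_mono fun ω => ?_
          by_cases hω : ω ∈ NJ B m s₁ s₂ d A
          · simp only [indicator_of_mem hω]
            exact le_rfl
          · simp only [indicator_of_notMem hω]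
            exact bot_le
      _ = P (NJ B m s₁ s₂ d A) + ∫⁻ ω, ENNReal.ofReal (δ / 124 / tm m (4 * A)) *
          ‖DD B m s₁ s₂ d (3 * A) ω‖ₑ ^ 2 ∂P := by
          rw [lintegral_add_left' (aemeasurable_const.indicator₀ hNJ'),
            lintegral_indicator_const₀ hNJ', one_mul]
      _ ≤ P (NJ B m s₁ s₂ d A) + ENNReal.ofReal (δ / 124 / tm m (4 * A)) *
          ENNReal.ofReal (2 * ‖d‖ ^ 2 + 16 * (3 * T)) := by
          refine add_le_add le_rfl ?_
          rw [lintegral_const_mul' _ _ ENNReal.ofReal_ne_top]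
          refine mul_le_mul' le_rfl (le_trans (le_of_eq ?_) hsec)
          unfold DD
          rw [h33]
      _ = P (NJ B m s₁ s₂ d A) + ENNReal.ofReal (δ / 124 * (‖d‖ ^ 2 / T / 2 + 12)) := by
          congr 1
          rw [← ENNReal.ofReal_mul (by rw [h44]; positivity), h44]
          congr 1
          field_simp
          ring
  refine hLHS.trans ?_
  have hRHS : ENNReal.ofReal (1 - δ / 10) * (1 + ENNReal.ofReal (δ / 124 / T) * ‖d‖ₑ ^ 2) =
      ENNReal.ofReal ((1 - δ / 10) * (1 + δ / 124 * (‖d‖ ^ 2 / T))) := by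
    rw [← ofReal_norm, ← ENNReal.ofReal_pow (norm_nonneg _),
      ← ENNReal.ofReal_mul (by positivity), ← ENNReal.ofReal_one,
      ← ENNReal.ofReal_add (by norm_num) (by positivity), ← ENNReal.ofReal_mul (by linarith)]
    congr 2
    field_simp
  rw [hRHS]
  set x := ‖d‖ ^ 2 / T with hx
  have hx0 : 0 ≤ x := by positivity
  have hαx : 0 ≤ δ * x := by positivity
  by_cases hcase : x ≤ 100
  · -- the two pieces meet with probability at least `δ`
    have hd : ‖d‖ ≤ 10 * Real.sqrt T := by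
      have h5 : ‖d‖ ^ 2 ≤ 100 * T := by
        rw [hx, div_le_iff₀ hT] at hcase
        exact hcase
      have h6 : (10 * Real.sqrt T) ^ 2 = 100 * T := by
        rw [mul_pow, Real.sq_sqrt hT.le]
        norm_num
      rw [← h6] at h5
      exact (pow_le_pow_iff_left₀ (norm_nonneg _) (by positivity) (by norm_num)).mp h5
    have hP := hTWO m A s₁ s₂ d hA h1 (by linarith) (by linarith)
      ((Complex.abs_re_le_norm d).trans hd) ((Complex.abs_im_le_norm d).trans hd)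
    have hP2 : P (NJ B m s₁ s₂ d A) ≤ ENNReal.ofReal (1 - δ) := by
      rw [hcompl, prob_compl_eq_one_sub₀ hNJ]
      refine (tsub_le_tsub_left hP 1).trans (le_of_eq ?_)
      rw [ENNReal.ofReal_sub _ hδ0.le, ENNReal.ofReal_one]
    refine (add_le_add hP2 le_rfl).trans ?_
    rw [← ENNReal.ofReal_add (by linarith) (by positivity)]
    refine ENNReal.ofReal_le_ofReal ?_
    nlinarith
  · rw [not_le] at hcase
    refine (add_le_add prob_le_one le_rfl).trans ?_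
    rw [← ENNReal.ofReal_one, ← ENNReal.ofReal_add (by norm_num) (by positivity)]
    refine ENNReal.ofReal_le_ofReal ?_
    have h7 : 0 ≤ δ * (x - 100) := by
      have : 0 ≤ x - 100 := by linarith
      positivity
    have h8 : δ * (δ * x) ≤ 1 * (δ * x) := mul_le_mul_of_nonneg_right hδ1 hαx
    nlinarith

/-- The left end points of the past / future family. -/
noncomputable def lo (s₁ s₂ : ℝ) (m A : ℕ) (p : Bool × ℕ) : ℝ :=
  if p.1 then s₁ + tm m A else s₂ + tm m A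

/-- The right end points of the future family. -/
noncomputable def hi (s₁ s₂ : ℝ) (m A : ℕ) (p : Bool × ℕ) : ℝ :=
  if p.1 then s₁ + tm m (A + min p.2 (3 * A)) else s₂ + tm m (A + min p.2 (3 * A))

/-- The left end points of the past family. -/
noncomputable def lo0 (s₁ s₂ : ℝ) (p : Bool × ℕ) : ℝ := if p.1 then s₁ else s₂

/-- The right end points of the past family. -/
noncomputable def hi0 (s₁ s₂ : ℝ) (m A : ℕ) (p : Bool × ℕ) : ℝ :=
  if p.1 then s₁ + tm m (min p.2 A) else s₂ + tm m (min p.2 A)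

/-- The past. -/
noncomputable def XX (B : ℝ → Ω → ℂ) (m : ℕ) (s₁ s₂ : ℝ) (A : ℕ) (ω : Ω) (p : Bool × ℕ) : ℂ :=
  B (hi0 s₁ s₂ m A p) ω - B (lo0 s₁ s₂ p) ω

/-- The future. -/
noncomputable def YY (B : ℝ → Ω → ℂ) (m : ℕ) (s₁ s₂ : ℝ) (A : ℕ) (ω : Ω) (p : Bool × ℕ) : ℂ :=
  B (hi s₁ s₂ m A p) ω - B (lo s₁ s₂ m A p) ω

/-- The past event. -/
def SS (m : ℕ) (u : ℂ) (A : ℕ) : Set (Bool × ℕ → ℂ) :=
  {x | ∀ a b : ℕ, a ≤ A → b ≤ A → ¬ Near (u + x (true, a)) (x (false, b)) (1 / 2 ^ m)}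

/-- The future event. -/
def TT (m : ℕ) (A : ℕ) : Set (ℂ × (Bool × ℕ → ℂ)) :=
  {p | ∀ a b : ℕ, A ≤ a → a < 2 * A → A ≤ b → b < 2 * A →
    ¬ Near (p.1 + p.2 (true, a)) (p.2 (false, b)) (1 / 2 ^ m)}

/-- The difference as a function of the past. -/
def dx (u : ℂ) (A : ℕ) (x : Bool × ℕ → ℂ) : ℂ := u + x (true, A) - x (false, A)

/-- The functional of the future. -/
noncomputable def gg (c : ENNReal) (m A : ℕ) (p : ℂ × (Bool × ℕ → ℂ)) : ENNReal :=
  (TT m A).indicator (fun p => 1 + c * ‖p.1 + p.2 (true, 3 * A) - p.2 (false, 3 * A)‖ₑ ^ 2) p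

lemma meas_coord (p : Bool × ℕ) : Measurable (fun x : Bool × ℕ → ℂ => x p) :=
  measurable_pi_apply p

lemma meas_coord2 (p : Bool × ℕ) : Measurable (fun x : ℂ × (Bool × ℕ → ℂ) => x.2 p) :=
  (meas_coord p).comp measurable_snd

lemma measurableSet_SS (m : ℕ) (u : ℂ) (A : ℕ) : MeasurableSet (SS m u A) := by
  have e : SS m u A = ⋂ a : ℕ, ⋂ b : ℕ, ⋂ (_ : a ≤ A), ⋂ (_ : b ≤ A),
      {x : Bool × ℕ → ℂ | Near (u + x (true, a)) (x (false, b)) (1 / 2 ^ m)}ᶜ := by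
    ext x
    simp only [SS, Set.mem_ofPred_eq, mem_iInter, mem_compl_iff]
  rw [e]
  refine MeasurableSet.iInter fun a => MeasurableSet.iInter fun b => MeasurableSet.iInter fun _ =>
    MeasurableSet.iInter fun _ => (measurableSet_near ?_ ?_ _).compl
  · exact (meas_coord (true, a)).const_add u
  · exact meas_coord (false, b)

lemma measurableSet_TT (m : ℕ) (A : ℕ) : MeasurableSet (TT m A) := by
  have e : TT m A = ⋂ a : ℕ, ⋂ b : ℕ, ⋂ (_ : A ≤ a), ⋂ (_ : a < 2 * A), ⋂ (_ : A ≤ b),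
      ⋂ (_ : b < 2 * A),
      {p : ℂ × (Bool × ℕ → ℂ) | Near (p.1 + p.2 (true, a)) (p.2 (false, b)) (1 / 2 ^ m)}ᶜ := by
    ext x
    simp only [TT, Set.mem_ofPred_eq, mem_iInter, mem_compl_iff]
  rw [e]
  refine MeasurableSet.iInter fun a => MeasurableSet.iInter fun b => MeasurableSet.iInter fun _ =>
    MeasurableSet.iInter fun _ => MeasurableSet.iInter fun _ => MeasurableSet.iInter fun _ =>
      (measurableSet_near ?_ ?_ _).compl
  · exact Measurable.add (f := fun p : ℂ × (Bool × ℕ → ℂ) => p.1) measurable_fst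
      (meas_coord2 (true, a))
  · exact meas_coord2 (false, b)

lemma measurable_dx (u : ℂ) (A : ℕ) : Measurable (dx u A) := by
  have h1 : Measurable fun x : Bool × ℕ → ℂ => u + x (true, A) :=
    (meas_coord (true, A)).const_add u
  exact h1.sub (meas_coord (false, A))

lemma measurable_gg (c : ENNReal) (m A : ℕ) : Measurable (gg c m A) := by
  refine Measurable.indicator ?_ (measurableSet_TT m A)
  have h1 : Measurable fun p : ℂ × (Bool × ℕ → ℂ) =>
      p.1 + p.2 (true, 3 * A) - p.2 (false, 3 * A) := by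
    have h0 : Measurable fun p : ℂ × (Bool × ℕ → ℂ) => p.1 + p.2 (true, 3 * A) :=
      Measurable.add (f := fun p : ℂ × (Bool × ℕ → ℂ) => p.1) measurable_fst (meas_coord2 _)
    exact h0.sub (meas_coord2 (false, 3 * A))
  exact ((h1.enorm.pow_const 2).const_mul c).const_add 1

/-- The step. -/
lemma step (hIND : SpecIND) (hFUB : SpecFUB) (hMOM : SpecMOM) {δ : ℝ} (hδ0 : 0 < δ) (hδ1 : δ ≤ 1)
    (hTWO : ∀ (m A : ℕ) (s₁ s₂ : ℝ) (d : ℂ), 1 ≤ A → 0 ≤ s₁ →
      s₁ + tm m (2 * A) ≤ s₂ → s₂ + tm m (2 * A) ≤ 1 → |d.re| ≤ 10 * Real.sqrt (tm m A) →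
      |d.im| ≤ 10 * Real.sqrt (tm m A) →
      ENNReal.ofReal δ ≤ P {ω | ∃ a b : ℕ, A ≤ a ∧ a < 2 * A ∧ A ≤ b ∧ b < 2 * A ∧
        ω ∈ hit B m s₁ s₂ d a b})
    (hB : IsPBM P B) {m A : ℕ} (hA : 1 ≤ A) {s₁ s₂ : ℝ} (h1 : 0 ≤ s₁)
    (h2 : s₁ + tm m (4 * A) ≤ s₂) (h3 : s₂ + tm m (4 * A) ≤ 1) (u : ℂ) :
    Phi P B m s₁ s₂ u (δ / 124) (4 * A) ≤
      ENNReal.ofReal (1 - δ / 10) * Phi P B m s₁ s₂ u (δ / 124) A := by
  have hT := tm_pos m hA
  have hmeas := (hIND Ω P B hB).1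
  have h44 : tm m (4 * A) = 4 * tm m A := tm_four m A
  have h33 : tm m (3 * A) = 3 * tm m A := tm_three m A
  set c : ENNReal := ENNReal.ofReal (δ / 124 / tm m (4 * A)) with hc
  set c' : ENNReal := ENNReal.ofReal (δ / 124 / tm m A) with hc'
  -- independence
  have hlo0 : ∀ p, 0 ≤ lo0 s₁ s₂ p ∧ lo0 s₁ s₂ p ≤ hi0 s₁ s₂ m A p ∧ hi0 s₁ s₂ m A p ≤ 1 := by
    rintro ⟨b, i⟩
    have k1 := tm_nonneg m (min i A)
    have k2 : tm m (min i A) ≤ tm m (4 * A) := tm_mono m (by omega)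
    cases b <;> simp only [lo0, hi0, Bool.false_eq_true, if_false, if_true] <;>
      refine ⟨?_, ?_, ?_⟩ <;> linarith
  have hlo : ∀ p, 0 ≤ lo s₁ s₂ m A p ∧ lo s₁ s₂ m A p ≤ hi s₁ s₂ m A p ∧ hi s₁ s₂ m A p ≤ 1 := by
    rintro ⟨b, i⟩
    have k1 : tm m A ≤ tm m (A + min i (3 * A)) := tm_mono m (by omega)
    have k2 : tm m (A + min i (3 * A)) ≤ tm m (4 * A) := tm_mono m (by omega)
    have k3 := tm_nonneg m A
    cases b <;> simp only [lo, hi, Bool.false_eq_true, if_false, if_true] <;>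
      refine ⟨?_, ?_, ?_⟩ <;> linarith
  have hdisj : ∀ p q, hi0 s₁ s₂ m A p ≤ lo s₁ s₂ m A q ∨ hi s₁ s₂ m A q ≤ lo0 s₁ s₂ p := by
    rintro ⟨b, i⟩ ⟨b', i'⟩
    have k0 := tm_nonneg m (min i A)
    have k1 : tm m (min i A) ≤ tm m A := tm_mono m (by omega)
    have k2 : tm m (A + min i' (3 * A)) ≤ tm m (4 * A) := tm_mono m (by omega)
    have k3 : tm m A ≤ tm m (4 * A) := tm_mono m (by omega)
    cases b <;> cases b' <;>
      simp only [lo0, hi0, lo, hi, Bool.false_eq_true, if_false, if_true]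
    · left; linarith
    · right; linarith
    · left; linarith
    · left; linarith
  have hind := (hIND Ω P B hB).2 (Bool × ℕ) (Bool × ℕ) (lo0 s₁ s₂) (hi0 s₁ s₂ m A)
    (lo s₁ s₂ m A) (hi s₁ s₂ m A) hlo0 hlo hdisj
  have hXm : AEMeasurable (XX B m s₁ s₂ A) P := aemeasurable_pi_lambda _ fun p => by
    obtain ⟨k1, k2, k3⟩ := hlo0 p
    exact (hmeas _ ⟨k1.trans k2, k3⟩).sub (hmeas _ ⟨k1, k2.trans k3⟩)
  have hYm : AEMeasurable (YY B m s₁ s₂ A) P := aemeasurable_pi_lambda _ fun p => by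
    obtain ⟨k1, k2, k3⟩ := hlo p
    exact (hmeas _ ⟨k1.trans k2, k3⟩).sub (hmeas _ ⟨k1, k2.trans k3⟩)
  -- the function
  let F : (Bool × ℕ → ℂ) → (Bool × ℕ → ℂ) → ENNReal := fun x y =>
    (SS m u A).indicator (fun _ => (1 : ENNReal)) x * gg c m A (dx u A x, y)
  have hF : Measurable (Function.uncurry F) := by
    have g1 : Measurable fun p : (Bool × ℕ → ℂ) × (Bool × ℕ → ℂ) =>
        (SS m u A).indicator (fun _ => (1 : ENNReal)) p.1 :=
      (measurable_const.indicator (measurableSet_SS m u A)).comp measurable_fst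
    have g2 : Measurable fun p : (Bool × ℕ → ℂ) × (Bool × ℕ → ℂ) =>
        gg c m A (dx u A p.1, p.2) :=
      (measurable_gg c m A).comp (((measurable_dx u A).comp measurable_fst).prodMk measurable_snd)
    exact g1.mul g2
  have hfub := hFUB Ω P (Bool × ℕ → ℂ) (Bool × ℕ → ℂ) (XX B m s₁ s₂ A) (YY B m s₁ s₂ A) hXm hYm
    hind F hF
  -- values
  have vx1 : ∀ ω a, a ≤ A → XX B m s₁ s₂ A ω (true, a) = B (s₁ + tm m a) ω - B s₁ ω := by
    intro ω a ha
    simp only [XX, hi0, lo0, if_true, min_eq_left ha]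
  have vx2 : ∀ ω a, a ≤ A → XX B m s₁ s₂ A ω (false, a) = B (s₂ + tm m a) ω - B s₂ ω := by
    intro ω a ha
    simp only [XX, hi0, lo0, Bool.false_eq_true, if_false, min_eq_left ha]
  have vy1 : ∀ ω a, a ≤ 3 * A → YY B m s₁ s₂ A ω (true, a) =
      B (s₁ + tm m A + tm m a) ω - B (s₁ + tm m A) ω := by
    intro ω a ha
    simp only [YY, hi, lo, if_true, min_eq_left ha, tm_add, add_assoc]
  have vy2 : ∀ ω a, a ≤ 3 * A → YY B m s₁ s₂ A ω (false, a) =
      B (s₂ + tm m A + tm m a) ω - B (s₂ + tm m A) ω := by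
    intro ω a ha
    simp only [YY, hi, lo, Bool.false_eq_true, if_false, min_eq_left ha, tm_add, add_assoc]
  have hSS : ∀ ω, XX B m s₁ s₂ A ω ∈ SS m u A ↔ ω ∈ NI B m s₁ s₂ u A := by
    intro ω
    simp only [SS, NI, hit, Set.mem_ofPred_eq]
    constructor
    · intro h a b ha hb
      have := h a b ha hb
      rwa [vx1 ω a ha, vx2 ω b hb] at this
    · intro h a b ha hb
      rw [vx1 ω a ha, vx2 ω b hb]
      exact h a b ha hb
  have hdx : ∀ ω, dx u A (XX B m s₁ s₂ A ω) = DD B m s₁ s₂ u A ω := by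
    intro ω
    simp only [dx, DD, vx1 ω A le_rfl, vx2 ω A le_rfl]
  have hTT : ∀ (d : ℂ) ω, (d, YY B m s₁ s₂ A ω) ∈ TT m A ↔
      ω ∈ NJ B m (s₁ + tm m A) (s₂ + tm m A) d A := by
    intro d ω
    simp only [TT, NJ, hit, Set.mem_ofPred_eq]
    constructor
    · intro h a b ha ha' hb hb'
      have := h a b ha ha' hb hb'
      rwa [vy1 ω a (by omega), vy2 ω b (by omega)] at this
    · intro h a b ha ha' hb hb'
      rw [vy1 ω a (by omega), vy2 ω b (by omega)]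
      exact h a b ha ha' hb hb'
  -- the pointwise bound
  have hpt : ∀ ω, (NI B m s₁ s₂ u (4 * A)).indicator (fun ω => 1 + c *
      ‖DD B m s₁ s₂ u (4 * A) ω‖ₑ ^ 2) ω ≤ F (XX B m s₁ s₂ A ω) (YY B m s₁ s₂ A ω) := by
    intro ω
    by_cases hω : ω ∈ NI B m s₁ s₂ u (4 * A)
    · rw [indicator_of_mem hω]
      have p1 : XX B m s₁ s₂ A ω ∈ SS m u A := by
        rw [hSS]
        exact fun a b ha hb => hω a b (by omega) (by omega)
      have p2 : (dx u A (XX B m s₁ s₂ A ω), YY B m s₁ s₂ A ω) ∈ TT m A := by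
        rw [hTT, hdx]
        intro a b ha ha' hb hb'
        have := hω (A + a) (A + b) (by omega) (by omega)
        intro hcon
        apply this
        simp only [hit, Set.mem_ofPred_eq] at hcon ⊢
        have e1 : u + (B (s₁ + tm m (A + a)) ω - B s₁ ω) =
            (B (s₂ + tm m A) ω - B s₂ ω) + (DD B m s₁ s₂ u A ω +
              (B (s₁ + tm m A + tm m a) ω - B (s₁ + tm m A) ω)) := by
          unfold DD
          rw [tm_add, add_assoc]
          ring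
        have e2 : B (s₂ + tm m (A + b)) ω - B s₂ ω = (B (s₂ + tm m A) ω - B s₂ ω) +
            (B (s₂ + tm m A + tm m b) ω - B (s₂ + tm m A) ω) := by
          rw [tm_add, add_assoc]
          ring
        rw [e1, e2, near_add]
        exact hcon
      simp only [F, gg]
      rw [indicator_of_mem p1, indicator_of_mem p2, one_mul]
      refine le_of_eq ?_
      congr 3
      dsimp only
      rw [hdx, vy1 ω (3 * A) le_rfl, vy2 ω (3 * A) le_rfl]
      unfold DD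
      have e4 : tm m (4 * A) = tm m A + tm m (3 * A) := by
        rw [← tm_add]
        congr 1
        ring
      rw [e4, ← add_assoc, ← add_assoc]
      congr 1
      ring
    · rw [indicator_of_notMem hω]
      exact bot_le
  -- conclusion
  calc Phi P B m s₁ s₂ u (δ / 124) (4 * A)
      ≤ ∫⁻ ω, F (XX B m s₁ s₂ A ω) (YY B m s₁ s₂ A ω) ∂P := lintegral_mono hpt
    _ = ∫⁻ ω, (∫⁻ ω', F (XX B m s₁ s₂ A ω) (YY B m s₁ s₂ A ω') ∂P) ∂P := hfub
    _ ≤ ∫⁻ ω, ENNReal.ofReal (1 - δ / 10) * (NI B m s₁ s₂ u A).indicator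
        (fun ω => 1 + c' * ‖DD B m s₁ s₂ u A ω‖ₑ ^ 2) ω ∂P := by
        refine lintegral_mono fun ω => ?_
        by_cases hω : ω ∈ NI B m s₁ s₂ u A
        · have p1 := (hSS ω).mpr hω
          simp only [F]
          rw [indicator_of_mem hω, indicator_of_mem p1]
          simp only [one_mul]
          rw [hdx ω]
          have hos := onestep hIND hMOM hδ0 hδ1 hTWO hB hA (s₁ := s₁ + tm m A)
            (s₂ := s₂ + tm m A) (by linarith) (by linarith) (by linarith) (DD B m s₁ s₂ u A ω)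
          refine le_trans (le_of_eq ?_) hos
          refine lintegral_congr fun ω' => ?_
          simp only [gg]
          by_cases hω' : ω' ∈ NJ B m (s₁ + tm m A) (s₂ + tm m A) (DD B m s₁ s₂ u A ω) A
          · rw [indicator_of_mem hω', indicator_of_mem ((hTT _ ω').mpr hω')]
            congr 3
            dsimp only
            rw [vy1 ω' (3 * A) le_rfl, vy2 ω' (3 * A) le_rfl]
            rfl
          · rw [indicator_of_notMem hω', indicator_of_notMem fun hcon => hω' ((hTT _ ω').mp hcon)]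
        · have p1 : XX B m s₁ s₂ A ω ∉ SS m u A := fun hcon => hω ((hSS ω).mp hcon)
          simp only [F]
          rw [indicator_of_notMem hω, indicator_of_notMem p1]
          simp
    _ = ENNReal.ofReal (1 - δ / 10) * Phi P B m s₁ s₂ u (δ / 124) A := by
        rw [lintegral_const_mul' _ _ ENNReal.ofReal_ne_top]
        rfl

end Walk

end DECM

theorem specDEC (hIND : SpecIND) (hFUB : SpecFUB) (hMOM : SpecMOM) (hTWO : SpecTWO) : SpecDEC := by
  obtain ⟨δ, hδ0, hδ1, hT⟩ := hTWO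
  refine ⟨1 - δ / 10, by linarith, by linarith, ?_⟩
  intro Ω _ P _ B hB n m I s₁ s₂ u hnm h1 h2 h3 hu1 hu2
  have hT' := hT Ω P B hB
  have hmeas := (hIND Ω P B hB).1
  have hA0 : 1 ≤ 4 ^ (m - n) := Nat.one_le_pow _ _ (by norm_num)
  have htm : ∀ i : ℕ, True ∧
      tm m (4 ^ i * 4 ^ (m - n)) = tm n (4 ^ i) := by
    intro i
    refine ⟨trivial, ?_⟩
    unfold tm
    have e : (4 : ℝ) ^ m = 4 ^ (m - n) * 4 ^ n := by
      rw [← pow_add]
      congr 1
      omega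
    rw [e]
    push_cast
    field_simp
  have hle : ∀ i ≤ I, tm n (4 ^ i) ≤ tm n (4 ^ I) := fun i hi =>
    DECM.tm_mono n (Nat.pow_le_pow_right (by norm_num) hi)
  -- iterate
  have hit1 : ∀ i ≤ I, DECM.Phi P B m s₁ s₂ u (δ / 124) (4 ^ i * 4 ^ (m - n)) ≤
      ENNReal.ofReal (1 - δ / 10) ^ i * DECM.Phi P B m s₁ s₂ u (δ / 124) (4 ^ (m - n)) := by
    intro i
    induction i with
    | zero =>
      intro _
      simp
    | succ i ih =>
      intro hi
      have e : 4 ^ (i + 1) * 4 ^ (m - n) = 4 * (4 ^ i * 4 ^ (m - n)) := by ring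
      have hpos : 1 ≤ 4 ^ i * 4 ^ (m - n) := Nat.one_le_iff_ne_zero.mpr (by positivity)
      have e2 : tm m (4 * (4 ^ i * 4 ^ (m - n))) = tm n (4 ^ (i + 1)) := by
        rw [← e]
        exact (htm (i + 1)).2
      have hl := hle (i + 1) hi
      rw [e]
      refine (DECM.step hIND hFUB hMOM hδ0 hδ1 hT' hB hpos h1 (by rw [e2]; linarith)
        (by rw [e2]; linarith) u).trans ?_
      refine (mul_le_mul' le_rfl (ih (by omega))).trans (le_of_eq ?_)
      rw [pow_succ]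
      ring
  -- start
  have hstart : DECM.Phi P B m s₁ s₂ u (δ / 124) (4 ^ (m - n)) ≤ 2 := by
    have e0 : tm m (4 ^ (m - n)) = tm n 1 := by
      have := (htm 0).2
      simpa using this
    have hT0 : 0 < tm n 1 := DECM.tm_pos n le_rfl
    have hTI : tm n 1 ≤ tm n (4 ^ I) := DECM.tm_mono n (Nat.one_le_pow _ _ (by norm_num))
    have hT1 : tm n 1 = (1 / 2 ^ n) ^ 2 := by
      unfold tm
      have : (4 : ℝ) ^ n = (2 ^ n) ^ 2 := by
        rw [← pow_mul, mul_comm, pow_mul]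
        norm_num
      rw [this]
      push_cast
      field_simp
    have hsec := DECM.second hMOM hB hmeas u (s₁ := s₁) (s₂ := s₂) (T := tm n 1) h1
      (by linarith) hT0.le (by linarith) (by linarith)
    have hu : ‖u‖ ^ 2 ≤ 2 * tm n 1 := by
      rw [hT1, Complex.sq_norm, Complex.normSq_apply]
      have a1 : u.re * u.re ≤ (1 / 2 ^ n) ^ 2 := by
        have := sq_le_sq' (by linarith [abs_le.mp hu1]) (abs_le.mp hu1).2
        nlinarith
      have a2 : u.im * u.im ≤ (1 / 2 ^ n) ^ 2 := by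
        have := sq_le_sq' (by linarith [abs_le.mp hu2]) (abs_le.mp hu2).2
        nlinarith
      linarith
    unfold DECM.Phi
    calc ∫⁻ ω, (DECM.NI B m s₁ s₂ u (4 ^ (m - n))).indicator (fun ω => 1 +
          ENNReal.ofReal (δ / 124 / tm m (4 ^ (m - n))) *
            ‖DECM.DD B m s₁ s₂ u (4 ^ (m - n)) ω‖ₑ ^ 2) ω ∂P
        ≤ ∫⁻ ω, (1 + ENNReal.ofReal (δ / 124 / tm m (4 ^ (m - n))) *
            ‖DECM.DD B m s₁ s₂ u (4 ^ (m - n)) ω‖ₑ ^ 2) ∂P :=
          lintegral_mono fun ω => indicator_le_self _ _ ω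
      _ = 1 + ENNReal.ofReal (δ / 124 / tm n 1) *
          ∫⁻ ω, ‖DECM.DD B m s₁ s₂ u (4 ^ (m - n)) ω‖ₑ ^ 2 ∂P := by
          rw [lintegral_add_left' aemeasurable_const, lintegral_const_mul' _ _
            ENNReal.ofReal_ne_top, lintegral_const, measure_univ, mul_one, e0]
      _ ≤ 1 + ENNReal.ofReal (δ / 124 / tm n 1) * ENNReal.ofReal (2 * ‖u‖ ^ 2 + 16 * tm n 1) := by
          refine add_le_add le_rfl (mul_le_mul' le_rfl (le_trans (le_of_eq ?_) hsec))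
          unfold DECM.DD
          rw [e0]
      _ ≤ 1 + 1 := by
          refine add_le_add le_rfl ?_
          rw [← ENNReal.ofReal_mul (by positivity), ← ENNReal.ofReal_one]
          refine ENNReal.ofReal_le_ofReal ?_
          rw [div_mul_eq_mul_div, div_le_one hT0]
          nlinarith
      _ = 2 := by norm_num
  -- end
  have hend : P {ω | ∀ a b : ℕ, a ≤ 4 ^ I * 4 ^ (m - n) → b ≤ 4 ^ I * 4 ^ (m - n) →
      ω ∉ hit B m s₁ s₂ u a b} ≤ DECM.Phi P B m s₁ s₂ u (δ / 124) (4 ^ I * 4 ^ (m - n)) := by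
    have hnull : NullMeasurableSet (DECM.NI B m s₁ s₂ u (4 ^ I * 4 ^ (m - n))) P := by
      have e : DECM.NI B m s₁ s₂ u (4 ^ I * 4 ^ (m - n)) = ⋂ a : ℕ, ⋂ b : ℕ,
          ⋂ (_ : a ≤ 4 ^ I * 4 ^ (m - n)), ⋂ (_ : b ≤ 4 ^ I * 4 ^ (m - n)),
            (hit B m s₁ s₂ u a b)ᶜ := by
        ext x
        simp only [DECM.NI, Set.mem_ofPred_eq, mem_iInter, mem_compl_iff]
      rw [e]
      refine NullMeasurableSet.iInter fun a => NullMeasurableSet.iInter fun b =>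
        NullMeasurableSet.iInter fun ha => NullMeasurableSet.iInter fun hb => ?_
      have k1 : tm m a ≤ tm n (4 ^ I) := by
        rw [← (htm I).2]
        exact DECM.tm_mono m ha
      have k2 : tm m b ≤ tm n (4 ^ I) := by
        rw [← (htm I).2]
        exact DECM.tm_mono m hb
      have k3 := DECM.tm_nonneg m a
      have k4 := DECM.tm_nonneg m b
      have k5 := DECM.tm_nonneg n (4 ^ I)
      have hm : AEMeasurable (fun ω => (u + (B (s₁ + tm m a) ω - B s₁ ω),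
          B (s₂ + tm m b) ω - B s₂ ω)) P :=
        (((hmeas _ ⟨by linarith, by linarith⟩).sub
          (hmeas _ ⟨by linarith, by linarith⟩)).const_add u).prodMk
          ((hmeas _ ⟨by linarith, by linarith⟩).sub (hmeas _ ⟨by linarith, by linarith⟩))
      exact (hm.nullMeasurableSet_preimage (DECM.measurableSet_near (f := Prod.fst)
        (g := Prod.snd) measurable_fst measurable_snd (1 / 2 ^ m))).compl
    calc P (DECM.NI B m s₁ s₂ u (4 ^ I * 4 ^ (m - n)))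
        = ∫⁻ ω, (DECM.NI B m s₁ s₂ u (4 ^ I * 4 ^ (m - n))).indicator
            (fun _ => (1 : ENNReal)) ω ∂P := by
          rw [lintegral_indicator_const₀ hnull, one_mul]
      _ ≤ _ := by
          refine lintegral_mono fun ω => ?_
          by_cases hω : ω ∈ DECM.NI B m s₁ s₂ u (4 ^ I * 4 ^ (m - n))
          · simp only [indicator_of_mem hω]
            exact le_self_add
          · simp only [indicator_of_notMem hω]
            exact le_rfl
  refine hend.trans ((hit1 I le_rfl).trans ?_)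
  refine (mul_le_mul' le_rfl hstart).trans (le_of_eq ?_)
  rw [← ENNReal.ofReal_pow (by linarith), mul_comm]
  have e2 : (2 : ENNReal) = ENNReal.ofReal 2 := by norm_num
  rw [e2, ← ENNReal.ofReal_mul (by norm_num)]

end Pool.Agent.Lib.MP_8b264c_pr.QV
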