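import Pool.Agent.Lib.MP_8b264c_pr.QV.Spec

/-!
MP_8b264c_pr, module DEN: the law of an increment of the planar Brownian motion has density at
most `1 / (2 π (t - s))`.
-/

set_option autoImplicit false

open MeasureTheory Set ProbabilityTheory Filter Topology

namespace Pool.Agent.Lib.MP_8b264c_pr.QV

open Pool.Agent.BMR

namespace DENM

lemma pdf_le (y : ℝ) : gaussianPDF 0 1 y ≤ ENNReal.ofReal ((Real.sqrt (2 * Real.pi))⁻¹) := by
  unfold gaussianPDF gaussianPDFReal
  refine ENNReal.ofReal_le_ofReal ?_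
  simp only [NNReal.coe_one, mul_one]
  refine mul_le_of_le_one_right (by positivity) ?_
  refine Real.exp_le_one_iff.mpr ?_
  have := sq_nonneg (y - 0)
  linarith

lemma gauss_le (s : Set ℝ) (hs : MeasurableSet s) :
    gaussianReal 0 1 s ≤ ENNReal.ofReal ((Real.sqrt (2 * Real.pi))⁻¹) * volume s := by
  rw [gaussianReal_apply 0 one_ne_zero, ← setLIntegral_const]
  exact lintegral_mono fun y => pdf_le y

lemma gauss_le' : gaussianReal 0 1 ≤
    ENNReal.ofReal ((Real.sqrt (2 * Real.pi))⁻¹) • (volume : Measure ℝ) := by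
  refine Measure.le_iff.mpr fun s hs => ?_
  rw [Measure.smul_apply, smul_eq_mul]
  exact gauss_le s hs

variable {Ω : Type} [MeasurableSpace Ω] {P : Measure Ω} {B : ℝ → Ω → ℂ}

lemma one [IsProbabilityMeasure P] (h : IsPBM P B) (S : Set (ℝ × ℝ)) (hS : MeasurableSet S) :
    P {ω | ((B 1 ω).re, (B 1 ω).im) ∈ S} ≤ ENNReal.ofReal (1 / (2 * Real.pi)) * volume S := by
  have hG : IsGaussianProcess (Sum.elim (fun _ : Unit => co B (1, true))
      (fun _ : Unit => co B (1, false))) P := by
    have := h.gaussian (T := Unit ⊕ Unit) (Sum.elim (fun _ => (1, true)) (fun _ => (1, false)))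
      (by rintro (i | i) <;> exact one_mem)
    have e : (Sum.elim (fun _ : Unit => co B (1, true)) (fun _ : Unit => co B (1, false))) =
        fun (i : Unit ⊕ Unit) ω => co B (Sum.elim (fun _ => ((1 : ℝ), true))
          (fun _ => ((1 : ℝ), false)) i) ω := by
      funext i
      rcases i with i | i <;> rfl
    rw [e]
    exact this
  have hI := hG.indepFun_of_covariance_eq_zero (fun _ => h.aemeasurable_co _ one_mem)
    (fun _ => h.aemeasurable_co _ one_mem) (fun _ _ => by
      rw [h.cov_co _ _ one_mem one_mem]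
      simp)
  have hI2 : IndepFun (co B (1, true)) (co B (1, false)) P :=
    hI.comp (φ := fun y : Unit → ℝ => y ()) (ψ := fun y : Unit → ℝ => y ()) (by fun_prop)
      (by fun_prop)
  have ma := h.aemeasurable_co (1, true) one_mem
  have mb := h.aemeasurable_co (1, false) one_mem
  have hp := (indepFun_iff_map_prod_eq_prod_map_map ma mb).mp hI2
  rw [h.map_one, h.map_one] at hp
  have e : P {ω | ((B 1 ω).re, (B 1 ω).im) ∈ S} =
      P.map (fun ω => (co B (1, true) ω, co B (1, false) ω)) S := by
    rw [Measure.map_apply_of_aemeasurable (ma.prodMk mb) hS]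
    rfl
  have hc : ENNReal.ofReal (1 / (2 * Real.pi)) = ENNReal.ofReal ((Real.sqrt (2 * Real.pi))⁻¹) *
      ENNReal.ofReal ((Real.sqrt (2 * Real.pi))⁻¹) := by
    rw [← ENNReal.ofReal_mul (by positivity)]
    congr 1
    rw [← mul_inv, Real.mul_self_sqrt (by positivity), one_div]
  rw [e, hp, Measure.prod_apply hS, hc, Measure.volume_eq_prod, Measure.prod_apply hS]
  calc ∫⁻ x, gaussianReal 0 1 (Prod.mk x ⁻¹' S) ∂(gaussianReal 0 1)
      ≤ ∫⁻ x, ENNReal.ofReal ((Real.sqrt (2 * Real.pi))⁻¹) * volume (Prod.mk x ⁻¹' S)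
          ∂(ENNReal.ofReal ((Real.sqrt (2 * Real.pi))⁻¹) • (volume : Measure ℝ)) :=
        lintegral_mono' gauss_le' fun x => gauss_le _ (measurable_prodMk_left hS)
    _ = _ := by
        rw [lintegral_smul_measure, lintegral_const_mul _ (measurable_measure_prodMk_left hS),
          smul_eq_mul, mul_assoc]

end DENM

open DENM in
theorem specDEN : SpecDEN := by
  intro Ω _ P _ B h s t hs hst ht E hE
  have hd : 0 < t - s := sub_pos.mpr hst
  have hsq : 0 < Real.sqrt (t - s) := Real.sqrt_pos.mpr hd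
  have hW := h.isPBM_seg hs hst ht
  set σ := Real.sqrt (t - s) with hσ
  have mF : Measurable fun p : ℝ × ℝ => σ • (Complex.measurableEquivRealProd.symm p) :=
    (Complex.measurableEquivRealProd.symm.measurable).const_smul σ
  have h1 := DENM.one hW ((fun p : ℝ × ℝ => σ • (Complex.measurableEquivRealProd.symm p)) ⁻¹' E)
    (mF hE)
  have e1 : {ω | B t ω - B s ω ∈ E} = {ω | ((seg B s t 1 ω).re, (seg B s t 1 ω).im) ∈
      (fun p : ℝ × ℝ => σ • (Complex.measurableEquivRealProd.symm p)) ⁻¹' E} := by
    ext ω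
    have e2 : σ • (Complex.measurableEquivRealProd.symm
        ((seg B s t 1 ω).re, (seg B s t 1 ω).im)) = B t ω - B s ω := by
      have e3 : s + 1 * (t - s) = t := by ring
      apply Complex.ext
      · simp only [Complex.measurableEquivRealProd_symm_apply, Complex.smul_re, smul_eq_mul,
          Complex.sub_re]
        rw [seg_re, e3, ← hσ, mul_inv_cancel_left₀ hsq.ne']
      · simp only [Complex.measurableEquivRealProd_symm_apply, Complex.smul_im, smul_eq_mul,
          Complex.sub_im]
        rw [seg_im, e3, ← hσ, mul_inv_cancel_left₀ hsq.ne']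
    simp only [mem_setOf_eq, mem_preimage, e2]
  have e4 : volume ((fun p : ℝ × ℝ => σ • (Complex.measurableEquivRealProd.symm p)) ⁻¹' E) =
      ENNReal.ofReal (1 / (t - s)) * volume E := by
    have e5 : (fun p : ℝ × ℝ => σ • (Complex.measurableEquivRealProd.symm p)) ⁻¹' E =
        Complex.measurableEquivRealProd.symm ⁻¹' ((fun z : ℂ => σ • z) ⁻¹' E) := rfl
    have m1 : MeasurableSet ((fun z : ℂ => σ • z) ⁻¹' E) := (measurable_const_smul σ) hE
    rw [e5, Complex.volume_preserving_equiv_real_prod.symm.measure_preimage m1.nullMeasurableSet,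
      Measure.addHaar_preimage_smul _ hsq.ne']
    congr 2
    rw [Complex.finrank_real_complex, hσ, Real.sq_sqrt hd.le, abs_of_pos (inv_pos.mpr hd), one_div]
  rw [e1]
  refine h1.trans (le_of_eq ?_)
  rw [e4, ← mul_assoc, ← ENNReal.ofReal_mul (by positivity)]
  congr 2
  field_simp

end Pool.Agent.Lib.MP_8b264c_pr.QV
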