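import Pool.Agent.Lib.MP_8b264c_pr.QV.Spec

/-!
# Module DET: the deterministic inequality
-/

set_option autoImplicit false

open MeasureTheory Set ProbabilityTheory Filter Topology

namespace Pool.Agent.Lib.MP_8b264c_pr.QV

open Pool.Agent.BMR

namespace DETM

/-- a covering of a set by intervals, with a condition on `v` -/
theorem cover {ι : Type} (S : Finset ι) (a r b ρ : ι → ℝ) (v : ℝ) (E : Set ℝ)
    (hE : ∀ y ∈ E, ∃ i ∈ S, |v - a i| ≤ r i ∧ |y - b i| ≤ ρ i) :
    volume E ≤ ∑ i ∈ S, (Metric.closedBall (a i) (r i)).indicator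
      (fun _ => ENNReal.ofReal (2 * ρ i)) v := by
  classical
  have h1 : E ⊆ ⋃ i ∈ S.filter (fun i => |v - a i| ≤ r i), Metric.closedBall (b i) (ρ i) := by
    intro y hy
    obtain ⟨i, hi, h2, h3⟩ := hE y hy
    refine Set.mem_iUnion₂.2 ⟨i, Finset.mem_filter.2 ⟨hi, h2⟩, ?_⟩
    rw [Metric.mem_closedBall, Real.dist_eq]
    exact h3
  refine (measure_mono h1).trans ((measure_biUnion_finset_le _ _).trans ?_)
  rw [Finset.sum_filter]
  refine Finset.sum_le_sum fun i _ => ?_
  split_ifs with h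
  · rw [Set.indicator_of_mem (by rw [Metric.mem_closedBall, Real.dist_eq]; exact h),
      Real.volume_closedBall]
  · exact zero_le

theorem meas {ι : Type} (S : Finset ι) (a r ρ : ι → ℝ) :
    Measurable fun v : ℝ => ∑ i ∈ S, (Metric.closedBall (a i) (r i)).indicator
      (fun _ => ENNReal.ofReal (2 * ρ i)) v := by
  refine Finset.measurable_sum _ fun i _ => ?_
  exact measurable_const.indicator Metric.isClosed_closedBall.measurableSet

theorem integral {ι : Type} (S : Finset ι) (a r ρ : ι → ℝ) (hr : ∀ i ∈ S, 0 ≤ r i)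
    (hρ : ∀ i ∈ S, 0 ≤ ρ i) :
    ∫⁻ v : ℝ, ∑ i ∈ S, (Metric.closedBall (a i) (r i)).indicator
      (fun _ => ENNReal.ofReal (2 * ρ i)) v = ENNReal.ofReal (∑ i ∈ S, 4 * r i * ρ i) := by
  rw [lintegral_finsetSum _ fun i _ =>
    measurable_const.indicator Metric.isClosed_closedBall.measurableSet]
  rw [ENNReal.ofReal_sum_of_nonneg fun i hi =>
    mul_nonneg (mul_nonneg (by norm_num) (hr i hi)) (hρ i hi)]
  refine Finset.sum_congr rfl fun i hi => ?_
  rw [lintegral_indicator_const Metric.isClosed_closedBall.measurableSet, Real.volume_closedBall,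
    ← ENNReal.ofReal_mul (by linarith [hρ i hi])]
  congr 1
  ring

theorem tm_le {n j k : ℕ} (h : j ≤ k) : tm n j ≤ tm n k := by
  unfold tm
  have : (j : ℝ) ≤ (k : ℝ) := by exact_mod_cast h
  gcongr

theorem tm_nonneg (n j : ℕ) : 0 ≤ tm n j := by
  unfold tm
  positivity

theorem tm_le_one {n j : ℕ} (h : j ≤ 4 ^ n) : tm n j ≤ 1 := by
  unfold tm
  rw [div_le_one (by positivity)]
  exact_mod_cast h

/-- the piece of a time -/
theorem piece (n : ℕ) {t : ℝ} (ht : t ∈ Icc (0 : ℝ) 1) :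
    ∃ j < 4 ^ n, t ∈ Icc (tm n j) (tm n (j + 1)) := by
  have h4 : (0 : ℝ) < 4 ^ n := by positivity
  have h0 : 0 ≤ t * 4 ^ n := mul_nonneg ht.1 h4.le
  have h1 : t * 4 ^ n ≤ 4 ^ n := by
    have := mul_le_mul_of_nonneg_right ht.2 h4.le
    linarith
  by_cases hlt : ⌊t * 4 ^ n⌋₊ < 4 ^ n
  · refine ⟨⌊t * 4 ^ n⌋₊, hlt, ?_, ?_⟩
    · unfold tm
      rw [div_le_iff₀ h4]
      exact Nat.floor_le h0
    · unfold tm
      rw [le_div_iff₀ h4]
      push_cast
      exact (Nat.lt_floor_add_one _).le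
  · push Not at hlt
    have h2 : ((4 ^ n : ℕ) : ℝ) ≤ t * 4 ^ n := (Nat.cast_le.2 hlt).trans (Nat.floor_le h0)
    push_cast at h2
    have h3 : t * 4 ^ n = 4 ^ n := le_antisymm h1 h2
    have h5 : t = 1 := by
      have := mul_right_cancel₀ h4.ne' (h3.trans (one_mul _).symm)
      exact this
    have hp : 0 < 4 ^ n := Nat.pos_of_ne_zero (pow_ne_zero _ (by norm_num))
    refine ⟨4 ^ n - 1, by omega, ?_, ?_⟩
    · rw [h5]
      exact tm_le_one (by omega)
    · rw [h5, Nat.sub_add_cancel hp]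
      unfold tm
      push_cast
      rw [div_self h4.ne']

theorem dist_le_osc {γ : ℝ → ℂ} (hγ : Continuous γ) (n j : ℕ) {s t : ℝ}
    (hs : s ∈ Icc (tm n j) (tm n (j + 1))) (ht : t ∈ Icc (tm n j) (tm n (j + 1))) :
    dist (γ s) (γ t) ≤ osc γ n j :=
  Metric.dist_le_diam_of_mem (isCompact_Icc.image hγ).isBounded (mem_image_of_mem _ hs)
    (mem_image_of_mem _ ht)

theorem osc_nonneg (γ : ℝ → ℂ) (n j : ℕ) : 0 ≤ osc γ n j := Metric.diam_nonneg

theorem left_mem (n j : ℕ) : tm n j ∈ Icc (tm n j) (tm n (j + 1)) :=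
  ⟨le_rfl, tm_le (Nat.le_succ j)⟩

theorem piece_EI {n I j : ℕ} (hj : j < 4 ^ n) {t : ℝ} (ht : t ∈ Icc (tm n j) (tm n (j + 1))) :
    t ∈ EI n I j := by
  refine ⟨ht.1, le_min (ht.2.trans (tm_le_one hj)) (ht.2.trans (tm_le ?_))⟩
  have : 0 < 4 ^ I := Nat.pos_of_ne_zero (pow_ne_zero _ (by norm_num))
  omega

theorem sum_le_sqrt {ι : Type} (S : Finset ι) (m : ι → ℝ) :
    ∑ i ∈ S, m i ≤ Real.sqrt (S.card : ℝ) * Real.sqrt (∑ i ∈ S, (m i) ^ 2) := by
  have h := Real.sum_mul_le_sqrt_mul_sqrt S (fun _ => (1 : ℝ)) m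
  simpa using h

end DETM

open DETM in
theorem specDET (hEXT : SpecEXT) (hCEL : SpecCEL) (hLON : SpecLON) : SpecDET := by
  classical
  intro β f g h n I H M₀ hβ hf hg hh hH hM
  have hγ : Continuous (f ∘ β) := hf.comp hβ
  have h2n : (0 : ℝ) < 2 ^ n := by positivity
  have h4n : (4 : ℝ) ^ n = 2 ^ n * 2 ^ n := by
    rw [← mul_pow]
    norm_num
  obtain ⟨hext, hextsum⟩ := hEXT (f ∘ β) n I hγ.continuousOn
  obtain ⟨hlon, hmeet⟩ := hLON β n I H M₀ hM
  have hcel := hCEL β n hβ
  -- the cells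
  let D : Finset (ℤ × ℤ) := (thin β n H \ lonely β n I H M₀).image (cell β n)
  have hD : ∀ c ∈ D, ∃ i, i ∈ thin β n H ∧ i ∉ lonely β n I H M₀ ∧ cell β n i = c := by
    intro c hc
    obtain ⟨i, hi, rfl⟩ := Finset.mem_image.1 hc
    rw [Finset.mem_sdiff] at hi
    exact ⟨i, hi.1, hi.2, rfl⟩
  choose! ic hic1 hic2 hic3 using hD
  let m : ℤ × ℤ → ℝ := fun c =>
    Real.sqrt (∑ k ∈ inCell β n H c, (ext (f ∘ β) n I k) ^ 2)
  have hm0 : ∀ c, 0 ≤ m c := fun c => Real.sqrt_nonneg _
  have hmle : ∀ c, ∀ k ∈ inCell β n H c, ext (f ∘ β) n I k ≤ m c := by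
    intro c k hk
    refine (le_abs_self _).trans ?_
    rw [← Real.sqrt_sq_eq_abs]
    exact Real.sqrt_le_sqrt (Finset.single_le_sum (f := fun k => (ext (f ∘ β) n I k) ^ 2)
      (fun i _ => sq_nonneg _) hk)
  have hthin : ∀ k ∈ thin β n H, k < 4 ^ n ∧ 2 ^ n * osc β n k ≤ H := by
    intro k hk
    have h1 := Finset.mem_filter.1 hk
    exact ⟨Finset.mem_range.1 h1.1, h1.2⟩
  have hinc : ∀ c, ∀ k, k ∈ inCell β n H c ↔ k ∈ thin β n H ∧ cell β n k = c := by
    intro c k
    exact Finset.mem_filter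
  let Fat : Finset ℕ := Finset.range (4 ^ n) \ thin β n H
  -- the majorant
  let G1 : ℝ → ENNReal := fun v => ∑ c ∈ D,
    (Metric.closedBall (h (β (tm n (ic c)))) ((H + 2) / 2 ^ n)).indicator
      (fun _ => ENNReal.ofReal (2 * (3 * m c))) v
  let G2 : ℝ → ENNReal := fun v => ∑ j ∈ lonely β n I H M₀,
    (Metric.closedBall (h (β (tm n j))) (H / 2 ^ n)).indicator
      (fun _ => ENNReal.ofReal (2 * osc (f ∘ β) n j)) v
  let G3 : ℝ → ENNReal := fun v => ∑ j ∈ Fat,
    (Metric.closedBall (h (β (tm n j))) (osc β n j)).indicator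
      (fun _ => ENNReal.ofReal (2 * osc (f ∘ β) n j)) v
  have hG1 : Measurable G1 := meas D (fun c => h (β (tm n (ic c)))) (fun _ => (H + 2) / 2 ^ n)
    (fun c => 3 * m c)
  have hG2 : Measurable G2 := meas _ (fun j => h (β (tm n j))) (fun _ => H / 2 ^ n)
    (fun j => osc (f ∘ β) n j)
  have hG3 : Measurable G3 := meas _ (fun j => h (β (tm n j))) (fun j => osc β n j)
    (fun j => osc (f ∘ β) n j)
  refine ⟨fun v => G1 v + G2 v + G3 v, (hG1.add hG2).add hG3, ?_, ?_⟩
  · intro v
    let E1 : Set ℝ := {y | ∃ c ∈ D, |v - h (β (tm n (ic c)))| ≤ (H + 2) / 2 ^ n ∧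
      |y - g (f (β (tm n (ic c))))| ≤ 3 * m c}
    let E2 : Set ℝ := {y | ∃ j ∈ lonely β n I H M₀, |v - h (β (tm n j))| ≤ H / 2 ^ n ∧
      |y - g (f (β (tm n j)))| ≤ osc (f ∘ β) n j}
    let E3 : Set ℝ := {y | ∃ j ∈ Fat, |v - h (β (tm n j))| ≤ osc β n j ∧
      |y - g (f (β (tm n j)))| ≤ osc (f ∘ β) n j}
    have hsub : (fun z => g (f z)) '' {z | z ∈ trace β ∧ h z = v} ⊆ (E1 ∪ E2) ∪ E3 := by
      rintro _ ⟨z, ⟨⟨t, ht, rfl⟩, hv⟩, rfl⟩
      obtain ⟨j, hj, htj⟩ := piece n ht
      have e1 : ‖β t - β (tm n j)‖ ≤ osc β n j := by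
        rw [← dist_eq_norm]
        exact dist_le_osc hβ n j htj (left_mem n j)
      have e2 : dist (f (β t)) (f (β (tm n j))) ≤ osc (f ∘ β) n j :=
        dist_le_osc hγ n j htj (left_mem n j)
      have e3 : |v - h (β (tm n j))| ≤ osc β n j := by
        rw [← hv]
        exact (hh _ _).trans e1
      have e4 : |g (f (β t)) - g (f (β (tm n j)))| ≤ osc (f ∘ β) n j := by
        refine (hg _ _).trans ?_
        rw [← dist_eq_norm]
        exact e2
      by_cases hT : j ∈ thin β n H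
      · have e5 : osc β n j ≤ H / 2 ^ n := by
          rw [le_div_iff₀ h2n, mul_comm]
          exact (hthin j hT).2
        by_cases hL : j ∈ lonely β n I H M₀
        · exact Or.inl (Or.inr ⟨j, hL, e3.trans e5, e4⟩)
        · -- the cell of `j`
          have hcD : cell β n j ∈ D :=
            Finset.mem_image_of_mem _ (Finset.mem_sdiff.2 ⟨hT, hL⟩)
          have i1 := hic1 _ hcD
          have i2 := hic2 _ hcD
          have i3 := hic3 _ hcD
          refine Or.inl (Or.inl ⟨cell β n j, hcD, ?_, ?_⟩)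
          · -- the points are in the same cell
            have q1 : ‖β (tm n j) - β (tm n (ic (cell β n j)))‖ ≤ 2 / 2 ^ n := by
              have hc := i3
              have c1 : ⌊2 ^ n * (β (tm n (ic (cell β n j)))).re⌋ = ⌊2 ^ n * (β (tm n j)).re⌋ :=
                congrArg Prod.fst hc
              have c2 : ⌊2 ^ n * (β (tm n (ic (cell β n j)))).im⌋ = ⌊2 ^ n * (β (tm n j)).im⌋ :=
                congrArg Prod.snd hc
              have d1 := Int.abs_sub_lt_one_of_floor_eq_floor c1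
              have d2 := Int.abs_sub_lt_one_of_floor_eq_floor c2
              rw [← mul_sub, abs_mul, abs_of_pos h2n] at d1 d2
              refine (Complex.norm_le_abs_re_add_abs_im _).trans ?_
              rw [Complex.sub_re, Complex.sub_im, abs_sub_comm, abs_sub_comm (β (tm n j)).im]
              have d3 : |(β (tm n (ic (cell β n j)))).re - (β (tm n j)).re| ≤ 1 / 2 ^ n := by
                rw [le_div_iff₀ h2n, mul_comm]
                exact d1.le
              have d4 : |(β (tm n (ic (cell β n j)))).im - (β (tm n j)).im| ≤ 1 / 2 ^ n := by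
                rw [le_div_iff₀ h2n, mul_comm]
                exact d2.le
              calc _ ≤ 1 / 2 ^ n + 1 / 2 ^ n := add_le_add d3 d4
                _ = 2 / 2 ^ n := by ring
            have q2 : |h (β (tm n j)) - h (β (tm n (ic (cell β n j))))| ≤ 2 / 2 ^ n :=
              (hh _ _).trans q1
            calc |v - h (β (tm n (ic (cell β n j))))|
                ≤ |v - h (β (tm n j))| + |h (β (tm n j)) - h (β (tm n (ic (cell β n j))))| :=
                  abs_sub_le _ _ _
              _ ≤ H / 2 ^ n + 2 / 2 ^ n := add_le_add (e3.trans e5) q2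
              _ = (H + 2) / 2 ^ n := by ring
          · -- a common neighbour
            obtain ⟨k, hk, ⟨s1, hs1, t1, ht1, heq1⟩, ⟨s2, hs2, t2, ht2, heq2⟩⟩ :=
              hmeet _ i1 j hT i2 hL i3
            rw [i3] at hk
            have hkT := (hinc _ _).1 hk
            have x1 := hext _ (hthin _ i1).1 s1 hs1 (tm n (ic (cell β n j)))
              (piece_EI (hthin _ i1).1 (left_mem n _))
            have x2 := hext k (hthin k hkT.1).1 t2 ht2 t1 ht1
            have x3 := hext j hj t (piece_EI hj htj) s2 hs2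
            have y1 := hmle _ _ ((hinc _ _).2 ⟨i1, i3⟩)
            have y2 := hmle _ _ hk
            have y3 := hmle _ _ ((hinc _ _).2 ⟨hT, rfl⟩)
            have z1 : (f ∘ β) s1 = (f ∘ β) t1 := congrArg f heq1
            have z2 : (f ∘ β) s2 = (f ∘ β) t2 := congrArg f heq2
            have w : dist ((f ∘ β) t) ((f ∘ β) (tm n (ic (cell β n j)))) ≤
                3 * m (cell β n j) := by
              calc dist ((f ∘ β) t) ((f ∘ β) (tm n (ic (cell β n j))))
                  ≤ dist ((f ∘ β) t) ((f ∘ β) s2) + dist ((f ∘ β) s2) ((f ∘ β) s1) +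
                    dist ((f ∘ β) s1) ((f ∘ β) (tm n (ic (cell β n j)))) :=
                    dist_triangle4 _ _ _ _
                _ ≤ m (cell β n j) + m (cell β n j) + m (cell β n j) := by
                    refine add_le_add (add_le_add (x3.trans y3) ?_) (x1.trans y1)
                    rw [z1, z2]
                    exact x2.trans y2
                _ = 3 * m (cell β n j) := by ring
            refine (hg _ _).trans ?_
            rw [← dist_eq_norm]
            exact w
      · exact Or.inr ⟨j, Finset.mem_sdiff.2 ⟨Finset.mem_range.2 hj, hT⟩, e3, e4⟩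
    refine (measure_mono hsub).trans ((measure_union_le _ _).trans (add_le_add
      ((measure_union_le _ _).trans (add_le_add ?_ ?_)) ?_))
    · exact cover D (fun c => h (β (tm n (ic c)))) (fun _ => (H + 2) / 2 ^ n)
        (fun c => g (f (β (tm n (ic c))))) (fun c => 3 * m c) v E1 fun y hy => hy
    · exact cover _ (fun j => h (β (tm n j))) (fun _ => H / 2 ^ n)
        (fun j => g (f (β (tm n j)))) (fun j => osc (f ∘ β) n j) v E2 fun y hy => hy
    · exact cover _ (fun j => h (β (tm n j))) (fun j => osc β n j)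
        (fun j => g (f (β (tm n j)))) (fun j => osc (f ∘ β) n j) v E3 fun y hy => hy
  · have hH0 : (0 : ℝ) < H := by linarith
    have J1 : ∫⁻ v, G1 v = ENNReal.ofReal (∑ c ∈ D, 4 * ((H + 2) / 2 ^ n) * (3 * m c)) :=
      DETM.integral D (fun c => h (β (tm n (ic c)))) (fun _ => (H + 2) / 2 ^ n)
        (fun c => 3 * m c) (fun _ _ => by positivity)
        (fun c _ => mul_nonneg (by norm_num) (hm0 c))
    have J2 : ∫⁻ v, G2 v = ENNReal.ofReal (∑ j ∈ lonely β n I H M₀,
        4 * (H / 2 ^ n) * osc (f ∘ β) n j) :=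
      DETM.integral _ (fun j => h (β (tm n j))) (fun _ => H / 2 ^ n)
        (fun j => osc (f ∘ β) n j) (fun _ _ => by positivity) (fun j _ => osc_nonneg _ _ _)
    have J3 : ∫⁻ v, G3 v = ENNReal.ofReal (∑ j ∈ Fat, 4 * osc β n j * osc (f ∘ β) n j) :=
      DETM.integral _ (fun j => h (β (tm n j))) (fun j => osc β n j)
        (fun j => osc (f ∘ β) n j) (fun j _ => osc_nonneg _ _ _) (fun j _ => osc_nonneg _ _ _)
    have P1 : 0 ≤ ∑ c ∈ D, 4 * ((H + 2) / 2 ^ n) * (3 * m c) :=
      Finset.sum_nonneg fun c _ => mul_nonneg (by positivity) (mul_nonneg (by norm_num) (hm0 c))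
    have P2 : 0 ≤ ∑ j ∈ lonely β n I H M₀, 4 * (H / 2 ^ n) * osc (f ∘ β) n j :=
      Finset.sum_nonneg fun j _ => mul_nonneg (by positivity) (osc_nonneg _ _ _)
    have P3 : 0 ≤ ∑ j ∈ Fat, 4 * osc β n j * osc (f ∘ β) n j :=
      Finset.sum_nonneg fun j _ => mul_nonneg (mul_nonneg (by norm_num) (osc_nonneg _ _ _))
        (osc_nonneg _ _ _)
    have hadd : ∫⁻ v, (G1 v + G2 v + G3 v) = (∫⁻ v, G1 v) + (∫⁻ v, G2 v) + ∫⁻ v, G3 v := by
      rw [lintegral_add_left (show Measurable fun v => G1 v + G2 v from hG1.add hG2),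
        lintegral_add_left hG1]
    show ∫⁻ v, (G1 v + G2 v + G3 v) ≤ _
    rw [hadd, J1, J2, J3, ← ENNReal.ofReal_add P1 P2, ← ENNReal.ofReal_add (add_nonneg P1 P2) P3]
    refine ENNReal.ofReal_le_ofReal ?_
    have hQ0 : 0 ≤ QS (f ∘ β) n := Finset.sum_nonneg fun j _ => sq_nonneg _
    have hν : 0 ≤ nuK β n := ENNReal.toReal_nonneg
    have hb0 : (0 : ℝ) ≤ badN β n I := Nat.cast_nonneg _
    -- part 1
    have A1 : ∑ c ∈ D, m c ≤ 2 ^ n * Real.sqrt (nuK β n) * (4 ^ I * Real.sqrt (QS (f ∘ β) n)) := by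
      refine (sum_le_sqrt D m).trans (mul_le_mul ?_ ?_ (Real.sqrt_nonneg _) (by positivity))
      · have h1 : (D.card : ℝ) ≤ cellN β n := by
          have : D.card ≤ cellN β n := by
            refine Finset.card_le_card (Finset.image_subset_image ?_)
            intro k hk
            exact Finset.mem_range.2 (hthin k (Finset.mem_sdiff.1 hk).1).1
          exact_mod_cast this
        calc Real.sqrt (D.card : ℝ) ≤ Real.sqrt (4 ^ n * nuK β n) :=
              Real.sqrt_le_sqrt (h1.trans hcel)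
          _ = 2 ^ n * Real.sqrt (nuK β n) := by
              rw [Real.sqrt_mul (by positivity), h4n, Real.sqrt_mul_self h2n.le]
      · have h1 : ∑ c ∈ D, (m c) ^ 2 ≤ (4 ^ I) ^ 2 * QS (f ∘ β) n := by
          have h2 : ∀ c, (m c) ^ 2 = ∑ k ∈ inCell β n H c, (ext (f ∘ β) n I k) ^ 2 := fun c =>
            Real.sq_sqrt (Finset.sum_nonneg fun k _ => sq_nonneg _)
          simp only [h2]
          have h3 : D ⊆ (thin β n H).image (cell β n) :=
            Finset.image_subset_image Finset.sdiff_subset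
          have h4 : ∑ c ∈ (thin β n H).image (cell β n),
              ∑ k ∈ inCell β n H c, (ext (f ∘ β) n I k) ^ 2 =
              ∑ k ∈ thin β n H, (ext (f ∘ β) n I k) ^ 2 := by
            rw [← Finset.sum_fiberwise_of_maps_to (g := cell β n)
              (t := (thin β n H).image (cell β n)) (fun k hk => Finset.mem_image_of_mem _ hk)]
            refine Finset.sum_congr rfl fun c _ => ?_
            refine Finset.sum_congr ?_ fun _ _ => rfl
            ext k
            rw [hinc, Finset.mem_filter]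
          refine (Finset.sum_le_sum_of_subset_of_nonneg h3 fun c _ _ =>
            Finset.sum_nonneg fun k _ => sq_nonneg _).trans ?_
          rw [h4]
          refine (Finset.sum_le_sum_of_subset_of_nonneg (t := Finset.range (4 ^ n)) ?_
            fun k _ _ => sq_nonneg _).trans hextsum
          intro k hk
          exact Finset.mem_range.2 (hthin k hk).1
        calc Real.sqrt (∑ c ∈ D, (m c) ^ 2) ≤ Real.sqrt ((4 ^ I) ^ 2 * QS (f ∘ β) n) :=
              Real.sqrt_le_sqrt h1
          _ = 4 ^ I * Real.sqrt (QS (f ∘ β) n) := by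
              rw [Real.sqrt_mul (by positivity), Real.sqrt_sq (by positivity)]
    have B1 : ∑ c ∈ D, 4 * ((H + 2) / 2 ^ n) * (3 * m c) ≤
        36 * Real.sqrt (QS (f ∘ β) n) * (H * 4 ^ I * Real.sqrt (nuK β n)) := by
      have h1 : ∑ c ∈ D, 4 * ((H + 2) / 2 ^ n) * (3 * m c) =
          12 * (H + 2) / 2 ^ n * ∑ c ∈ D, m c := by
        rw [Finset.mul_sum]
        refine Finset.sum_congr rfl fun c _ => ?_
        ring
      rw [h1]
      calc 12 * (H + 2) / 2 ^ n * ∑ c ∈ D, m c
          ≤ 36 * H / 2 ^ n * (2 ^ n * Real.sqrt (nuK β n) *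
              (4 ^ I * Real.sqrt (QS (f ∘ β) n))) := by
            refine mul_le_mul ?_ A1 (Finset.sum_nonneg fun c _ => hm0 c) (by positivity)
            exact div_le_div_of_nonneg_right (by linarith) h2n.le
        _ = 36 * Real.sqrt (QS (f ∘ β) n) * (H * 4 ^ I * Real.sqrt (nuK β n)) := by
            field_simp
    -- part 2
    have hsubsq : ∀ S : Finset ℕ, S ⊆ Finset.range (4 ^ n) →
        Real.sqrt (∑ j ∈ S, (osc (f ∘ β) n j) ^ 2) ≤ Real.sqrt (QS (f ∘ β) n) := fun S hS =>
      Real.sqrt_le_sqrt (Finset.sum_le_sum_of_subset_of_nonneg hS fun _ _ _ => sq_nonneg _)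
    have hLoR : lonely β n I H M₀ ⊆ Finset.range (4 ^ n) := by
      intro k hk
      exact Finset.mem_range.2 (hthin k (Finset.mem_filter.1 hk).1).1
    have A2 : ∑ j ∈ lonely β n I H M₀, osc (f ∘ β) n j ≤
        (2 * 2 ^ n * Real.sqrt (badN β n I / (4 ^ n * M₀) + M₀ * nuK β n)) *
          Real.sqrt (QS (f ∘ β) n) := by
      refine (sum_le_sqrt _ _).trans (mul_le_mul ?_ (hsubsq _ hLoR) (Real.sqrt_nonneg _)
        (by positivity))
      have h1 : ((lonely β n I H M₀).card : ℝ) ≤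
          (2 * 2 ^ n) ^ 2 * (badN β n I / (4 ^ n * M₀) + M₀ * nuK β n) := by
        refine hlon.trans ?_
        have h3 : M₀ * cellN β n ≤ M₀ * (4 ^ n * nuK β n) := mul_le_mul_of_nonneg_left hcel hM.le
        have h5 : (2 * 2 ^ n : ℝ) ^ 2 * (badN β n I / (4 ^ n * M₀) + M₀ * nuK β n) =
            4 * badN β n I / M₀ + 4 * (M₀ * (4 ^ n * nuK β n)) := by
          rw [h4n]
          field_simp
          ring
        rw [h5]
        have h6 : 3 * (badN β n I : ℝ) / M₀ ≤ 4 * badN β n I / M₀ := by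
          gcongr
          norm_num
        have h7 : 0 ≤ M₀ * (4 ^ n * nuK β n) := by positivity
        linarith
      calc Real.sqrt ((lonely β n I H M₀).card : ℝ)
          ≤ Real.sqrt ((2 * 2 ^ n) ^ 2 * (badN β n I / (4 ^ n * M₀) + M₀ * nuK β n)) :=
            Real.sqrt_le_sqrt h1
        _ = 2 * 2 ^ n * Real.sqrt (badN β n I / (4 ^ n * M₀) + M₀ * nuK β n) := by
            rw [Real.sqrt_mul (by positivity), Real.sqrt_sq (by positivity)]
    have B2 : ∑ j ∈ lonely β n I H M₀, 4 * (H / 2 ^ n) * osc (f ∘ β) n j ≤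
        36 * Real.sqrt (QS (f ∘ β) n) *
          (H * Real.sqrt (badN β n I / (4 ^ n * M₀) + M₀ * nuK β n)) := by
      rw [← Finset.mul_sum]
      calc 4 * (H / 2 ^ n) * ∑ j ∈ lonely β n I H M₀, osc (f ∘ β) n j
          ≤ 4 * (H / 2 ^ n) * ((2 * 2 ^ n * Real.sqrt (badN β n I / (4 ^ n * M₀) +
              M₀ * nuK β n)) * Real.sqrt (QS (f ∘ β) n)) :=
            mul_le_mul_of_nonneg_left A2 (by positivity)
        _ = 8 * Real.sqrt (QS (f ∘ β) n) *
          (H * Real.sqrt (badN β n I / (4 ^ n * M₀) + M₀ * nuK β n)) := by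
            field_simp
            ring
        _ ≤ _ := by
            gcongr
            norm_num
    -- part 3
    have A3 : ∑ j ∈ Fat, (2 ^ n * osc β n j) * osc (f ∘ β) n j ≤
        (Real.sqrt (FS β 2 n) / H) * Real.sqrt (QS (f ∘ β) n) := by
      refine (Real.sum_mul_le_sqrt_mul_sqrt Fat (fun j => 2 ^ n * osc β n j)
        (fun j => osc (f ∘ β) n j)).trans (mul_le_mul ?_ (hsubsq _ Finset.sdiff_subset)
        (Real.sqrt_nonneg _) (by positivity))
      have h1 : ∑ j ∈ Fat, (2 ^ n * osc β n j) ^ 2 ≤ FS β 2 n / H ^ 2 := by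
        rw [le_div_iff₀ (by positivity), Finset.sum_mul]
        unfold FS
        refine (Finset.sum_le_sum fun j hj => ?_).trans
          (Finset.sum_le_sum_of_subset_of_nonneg Finset.sdiff_subset fun j _ _ =>
            pow_nonneg (mul_nonneg h2n.le (osc_nonneg _ _ _)) _)
        have hj' := Finset.mem_sdiff.1 hj
        have h3 : H < 2 ^ n * osc β n j := by
          by_contra hcon
          exact hj'.2 (Finset.mem_filter.2 ⟨hj'.1, not_lt.1 hcon⟩)
        have h4 : H ^ 2 ≤ (2 ^ n * osc β n j) ^ 2 := by gcongr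
        calc (2 ^ n * osc β n j) ^ 2 * H ^ 2 ≤ (2 ^ n * osc β n j) ^ 2 * (2 ^ n * osc β n j) ^ 2 :=
              mul_le_mul_of_nonneg_left h4 (sq_nonneg _)
          _ = (2 ^ n * osc β n j) ^ (2 * 2) := by ring
      calc Real.sqrt (∑ j ∈ Fat, (2 ^ n * osc β n j) ^ 2) ≤ Real.sqrt (FS β 2 n / H ^ 2) :=
            Real.sqrt_le_sqrt h1
        _ = Real.sqrt (FS β 2 n) / H := by
            rw [Real.sqrt_div' _ (by positivity), Real.sqrt_sq hH0.le]
    have B3 : ∑ j ∈ Fat, 4 * osc β n j * osc (f ∘ β) n j ≤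
        36 * Real.sqrt (QS (f ∘ β) n) * (Real.sqrt (FS β 2 n / 4 ^ n) / H) := by
      have h1 : ∑ j ∈ Fat, 4 * osc β n j * osc (f ∘ β) n j =
          4 / 2 ^ n * ∑ j ∈ Fat, (2 ^ n * osc β n j) * osc (f ∘ β) n j := by
        rw [Finset.mul_sum]
        refine Finset.sum_congr rfl fun j _ => ?_
        field_simp
      have h2 : Real.sqrt (FS β 2 n / 4 ^ n) = Real.sqrt (FS β 2 n) / 2 ^ n := by
        rw [h4n, Real.sqrt_div' _ (by positivity), Real.sqrt_mul_self h2n.le]
      rw [h1, h2]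
      calc 4 / 2 ^ n * ∑ j ∈ Fat, (2 ^ n * osc β n j) * osc (f ∘ β) n j
          ≤ 4 / 2 ^ n * ((Real.sqrt (FS β 2 n) / H) * Real.sqrt (QS (f ∘ β) n)) :=
            mul_le_mul_of_nonneg_left A3 (by positivity)
        _ = 4 * Real.sqrt (QS (f ∘ β) n) * (Real.sqrt (FS β 2 n) / 2 ^ n / H) := by
            field_simp
        _ ≤ _ := by
            gcongr
            norm_num
    rw [mul_add, mul_add]
    exact add_le_add (add_le_add B1 B2) B3

end Pool.Agent.Lib.MP_8b264c_pr.QV
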