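import Pool.Agent.Lib.MP_8b264c_pr.QV.Spec

set_option autoImplicit false

open MeasureTheory Set ProbabilityTheory Filter Topology

namespace Pool.Agent.Lib.MP_8b264c_pr.QV

open Pool.Agent.BMR

namespace EXTM

lemma tm_mono {n a b : ℕ} (h : a ≤ b) : tm n a ≤ tm n b := by
  unfold tm
  exact div_le_div_of_nonneg_right (by exact_mod_cast h) (by positivity)

lemma tm_nonneg (n a : ℕ) : 0 ≤ tm n a := by
  unfold tm
  positivity

lemma tm_top (n : ℕ) : tm n (4 ^ n) = 1 := by
  unfold tm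
  push_cast
  exact div_self (by positivity)

lemma osc_nonneg (γ : ℝ → ℂ) (n j : ℕ) : 0 ≤ osc γ n j := Metric.diam_nonneg

lemma dist_le_osc {γ : ℝ → ℂ} (hγ : ContinuousOn γ (Icc 0 1)) {n j : ℕ} (hj : j + 1 ≤ 4 ^ n)
    {s t : ℝ} (hs : s ∈ Icc (tm n j) (tm n (j + 1))) (ht : t ∈ Icc (tm n j) (tm n (j + 1))) :
    dist (γ s) (γ t) ≤ osc γ n j := by
  have hsub : Icc (tm n j) (tm n (j + 1)) ⊆ Icc 0 1 := by
    refine Icc_subset_Icc (tm_nonneg n j) ?_
    rw [← tm_top n]
    exact tm_mono hj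
  have hc : IsCompact (γ '' Icc (tm n j) (tm n (j + 1))) :=
    isCompact_Icc.image_of_continuousOn (hγ.mono hsub)
  exact Metric.dist_le_diam_of_mem hc.isBounded (mem_image_of_mem _ hs) (mem_image_of_mem _ ht)

lemma chain {γ : ℝ → ℂ} (hγ : ContinuousOn γ (Icc 0 1)) {n a : ℕ} : ∀ b : ℕ, a ≤ b → b ≤ 4 ^ n →
    ∀ s t : ℝ, s ∈ Icc (tm n a) (tm n b) → t ∈ Icc (tm n a) (tm n b) → s ≤ t →
    dist (γ s) (γ t) ≤ ∑ i ∈ Finset.Ico a b, osc γ n i := by
  intro b hab
  induction b, hab using Nat.le_induction with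
  | base =>
    intro _ s t hs ht _
    have h1 : s = t := le_antisymm (hs.2.trans ht.1) (ht.2.trans hs.1)
    rw [h1, dist_self, Finset.Ico_self, Finset.sum_empty]
  | succ b hab ih =>
    intro hb s t hs ht hst
    rw [Finset.sum_Ico_succ_top hab]
    have hosc := osc_nonneg γ n b
    have hsum : 0 ≤ ∑ i ∈ Finset.Ico a b, osc γ n i := Finset.sum_nonneg fun i _ => osc_nonneg γ n i
    rcases le_total t (tm n b) with h1 | h1
    · have := ih (by omega) s t ⟨hs.1, hst.trans h1⟩ ⟨ht.1, h1⟩ hst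
      linarith
    · rcases le_total (tm n b) s with h2 | h2
      · have := dist_le_osc hγ hb ⟨h2, hs.2⟩ ⟨h1, ht.2⟩
        linarith
      · have h3 := ih (by omega) s (tm n b) ⟨hs.1, h2⟩ ⟨tm_mono hab, le_rfl⟩ h2
        have h4 := dist_le_osc hγ hb (s := tm n b) ⟨le_rfl, tm_mono (by omega)⟩ ⟨h1, ht.2⟩
        have h5 := dist_triangle (γ s) (γ (tm n b)) (γ t)
        linarith

lemma window (a : ℕ → ℝ) (ha : ∀ i, 0 ≤ a i) (N L : ℕ) :
    ∑ j ∈ Finset.range N, ∑ i ∈ Finset.Ico j (min (j + L) N), a i ≤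
      (L : ℝ) * ∑ i ∈ Finset.range N, a i := by
  have h1 : ∀ j, ∑ i ∈ Finset.Ico j (min (j + L) N), a i =
      ∑ i ∈ Finset.range N, if j ≤ i ∧ i < j + L then a i else 0 := by
    intro j
    rw [← Finset.sum_filter]
    refine Finset.sum_congr ?_ fun _ _ => rfl
    ext i
    simp only [Finset.mem_Ico, Finset.mem_filter, Finset.mem_range]
    omega
  simp_rw [h1]
  rw [Finset.sum_comm, Finset.mul_sum]
  refine Finset.sum_le_sum fun i _ => ?_
  rw [← Finset.sum_filter, Finset.sum_const, nsmul_eq_mul]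
  refine mul_le_mul_of_nonneg_right ?_ (ha i)
  have h2 : (Finset.range N).filter (fun j => j ≤ i ∧ i < j + L) ⊆ Finset.Ico (i + 1 - L) (i + 1) := by
    intro j hj
    simp only [Finset.mem_filter, Finset.mem_range] at hj
    rw [Finset.mem_Ico]
    omega
  have h3 := Finset.card_le_card h2
  rw [Nat.card_Ico] at h3
  exact_mod_cast h3.trans (by omega)

end EXTM

open EXTM in
theorem specEXT : SpecEXT := by
  intro γ n I hγ
  constructor
  · intro j hj s hs t ht
    have hb : min (j + 4 ^ I) (4 ^ n) ≤ 4 ^ n := min_le_right _ _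
    have hab : j ≤ min (j + 4 ^ I) (4 ^ n) := le_min (Nat.le_add_right _ _) hj.le
    have hEI : EI n I j = Icc (tm n j) (tm n (min (j + 4 ^ I) (4 ^ n))) := by
      unfold EI
      congr 1
      rcases le_total (j + 4 ^ I) (4 ^ n) with h | h
      · rw [min_eq_left h, min_eq_right]
        rw [← tm_top n]
        exact tm_mono h
      · rw [min_eq_right h, tm_top, min_eq_left]
        rw [← tm_top n]
        exact tm_mono h
    rw [hEI] at hs ht
    unfold ext
    rcases le_total s t with h | h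
    · exact chain hγ _ hab hb s t hs ht h
    · rw [dist_comm]
      exact chain hγ _ hab hb t s ht hs h
  · have h1 : ∀ j, ext γ n I j ^ 2 ≤ (4 ^ I : ℕ) *
        ∑ i ∈ Finset.Ico j (min (j + 4 ^ I) (4 ^ n)), osc γ n i ^ 2 := by
      intro j
      unfold ext
      refine (sq_sum_le_card_mul_sum_sq (s := Finset.Ico j (min (j + 4 ^ I) (4 ^ n)))
        (f := fun i => osc γ n i)).trans ?_
      refine mul_le_mul_of_nonneg_right ?_ (Finset.sum_nonneg fun i _ => sq_nonneg _)
      rw [Nat.card_Ico]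
      have : min (j + 4 ^ I) (4 ^ n) - j ≤ 4 ^ I := by
        rw [Nat.sub_le_iff_le_add, add_comm (4 ^ I) j]
        exact min_le_left _ _
      exact_mod_cast this
    refine (Finset.sum_le_sum fun j _ => h1 j).trans ?_
    rw [← Finset.mul_sum]
    have h2 := window (fun i => osc γ n i ^ 2) (fun i => sq_nonneg _) (4 ^ n) (4 ^ I)
    refine (mul_le_mul_of_nonneg_left h2 (Nat.cast_nonneg _)).trans (le_of_eq ?_)
    unfold QS
    push_cast
    ring

end Pool.Agent.Lib.MP_8b264c_pr.QV
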