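import Pool.Agent.Lib.MP_8b264c_pr.QV.Spec

set_option autoImplicit false

open MeasureTheory Set ProbabilityTheory Filter Topology

namespace Pool.Agent.Lib.MP_8b264c_pr.QV

open Pool.Agent.BMR

namespace FINM

lemma osc_eq (γ : ℝ → ℂ) (n j : ℕ) :
    osc γ n j = Metric.diam (γ '' Icc ((j : ℝ) / 4 ^ n) (((j : ℝ) + 1) / 4 ^ n)) := by
  unfold osc tm
  push_cast
  rfl

lemma hre (z w : ℂ) : |z.re - w.re| ≤ ‖z - w‖ := by
  rw [← Complex.sub_re]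
  exact Complex.abs_re_le_norm _

lemma him (z w : ℂ) : |z.im - w.im| ≤ ‖z - w‖ := by
  rw [← Complex.sub_im]
  exact Complex.abs_im_le_norm _

/-- The root `μ = lam^(1/32)`. -/
lemma exists_root {lam : ℝ} (h1 : 1 / 4 ^ 7 ≤ lam) (h2 : lam < 1) :
    ∃ μ : ℝ, 0 < μ ∧ μ < 1 ∧ μ ^ 32 = lam ∧ μ⁻¹ ≤ 4 := by
  have h0 : 0 < lam := lt_of_lt_of_le (by positivity) h1
  have e : (lam ^ ((1 : ℝ) / 32)) ^ 32 = lam := by
    rw [← Real.rpow_natCast, ← Real.rpow_mul h0.le]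
    norm_num
  have hμ0 : 0 < lam ^ ((1 : ℝ) / 32) := Real.rpow_pos_of_pos h0 _
  refine ⟨lam ^ ((1 : ℝ) / 32), hμ0, ?_, e, ?_⟩
  · by_contra hge
    rw [not_lt] at hge
    have : (1 : ℝ) ≤ (lam ^ ((1 : ℝ) / 32)) ^ 32 := one_le_pow₀ hge
    rw [e] at this
    linarith
  · by_contra hlt
    rw [not_le] at hlt
    have h3 : lam ^ ((1 : ℝ) / 32) < 1 / 4 := by
      rw [lt_inv_comm₀ (by norm_num) hμ0] at hlt
      linarith
    have h4 : (lam ^ ((1 : ℝ) / 32)) ^ 32 < (1 / 4) ^ 32 := by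
      exact pow_lt_pow_left₀ h3 hμ0.le (by norm_num)
    rw [e] at h4
    norm_num at h1 h4
    linarith

/-- The exponent `c`. -/
lemma exists_exp {μ : ℝ} (h0 : 0 < μ) (h1 : μ < 1) :
    ∃ c : ℝ, 0 < c ∧ ∀ C : ℝ, 0 ≤ C → ∀ k : ℕ,
      C * ((nk k : ℝ) + 1) ^ c ≤ (C * 2 ^ c) * (μ⁻¹) ^ k := by
  have hl : 0 < Real.log μ⁻¹ := Real.log_pos (by
    rw [lt_inv_comm₀ one_pos h0, inv_one]
    exact h1)
  have h4 : 0 < Real.log 4 := Real.log_pos (by norm_num)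
  refine ⟨Real.log μ⁻¹ / (8 * Real.log 4), by positivity, fun C hC k => ?_⟩
  set c : ℝ := Real.log μ⁻¹ / (8 * Real.log 4) with hc
  have hc0 : 0 < c := by positivity
  have h5 : ((4 : ℝ) ^ (8 * k)) ^ c = (μ⁻¹) ^ k := by
    have h6 : (4 : ℝ) ^ (8 * k) = Real.exp ((8 * k : ℕ) * Real.log 4) := by
      rw [Real.exp_nat_mul, Real.exp_log (by norm_num)]
    have h7 : (μ⁻¹) ^ k = Real.exp ((k : ℕ) * Real.log μ⁻¹) := by
      rw [Real.exp_nat_mul, Real.exp_log (by positivity)]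
    rw [h6, h7, ← Real.exp_mul]
    congr 1
    rw [hc]
    push_cast
    field_simp
  have h8 : ((nk k : ℝ) + 1) ^ c ≤ 2 ^ c * (μ⁻¹) ^ k := by
    rw [← h5, ← Real.mul_rpow (by norm_num) (by positivity)]
    refine Real.rpow_le_rpow (by positivity) ?_ hc0.le
    unfold nk
    push_cast
    have : (1 : ℝ) ≤ 4 ^ (8 * k) := one_le_pow₀ (by norm_num)
    linarith
  calc C * ((nk k : ℝ) + 1) ^ c ≤ C * (2 ^ c * (μ⁻¹) ^ k) := mul_le_mul_of_nonneg_left h8 hC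
    _ = _ := by ring

/-- The trace has area zero. -/
lemma area_zero {β : ℝ → ℂ} (hβ : Continuous β) {R μ : ℝ} (hR : 0 ≤ R) (hμ : μ⁻¹ ≤ 4)
    (hμ0 : 0 < μ)
    (h : ∀ k : ℕ, 1 ≤ k → nuK β (nk k) ≤ R * (μ⁻¹) ^ k / nk k) : volume (cc ⁻¹' (trace β)) = 0 := by
  have hcpt : IsCompact (trace β) := isCompact_Icc.image hβ
  have h1 : ∀ k : ℕ, 1 ≤ k → volume (cc ⁻¹' (trace β)) ≤ ENNReal.ofReal (R * (1 / 4 ^ 7) ^ k) := by
    intro k hk
    have h2 : volume (cc ⁻¹' (trace β)) ≤ volume (nb (trace β) (1 / 2 ^ (nk k))) := by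
      refine measure_mono ?_
      intro p hp
      refine ⟨cc p, hp, ?_, ?_⟩
      · have : (cc p).re - p.1 = 0 := by simp [cc]
        rw [this, abs_zero]
        positivity
      · have : (cc p).im - p.2 = 0 := by simp [cc]
        rw [this, abs_zero]
        positivity
    refine h2.trans ?_
    rw [← ENNReal.ofReal_toReal (vol_nb_ne_top hcpt (1 / 2 ^ (nk k)))]
    refine ENNReal.ofReal_le_ofReal ((h k hk).trans ?_)
    unfold nk
    push_cast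
    have h3 : (μ⁻¹) ^ k ≤ 4 ^ k := pow_le_pow_left₀ (by positivity) hμ k
    rw [div_le_iff₀ (by positivity), mul_assoc]
    refine mul_le_mul_of_nonneg_left (h3.trans (le_of_eq ?_)) hR
    rw [one_div, inv_pow, ← pow_mul, ← div_eq_inv_mul, eq_div_iff (by positivity), ← pow_add]
    congr 1
    ring
  have h2 : Tendsto (fun k : ℕ => ENNReal.ofReal (R * (1 / 4 ^ 7) ^ k)) atTop (𝓝 0) := by
    have h3 : Tendsto (fun k : ℕ => R * (1 / 4 ^ 7 : ℝ) ^ k) atTop (𝓝 (R * 0)) :=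
      (tendsto_pow_atTop_nhds_zero_of_lt_one (by norm_num) (by norm_num)).const_mul R
    rw [mul_zero] at h3
    have h4 := ENNReal.tendsto_ofReal h3
    rwa [ENNReal.ofReal_zero] at h4
  refine le_antisymm (ge_of_tendsto h2 ?_) bot_le
  filter_upwards [eventually_ge_atTop 1] with k hk
  exact h1 k hk

end FINM

theorem specMA (hASA : SpecASA) (hASD : SpecASD) (hCRI : SpecCRI) : SpecMA := by
  obtain ⟨lam, l1, l2, hA⟩ := hASA
  obtain ⟨μ, m0, m1, mp, m4⟩ := FINM.exists_root l1 l2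
  obtain ⟨c, c0, hc⟩ := FINM.exists_exp m0 m1
  have hκ : 1 < μ⁻¹ := by
    rw [lt_inv_comm₀ one_pos m0, inv_one]
    exact m1
  refine ⟨c, c0, ?_⟩
  intro Ω _ P _ B hB
  filter_upwards [hA Ω P B hB μ⁻¹ hκ] with ω hω
  obtain ⟨R, hR, hk⟩ := hω
  intro f hf hQ
  obtain ⟨C, hC⟩ := hQ
  have hβ : Continuous (fun t => B t ω) := hB.cont ω
  -- the hypothesis on the quadratic sums
  have hQ2 : ∀ k : ℕ, 1 ≤ k → QS (⇑f ∘ fun t => B t ω) (nk k) ≤ (|C| * 2 ^ c) * (μ⁻¹) ^ k := by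
    intro k _
    have h1 : QS (⇑f ∘ fun t => B t ω) (nk k) ≤ C * ((nk k : ℝ) + 1) ^ c := by
      refine le_trans (le_of_eq ?_) (hC (nk k))
      unfold QS
      refine Finset.sum_congr rfl fun j _ => ?_
      rw [FINM.osc_eq]
      rfl
    refine h1.trans (le_trans ?_ (hc |C| (abs_nonneg C) k))
    exact mul_le_mul_of_nonneg_right (le_abs_self C) (by positivity)
  have slices := hASD lam l1 l2 μ m0 mp (fun t => B t ω) (⇑f) R (|C| * 2 ^ c) hβ f.continuous hR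
    (by positivity) hk hQ2
  have hclosed : IsClosed (trace fun t => B t ω) := (isCompact_Icc.image hβ).isClosed
  exact hCRI (trace fun t => B t ω) f hclosed hf
    (FINM.area_zero hβ hR m4 m0 fun k h1 => (hk k h1).1)
    (slices Complex.re Complex.im FINM.hre FINM.him)
    (slices Complex.im Complex.im FINM.him FINM.him)
    (slices Complex.re Complex.re FINM.hre FINM.hre)
    (slices Complex.im Complex.re FINM.him FINM.hre)

theorem specMB (hMA : SpecMA) (hVAA : SpecVAA) (hVAD : SpecVAD) : SpecMB := by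
  obtain ⟨c, c0, hM⟩ := hMA
  intro Ω _ P _ B Y hB hY
  obtain ⟨q, hq⟩ := exists_nat_ge (max 2 (3 / c))
  have hq2 : 2 ≤ q := by
    have := (le_max_left _ _).trans hq
    exact_mod_cast this
  have hq3 : 3 / (q : ℝ) ≤ c := by
    have h1 := (le_max_right _ _).trans hq
    have h2 : (0 : ℝ) < q := by
      have : (2 : ℝ) ≤ q := by exact_mod_cast hq2
      linarith
    rw [div_le_iff₀ c0] at h1
    rw [div_le_iff₀ h2]
    linarith
  filter_upwards [hM Ω P B hB, hVAA Ω P Y hY q hq2] with ω h1 h2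
  intro f τ hf hτ hmon heq
  obtain ⟨C, hC⟩ := h2
  obtain ⟨C', hC'⟩ := hVAD (fun t => Y t ω) q C (hY.cont ω) hq2 hC
  refine h1 f hf ⟨|C'|, fun n => ?_⟩
  have p4 : (0 : ℝ) < 4 ^ n := by positivity
  -- the grid points
  have g1 : ∀ i : ℕ, i ≤ 4 ^ n → (i : ℝ) / 4 ^ n ∈ Icc (0 : ℝ) 1 := by
    intro i hi
    refine ⟨by positivity, ?_⟩
    rw [div_le_one p4]
    exact_mod_cast hi
  have g2 : ∀ i : ℕ, i < 4 ^ n → ((i : ℝ) + 1) / 4 ^ n ∈ Icc (0 : ℝ) 1 := by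
    intro i hi
    have := g1 (i + 1) hi
    push_cast at this
    exact this
  have hcpt : ∀ a b : ℝ, 0 ≤ a → b ≤ 1 → IsCompact ((fun t => Y t ω) '' Icc a b) := by
    intro a b ha hb
    exact isCompact_Icc.image_of_continuousOn ((hY.cont ω).mono (Icc_subset_Icc ha hb))
  have hfin : ((n : ℝ) + 1) ^ (3 / (q : ℝ)) ≤ ((n : ℝ) + 1) ^ c := by
    refine Real.rpow_le_rpow_of_exponent_le ?_ hq3
    have : (0 : ℝ) ≤ n := Nat.cast_nonneg n
    linarith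
  have key : ∃ u v : ℕ → ℝ, (∀ i < 4 ^ n, 0 ≤ u i ∧ u i ≤ v i ∧ v i ≤ 1) ∧
      (∀ i < 4 ^ n, ∀ j < 4 ^ n, i < j → v i ≤ u j ∨ v j ≤ u i) ∧
      ∀ i : ℕ, i < 4 ^ n → (fun t => f (B t ω)) '' Icc ((i : ℝ) / 4 ^ n) (((i : ℝ) + 1) / 4 ^ n) ⊆
        (fun t => Y t ω) '' Icc (u i) (v i) := by
    have hstep : ∀ i : ℕ, (i : ℝ) / 4 ^ n ≤ ((i : ℝ) + 1) / 4 ^ n := fun i => by
      gcongr
      linarith
    have hlt : ∀ i j : ℕ, i < j → ((i : ℝ) + 1) / 4 ^ n ≤ (j : ℝ) / 4 ^ n := by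
      intro i j hij
      have : ((i : ℝ) + 1) ≤ j := by exact_mod_cast hij
      gcongr
    rcases hmon with hm | hm
    · refine ⟨fun i => τ ((i : ℝ) / 4 ^ n), fun i => τ (((i : ℝ) + 1) / 4 ^ n), ?_, ?_, ?_⟩
      · intro i hi
        exact ⟨(hτ (g1 i hi.le)).1, hm (g1 i hi.le) (g2 i hi) (hstep i), (hτ (g2 i hi)).2⟩
      · intro i hi j hj hij
        exact Or.inl (hm (g2 i hi) (g1 j hj.le) (hlt i j hij))
      · rintro i hi _ ⟨t, ht, rfl⟩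
        have ht01 : t ∈ Icc (0 : ℝ) 1 := ⟨(g1 i hi.le).1.trans ht.1, ht.2.trans (g2 i hi).2⟩
        exact ⟨τ t, ⟨hm (g1 i hi.le) ht01 ht.1, hm ht01 (g2 i hi) ht.2⟩, (heq t ht01).symm⟩
    · refine ⟨fun i => τ (((i : ℝ) + 1) / 4 ^ n), fun i => τ ((i : ℝ) / 4 ^ n), ?_, ?_, ?_⟩
      · intro i hi
        exact ⟨(hτ (g2 i hi)).1, hm (g1 i hi.le) (g2 i hi) (hstep i), (hτ (g1 i hi.le)).2⟩
      · intro i hi j hj hij
        exact Or.inr (hm (g2 i hi) (g1 j hj.le) (hlt i j hij))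
      · rintro i hi _ ⟨t, ht, rfl⟩
        have ht01 : t ∈ Icc (0 : ℝ) 1 := ⟨(g1 i hi.le).1.trans ht.1, ht.2.trans (g2 i hi).2⟩
        exact ⟨τ t, ⟨hm ht01 (g2 i hi) ht.2, hm (g1 i hi.le) ht01 ht.1⟩, (heq t ht01).symm⟩
  obtain ⟨u, v, k1, k2, k3⟩ := key
  calc ∑ j ∈ Finset.range (4 ^ n),
      (Metric.diam ((fun t => f (B t ω)) '' Icc ((j : ℝ) / 4 ^ n) (((j : ℝ) + 1) / 4 ^ n))) ^ 2
      ≤ ∑ i ∈ Finset.range (4 ^ n), (Metric.diam ((fun t => Y t ω) '' Icc (u i) (v i))) ^ 2 := by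
        refine Finset.sum_le_sum fun i hi => ?_
        rw [Finset.mem_range] at hi
        have := Metric.diam_mono (k3 i hi) (hcpt (u i) (v i) (k1 i hi).1 (k1 i hi).2.2).isBounded
        gcongr
    _ ≤ C' * ((n : ℝ) + 1) ^ (3 / (q : ℝ)) := hC' n u v k1 k2
    _ ≤ |C'| * ((n : ℝ) + 1) ^ (3 / (q : ℝ)) :=
        mul_le_mul_of_nonneg_right (le_abs_self C') (by positivity)
    _ ≤ |C'| * ((n : ℝ) + 1) ^ c := mul_le_mul_of_nonneg_left hfin (abs_nonneg C')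

end Pool.Agent.Lib.MP_8b264c_pr.QV
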