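import Pool.Agent.Lib.MP_8b264c_pr.QV.Spec

/-!
# FUB: Fubini for independent maps
-/

set_option autoImplicit false

open MeasureTheory Set ProbabilityTheory Filter Topology

namespace Pool.Agent.Lib.MP_8b264c_pr.QV

open Pool.Agent.BMR

theorem specFUB : SpecFUB := by
  intro Ω _ P _ E E' _ _ X Y hX hY hind F hF
  have h1 : P.map (fun ω => (X ω, Y ω)) = (P.map X).prod (P.map Y) :=
    (indepFun_iff_map_prod_eq_prod_map_map hX hY).1 hind
  have hPX : IsProbabilityMeasure (P.map X) := Measure.isProbabilityMeasure_map hX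
  have hPY : IsProbabilityMeasure (P.map Y) := Measure.isProbabilityMeasure_map hY
  have h2 : ∫⁻ ω, F (X ω) (Y ω) ∂P =
      ∫⁻ z, Function.uncurry F z ∂(P.map (fun ω => (X ω, Y ω))) :=
    (lintegral_map' hF.aemeasurable (hX.prodMk hY)).symm
  rw [h2, h1, lintegral_prod _ hF.aemeasurable]
  have h3 : Measurable fun x => ∫⁻ y, Function.uncurry F (x, y) ∂(P.map Y) :=
    hF.lintegral_prod_right'
  rw [lintegral_map' h3.aemeasurable hX]
  refine lintegral_congr fun ω => ?_
  have h4 : Measurable fun y => Function.uncurry F (X ω, y) := hF.comp measurable_prodMk_left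
  rw [lintegral_map' h4.aemeasurable hY]
  rfl

end Pool.Agent.Lib.MP_8b264c_pr.QV
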