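import Pool.Agent.Lib.MP_8b264c_pr.QV.Spec

/-!
# IND: independence of the increments over two separated families of intervals
-/

set_option autoImplicit false

open MeasureTheory Set ProbabilityTheory Filter Topology

namespace Pool.Agent.Lib.MP_8b264c_pr.QV

open Pool.Agent.BMR

namespace INDM

lemma aemeas {Ω : Type} [MeasurableSpace Ω] {P : Measure Ω} {B : ℝ → Ω → ℂ} (h : IsPBM P B)
    {t : ℝ} (ht : t ∈ Icc (0 : ℝ) 1) : AEMeasurable (B t) P := by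
  have h1 := (Complex.measurable_ofReal.comp_aemeasurable (h.aemeasurable_co (t, true) ht)).add
    ((Complex.measurable_ofReal.comp_aemeasurable
      (h.aemeasurable_co (t, false) ht)).mul_const Complex.I)
  refine h1.congr (Filter.Eventually.of_forall fun ω => ?_)
  simp [co, Complex.re_add_im]

lemma cov_zero {a b c d : ℝ} (hab : a ≤ b) (hcd : c ≤ d) (h : b ≤ c ∨ d ≤ a) :
    min b d - min b c - (min a d - min a c) = 0 := by
  rcases h with h | h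
  · rw [min_eq_left (h.trans hcd), min_eq_left h, min_eq_left (hab.trans (h.trans hcd)),
      min_eq_left (hab.trans h)]
    ring
  · rw [min_eq_right (h.trans hab), min_eq_right (hcd.trans (h.trans hab)), min_eq_right h,
      min_eq_right (hcd.trans h)]
    ring

end INDM

open INDM in
theorem specIND : SpecIND := by
  classical
  intro Ω _ P _ B h
  refine ⟨fun t ht => aemeas h ht, fun T₁ T₂ u₁ v₁ u₂ v₂ h₁ h₂ hd => ?_⟩
  have hbase : IsGaussianProcess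
      (fun (p : {p : ℝ × Bool // p.1 ∈ Set.Icc (0 : ℝ) 1}) (ω : Ω) => co B p ω) P :=
    h.gaussian Subtype.val fun p => p.2
  have mu₁ : ∀ q : T₁ × Bool, u₁ q.1 ∈ Set.Icc (0 : ℝ) 1 := fun q =>
    ⟨(h₁ q.1).1, (h₁ q.1).2.1.trans (h₁ q.1).2.2⟩
  have mv₁ : ∀ q : T₁ × Bool, v₁ q.1 ∈ Set.Icc (0 : ℝ) 1 := fun q =>
    ⟨(h₁ q.1).1.trans (h₁ q.1).2.1, (h₁ q.1).2.2⟩
  have mu₂ : ∀ q : T₂ × Bool, u₂ q.1 ∈ Set.Icc (0 : ℝ) 1 := fun q =>
    ⟨(h₂ q.1).1, (h₂ q.1).2.1.trans (h₂ q.1).2.2⟩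
  have mv₂ : ∀ q : T₂ × Bool, v₂ q.1 ∈ Set.Icc (0 : ℝ) 1 := fun q =>
    ⟨(h₂ q.1).1.trans (h₂ q.1).2.1, (h₂ q.1).2.2⟩
  let Y1 : T₁ × Bool → Ω → ℝ := fun q ω => co B (v₁ q.1, q.2) ω - co B (u₁ q.1, q.2) ω
  let Y2 : T₂ × Bool → Ω → ℝ := fun q ω => co B (v₂ q.1, q.2) ω - co B (u₂ q.1, q.2) ω
  have hG : IsGaussianProcess (Sum.elim Y1 Y2) P := by
    refine hbase.of_isGaussianProcess ?_
    rintro (q | q)
    · exact ⟨{⟨(v₁ q.1, q.2), mv₁ q⟩, ⟨(u₁ q.1, q.2), mu₁ q⟩},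
        { toFun x := x ⟨⟨(v₁ q.1, q.2), mv₁ q⟩, by simp⟩ - x ⟨⟨(u₁ q.1, q.2), mu₁ q⟩, by simp⟩
          map_add' x y := by simp; abel
          map_smul' c x := by simp; ring },
        fun ω => rfl⟩
    · exact ⟨{⟨(v₂ q.1, q.2), mv₂ q⟩, ⟨(u₂ q.1, q.2), mu₂ q⟩},
        { toFun x := x ⟨⟨(v₂ q.1, q.2), mv₂ q⟩, by simp⟩ - x ⟨⟨(u₂ q.1, q.2), mu₂ q⟩, by simp⟩
          map_add' x y := by simp; abel
          map_smul' c x := by simp; ring },
        fun ω => rfl⟩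
  have hL : ∀ p : ℝ × Bool, p.1 ∈ Set.Icc (0 : ℝ) 1 → MemLp (co B p) 2 P := fun p hp =>
    (hbase.hasGaussianLaw_eval ⟨p, hp⟩).memLp_two
  have hind : IndepFun (fun ω q => Y1 q ω) (fun ω q => Y2 q ω) P := by
    refine hG.indepFun_of_covariance_eq_zero ?_ ?_ ?_
    · exact fun q => (h.aemeasurable_co _ (mv₁ q)).sub (h.aemeasurable_co _ (mu₁ q))
    · exact fun q => (h.aemeasurable_co _ (mv₂ q)).sub (h.aemeasurable_co _ (mu₂ q))
    · intro q q'
      have e1 : Y1 q = co B (v₁ q.1, q.2) - co B (u₁ q.1, q.2) := rfl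
      have e2 : Y2 q' = co B (v₂ q'.1, q'.2) - co B (u₂ q'.1, q'.2) := rfl
      rw [e1, e2, covariance_sub_left (hL _ (mv₁ q)) (hL _ (mu₁ q))
          ((hL _ (mv₂ q')).sub (hL _ (mu₂ q'))),
        covariance_sub_right (hL _ (mv₁ q)) (hL _ (mv₂ q')) (hL _ (mu₂ q')),
        covariance_sub_right (hL _ (mu₁ q)) (hL _ (mv₂ q')) (hL _ (mu₂ q')),
        h.cov_co _ _ (mv₁ q) (mv₂ q'), h.cov_co _ _ (mv₁ q) (mu₂ q'),
        h.cov_co _ _ (mu₁ q) (mv₂ q'), h.cov_co _ _ (mu₁ q) (mu₂ q')]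
      split_ifs
      · exact cov_zero (h₁ q.1).2.1 (h₂ q'.1).2.1 (hd q.1 q'.1)
      · ring
  have hg : ∀ T : Type, Measurable fun (y : T × Bool → ℝ) (i : T) =>
      ((y (i, true) : ℂ) + (y (i, false) : ℂ) * Complex.I) := by
    intro T
    refine measurable_pi_lambda _ fun i => ?_
    exact (Complex.measurable_ofReal.comp (measurable_pi_apply (i, true))).add
      ((Complex.measurable_ofReal.comp (measurable_pi_apply (i, false))).mul_const Complex.I)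
  have h3 := hind.comp (hg T₁) (hg T₂)
  have e1 : ((fun (y : T₁ × Bool → ℝ) (i : T₁) =>
      ((y (i, true) : ℂ) + (y (i, false) : ℂ) * Complex.I)) ∘ fun ω q => Y1 q ω) =
      fun ω (i : T₁) => B (v₁ i) ω - B (u₁ i) ω := by
    funext ω i
    apply Complex.ext <;> simp [Y1, co]
  have e2 : ((fun (y : T₂ × Bool → ℝ) (i : T₂) =>
      ((y (i, true) : ℂ) + (y (i, false) : ℂ) * Complex.I)) ∘ fun ω q => Y2 q ω) =
      fun ω (i : T₂) => B (v₂ i) ω - B (u₂ i) ω := by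
    funext ω i
    apply Complex.ext <;> simp [Y2, co]
  rw [e1, e2] at h3
  exact h3

end Pool.Agent.Lib.MP_8b264c_pr.QV
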