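import Pool.Agent.Lib.MP_8b264c_pr.QV.SEG

/-!
# LOC: the local form of the theorem, with an exceptional set of times
-/

set_option autoImplicit false

open MeasureTheory Set ProbabilityTheory Filter Topology

namespace Pool.Agent.Lib.MP_8b264c_pr.QV

open Pool.Agent.BMR

/-- Part A, local form. -/
def SpecLA : Prop :=
  ∃ c : ℝ, 0 < c ∧
  ∀ (Ω : Type) [MeasurableSpace Ω] (P : Measure Ω) [IsProbabilityMeasure P] (B : ℝ → Ω → ℂ),
    IsPBM P B → ∀ᵐ ω ∂P, ∀ (f : ℂ ≃ₜ ℂ) (T : Set ℝ) (S : ℕ → Set ℂ),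
      DifferentiableOn ℂ (⇑f) ((fun t => B t ω) '' Icc (0 : ℝ) 1)ᶜ →
      (∀ j, Measure.hausdorffMeasure 1 (S j) ≠ ⊤) →
      (fun t => B t ω) '' (T ∩ Icc (0 : ℝ) 1) ⊆ ⋃ j, S j →
      (∀ r ∈ Icc (0 : ℝ) 1, r ∉ T → ∃ ε > 0, ∃ C : ℝ, ∀ n : ℕ,
        ∑ j ∈ (Finset.range (4 ^ n)).filter (fun j : ℕ => |(j : ℝ) / 4 ^ n - r| ≤ ε),
          (Metric.diam ((fun t => f (B t ω)) ''
            Icc ((j : ℝ) / 4 ^ n) (((j : ℝ) + 1) / 4 ^ n))) ^ 2 ≤ C * ((n : ℝ) + 1) ^ c) →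
      Differentiable ℂ (⇑f)

/-- Part B, local form. -/
def SpecLB : Prop :=
  ∀ (Ω : Type) [MeasurableSpace Ω] (P : Measure Ω) [IsProbabilityMeasure P] (B Y : ℝ → Ω → ℂ),
    IsPBM P B → MomP P Y → ∀ᵐ ω ∂P, ∀ (f : ℂ ≃ₜ ℂ) (τ : ℝ → ℝ) (T : Set ℝ) (S : ℕ → Set ℂ),
      DifferentiableOn ℂ (⇑f) ((fun t => B t ω) '' Icc (0 : ℝ) 1)ᶜ →
      (∀ j, Measure.hausdorffMeasure 1 (S j) ≠ ⊤) →
      (fun t => B t ω) '' (T ∩ Icc (0 : ℝ) 1) ⊆ ⋃ j, S j →
      (∀ r ∈ Icc (0 : ℝ) 1, r ∉ T → ∃ ε > 0,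
        (∀ t ∈ Icc (0 : ℝ) 1 ∩ Icc (r - ε) (r + ε), τ t ∈ Icc (0 : ℝ) 1 ∧ f (B t ω) = Y (τ t) ω) ∧
        (MonotoneOn τ (Icc (0 : ℝ) 1 ∩ Icc (r - ε) (r + ε)) ∨
          AntitoneOn τ (Icc (0 : ℝ) 1 ∩ Icc (r - ε) (r + ε)))) →
      Differentiable ℂ (⇑f)

namespace LOCM

lemma tm_add' (m n p j : ℕ) : tm (m + n) (p * 4 ^ n + j) = tm m p + tm n j / 4 ^ m := by
  unfold tm
  push_cast
  rw [pow_add]
  field_simp

/-- The 4-adic interval around a point. -/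
lemma exists_piece {r ε : ℝ} (hr : r ∈ Icc (0 : ℝ) 1) (hε : 0 < ε) :
    ∃ m p : ℕ, p < 4 ^ m ∧ r ∈ Icc (tm m p) (tm m (p + 1)) ∧ 1 / 4 ^ m ≤ ε := by
  obtain ⟨m, hm⟩ := exists_pow_lt_of_lt_one hε (show (1 / 4 : ℝ) < 1 by norm_num)
  have p4 : (0 : ℝ) < 4 ^ m := by positivity
  have hm' : (1 : ℝ) / 4 ^ m ≤ ε := by
    rw [← one_div_pow]
    exact hm.le
  by_cases h1 : r = 1
  · refine ⟨m, 4 ^ m - 1, ?_, ?_, hm'⟩
    · have : 0 < 4 ^ m := by positivity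
      omega
    · have e : 4 ^ m - 1 + 1 = 4 ^ m := Nat.sub_add_cancel (Nat.one_le_pow _ _ (by norm_num))
      rw [e]
      unfold tm
      push_cast [Nat.cast_sub (Nat.one_le_pow m 4 (by norm_num))]
      rw [h1]
      constructor
      · rw [div_le_one p4]
        linarith
      · rw [div_self p4.ne']
  · have hr1 : r < 1 := lt_of_le_of_ne hr.2 h1
    refine ⟨m, ⌊r * 4 ^ m⌋₊, ?_, ?_, hm'⟩
    · rw [Nat.floor_lt (mul_nonneg hr.1 p4.le)]
      push_cast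
      nlinarith
    · unfold tm
      push_cast
      have f1 : (⌊r * 4 ^ m⌋₊ : ℝ) ≤ r * 4 ^ m := Nat.floor_le (mul_nonneg hr.1 p4.le)
      have f2 : r * 4 ^ m < ⌊r * 4 ^ m⌋₊ + 1 := Nat.lt_floor_add_one _
      constructor
      · rwa [div_le_iff₀ p4]
      · rw [le_div_iff₀ p4]
        exact f2.le

lemma index_lt {m n p j : ℕ} (hp : p < 4 ^ m) (hj : j < 4 ^ n) : p * 4 ^ n + j < 4 ^ (m + n) := by
  have h1 : (p + 1) * 4 ^ n ≤ 4 ^ m * 4 ^ n := Nat.mul_le_mul_right _ hp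
  rw [pow_add]
  have h2 : (p + 1) * 4 ^ n = p * 4 ^ n + 4 ^ n := by ring
  omega

end LOCM

theorem specLA (hSEG : SpecSEG) (hCRI : SpecCRI) : SpecLA := by
  obtain ⟨c, c0, hS⟩ := hSEG
  refine ⟨c, c0, ?_⟩
  intro Ω _ P _ B hB
  obtain ⟨h0, hS⟩ := hS Ω P B hB
  have hall : ∀ᵐ ω ∂P, ∀ m p : ℕ, p < 4 ^ m → ∀ f : ℂ → ℂ, Continuous f →
      (∃ C : ℝ, ∀ n : ℕ, ∑ j ∈ Finset.range (4 ^ n),
        (osc (f ∘ fun t => B t ω) (m + n) (p * 4 ^ n + j)) ^ 2 ≤ C * ((n : ℝ) + 1) ^ c) →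
      ∀ g h : ℂ → ℝ, (∀ z w, |g z - g w| ≤ ‖z - w‖) → (∀ z w, |h z - h w| ≤ ‖z - w‖) →
        ∀ᵐ v : ℝ, volume ((fun z => g (f z)) '' {z | z ∈ pc (fun t => B t ω) m p ∧ h z = v}) = 0 := by
    refine ae_all_iff.mpr fun m => ae_all_iff.mpr fun p => ?_
    by_cases hp : p < 4 ^ m
    · filter_upwards [hS m p hp] with ω hω _
      exact hω
    · exact Eventually.of_forall fun ω hp' => absurd hp' hp
  filter_upwards [h0, hall] with ω hω0 hω
  intro f T S hf hSf hTS hloc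
  have hβ : Continuous (fun t => B t ω) := hB.cont ω
  have hclosed : IsClosed (trace fun t => B t ω) := (isCompact_Icc.image hβ).isClosed
  -- good pieces
  let good : ℕ × ℕ → Prop := fun q => q.2 < 4 ^ q.1 ∧ ∃ C : ℝ, ∀ n : ℕ,
    ∑ j ∈ Finset.range (4 ^ n),
      (osc (⇑f ∘ fun t => B t ω) (q.1 + n) (q.2 * 4 ^ n + j)) ^ 2 ≤ C * ((n : ℝ) + 1) ^ c
  have hcover : ∀ r ∈ Icc (0 : ℝ) 1, r ∉ T → ∃ q : ℕ × ℕ, good q ∧
      B r ω ∈ pc (fun t => B t ω) q.1 q.2 := by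
    intro r hr hrT
    obtain ⟨ε, hε, C, hC⟩ := hloc r hr hrT
    obtain ⟨m, p, hp, hrp, hm⟩ := LOCM.exists_piece hr hε
    have p4 : (0 : ℝ) < 4 ^ m := by positivity
    refine ⟨(m, p), ⟨hp, |C| * ((m : ℝ) + 1) ^ c, fun n => ?_⟩, ⟨r, hrp, rfl⟩⟩
    have hlen : tm m (p + 1) = tm m p + 1 / 4 ^ m := by
      unfold tm
      push_cast
      ring
    have h1 : ∑ j ∈ Finset.range (4 ^ n),
        (osc (⇑f ∘ fun t => B t ω) (m + n) (p * 4 ^ n + j)) ^ 2 ≤
        ∑ j ∈ (Finset.range (4 ^ (m + n))).filter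
          (fun j : ℕ => |(j : ℝ) / 4 ^ (m + n) - r| ≤ ε),
          (Metric.diam ((fun t => f (B t ω)) ''
            Icc ((j : ℝ) / 4 ^ (m + n)) (((j : ℝ) + 1) / 4 ^ (m + n)))) ^ 2 := by
      have h2 : ∑ j ∈ Finset.range (4 ^ n),
          (osc (⇑f ∘ fun t => B t ω) (m + n) (p * 4 ^ n + j)) ^ 2 =
          ∑ i ∈ (Finset.range (4 ^ n)).map (addLeftEmbedding (p * 4 ^ n)),
            (osc (⇑f ∘ fun t => B t ω) (m + n) i) ^ 2 := by
        rw [Finset.sum_map]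
        rfl
      rw [h2]
      have h3 : ∀ i : ℕ, (Metric.diam ((fun t => f (B t ω)) ''
            Icc ((i : ℝ) / 4 ^ (m + n)) (((i : ℝ) + 1) / 4 ^ (m + n)))) ^ 2 =
            (osc (⇑f ∘ fun t => B t ω) (m + n) i) ^ 2 := by
        intro i
        rw [FINM.osc_eq]
        rfl
      rw [Finset.sum_congr rfl fun i _ => h3 i]
      refine Finset.sum_le_sum_of_subset_of_nonneg ?_ fun i _ _ => sq_nonneg _
      intro i hi
      rw [Finset.mem_map] at hi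
      obtain ⟨j, hj, rfl⟩ := hi
      rw [Finset.mem_range] at hj
      rw [Finset.mem_filter, Finset.mem_range]
      change p * 4 ^ n + j < 4 ^ (m + n) ∧ |((p * 4 ^ n + j : ℕ) : ℝ) / 4 ^ (m + n) - r| ≤ ε
      refine ⟨LOCM.index_lt hp hj, ?_⟩
      have e1 := LOCM.tm_add' m n p j
      have e2 : ((p * 4 ^ n + j : ℕ) : ℝ) / 4 ^ (m + n) = tm (m + n) (p * 4 ^ n + j) := rfl
      rw [e2, e1]
      have e3 : 0 ≤ tm n j / 4 ^ m := by
        unfold tm
        positivity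
      have e4 : tm n j / 4 ^ m ≤ 1 / 4 ^ m := by
        have : tm n j ≤ 1 := by
          unfold tm
          rw [div_le_one (by positivity)]
          exact_mod_cast hj.le
        gcongr
      rw [abs_le]
      constructor <;> linarith [hrp.1, hrp.2]
    refine h1.trans ((hC (m + n)).trans ?_)
    have h4 : (((m + n : ℕ) : ℝ) + 1) ^ c ≤ (((m : ℝ) + 1) * ((n : ℝ) + 1)) ^ c := by
      refine Real.rpow_le_rpow (by positivity) ?_ c0.le
      push_cast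
      have a1 : (0 : ℝ) ≤ m := Nat.cast_nonneg m
      have a2 : (0 : ℝ) ≤ n := Nat.cast_nonneg n
      nlinarith [mul_nonneg a1 a2]
    calc C * (((m + n : ℕ) : ℝ) + 1) ^ c ≤ |C| * (((m + n : ℕ) : ℝ) + 1) ^ c :=
          mul_le_mul_of_nonneg_right (le_abs_self C) (by positivity)
      _ ≤ |C| * (((m : ℝ) + 1) * ((n : ℝ) + 1)) ^ c :=
          mul_le_mul_of_nonneg_left h4 (abs_nonneg C)
      _ = |C| * ((m : ℝ) + 1) ^ c * ((n : ℝ) + 1) ^ c := by
          rw [Real.mul_rpow (by positivity) (by positivity), mul_assoc]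
  -- slices of the whole trace
  have slices : ∀ g h : ℂ → ℝ, (∀ z w, |g z - g w| ≤ ‖z - w‖) → (∀ z w, |h z - h w| ≤ ‖z - w‖) →
      ∀ᵐ v : ℝ, volume ((fun z => g (f z)) '' {z | z ∈ trace (fun t => B t ω) ∧ h z = v}) = 0 := by
    intro g h hg hh
    have a1 : ∀ᵐ v : ℝ, ∀ q : ℕ × ℕ, good q → volume ((fun z => g (f z)) ''
        {z | z ∈ pc (fun t => B t ω) q.1 q.2 ∧ h z = v}) = 0 := by
      refine ae_all_iff.mpr fun q => ?_
      by_cases hq : good q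
      · filter_upwards [hω q.1 q.2 hq.1 (⇑f) f.continuous hq.2 g h hg hh] with v hv _
        exact hv
      · exact Eventually.of_forall fun v hq' => absurd hq' hq
    have a2 : ∀ᵐ v : ℝ, ∀ j, (S j ∩ h ⁻¹' {v}).Finite :=
      ae_all_iff.mpr fun j => finite_fiber h hh (hSf j)
    filter_upwards [a1, a2] with v hv1 hv2
    have hsub : (fun z => g (f z)) '' {z | z ∈ trace (fun t => B t ω) ∧ h z = v} ⊆
        (⋃ q : {q : ℕ × ℕ // good q}, (fun z => g (f z)) ''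
          {z | z ∈ pc (fun t => B t ω) q.1.1 q.1.2 ∧ h z = v}) ∪
        ((fun z => g (f z)) '' ⋃ j, S j ∩ h ⁻¹' {v}) := by
      rintro _ ⟨z, ⟨⟨r, hr, rfl⟩, hz⟩, rfl⟩
      by_cases hrT : r ∈ T
      · right
        have h5 : B r ω ∈ ⋃ j, S j := hTS ⟨r, ⟨hrT, hr⟩, rfl⟩
        obtain ⟨j, hj⟩ := mem_iUnion.mp h5
        exact ⟨B r ω, mem_iUnion.mpr ⟨j, hj, hz⟩, rfl⟩
      · left
        obtain ⟨q, hq, hq2⟩ := hcover r hr hrT
        exact mem_iUnion.mpr ⟨⟨q, hq⟩, B r ω, ⟨hq2, hz⟩, rfl⟩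
    refine measure_mono_null hsub (measure_union_null ?_ ?_)
    · exact measure_iUnion_null fun q => hv1 q.1 q.2
    · have hc : (⋃ j, S j ∩ h ⁻¹' {v}).Countable := countable_iUnion fun j => (hv2 j).countable
      exact (hc.image _).measure_zero volume
  exact hCRI (trace fun t => B t ω) f hclosed hf hω0
    (slices Complex.re Complex.im FINM.hre FINM.him)
    (slices Complex.im Complex.im FINM.him FINM.him)
    (slices Complex.re Complex.re FINM.hre FINM.hre)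
    (slices Complex.im Complex.re FINM.him FINM.hre)

theorem specLB (hLA : SpecLA) (hVAA : SpecVAA) (hVAD : SpecVAD) : SpecLB := by
  obtain ⟨c, c0, hM⟩ := hLA
  intro Ω _ P _ B Y hB hY
  obtain ⟨q, hq⟩ := exists_nat_ge (max 2 (3 / c))
  have hq2 : 2 ≤ q := by
    have := (le_max_left _ _).trans hq
    exact_mod_cast this
  have hq3 : 3 / (q : ℝ) ≤ c := by
    have h1 := (le_max_right _ _).trans hq
    have h2 : (0 : ℝ) < q := by
      have : (2 : ℝ) ≤ q := by exact_mod_cast hq2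
      linarith
    rw [div_le_iff₀ c0] at h1
    rw [div_le_iff₀ h2]
    linarith
  filter_upwards [hM Ω P B hB, hVAA Ω P Y hY q hq2] with ω h1 h2
  intro f τ T S hf hSf hTS hloc
  obtain ⟨C, hC⟩ := h2
  obtain ⟨C', hC'⟩ := hVAD (fun t => Y t ω) q C (hY.cont ω) hq2 hC
  refine h1 f T S hf hSf hTS fun r hr hrT => ?_
  obtain ⟨ε, hε, heq, hmon⟩ := hloc r hr hrT
  refine ⟨ε / 2, by positivity, ?_⟩
  -- the scale from which the intervals are small
  obtain ⟨n₀, hn₀⟩ := exists_pow_lt_of_lt_one (show 0 < ε / 2 by positivity)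
    (show (1 / 4 : ℝ) < 1 by norm_num)
  -- the total diameter
  set Δ : ℝ := Metric.diam ((fun t => f (B t ω)) '' Icc (0 : ℝ) 1) with hΔ
  have hcont : Continuous fun t => f (B t ω) := f.continuous.comp (hB.cont ω)
  have hbdd : Bornology.IsBounded ((fun t => f (B t ω)) '' Icc (0 : ℝ) 1) :=
    (isCompact_Icc.image hcont).isBounded
  refine ⟨|C'| + 4 ^ n₀ * Δ ^ 2, fun n => ?_⟩
  have p4 : (0 : ℝ) < 4 ^ n := by positivity
  have hn1 : (1 : ℝ) ≤ ((n : ℝ) + 1) ^ c := by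
    refine Real.one_le_rpow ?_ c0.le
    have : (0 : ℝ) ≤ n := Nat.cast_nonneg n
    linarith
  have g1 : ∀ i : ℕ, i ≤ 4 ^ n → (i : ℝ) / 4 ^ n ∈ Icc (0 : ℝ) 1 := by
    intro i hi
    refine ⟨by positivity, ?_⟩
    rw [div_le_one p4]
    exact_mod_cast hi
  have g2 : ∀ i : ℕ, i < 4 ^ n → ((i : ℝ) + 1) / 4 ^ n ∈ Icc (0 : ℝ) 1 := by
    intro i hi
    have := g1 (i + 1) hi
    push_cast at this
    exact this
  rcases lt_or_ge n n₀ with hlt | hge
  · -- small `n`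
    have hsum : ∑ j ∈ (Finset.range (4 ^ n)).filter
        (fun j : ℕ => |(j : ℝ) / 4 ^ n - r| ≤ ε / 2), (Metric.diam ((fun t => f (B t ω)) ''
            Icc ((j : ℝ) / 4 ^ n) (((j : ℝ) + 1) / 4 ^ n))) ^ 2 ≤ 4 ^ n₀ * Δ ^ 2 := by
      calc _ ≤ ∑ j ∈ (Finset.range (4 ^ n)).filter
            (fun j : ℕ => |(j : ℝ) / 4 ^ n - r| ≤ ε / 2), Δ ^ 2 := by
            refine Finset.sum_le_sum fun j hj => ?_
            rw [Finset.mem_filter, Finset.mem_range] at hj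
            refine pow_le_pow_left₀ Metric.diam_nonneg (Metric.diam_mono (image_mono ?_) hbdd) 2
            exact Icc_subset_Icc (g1 j hj.1.le).1 (g2 j hj.1).2
        _ = (((Finset.range (4 ^ n)).filter
            (fun j : ℕ => |(j : ℝ) / 4 ^ n - r| ≤ ε / 2)).card : ℝ) * Δ ^ 2 := by
            rw [Finset.sum_const, nsmul_eq_mul]
        _ ≤ 4 ^ n₀ * Δ ^ 2 := by
            refine mul_le_mul_of_nonneg_right ?_ (sq_nonneg _)
            have h3 := Finset.card_filter_le (Finset.range (4 ^ n))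
              (fun j : ℕ => |(j : ℝ) / 4 ^ n - r| ≤ ε / 2)
            rw [Finset.card_range] at h3
            have h4 : 4 ^ n ≤ 4 ^ n₀ := Nat.pow_le_pow_right (by norm_num) hlt.le
            exact_mod_cast h3.trans h4
    have hpos : 0 ≤ 4 ^ n₀ * Δ ^ 2 := by positivity
    have hpos' : 0 ≤ |C'| := abs_nonneg C'
    nlinarith
  · -- large `n`
    have hsmall : (1 : ℝ) / 4 ^ n ≤ ε / 2 := by
      rw [← one_div_pow]
      exact (pow_le_pow_of_le_one (by norm_num) (by norm_num) hge).trans hn₀.le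
    have hin : ∀ j : ℕ, j < 4 ^ n → |(j : ℝ) / 4 ^ n - r| ≤ ε / 2 →
        Icc ((j : ℝ) / 4 ^ n) (((j : ℝ) + 1) / 4 ^ n) ⊆ Icc (0 : ℝ) 1 ∩ Icc (r - ε) (r + ε) := by
      intro j hj habs t ht
      rw [abs_le] at habs
      have e : ((j : ℝ) + 1) / 4 ^ n = (j : ℝ) / 4 ^ n + 1 / 4 ^ n := by rw [add_div]
      refine ⟨⟨(g1 j hj.le).1.trans ht.1, ht.2.trans (g2 j hj).2⟩, ?_, ?_⟩
      · linarith [ht.1]
      · linarith [ht.2]
    have hstep : ∀ i : ℕ, (i : ℝ) / 4 ^ n ≤ ((i : ℝ) + 1) / 4 ^ n := fun i => by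
      gcongr
      linarith
    have hlt : ∀ i j : ℕ, i < j → ((i : ℝ) + 1) / 4 ^ n ≤ (j : ℝ) / 4 ^ n := by
      intro i j hij
      have : ((i : ℝ) + 1) ≤ j := by exact_mod_cast hij
      gcongr
    have hcpt : ∀ a b : ℝ, 0 ≤ a → b ≤ 1 → IsCompact ((fun t => Y t ω) '' Icc a b) := by
      intro a b ha hb
      exact isCompact_Icc.image_of_continuousOn ((hY.cont ω).mono (Icc_subset_Icc ha hb))
    have hL : ∀ j : ℕ, (j : ℝ) / 4 ^ n ∈ Icc ((j : ℝ) / 4 ^ n) (((j : ℝ) + 1) / 4 ^ n) :=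
      fun j => ⟨le_rfl, hstep j⟩
    have hR : ∀ j : ℕ, ((j : ℝ) + 1) / 4 ^ n ∈ Icc ((j : ℝ) / 4 ^ n) (((j : ℝ) + 1) / 4 ^ n) :=
      fun j => ⟨hstep j, le_rfl⟩
    classical
    have key : ∃ u v : ℕ → ℝ, (∀ i : ℕ, i < 4 ^ n → 0 ≤ u i ∧ u i ≤ v i ∧ v i ≤ 1) ∧
        (∀ i : ℕ, i < 4 ^ n → ∀ j : ℕ, j < 4 ^ n → i < j → v i ≤ u j ∨ v j ≤ u i) ∧
        ∀ i : ℕ, i < 4 ^ n → |(i : ℝ) / 4 ^ n - r| ≤ ε / 2 → (fun t => f (B t ω)) ''
          Icc ((i : ℝ) / 4 ^ n) (((i : ℝ) + 1) / 4 ^ n) ⊆ (fun t => Y t ω) '' Icc (u i) (v i) := by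
      rcases hmon with hm | hm
      · refine ⟨fun i => if |(i : ℝ) / 4 ^ n - r| ≤ ε / 2 then τ ((i : ℝ) / 4 ^ n) else 0,
          fun i => if |(i : ℝ) / 4 ^ n - r| ≤ ε / 2 then τ (((i : ℝ) + 1) / 4 ^ n) else 0,
          ?_, ?_, ?_⟩
        · intro i hi
          by_cases hc : |(i : ℝ) / 4 ^ n - r| ≤ ε / 2
          · simp only [hc, if_true]
            have hs := hin i hi hc
            exact ⟨(heq _ (hs (hL i))).1.1, hm (hs (hL i)) (hs (hR i)) (hstep i),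
              (heq _ (hs (hR i))).1.2⟩
          · simp only [hc, if_false]
            norm_num
        · intro i hi j hj hij
          by_cases hc : |(i : ℝ) / 4 ^ n - r| ≤ ε / 2
          · by_cases hc' : |(j : ℝ) / 4 ^ n - r| ≤ ε / 2
            · simp only [hc, hc', if_true]
              exact Or.inl (hm (hin i hi hc (hR i)) (hin j hj hc' (hL j)) (hlt i j hij))
            · simp only [hc, hc', if_true, if_false]
              exact Or.inr (heq _ (hin i hi hc (hL i))).1.1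
          · by_cases hc' : |(j : ℝ) / 4 ^ n - r| ≤ ε / 2
            · simp only [hc, hc', if_true, if_false]
              exact Or.inl (heq _ (hin j hj hc' (hL j))).1.1
            · simp only [hc, hc', if_false]
              exact Or.inl le_rfl
        · rintro i hi hc _ ⟨t, ht, rfl⟩
          simp only [hc, if_true]
          have hs := hin i hi hc
          exact ⟨τ t, ⟨hm (hs (hL i)) (hs ht) ht.1, hm (hs ht) (hs (hR i)) ht.2⟩,
            (heq t (hs ht)).2.symm⟩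
      · refine ⟨fun i => if |(i : ℝ) / 4 ^ n - r| ≤ ε / 2 then τ (((i : ℝ) + 1) / 4 ^ n) else 0,
          fun i => if |(i : ℝ) / 4 ^ n - r| ≤ ε / 2 then τ ((i : ℝ) / 4 ^ n) else 0,
          ?_, ?_, ?_⟩
        · intro i hi
          by_cases hc : |(i : ℝ) / 4 ^ n - r| ≤ ε / 2
          · simp only [hc, if_true]
            have hs := hin i hi hc
            exact ⟨(heq _ (hs (hR i))).1.1, hm (hs (hL i)) (hs (hR i)) (hstep i),
              (heq _ (hs (hL i))).1.2⟩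
          · simp only [hc, if_false]
            norm_num
        · intro i hi j hj hij
          by_cases hc : |(i : ℝ) / 4 ^ n - r| ≤ ε / 2
          · by_cases hc' : |(j : ℝ) / 4 ^ n - r| ≤ ε / 2
            · simp only [hc, hc', if_true]
              exact Or.inr (hm (hin i hi hc (hR i)) (hin j hj hc' (hL j)) (hlt i j hij))
            · simp only [hc, hc', if_true, if_false]
              exact Or.inr (heq _ (hin i hi hc (hR i))).1.1
          · by_cases hc' : |(j : ℝ) / 4 ^ n - r| ≤ ε / 2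
            · simp only [hc, hc', if_true, if_false]
              exact Or.inl (heq _ (hin j hj hc' (hR j))).1.1
            · simp only [hc, hc', if_false]
              exact Or.inl le_rfl
        · rintro i hi hc _ ⟨t, ht, rfl⟩
          simp only [hc, if_true]
          have hs := hin i hi hc
          exact ⟨τ t, ⟨hm (hs ht) (hs (hR i)) ht.2, hm (hs (hL i)) (hs ht) ht.1⟩,
            (heq t (hs ht)).2.symm⟩
    obtain ⟨u, v, k1, k2, k3⟩ := key
    have hfin : ((n : ℝ) + 1) ^ (3 / (q : ℝ)) ≤ ((n : ℝ) + 1) ^ c := by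
      refine Real.rpow_le_rpow_of_exponent_le ?_ hq3
      have : (0 : ℝ) ≤ n := Nat.cast_nonneg n
      linarith
    calc _ ≤ ∑ i ∈ (Finset.range (4 ^ n)).filter (fun j : ℕ => |(j : ℝ) / 4 ^ n - r| ≤ ε / 2),
          (Metric.diam ((fun t => Y t ω) '' Icc (u i) (v i))) ^ 2 := by
          refine Finset.sum_le_sum fun i hi => ?_
          rw [Finset.mem_filter, Finset.mem_range] at hi
          exact pow_le_pow_left₀ Metric.diam_nonneg (Metric.diam_mono (k3 i hi.1 hi.2)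
            (hcpt (u i) (v i) (k1 i hi.1).1 (k1 i hi.1).2.2).isBounded) 2
      _ ≤ ∑ i ∈ Finset.range (4 ^ n), (Metric.diam ((fun t => Y t ω) '' Icc (u i) (v i))) ^ 2 :=
          Finset.sum_le_sum_of_subset_of_nonneg (Finset.filter_subset _ _)
            fun i _ _ => sq_nonneg _
      _ ≤ C' * ((n : ℝ) + 1) ^ (3 / (q : ℝ)) := hC' n u v k1 k2
      _ ≤ |C'| * ((n : ℝ) + 1) ^ (3 / (q : ℝ)) :=
          mul_le_mul_of_nonneg_right (le_abs_self C') (by positivity)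
      _ ≤ |C'| * ((n : ℝ) + 1) ^ c := mul_le_mul_of_nonneg_left hfin (abs_nonneg C')
      _ ≤ (|C'| + 4 ^ n₀ * Δ ^ 2) * ((n : ℝ) + 1) ^ c := by
          refine mul_le_mul_of_nonneg_right ?_ (by positivity)
          have : 0 ≤ 4 ^ n₀ * Δ ^ 2 := by positivity
          linarith

end Pool.Agent.Lib.MP_8b264c_pr.QV
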