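import Pool.Agent.Lib.MP_8b264c_pr.QV.Spec

/-!
# LON: the lonely indices
-/

set_option autoImplicit false

open MeasureTheory Set ProbabilityTheory Filter Topology

namespace Pool.Agent.Lib.MP_8b264c_pr.QV

open Pool.Agent.BMR

namespace LONM

lemma near_of_floor {n : ℕ} {x y : ℝ} (h : ⌊2 ^ n * x⌋ = ⌊2 ^ n * y⌋) : |x - y| ≤ 1 / 2 ^ n := by
  have h1 := Int.abs_sub_lt_one_of_floor_eq_floor h
  have h2 : (0 : ℝ) < 2 ^ n := by positivity
  rw [← mul_sub, abs_mul, abs_of_pos h2] at h1
  rw [le_div_iff₀ h2]
  linarith

lemma near_of_cell {β : ℝ → ℂ} {n j k : ℕ} (h : cell β n j = cell β n k) :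
    Near (β (tm n j)) (β (tm n k)) (1 / 2 ^ n) := by
  unfold cell at h
  rw [Prod.mk.injEq] at h
  exact ⟨near_of_floor h.1, near_of_floor h.2⟩

end LONM

open LONM in
theorem specLON : SpecLON := by
  classical
  intro β n I H M₀ hM
  refine ⟨?_, ?_⟩
  · set L1 := (thin β n H).filter (fun j => ((inCell β n H (cell β n j)).card : ℝ) ≤ M₀) with hL1
    set L2 := (thin β n H).filter (fun j => M₀ < ((inCell β n H (cell β n j)).card : ℝ) ∧
      (inCell β n H (cell β n j)).card ≤
        3 * ((inCell β n H (cell β n j)).filter (fun k => ¬ meet β n I j k)).card) with hL2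
    have hsub : lonely β n I H M₀ ⊆ L1 ∪ L2 := by
      intro j hj
      unfold lonely at hj
      rw [Finset.mem_filter] at hj
      rw [Finset.mem_union]
      by_cases h : ((inCell β n H (cell β n j)).card : ℝ) ≤ M₀
      · exact Or.inl (Finset.mem_filter.2 ⟨hj.1, h⟩)
      · refine Or.inr (Finset.mem_filter.2 ⟨hj.1, not_le.1 h, ?_⟩)
        rcases hj.2 with h' | h'
        · exact absurd h' h
        · exact h'
    have h1 : (L1.card : ℝ) ≤ M₀ * cellN β n := by
      have hmaps : ∀ j ∈ L1, cell β n j ∈ (Finset.range (4 ^ n)).image (cell β n) := by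
        intro j hj
        have h2 := (Finset.mem_filter.1 hj).1
        unfold thin at h2
        exact Finset.mem_image_of_mem _ (Finset.mem_filter.1 h2).1
      rw [Finset.card_eq_sum_card_fiberwise (f := cell β n)
        (t := (Finset.range (4 ^ n)).image (cell β n)) (fun j hj => hmaps j hj)]
      push_cast
      have h3 : ∀ c ∈ (Finset.range (4 ^ n)).image (cell β n),
          ((L1.filter (fun j => cell β n j = c)).card : ℝ) ≤ M₀ := by
        intro c _
        rcases (L1.filter (fun j => cell β n j = c)).eq_empty_or_nonempty with h | ⟨j, hj⟩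
        · rw [h, Finset.card_empty, Nat.cast_zero]
          exact hM.le
        · rw [Finset.mem_filter] at hj
          obtain ⟨hj1, hj2⟩ := hj
          have h4 := (Finset.mem_filter.1 hj1).2
          refine le_trans ?_ h4
          have h5 : L1.filter (fun j => cell β n j = c) ⊆ inCell β n H (cell β n j) := by
            intro i hi
            rw [Finset.mem_filter] at hi
            unfold inCell
            exact Finset.mem_filter.2 ⟨(Finset.mem_filter.1 hi.1).1, by rw [hi.2, hj2]⟩
          exact_mod_cast Finset.card_le_card h5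
      calc ∑ c ∈ (Finset.range (4 ^ n)).image (cell β n),
            ((L1.filter (fun j => cell β n j = c)).card : ℝ)
          ≤ ∑ _c ∈ (Finset.range (4 ^ n)).image (cell β n), M₀ := Finset.sum_le_sum h3
        _ = M₀ * cellN β n := by
          rw [Finset.sum_const, nsmul_eq_mul, mul_comm]
          rfl
    have h2 : M₀ * (L2.card : ℝ) ≤ 3 * badN β n I := by
      have h3 : ∑ j ∈ L2, ((inCell β n H (cell β n j)).filter (fun k => ¬ meet β n I j k)).card ≤
          badN β n I := by
        rw [← Finset.card_sigma]
        unfold badN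
        refine Finset.card_le_card_of_injOn (fun p => (p.1, p.2)) ?_ ?_
        · rintro ⟨j, k⟩ hp
          obtain ⟨hj, hkm⟩ := Finset.mem_sigma.1 (Finset.mem_coe.1 hp)
          obtain ⟨hk, hm⟩ := Finset.mem_filter.1 hkm
          unfold inCell at hk
          rw [Finset.mem_filter] at hk
          have h4 := (Finset.mem_filter.1 hj).1
          unfold thin at h4 hk
          rw [Finset.mem_filter] at h4
          rw [Finset.mem_coe, Finset.mem_filter, Finset.mem_product]
          exact ⟨⟨h4.1, (Finset.mem_filter.1 hk.1).1⟩, near_of_cell hk.2.symm, hm⟩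
        · intro p _ p' _ h
          have h5 := (Prod.mk.injEq _ _ _ _).mp h
          exact Sigma.ext h5.1 (heq_of_eq h5.2)
      have h4 : ∑ _j ∈ L2, M₀ ≤ ∑ j ∈ L2,
          3 * (((inCell β n H (cell β n j)).filter (fun k => ¬ meet β n I j k)).card : ℝ) := by
        refine Finset.sum_le_sum fun j hj => ?_
        have h5 := (Finset.mem_filter.1 hj).2
        have h6 : ((inCell β n H (cell β n j)).card : ℝ) ≤
            3 * (((inCell β n H (cell β n j)).filter (fun k => ¬ meet β n I j k)).card : ℝ) := by
          exact_mod_cast h5.2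
        exact h5.1.le.trans h6
      rw [Finset.sum_const, nsmul_eq_mul, ← Finset.mul_sum, mul_comm] at h4
      have h7 : (∑ j ∈ L2,
          (((inCell β n H (cell β n j)).filter (fun k => ¬ meet β n I j k)).card : ℝ)) ≤
          badN β n I := by exact_mod_cast h3
      linarith
    have h3 : ((lonely β n I H M₀).card : ℝ) ≤ L1.card + L2.card := by
      exact_mod_cast (Finset.card_le_card hsub).trans (Finset.card_union_le _ _)
    have h4 : (L2.card : ℝ) ≤ 3 * badN β n I / M₀ := by
      rw [le_div_iff₀ hM]
      linarith
    linarith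
  · intro i hi j hj hi' hj' hc
    unfold lonely at hi' hj'
    rw [Finset.mem_filter, not_and] at hi' hj'
    have h1 := hi' hi
    have h2 := hj' hj
    rw [not_or, not_le, not_le] at h1 h2
    rw [← hc] at h2
    by_contra hcon
    push Not at hcon
    have h3 : inCell β n H (cell β n i) ⊆
        ((inCell β n H (cell β n i)).filter (fun k => ¬ meet β n I i k)) ∪
          ((inCell β n H (cell β n i)).filter (fun k => ¬ meet β n I j k)) := by
      intro k hk
      rw [Finset.mem_union, Finset.mem_filter, Finset.mem_filter]
      by_cases h : meet β n I i k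
      · exact Or.inr ⟨hk, hcon k hk h⟩
      · exact Or.inl ⟨hk, h⟩
    have h4 := (Finset.card_le_card h3).trans (Finset.card_union_le _ _)
    have h5 := h1.2
    have h6 := h2.2
    omega

end Pool.Agent.Lib.MP_8b264c_pr.QV
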