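import Pool.Agent.Lib.MP_8b264c_pr.QV.Spec

/-!
# LOW: lower bound for the probability that an increment is close to a point
-/

set_option autoImplicit false

open MeasureTheory Set ProbabilityTheory Filter Topology

namespace Pool.Agent.Lib.MP_8b264c_pr.QV

open Pool.Agent.BMR

namespace LOWM

/-- the constant -/
noncomputable def kap (M : ℝ) : ℝ := Real.exp (-((M + 1) ^ 2 / 2)) / 3

lemma kap_pos (M : ℝ) : 0 < kap M := by unfold kap; positivity

/-- Gaussian mass of a small interval. -/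
lemma gauss_Icc' {M x a : ℝ} (hM : 0 ≤ M) (hx0 : 0 ≤ x) (hx1 : x ≤ 1) (ha : |a| ≤ M) :
    ENNReal.ofReal (2 * kap M * x) ≤ gaussianReal 0 1 (Set.Icc (a - x) (a + x)) := by
  rw [gaussianReal_apply 0 one_ne_zero]
  have h1 : ∀ y ∈ Set.Icc (a - x) (a + x), ENNReal.ofReal (kap M) ≤ gaussianPDF 0 1 y := by
    intro y hy
    unfold gaussianPDF gaussianPDFReal
    refine ENNReal.ofReal_le_ofReal ?_
    have ha' := abs_le.mp ha
    have hy1 : y ^ 2 ≤ (M + 1) ^ 2 := by
      apply sq_le_sq'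
      · linarith [hy.1]
      · linarith [hy.2]
    have h2 : Real.exp (-((M + 1) ^ 2 / 2)) ≤
        Real.exp (-(y - 0) ^ 2 / (2 * ((1 : NNReal) : ℝ))) := by
      refine Real.exp_le_exp.mpr ?_
      simp only [sub_zero, NNReal.coe_one, mul_one]
      linarith
    have h4 : Real.sqrt (2 * Real.pi * ((1 : NNReal) : ℝ)) ≤ 3 := by
      rw [Real.sqrt_le_left (by norm_num)]
      have := Real.pi_lt_d2
      simp only [NNReal.coe_one, mul_one]
      linarith
    have h5 : (1 / 3 : ℝ) ≤ (Real.sqrt (2 * Real.pi * ((1 : NNReal) : ℝ)))⁻¹ := by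
      rw [one_div]
      refine inv_anti₀ ?_ h4
      have := Real.pi_pos
      simp only [NNReal.coe_one, mul_one]
      positivity
    calc kap M = 1 / 3 * Real.exp (-((M + 1) ^ 2 / 2)) := by unfold kap; ring
      _ ≤ _ := mul_le_mul h5 h2 (Real.exp_pos _).le (by positivity)
  calc ENNReal.ofReal (2 * kap M * x) =
        ENNReal.ofReal (kap M) * volume (Set.Icc (a - x) (a + x)) := by
        rw [Real.volume_Icc, ← ENNReal.ofReal_mul (kap_pos M).le]
        congr 1
        ring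
    _ = ∫⁻ _ in Set.Icc (a - x) (a + x), ENNReal.ofReal (kap M) := by
        rw [setLIntegral_const]
    _ ≤ _ := setLIntegral_mono' measurableSet_Icc h1

variable {Ω : Type} [MeasurableSpace Ω] {P : Measure Ω} {B : ℝ → Ω → ℂ}

/-- The estimate at time one. -/
lemma at_one [IsFiniteMeasure P] (h : IsPBM P B) {M x a b : ℝ} (hM : 0 ≤ M) (hx0 : 0 ≤ x)
    (hx1 : x ≤ 1) (ha : |a| ≤ M) (hb : |b| ≤ M) :
    ENNReal.ofReal ((2 * kap M * x) ^ 2) ≤
      P {ω | |(B 1 ω).re - a| ≤ x ∧ |(B 1 ω).im - b| ≤ x} := by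
  have hG : IsGaussianProcess (Sum.elim (fun _ : Unit => co B (1, true))
      (fun _ : Unit => co B (1, false))) P := by
    have := h.gaussian (T := Unit ⊕ Unit) (Sum.elim (fun _ => (1, true)) (fun _ => (1, false)))
      (by rintro (i | i) <;> exact one_mem)
    have e : (Sum.elim (fun _ : Unit => co B (1, true)) (fun _ : Unit => co B (1, false))) =
        fun (i : Unit ⊕ Unit) ω => co B (Sum.elim (fun _ => ((1 : ℝ), true))
          (fun _ => ((1 : ℝ), false)) i) ω := by
      funext i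
      rcases i with i | i <;> rfl
    rw [e]
    exact this
  have hI := hG.indepFun_of_covariance_eq_zero (fun _ => h.aemeasurable_co _ one_mem)
    (fun _ => h.aemeasurable_co _ one_mem) (fun _ _ => by
      rw [h.cov_co _ _ one_mem one_mem]
      simp)
  have m1 : ∀ d : ℝ, MeasurableSet {y : Unit → ℝ | |y () - d| ≤ x} := by
    intro d
    have : Measurable fun y : Unit → ℝ => |y () - d| := by fun_prop
    exact this measurableSet_Iic
  have hm := hI.measure_inter_preimage_eq_mul _ _ (m1 a) (m1 b)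
  have e1 : {ω | |(B 1 ω).re - a| ≤ x ∧ |(B 1 ω).im - b| ≤ x} =
      (fun ω (_ : Unit) => co B (1, true) ω) ⁻¹' {y | |y () - a| ≤ x} ∩
        (fun ω (_ : Unit) => co B (1, false) ω) ⁻¹' {y | |y () - b| ≤ x} := by
    ext ω
    simp [co]
  have e2 : ∀ (c : Bool) (d : ℝ), |d| ≤ M → ENNReal.ofReal (2 * kap M * x) ≤
      P ((fun ω (_ : Unit) => co B (1, c) ω) ⁻¹' {y | |y () - d| ≤ x}) := by
    intro c d hd
    have e3 : (fun ω (_ : Unit) => co B (1, c) ω) ⁻¹' {y | |y () - d| ≤ x} =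
        co B (1, c) ⁻¹' Set.Icc (d - x) (d + x) := by
      ext ω
      simp only [mem_preimage, mem_setOf_eq, mem_Icc, abs_le]
      constructor
      · rintro ⟨h1, h2⟩
        exact ⟨by linarith, by linarith⟩
      · rintro ⟨h1, h2⟩
        exact ⟨by linarith, by linarith⟩
    rw [e3, ← Measure.map_apply_of_aemeasurable (h.aemeasurable_co _ one_mem) measurableSet_Icc,
      h.map_one c]
    exact gauss_Icc' hM hx0 hx1 hd
  rw [e1, hm]
  have hk := kap_pos M
  calc ENNReal.ofReal ((2 * kap M * x) ^ 2) =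
        ENNReal.ofReal (2 * kap M * x) * ENNReal.ofReal (2 * kap M * x) := by
        rw [← ENNReal.ofReal_mul (by positivity)]
        congr 1
        ring
    _ ≤ _ := mul_le_mul' (e2 true a ha) (e2 false b hb)

end LOWM

open LOWM in
theorem specLOW : SpecLOW := by
  intro M hM
  refine ⟨4 * kap M ^ 2, by have := kap_pos M; positivity, ?_⟩
  intro Ω _ P _ B h s t ρ z hs hst ht hρ0 hρ hre him
  have hd : 0 < t - s := sub_pos.mpr hst
  have hsq : 0 < Real.sqrt (t - s) := Real.sqrt_pos.mpr hd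
  have hx1 : ρ / Real.sqrt (t - s) ≤ 1 := by
    rw [div_le_one hsq]
    exact Real.le_sqrt_of_sq_le hρ
  have hdiv : ∀ y : ℝ, |y| ≤ M * Real.sqrt (t - s) → |y / Real.sqrt (t - s)| ≤ M := by
    intro y hy
    rw [abs_div, abs_of_pos hsq, div_le_iff₀ hsq]
    exact hy
  have h1 := at_one (h.isPBM_seg hs hst ht) hM (x := ρ / Real.sqrt (t - s)) (by positivity) hx1
    (hdiv _ hre) (hdiv _ him)
  have e1 : (2 * kap M * (ρ / Real.sqrt (t - s))) ^ 2 = 4 * kap M ^ 2 * ρ ^ 2 / (t - s) := by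
    rw [mul_pow, div_pow, Real.sq_sqrt hd.le]
    ring
  rw [e1] at h1
  refine h1.trans (measure_mono ?_)
  rintro ω ⟨g1, g2⟩
  rw [seg_re] at g1
  rw [seg_im] at g2
  have e2 : s + 1 * (t - s) = t := by ring
  have key : ∀ u y : ℝ, |(Real.sqrt (t - s))⁻¹ * u - y / Real.sqrt (t - s)| ≤
      ρ / Real.sqrt (t - s) → |u - y| ≤ ρ := by
    intro u y hu
    have e3 : (Real.sqrt (t - s))⁻¹ * u - y / Real.sqrt (t - s) =
        (u - y) / Real.sqrt (t - s) := by
      field_simp
    rw [e3, abs_div, abs_of_pos hsq, div_le_div_iff_of_pos_right hsq] at hu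
    exact hu
  rw [e2] at g1 g2
  refine ⟨?_, ?_⟩
  · rw [Complex.sub_re]
    exact key _ _ g1
  · rw [Complex.sub_im]
    exact key _ _ g2

end Pool.Agent.Lib.MP_8b264c_pr.QV
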