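import Pool.Agent.Lib.MP_8b264c_pr.QV.Spec

/-!
# MOM: moments of the increments of a planar Brownian motion
-/

set_option autoImplicit false

open MeasureTheory Set ProbabilityTheory Filter Topology

namespace Pool.Agent.Lib.MP_8b264c_pr.QV

open Pool.Agent.BMR

namespace MOMM

lemma aemeas {Ω : Type} [MeasurableSpace Ω] {P : Measure Ω} {B : ℝ → Ω → ℂ} (h : IsPBM P B)
    {t : ℝ} (ht : t ∈ Icc (0 : ℝ) 1) : AEMeasurable (B t) P := by
  have h1 := (Complex.measurable_ofReal.comp_aemeasurable (h.aemeasurable_co (t, true) ht)).add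
    ((Complex.measurable_ofReal.comp_aemeasurable
      (h.aemeasurable_co (t, false) ht)).mul_const Complex.I)
  refine h1.congr (Filter.Eventually.of_forall fun ω => ?_)
  simp [co, Complex.re_add_im]

/-- the moments of the standard normal law -/
noncomputable def mo (q : ℕ) : ENNReal := ∫⁻ x : ℝ, ‖x‖ₑ ^ (2 * q) ∂(gaussianReal 0 1)

lemma mo_lt (q : ℕ) : mo q < ⊤ := by
  rcases Nat.eq_zero_or_pos q with rfl | hq
  · simp [mo]
  · have h1 := (memLp_id_gaussianReal' (μ := 0) (v := 1) (((2 * q : ℕ) : ENNReal))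
      (ENNReal.natCast_ne_top _)).2
    have h2 := lintegral_rpow_enorm_lt_top_of_eLpNorm_lt_top (p := ((2 * q : ℕ) : ENNReal))
      (by
        rw [Ne, Nat.cast_eq_zero]
        omega) (ENNReal.natCast_ne_top _) h1
    unfold mo
    refine lt_of_le_of_lt (le_of_eq ?_) h2
    refine lintegral_congr fun x => ?_
    rw [ENNReal.toReal_natCast, ENNReal.rpow_natCast]
    rfl

lemma mo_one : mo 1 = 1 := by
  have h1 : evariance id (gaussianReal 0 1) = ENNReal.ofReal 1 := by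
    rw [← ofReal_variance (memLp_id_gaussianReal' 2 (by norm_num)), variance_id_gaussianReal]
    rfl
  have h0 : ∫ x : ℝ, id x ∂(gaussianReal 0 1) = 0 := integral_id_gaussianReal
  rw [evariance, h0] at h1
  unfold mo
  rw [ENNReal.ofReal_one] at h1
  rw [← h1]
  refine lintegral_congr fun x => ?_
  simp

variable {Ω : Type} [MeasurableSpace Ω] {P : Measure Ω} {B : ℝ → Ω → ℂ}

lemma co_mom (h : IsPBM P B) (b : Bool) (q : ℕ) :
    ∫⁻ ω, ‖co B (1, b) ω‖ₑ ^ (2 * q) ∂P = mo q := by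
  unfold mo
  rw [← h.map_one b, lintegral_map' (by fun_prop) (h.aemeasurable_co _ one_mem)]

lemma enorm_sq_le (z : ℂ) : ‖z‖ₑ ^ 2 = ‖z.re‖ₑ ^ 2 + ‖z.im‖ₑ ^ 2 := by
  have e : ∀ x : ℝ, ‖x‖ₑ ^ 2 = ENNReal.ofReal (x ^ 2) := fun x => by
    rw [← enorm_pow, Real.enorm_of_nonneg (sq_nonneg x)]
  rw [e, e, ← ENNReal.ofReal_add (sq_nonneg _) (sq_nonneg _), ← ofReal_norm,
    ← ENNReal.ofReal_pow (norm_nonneg _)]
  congr 1
  rw [← Complex.normSq_eq_norm_sq, Complex.normSq_apply]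
  ring

lemma add_pow_le' (a b : ENNReal) (q : ℕ) : (a + b) ^ q ≤ 2 ^ q * (a ^ q + b ^ q) := by
  rcases le_total a b with h | h
  · calc (a + b) ^ q ≤ (2 * b) ^ q := by
          gcongr
          rw [two_mul]
          gcongr
      _ = 2 ^ q * b ^ q := mul_pow _ _ _
      _ ≤ 2 ^ q * (a ^ q + b ^ q) := by
          gcongr
          exact le_add_self
  · calc (a + b) ^ q ≤ (2 * a) ^ q := by
          gcongr
          rw [two_mul]
          gcongr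
      _ = 2 ^ q * a ^ q := mul_pow _ _ _
      _ ≤ 2 ^ q * (a ^ q + b ^ q) := by
          gcongr
          exact le_self_add

lemma one_mom (h : IsPBM P B) (q : ℕ) : ∫⁻ ω, ‖B 1 ω‖ₑ ^ (2 * q) ∂P ≤ 2 ^ q * (mo q + mo q) := by
  have hm : ∀ b, AEMeasurable (fun ω => ‖co B (1, b) ω‖ₑ ^ (2 * q)) P := fun b =>
    (h.aemeasurable_co (1, b) one_mem).enorm.pow_const _
  calc ∫⁻ ω, ‖B 1 ω‖ₑ ^ (2 * q) ∂P
      ≤ ∫⁻ ω, 2 ^ q * (‖co B (1, true) ω‖ₑ ^ (2 * q) + ‖co B (1, false) ω‖ₑ ^ (2 * q)) ∂P := by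
        refine lintegral_mono fun ω => ?_
        rw [pow_mul, enorm_sq_le, pow_mul, pow_mul]
        exact add_pow_le' _ _ q
    _ = 2 ^ q * (mo q + mo q) := by
        have h3 : AEMeasurable (fun ω => ‖co B (1, true) ω‖ₑ ^ (2 * q) +
            ‖co B (1, false) ω‖ₑ ^ (2 * q)) P := (hm true).add (hm false)
        rw [lintegral_const_mul'' _ h3, lintegral_add_left' (hm true), co_mom h, co_mom h]

lemma one_two (h : IsPBM P B) : ∫⁻ ω, ‖B 1 ω‖ₑ ^ 2 ∂P ≤ 2 := by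
  have hm : ∀ b, AEMeasurable (fun ω => ‖co B (1, b) ω‖ₑ ^ 2) P := fun b =>
    (h.aemeasurable_co (1, b) one_mem).enorm.pow_const _
  have h1 : ∀ b, ∫⁻ ω, ‖co B (1, b) ω‖ₑ ^ 2 ∂P = 1 := fun b => by
    have := co_mom h b 1
    rw [mul_one, mo_one] at this
    exact this
  have h2 : ∫⁻ ω, ‖B 1 ω‖ₑ ^ 2 ∂P =
      ∫⁻ ω, (‖co B (1, true) ω‖ₑ ^ 2 + ‖co B (1, false) ω‖ₑ ^ 2) ∂P :=
    lintegral_congr fun ω => enorm_sq_le _
  rw [h2, lintegral_add_left' (hm true), h1, h1]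
  norm_num

lemma seg_scale {s t : ℝ} (hst : s < t) (ω : Ω) :
    B t ω - B s ω = ((Real.sqrt (t - s) : ℝ) : ℂ) * seg B s t 1 ω := by
  have hd : 0 < t - s := sub_pos.2 hst
  have h1 : ((Real.sqrt (t - s) : ℝ) : ℂ) ≠ 0 :=
    Complex.ofReal_ne_zero.2 (Real.sqrt_pos.2 hd).ne'
  unfold seg
  have e2 : s + 1 * (t - s) = t := by ring
  rw [e2, Complex.ofReal_inv, mul_inv_cancel_left₀ h1]

lemma inc_mom (h : IsPBM P B) {s t : ℝ} (hs : 0 ≤ s) (hst : s < t) (ht : t ≤ 1) (q : ℕ)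
    {C : ENNReal} (hC : ∀ B' : ℝ → Ω → ℂ, IsPBM P B' → ∫⁻ ω, ‖B' 1 ω‖ₑ ^ (2 * q) ∂P ≤ C) :
    ∫⁻ ω, ‖B t ω - B s ω‖ₑ ^ (2 * q) ∂P ≤ C * ENNReal.ofReal ((t - s) ^ q) := by
  have hd : 0 < t - s := sub_pos.2 hst
  have hseg := h.isPBM_seg hs hst ht
  have h1 : ∀ ω, ‖B t ω - B s ω‖ₑ ^ (2 * q) =
      ENNReal.ofReal ((t - s) ^ q) * ‖seg B s t 1 ω‖ₑ ^ (2 * q) := by
    intro ω
    rw [seg_scale hst, enorm_mul, mul_pow]
    congr 1
    rw [← ofReal_norm, Complex.norm_real, Real.norm_of_nonneg (Real.sqrt_nonneg _),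
      ← ENNReal.ofReal_pow (Real.sqrt_nonneg _), pow_mul, Real.sq_sqrt hd.le]
  simp only [h1]
  have hm : AEMeasurable (fun ω => ‖seg B s t 1 ω‖ₑ ^ (2 * q)) P :=
    (aemeas hseg one_mem).enorm.pow_const _
  rw [lintegral_const_mul'' _ hm, mul_comm]
  exact mul_le_mul_left (hC _ hseg) _

lemma inc_mom' (h : IsPBM P B) (q : ℕ) (hq : 1 ≤ q) {C : ENNReal}
    (hC : ∀ B' : ℝ → Ω → ℂ, IsPBM P B' → ∫⁻ ω, ‖B' 1 ω‖ₑ ^ (2 * q) ∂P ≤ C)
    {s t : ℝ} (hs : s ∈ Icc (0 : ℝ) 1) (ht : t ∈ Icc (0 : ℝ) 1) :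
    ∫⁻ ω, ‖B t ω - B s ω‖ₑ ^ (2 * q) ∂P ≤ C * ENNReal.ofReal (|t - s| ^ q) := by
  rcases lt_trichotomy s t with hst | rfl | hst
  · rw [abs_of_pos (sub_pos.2 hst)]
    exact inc_mom h hs.1 hst ht.2 q hC
  · have h1 : ∀ ω, ‖B s ω - B s ω‖ₑ ^ (2 * q) = 0 := fun ω => by
      rw [sub_self, enorm_zero, zero_pow (by omega)]
    simp only [h1, lintegral_zero]
    exact zero_le
  · rw [abs_of_neg (sub_neg.2 hst), neg_sub]
    have h1 : ∀ ω, ‖B t ω - B s ω‖ₑ = ‖B s ω - B t ω‖ₑ := fun ω => by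
      rw [← enorm_neg, neg_sub]
    simp only [h1]
    exact inc_mom h ht.1 hst hs.2 q hC

end MOMM

open MOMM in
theorem specMOM : SpecMOM := by
  intro Ω _ P _ B h
  refine ⟨⟨fun t ht => aemeas h ht, fun ω => (h.cont ω).continuousOn, fun q => ?_⟩, ?_⟩
  · rcases Nat.eq_zero_or_pos q with rfl | hq
    · refine ⟨1, fun s _ t _ => ?_⟩
      simp
    · have hfin : 2 ^ q * (mo q + mo q) ≠ (⊤ : ENNReal) :=
        ENNReal.mul_ne_top (ENNReal.pow_ne_top (by norm_num))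
          (ENNReal.add_ne_top.2 ⟨(mo_lt q).ne, (mo_lt q).ne⟩)
      refine ⟨(2 ^ q * (mo q + mo q)).toReal, fun s hs t ht => ?_⟩
      refine (inc_mom' h q hq (fun B' h' => one_mom h' q) hs ht).trans (le_of_eq ?_)
      rw [ENNReal.ofReal_mul ENNReal.toReal_nonneg, ENNReal.ofReal_toReal hfin]
  · intro s hs t ht
    have h1 := inc_mom' h 1 le_rfl (C := 2) (fun B' h' => by
      rw [mul_one]
      exact one_two h') hs ht
    rw [mul_one, pow_one] at h1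
    refine h1.trans (le_of_eq ?_)
    rw [ENNReal.ofReal_mul (by norm_num)]
    norm_num

end Pool.Agent.Lib.MP_8b264c_pr.QV
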