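import Pool.Agent.Lib.MP_8b264c_pr.QV.Spec

/-!
# MP_8b264c_pr, module OSC: chaining
-/

set_option autoImplicit false

open MeasureTheory Set ProbabilityTheory Filter Topology

namespace Pool.Agent.Lib.MP_8b264c_pr.QV

open Pool.Agent.BMR

namespace OSCM

private theorem dyadic {γ : ℝ → ℂ} {s h M ρ : ℝ} (hρ : 0 ≤ ρ)
    (H : ∀ l i : ℕ, i < 2 ^ l →
      ‖γ (s + (i + 1) * (h / 2 ^ l)) - γ (s + i * (h / 2 ^ l))‖ ≤ M * ρ ^ l) :
    ∀ l i : ℕ, i ≤ 2 ^ l →
      ‖γ (s + i * (h / 2 ^ l)) - γ s‖ ≤ M * ∑ k ∈ Finset.range (l + 1), ρ ^ k := by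
  have hM : 0 ≤ M := by
    have := H 0 0 (by norm_num)
    simpa using (norm_nonneg _).trans this
  intro l
  induction l with
  | zero =>
    intro i hi
    rw [pow_zero] at hi
    have hi' : i = 0 ∨ i = 1 := by omega
    rcases hi' with rfl | rfl
    · simpa using hM
    · simpa using H 0 0 (by norm_num)
  | succ l ih =>
    intro i hi
    rw [Finset.sum_range_succ, mul_add]
    obtain ⟨i', rfl | rfl⟩ := Nat.even_or_odd' i
    · have e : s + ((2 * i' : ℕ) : ℝ) * (h / 2 ^ (l + 1)) = s + i' * (h / 2 ^ l) := by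
        push_cast
        rw [pow_succ]
        field_simp
      rw [e]
      have h1 := ih i' (by rw [pow_succ] at hi; omega)
      have h2 := mul_nonneg hM (pow_nonneg hρ (l + 1))
      linarith
    · have e : s + ((2 * i' : ℕ) : ℝ) * (h / 2 ^ (l + 1)) = s + i' * (h / 2 ^ l) := by
        push_cast
        rw [pow_succ]
        field_simp
      have h1 := H (l + 1) (2 * i') (by omega)
      rw [e] at h1
      have h2 := ih i' (by rw [pow_succ] at hi; omega)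
      have e3 : (((2 * i' : ℕ) : ℝ) + 1) = ((2 * i' + 1 : ℕ) : ℝ) := by push_cast; ring
      rw [e3] at h1
      have e2 : γ (s + ((2 * i' + 1 : ℕ) : ℝ) * (h / 2 ^ (l + 1))) - γ s =
          (γ (s + ((2 * i' + 1 : ℕ) : ℝ) * (h / 2 ^ (l + 1))) - γ (s + i' * (h / 2 ^ l))) +
          (γ (s + i' * (h / 2 ^ l)) - γ s) := by ring
      rw [e2]
      refine (norm_add_le _ _).trans ?_
      linarith

private theorem chain {γ : ℝ → ℂ} {s h M ρ : ℝ} (hh : 0 < h) (hρ : 0 ≤ ρ) (hρ1 : ρ < 1)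
    (hc : ContinuousOn γ (Icc s (s + h)))
    (H : ∀ l i : ℕ, i < 2 ^ l →
      ‖γ (s + (i + 1) * (h / 2 ^ l)) - γ (s + i * (h / 2 ^ l))‖ ≤ M * ρ ^ l) :
    ∀ t ∈ Icc s (s + h), ‖γ t - γ s‖ ≤ M * (1 - ρ)⁻¹ := by
  have hM : 0 ≤ M := by
    have := H 0 0 (by norm_num)
    simpa using (norm_nonneg _).trans this
  intro t ht
  have hx0 : 0 ≤ (t - s) / h := div_nonneg (by linarith [ht.1]) hh.le
  have hx1 : (t - s) / h ≤ 1 := by rw [div_le_one hh]; linarith [ht.2]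
  let N : ℕ → ℕ := fun l => ⌊(t - s) / h * 2 ^ l⌋₊
  have hN : ∀ l, N l ≤ 2 ^ l := by
    intro l
    have h2 : (t - s) / h * 2 ^ l ≤ ((2 ^ l : ℕ) : ℝ) := by
      push_cast
      have : (0 : ℝ) < 2 ^ l := by positivity
      nlinarith
    exact (Nat.floor_le_floor h2).trans (by rw [Nat.floor_natCast])
  have hlo : ∀ l, (N l : ℝ) * (h / 2 ^ l) ≤ t - s := by
    intro l
    have h1 : (N l : ℝ) ≤ (t - s) / h * 2 ^ l := Nat.floor_le (by positivity)
    have h2 : (0 : ℝ) < h / 2 ^ l := by positivity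
    calc (N l : ℝ) * (h / 2 ^ l) ≤ ((t - s) / h * 2 ^ l) * (h / 2 ^ l) :=
          mul_le_mul_of_nonneg_right h1 h2.le
      _ = t - s := by field_simp
  have hhi : ∀ l, t - s - h / 2 ^ l ≤ (N l : ℝ) * (h / 2 ^ l) := by
    intro l
    have h1 : (t - s) / h * 2 ^ l < (N l : ℝ) + 1 := Nat.lt_floor_add_one _
    have h2 : (0 : ℝ) < h / 2 ^ l := by positivity
    have h3 : ((t - s) / h * 2 ^ l) * (h / 2 ^ l) ≤ ((N l : ℝ) + 1) * (h / 2 ^ l) :=
      mul_le_mul_of_nonneg_right h1.le h2.le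
    have h4 : ((t - s) / h * 2 ^ l) * (h / 2 ^ l) = t - s := by field_simp
    linarith
  have hlim0 : Tendsto (fun l : ℕ => h / 2 ^ l) atTop (𝓝 0) := by
    have := (tendsto_pow_atTop_nhds_zero_of_lt_one (r := (1 / 2 : ℝ)) (by norm_num)
      (by norm_num)).const_mul h
    simpa [div_eq_mul_inv] using this
  have hlim : Tendsto (fun l : ℕ => s + (N l : ℝ) * (h / 2 ^ l)) atTop (𝓝 t) := by
    have ha : Tendsto (fun l : ℕ => s + (t - s - h / 2 ^ l)) atTop (𝓝 t) := by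
      have := (tendsto_const_nhds (x := t)).sub hlim0
      simp only [sub_zero] at this
      refine this.congr fun l => by ring
    refine tendsto_of_tendsto_of_tendsto_of_le_of_le ha tendsto_const_nhds ?_ ?_
    · intro l
      have := hhi l
      simp only
      linarith
    · intro l
      have := hlo l
      simp only
      linarith
  have hmem : ∀ l, s + (N l : ℝ) * (h / 2 ^ l) ∈ Icc s (s + h) := by
    intro l
    have h1 := hlo l
    have h2 : 0 ≤ (N l : ℝ) * (h / 2 ^ l) := by positivity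
    exact ⟨by linarith, by linarith [ht.2]⟩
  have hg : Tendsto (fun l : ℕ => γ (s + (N l : ℝ) * (h / 2 ^ l))) atTop (𝓝 (γ t)) :=
    (hc t ht).tendsto.comp
      (tendsto_nhdsWithin_iff.2 ⟨hlim, Eventually.of_forall hmem⟩)
  have hg2 : Tendsto (fun l : ℕ => ‖γ (s + (N l : ℝ) * (h / 2 ^ l)) - γ s‖) atTop
      (𝓝 ‖γ t - γ s‖) := (hg.sub_const _).norm
  refine le_of_tendsto hg2 (Eventually.of_forall fun l => ?_)
  refine (dyadic hρ H l (N l) (hN l)).trans ?_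
  refine mul_le_mul_of_nonneg_left ?_ hM
  rw [← tsum_geometric_of_lt_one hρ hρ1]
  exact (summable_geometric_of_lt_one hρ hρ1).sum_le_tsum _ (fun i _ => pow_nonneg hρ i)

/-- The increment process of the chain. -/
private noncomputable def inc (γ : ℝ → ℂ) (n j l i : ℕ) : ℂ :=
  γ (tm n j + (i + 1) * (1 / 4 ^ n / 2 ^ l)) - γ (tm n j + i * (1 / 4 ^ n / 2 ^ l))

private noncomputable def S (γ : ℝ → ℂ) (q n j : ℕ) : ENNReal :=
  ∑' l : ℕ, ENNReal.ofReal ((100 / 81 : ℝ) ^ (q * l)) *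
    ∑ i ∈ Finset.range (2 ^ l), ‖inc γ n j l i‖ₑ ^ (2 * q)

private theorem tm_succ (n j : ℕ) : tm n (j + 1) = tm n j + 1 / 4 ^ n := by
  unfold tm
  push_cast
  ring

private theorem point {γ : ℝ → ℂ} (hc : ContinuousOn γ (Icc 0 1)) {q n j : ℕ} (hq : 2 ≤ q)
    (hj : j < 4 ^ n) :
    ENNReal.ofReal ((2 ^ n * osc γ n j) ^ (2 * q)) ≤
      ENNReal.ofReal ((2 ^ n * 20) ^ (2 * q)) * S γ q n j := by
  have hK : (0 : ℝ) < (2 ^ n * 20) ^ (2 * q) := by positivity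
  by_cases hS : S γ q n j = ⊤
  · rw [hS, ENNReal.mul_top (by simp)]
    exact le_top
  have hs0 : 0 ≤ tm n j := by unfold tm; positivity
  have hs1 : tm n j + 1 / 4 ^ n ≤ 1 := by
    rw [← tm_succ]
    unfold tm
    rw [div_le_one (by positivity)]
    exact_mod_cast hj
  have hh : (0 : ℝ) < 1 / 4 ^ n := by positivity
  set σ := (S γ q n j).toReal with hσ
  have hσ0 : 0 ≤ σ := ENNReal.toReal_nonneg
  have hSσ : S γ q n j = ENNReal.ofReal σ := (ENNReal.ofReal_toReal hS).symm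
  set M : ℝ := σ ^ (1 / ((2 * q : ℕ) : ℝ)) with hMd
  have hM0 : 0 ≤ M := Real.rpow_nonneg hσ0 _
  have h2q : (2 * q : ℕ) ≠ 0 := by omega
  have hMq : M ^ (2 * q) = σ := by
    rw [hMd, one_div]
    exact Real.rpow_inv_natCast_pow hσ0 h2q
  have H : ∀ l i : ℕ, i < 2 ^ l →
      ‖γ (tm n j + (i + 1) * (1 / 4 ^ n / 2 ^ l)) - γ (tm n j + i * (1 / 4 ^ n / 2 ^ l))‖ ≤
        M * (9 / 10) ^ l := by
    intro l i hi
    have h1 : ENNReal.ofReal ((100 / 81 : ℝ) ^ (q * l)) * ‖inc γ n j l i‖ₑ ^ (2 * q) ≤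
        ENNReal.ofReal σ := by
      rw [← hSσ]
      refine le_trans ?_ (ENNReal.le_tsum l)
      gcongr
      exact Finset.single_le_sum (f := fun i => ‖inc γ n j l i‖ₑ ^ (2 * q))
        (fun _ _ => zero_le) (Finset.mem_range.2 hi)
    have h2 : (100 / 81 : ℝ) ^ (q * l) * ‖inc γ n j l i‖ ^ (2 * q) ≤ σ := by
      have e : ENNReal.ofReal ((100 / 81 : ℝ) ^ (q * l)) * ‖inc γ n j l i‖ₑ ^ (2 * q) =
          ENNReal.ofReal ((100 / 81 : ℝ) ^ (q * l) * ‖inc γ n j l i‖ ^ (2 * q)) := by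
        rw [ENNReal.ofReal_mul (by positivity), ENNReal.ofReal_pow (norm_nonneg _),
          ofReal_norm]
      rw [e] at h1
      exact (ENNReal.ofReal_le_ofReal_iff hσ0).1 h1
    have h3 : ‖inc γ n j l i‖ ^ (2 * q) ≤ (M * (9 / 10) ^ l) ^ (2 * q) := by
      have e5 : ((9 / 10 : ℝ) ^ l) ^ (2 * q) = ((9 / 10 : ℝ) ^ 2) ^ (q * l) := by
        rw [← pow_mul, ← pow_mul]
        congr 1
        ring
      rw [mul_pow, hMq, e5]
      have e4 : ((9 / 10 : ℝ) ^ 2) ^ (q * l) * (100 / 81 : ℝ) ^ (q * l) = 1 := by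
        rw [← mul_pow]
        norm_num
      have hp : (0 : ℝ) < ((9 / 10 : ℝ) ^ 2) ^ (q * l) := by positivity
      calc ‖inc γ n j l i‖ ^ (2 * q)
          = ((9 / 10 : ℝ) ^ 2) ^ (q * l) *
            ((100 / 81 : ℝ) ^ (q * l) * ‖inc γ n j l i‖ ^ (2 * q)) := by
              rw [← mul_assoc, e4, one_mul]
        _ ≤ ((9 / 10 : ℝ) ^ 2) ^ (q * l) * σ := mul_le_mul_of_nonneg_left h2 hp.le
        _ = σ * ((9 / 10 : ℝ) ^ 2) ^ (q * l) := mul_comm _ _
    exact (pow_le_pow_iff_left₀ (norm_nonneg _) (by positivity) h2q).1 h3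
  have hch := chain (γ := γ) hh (by norm_num : (0 : ℝ) ≤ 9 / 10) (by norm_num)
    (hc.mono (Icc_subset_Icc hs0 hs1)) H
  have hosc : osc γ n j ≤ 20 * M := by
    unfold osc
    refine Metric.diam_le_of_forall_dist_le (by positivity) ?_
    rintro _ ⟨t, ht, rfl⟩ _ ⟨u, hu, rfl⟩
    rw [tm_succ] at ht hu
    have h1 := hch t ht
    have h2 := hch u hu
    have e : M * (1 - 9 / 10 : ℝ)⁻¹ = 10 * M := by
      norm_num
      ring
    rw [e] at h1 h2
    calc dist (γ t) (γ u) ≤ dist (γ t) (γ (tm n j)) + dist (γ u) (γ (tm n j)) :=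
          dist_triangle_right _ _ _
      _ ≤ 10 * M + 10 * M := by
          rw [dist_eq_norm, dist_eq_norm]
          exact add_le_add h1 h2
      _ = 20 * M := by ring
  have hosc0 : 0 ≤ osc γ n j := Metric.diam_nonneg
  rw [hSσ, ← ENNReal.ofReal_mul hK.le]
  refine ENNReal.ofReal_le_ofReal ?_
  calc (2 ^ n * osc γ n j) ^ (2 * q) ≤ (2 ^ n * (20 * M)) ^ (2 * q) := by
        gcongr
    _ = (2 ^ n * 20) ^ (2 * q) * σ := by rw [← hMq]; ring

end OSCM

open OSCM in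
theorem specOSC : SpecOSC := by
  intro Ω _ P _ Y hY q hq
  obtain ⟨C₀, hC₀⟩ := hY.mom q
  set C₁ : ℝ := max C₀ 0 with hC₁
  have hC₁0 : 0 ≤ C₁ := le_max_right _ _
  have hmom : ∀ s ∈ Icc (0 : ℝ) 1, ∀ t ∈ Icc (0 : ℝ) 1,
      ∫⁻ ω, ‖Y t ω - Y s ω‖ₑ ^ (2 * q) ∂P ≤ ENNReal.ofReal (C₁ * |t - s| ^ q) := by
    intro s hs t ht
    refine (hC₀ s hs t ht).trans (ENNReal.ofReal_le_ofReal ?_)
    exact mul_le_mul_of_nonneg_right (le_max_left _ _) (by positivity)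
  set r : ℝ := 2 * (50 / 81) ^ q with hr
  have hr0 : 0 ≤ r := by positivity
  have hr1 : r < 1 := by
    have : (50 / 81 : ℝ) ^ q ≤ (50 / 81) ^ 2 := pow_le_pow_of_le_one (by norm_num) (by norm_num) hq
    rw [hr]
    have h2 : (50 / 81 : ℝ) ^ 2 < 1 / 2 := by norm_num
    linarith
  refine ⟨20 ^ (2 * q) * (C₁ * (1 - r)⁻¹), by
    have : 0 < 1 - r := by linarith
    positivity, fun n => ?_⟩
  have hmemt : ∀ j < 4 ^ n, ∀ l i : ℕ, i ≤ 2 ^ l →
      tm n j + (i : ℝ) * (1 / 4 ^ n / 2 ^ l) ∈ Icc (0 : ℝ) 1 := by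
    intro j hj l i hi
    have h1 : (i : ℝ) ≤ 2 ^ l := by exact_mod_cast hi
    have h2 : (j : ℝ) + 1 ≤ 4 ^ n := by exact_mod_cast hj
    have h4 : (0 : ℝ) < 4 ^ n := by positivity
    have h5 : (0 : ℝ) < 2 ^ l := by positivity
    refine ⟨by unfold tm; positivity, ?_⟩
    have h3 : (i : ℝ) * (1 / 4 ^ n / 2 ^ l) ≤ 1 / 4 ^ n := by
      calc (i : ℝ) * (1 / 4 ^ n / 2 ^ l) ≤ 2 ^ l * (1 / 4 ^ n / 2 ^ l) :=
            mul_le_mul_of_nonneg_right h1 (by positivity)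
        _ = 1 / 4 ^ n := by field_simp
    have h6 : tm n j + 1 / 4 ^ n ≤ 1 := by
      unfold tm
      rw [← add_div, div_le_one h4]
      exact h2
    linarith
  have hmeas : ∀ j < 4 ^ n, ∀ l i : ℕ, i < 2 ^ l →
      AEMeasurable (fun ω => ‖inc (fun t => Y t ω) n j l i‖ₑ ^ (2 * q)) P := by
    intro j hj l i hi
    unfold inc
    have h1 := hY.meas _ (hmemt j hj l (i + 1) hi)
    push_cast at h1
    exact (h1.sub (hY.meas _ (hmemt j hj l i hi.le))).enorm.pow_const _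
  have hmeasl : ∀ j < 4 ^ n, ∀ l : ℕ,
      AEMeasurable (fun ω => ENNReal.ofReal ((100 / 81 : ℝ) ^ (q * l)) *
        ∑ i ∈ Finset.range (2 ^ l), ‖inc (fun t => Y t ω) n j l i‖ₑ ^ (2 * q)) P := by
    intro j hj l
    exact (Finset.aemeasurable_fun_sum _ fun i hi =>
      hmeas j hj l i (Finset.mem_range.1 hi)).const_mul _
  have hmeasS : ∀ j < 4 ^ n, AEMeasurable (fun ω => S (fun t => Y t ω) q n j) P := by
    intro j hj
    exact AEMeasurable.tsum (hmeasl j hj)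
  have hint : ∀ j < 4 ^ n, ∫⁻ ω, S (fun t => Y t ω) q n j ∂P ≤
      ENNReal.ofReal (C₁ * (1 / 4 ^ n) ^ q * (1 - r)⁻¹) := by
    intro j hj
    unfold S
    rw [lintegral_tsum (hmeasl j hj)]
    have hl : ∀ l : ℕ, ∫⁻ ω, ENNReal.ofReal ((100 / 81 : ℝ) ^ (q * l)) *
        ∑ i ∈ Finset.range (2 ^ l), ‖inc (fun t => Y t ω) n j l i‖ₑ ^ (2 * q) ∂P ≤
        ENNReal.ofReal (C₁ * (1 / 4 ^ n) ^ q * r ^ l) := by
      intro l
      rw [lintegral_const_mul' _ _ ENNReal.ofReal_ne_top,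
        lintegral_finsetSum' _ fun i hi => hmeas j hj l i (Finset.mem_range.1 hi)]
      have hb : ∀ i ∈ Finset.range (2 ^ l),
          ∫⁻ ω, ‖inc (fun t => Y t ω) n j l i‖ₑ ^ (2 * q) ∂P ≤
          ENNReal.ofReal (C₁ * (1 / 4 ^ n / 2 ^ l) ^ q) := by
        intro i hi
        have hi' := Finset.mem_range.1 hi
        have h1 := hmemt j hj l (i + 1) hi'
        push_cast at h1
        have h2 := hmom _ (hmemt j hj l i hi'.le) _ h1
        have e : |tm n j + ((i : ℝ) + 1) * (1 / 4 ^ n / 2 ^ l) -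
            (tm n j + (i : ℝ) * (1 / 4 ^ n / 2 ^ l))| = 1 / 4 ^ n / 2 ^ l := by
          rw [show tm n j + ((i : ℝ) + 1) * (1 / 4 ^ n / 2 ^ l) -
            (tm n j + (i : ℝ) * (1 / 4 ^ n / 2 ^ l)) = 1 / 4 ^ n / 2 ^ l by ring]
          exact abs_of_nonneg (by positivity)
        rw [e] at h2
        exact h2
      refine (mul_le_mul_right (Finset.sum_le_sum hb) _).trans ?_
      rw [Finset.sum_const, Finset.card_range, nsmul_eq_mul,
        show ((2 ^ l : ℕ) : ENNReal) = ENNReal.ofReal (2 ^ l) by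
          rw [ENNReal.ofReal_pow (by norm_num)]; norm_num,
        ← ENNReal.ofReal_mul (by positivity), ← ENNReal.ofReal_mul (by positivity)]
      refine ENNReal.ofReal_le_ofReal (le_of_eq ?_)
      rw [hr, div_pow (1 / 4 ^ n : ℝ), mul_pow 2, ← pow_mul (50 / 81 : ℝ), pow_mul (100 / 81 : ℝ)]
      have e1 : ((2 : ℝ) ^ l) ^ q ≠ 0 := by positivity
      have e2 : (50 / 81 : ℝ) ^ (q * l) = ((100 / 81 : ℝ) ^ q) ^ l / ((2 : ℝ) ^ l) ^ q := by
        rw [← pow_mul, ← pow_mul, mul_comm l q, ← div_pow]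
        norm_num
      rw [e2]
      field_simp
    calc ∑' l : ℕ, ∫⁻ ω, ENNReal.ofReal ((100 / 81 : ℝ) ^ (q * l)) *
          ∑ i ∈ Finset.range (2 ^ l), ‖inc (fun t => Y t ω) n j l i‖ₑ ^ (2 * q) ∂P
        ≤ ∑' l : ℕ, ENNReal.ofReal (C₁ * (1 / 4 ^ n) ^ q * r ^ l) := ENNReal.tsum_le_tsum hl
      _ = ENNReal.ofReal (∑' l : ℕ, C₁ * (1 / 4 ^ n) ^ q * r ^ l) :=
          (ENNReal.ofReal_tsum_of_nonneg (fun l => by positivity)
            ((summable_geometric_of_lt_one hr0 hr1).mul_left _)).symm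
      _ = ENNReal.ofReal (C₁ * (1 / 4 ^ n) ^ q * (1 - r)⁻¹) := by
          rw [tsum_mul_left, tsum_geometric_of_lt_one hr0 hr1]
  refine ⟨fun ω => ∑ j ∈ Finset.range (4 ^ n), ENNReal.ofReal ((2 ^ n * 20) ^ (2 * q)) *
    S (fun t => Y t ω) q n j, ?_, ?_, ?_⟩
  · exact Finset.aemeasurable_fun_sum _ fun j hj =>
      (hmeasS j (Finset.mem_range.1 hj)).const_mul _
  · rw [lintegral_finsetSum' _ fun j hj => (hmeasS j (Finset.mem_range.1 hj)).const_mul _]
    have hb : ∀ j ∈ Finset.range (4 ^ n),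
        ∫⁻ ω, ENNReal.ofReal ((2 ^ n * 20) ^ (2 * q)) * S (fun t => Y t ω) q n j ∂P ≤
        ENNReal.ofReal (20 ^ (2 * q) * (C₁ * (1 - r)⁻¹)) := by
      intro j hj
      rw [lintegral_const_mul' _ _ ENNReal.ofReal_ne_top]
      refine (mul_le_mul_right (hint j (Finset.mem_range.1 hj)) _).trans ?_
      rw [← ENNReal.ofReal_mul (by positivity)]
      refine ENNReal.ofReal_le_ofReal (le_of_eq ?_)
      have e : ((2 : ℝ) ^ n * 20) ^ (2 * q) * (1 / 4 ^ n) ^ q = 20 ^ (2 * q) := by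
        rw [mul_pow, pow_mul ((2 : ℝ) ^ n), ← pow_mul (2 : ℝ) n 2, mul_comm n 2, pow_mul (2 : ℝ) 2 n,
          show (2 : ℝ) ^ 2 = 4 by norm_num, one_div, inv_pow]
        field_simp
      calc ((2 : ℝ) ^ n * 20) ^ (2 * q) * (C₁ * (1 / 4 ^ n) ^ q * (1 - r)⁻¹)
          = ((2 : ℝ) ^ n * 20) ^ (2 * q) * (1 / 4 ^ n) ^ q * (C₁ * (1 - r)⁻¹) := by ring
        _ = 20 ^ (2 * q) * (C₁ * (1 - r)⁻¹) := by rw [e]
    refine (Finset.sum_le_sum hb).trans ?_
    rw [Finset.sum_const, Finset.card_range, nsmul_eq_mul,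
      show ((4 ^ n : ℕ) : ENNReal) = ENNReal.ofReal (4 ^ n) by
        rw [ENNReal.ofReal_pow (by norm_num)]; norm_num,
      ← ENNReal.ofReal_mul (by positivity), mul_comm]
  · intro ω
    unfold FS
    rw [ENNReal.ofReal_sum_of_nonneg (fun j _ => by
      have : 0 ≤ osc (fun t => Y t ω) n j := Metric.diam_nonneg
      positivity)]
    exact Finset.sum_le_sum fun j hj => point (hY.cont ω) hq (Finset.mem_range.1 hj)

end Pool.Agent.Lib.MP_8b264c_pr.QV
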