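import Pool.Agent.Lib.MP_8b264c_pr.QV.Spec

/-!
MP_8b264c_pr, module PAI: for far apart `j < k`, the starting points are close and the pieces are
disjoint on the fine grid with probability at most `3 lam^I / (k - j)`.
-/

set_option autoImplicit false

open MeasureTheory Set ProbabilityTheory Filter Topology

namespace Pool.Agent.Lib.MP_8b264c_pr.QV

open Pool.Agent.BMR

namespace PAIM

/-- The box. -/
def Box (r : ℝ) : Set ℂ := {u | |u.re| ≤ r ∧ |u.im| ≤ r}

lemma measurableSet_box (r : ℝ) : MeasurableSet (Box r) := by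
  have h1 : Measurable fun u : ℂ => |u.re| := continuous_abs.measurable.comp Complex.measurable_re
  have h2 : Measurable fun u : ℂ => |u.im| := continuous_abs.measurable.comp Complex.measurable_im
  exact (measurableSet_le h1 measurable_const).inter (measurableSet_le h2 measurable_const)

lemma volume_box {r : ℝ} (hr : 0 ≤ r) : volume (Box r) = ENNReal.ofReal (4 * r ^ 2) := by
  have e : Box r = Complex.measurableEquivRealProd ⁻¹' (Icc (-r) r ×ˢ Icc (-r) r) := by
    ext u
    simp only [Box, abs_le, mem_preimage, mem_prod, mem_Icc,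
      Complex.measurableEquivRealProd_apply]
    rfl
  rw [e, Complex.volume_preserving_equiv_real_prod.measure_preimage
    (measurableSet_Icc.prod measurableSet_Icc).nullMeasurableSet, Measure.volume_eq_prod,
    Measure.prod_prod, Real.volume_Icc, ← ENNReal.ofReal_mul (by linarith)]
  congr 1
  ring

/-- The values of the two pieces. -/
abbrev WT := ℕ × Bool → ℂ

/-- The start is in the box and there is no hit. -/
def G (L : ℕ) (r ρ : ℝ) : Set (WT × ℂ) :=
  {p | p.2 ∈ Box r ∧ ∀ a b : ℕ, a ≤ L → b ≤ L → ¬ Near (p.2 + p.1 (a, true)) (p.1 (b, false)) ρ}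

lemma measurableSet_G (L : ℕ) (r ρ : ℝ) : MeasurableSet (G L r ρ) := by
  have e : G L r ρ = (Prod.snd ⁻¹' Box r) ∩ ⋂ a ∈ Iic L, ⋂ b ∈ Iic L,
      {p : WT × ℂ | Near (p.2 + p.1 (a, true)) (p.1 (b, false)) ρ}ᶜ := by
    ext p
    constructor
    · rintro ⟨h1, h2⟩
      refine ⟨h1, ?_⟩
      simp only [mem_iInter]
      intro a ha b hb
      exact h2 a b ha hb
    · rintro ⟨h1, h2⟩
      simp only [mem_iInter] at h2
      exact ⟨h1, fun a b ha hb => h2 a ha b hb⟩
  rw [e]
  refine ((measurableSet_box r).preimage measurable_snd).inter ?_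
  refine MeasurableSet.biInter (Set.to_countable _) fun a _ =>
    MeasurableSet.biInter (Set.to_countable _) fun b _ => MeasurableSet.compl ?_
  have ma : Measurable fun p : WT × ℂ => p.1 (a, true) := (measurable_pi_apply _).comp measurable_fst
  have mb : Measurable fun p : WT × ℂ => p.1 (b, false) :=
    (measurable_pi_apply _).comp measurable_fst
  have m2 : Measurable fun p : WT × ℂ => p.2 := measurable_snd
  have hr : Measurable fun p : WT × ℂ => |(p.2 + p.1 (a, true)).re - (p.1 (b, false)).re| :=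
    continuous_abs.measurable.comp
      ((Complex.measurable_re.comp (m2.add ma)).sub (Complex.measurable_re.comp mb))
  have hi : Measurable fun p : WT × ℂ => |(p.2 + p.1 (a, true)).im - (p.1 (b, false)).im| :=
    continuous_abs.measurable.comp
      ((Complex.measurable_im.comp (m2.add ma)).sub (Complex.measurable_im.comp mb))
  exact (measurableSet_le hr measurable_const).inter (measurableSet_le hi measurable_const)

open Classical in
/-- The indicator. -/
noncomputable def φ (L : ℕ) (r ρ : ℝ) (w : WT) (u : ℂ) : ENNReal :=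
  (G L r ρ).indicator (fun _ => 1) (w, u)

lemma measurable_φ (L : ℕ) (r ρ : ℝ) : Measurable (Function.uncurry (φ L r ρ)) := by
  have : Function.uncurry (φ L r ρ) = (G L r ρ).indicator (fun _ => 1) := by
    funext p
    rfl
  rw [this]
  exact measurable_const.indicator (measurableSet_G L r ρ)

lemma core (hFUB : SpecFUB) {Ω : Type} [MeasurableSpace Ω] {P : Measure Ω} [IsProbabilityMeasure P]
    (W : Ω → WT) (X : Ω → ℂ) (hW : AEMeasurable W P) (hX : AEMeasurable X P)
    (hI : IndepFun W X P) (κ q : ENNReal)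
    (hden : ∀ E : Set ℂ, MeasurableSet E → P {ω | X ω ∈ E} ≤ κ * volume E) (L : ℕ) (r ρ : ℝ)
    (hdec : ∀ u ∈ Box r,
      P {ω | ∀ a b : ℕ, a ≤ L → b ≤ L → ¬ Near (u + W ω (a, true)) (W ω (b, false)) ρ} ≤ q) :
    P {ω | (W ω, -(W ω (L, true)) - X ω) ∈ G L r ρ} ≤ κ * (q * volume (Box r)) := by
  classical
  have hmφ := measurable_φ L r ρ
  let F : WT → ℂ → ENNReal := fun w x => φ L r ρ w (-(w (L, true)) - x)
  have hmap : Measurable fun p : WT × ℂ => (p.1, -(p.1 (L, true)) - p.2) := by
    refine measurable_fst.prodMk ?_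
    exact (((measurable_pi_apply _).comp measurable_fst).neg).sub measurable_snd
  have hmF : Measurable (Function.uncurry F) := hmφ.comp hmap
  have h1 : P {ω | (W ω, -(W ω (L, true)) - X ω) ∈ G L r ρ} = ∫⁻ ω, F (W ω) (X ω) ∂P := by
    have hn : NullMeasurableSet {ω | (W ω, -(W ω (L, true)) - X ω) ∈ G L r ρ} P := by
      have h2 : AEMeasurable (fun ω => (W ω, -(W ω (L, true)) - X ω)) P :=
        hmap.comp_aemeasurable (hW.prodMk hX)
      exact h2.nullMeasurableSet_preimage (measurableSet_G L r ρ)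
    rw [← lintegral_indicator_one₀ hn]
    refine lintegral_congr fun ω => ?_
    rfl
  have h2 := hFUB Ω P WT ℂ W X hW hX hI F hmF
  have h3 : ∀ w : WT, ∫⁻ ω', F w (X ω') ∂P ≤ κ * ∫⁻ u, φ L r ρ w u := by
    intro w
    have m1 : MeasurableSet (Prod.mk w ⁻¹' G L r ρ) := measurable_prodMk_left (measurableSet_G L r ρ)
    have mp := Measure.measurePreserving_sub_left (volume : Measure ℂ) (-(w (L, true)))
    have e1 : ∫⁻ ω', F w (X ω') ∂P ≤
        P {ω | X ω ∈ (fun x => -(w (L, true)) - x) ⁻¹' (Prod.mk w ⁻¹' G L r ρ)} := by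
      have e2 : (fun ω' => F w (X ω')) =
          ({ω | X ω ∈ (fun x => -(w (L, true)) - x) ⁻¹' (Prod.mk w ⁻¹' G L r ρ)}).indicator
            (fun _ => (1 : ENNReal)) := by
        funext ω
        rfl
      rw [e2]
      exact (lintegral_indicator_const_le _ _).trans (by rw [one_mul])
    refine e1.trans ((hden _ (mp.measurable m1)).trans ?_)
    rw [mp.measure_preimage m1.nullMeasurableSet]
    have e3 : (fun u => φ L r ρ w u) = (Prod.mk w ⁻¹' G L r ρ).indicator (fun _ => (1 : ENNReal)) := by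
      funext u
      rfl
    rw [e3, lintegral_indicator_const m1, one_mul]
  have h4 : AEMeasurable (Function.uncurry fun (ω : Ω) (u : ℂ) => φ L r ρ (W ω) u)
      (P.prod (volume : Measure ℂ)) := by
    have h5 : AEMeasurable (fun p : Ω × ℂ => (W p.1, p.2)) (P.prod (volume : Measure ℂ)) :=
      hW.comp_fst.prodMk measurable_snd.aemeasurable
    exact hmφ.comp_aemeasurable h5
  have h6 : ∀ u : ℂ, ∫⁻ ω, φ L r ρ (W ω) u ∂P ≤ (Box r).indicator (fun _ => q) u := by
    intro u
    by_cases hu : u ∈ Box r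
    · rw [indicator_of_mem hu]
      have e2 : (fun ω => φ L r ρ (W ω) u) =
          ({ω | (W ω, u) ∈ G L r ρ}).indicator (fun _ => (1 : ENNReal)) := by
        funext ω
        rfl
      rw [e2]
      refine (lintegral_indicator_const_le _ _).trans ?_
      rw [one_mul]
      refine (measure_mono ?_).trans (hdec u hu)
      rintro ω ⟨-, h⟩
      exact h
    · rw [indicator_of_notMem hu]
      refine le_of_eq ?_
      have e2 : (fun ω => φ L r ρ (W ω) u) = fun _ => 0 := by
        funext ω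
        refine indicator_of_notMem ?_ _
        intro h
        exact hu h.1
      rw [e2, lintegral_zero]
  calc P {ω | (W ω, -(W ω (L, true)) - X ω) ∈ G L r ρ}
      = ∫⁻ ω, (∫⁻ ω', F (W ω) (X ω') ∂P) ∂P := by rw [h1, h2]
    _ ≤ ∫⁻ ω, κ * (∫⁻ u, φ L r ρ (W ω) u) ∂P := lintegral_mono fun ω => h3 (W ω)
    _ = κ * ∫⁻ ω, (∫⁻ u, φ L r ρ (W ω) u) ∂P := lintegral_const_mul'' _ h4.lintegral_prod_right'
    _ = κ * ∫⁻ u, (∫⁻ ω, φ L r ρ (W ω) u ∂P) := by rw [lintegral_lintegral_swap h4]
    _ ≤ κ * ∫⁻ u, (Box r).indicator (fun _ => q) u := by gcongr; exact h6 _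
    _ ≤ κ * (q * volume (Box r)) := by gcongr; exact lintegral_indicator_const_le _ _

lemma tm_le {n j k : ℕ} (h : j ≤ k) : tm n j ≤ tm n k := by
  unfold tm
  gcongr

lemma tm_add (n j k : ℕ) : tm n j + tm n k = tm n (j + k) := by
  unfold tm
  push_cast
  ring

lemma tm_nonneg (n j : ℕ) : 0 ≤ tm n j := by
  unfold tm
  positivity

lemma tm_le_one {n j : ℕ} (h : j ≤ 4 ^ n) : tm n j ≤ 1 := by
  unfold tm
  rw [div_le_one (by positivity)]
  exact_mod_cast h

lemma tm_fine {n m : ℕ} (h : n ≤ m) (c : ℕ) : tm m (c * 4 ^ (m - n)) = tm n c := by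
  unfold tm
  obtain ⟨d, rfl⟩ := Nat.exists_eq_add_of_le h
  rw [Nat.add_sub_cancel_left]
  push_cast
  rw [pow_add]
  field_simp

end PAIM

open PAIM in
theorem specPAI (hIND : SpecIND) (hFUB : SpecFUB) (hDEN : SpecDEN) (hDEC : SpecDEC) : SpecPAI := by
  obtain ⟨lam, hl0, hl1, hdec⟩ := hDEC
  refine ⟨lam, hl0, hl1, ?_⟩
  intro Ω _ P _ B hB n m I j k hnm hjk hk
  obtain ⟨hmeas, hind⟩ := hIND Ω P B hB
  have hI1 : 1 ≤ 4 ^ I := Nat.one_le_pow _ _ (by norm_num)
  set L := 4 ^ I * 4 ^ (m - n) with hL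
  have hTL : tm m L = tm n (4 ^ I) := tm_fine hnm _
  have hs1 : 0 ≤ tm n j := tm_nonneg n j
  have hst : tm n j + tm n (4 ^ I) ≤ tm n k := by
    rw [tm_add]
    exact tm_le (by omega)
  have hst' : tm n j + tm n (4 ^ I) < tm n k := by
    rw [tm_add]
    unfold tm
    have : ((j + 4 ^ I : ℕ) : ℝ) < (k : ℝ) := by
      exact_mod_cast (by omega : j + 4 ^ I < k)
    gcongr
  have hs2 : tm n k + tm n (4 ^ I) ≤ 1 := by
    rw [tm_add]
    exact tm_le_one hk
  have hT0 : 0 ≤ tm n (4 ^ I) := tm_nonneg _ _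
  have hfine : ∀ a : ℕ, tm m (min a L) ≤ tm n (4 ^ I) := fun a => by
    rw [← hTL]
    exact tm_le (min_le_right _ _)
  -- the two families
  let u₁ : ℕ × Bool → ℝ := fun p => if p.2 then tm n j else tm n k
  let v₁ : ℕ × Bool → ℝ := fun p => (if p.2 then tm n j else tm n k) + tm m (min p.1 L)
  have h01 : ∀ i : ℕ × Bool, 0 ≤ u₁ i ∧ u₁ i ≤ v₁ i ∧ v₁ i ≤ 1 := by
    rintro ⟨a, b⟩
    have h1 := hfine a
    have h2 := tm_nonneg m (min a L)
    have h3 := tm_nonneg n k
    cases b
    · simp only [u₁, v₁, Bool.false_eq_true, if_false]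
      exact ⟨h3, by linarith, by linarith⟩
    · simp only [u₁, v₁, if_true]
      exact ⟨hs1, by linarith, by linarith⟩
  have hI' := hind (ℕ × Bool) Unit u₁ v₁ (fun _ => tm n j + tm n (4 ^ I)) (fun _ => tm n k) h01
    (fun _ => ⟨by linarith, hst, by linarith⟩) (by
      rintro ⟨a, b⟩ -
      have h1 := hfine a
      cases b
      · right
        simp only [u₁, Bool.false_eq_true, if_false]
        exact le_rfl
      · left
        simp only [v₁, if_true]
        linarith)
  set W : Ω → WT := fun ω i => B (v₁ i) ω - B (u₁ i) ω with hWdef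
  set X : Ω → ℂ := fun ω => B (tm n k) ω - B (tm n j + tm n (4 ^ I)) ω with hXdef
  have hI : IndepFun W X P :=
    hI'.comp (φ := id) (ψ := fun y : Unit → ℂ => y ()) measurable_id (measurable_pi_apply _)
  have hW : AEMeasurable W P := by
    refine aemeasurable_pi_lambda _ fun i => ?_
    obtain ⟨h1, h2, h3⟩ := h01 i
    exact (hmeas _ ⟨h1.trans h2, h3⟩).sub (hmeas _ ⟨h1, h2.trans h3⟩)
  have hX : AEMeasurable X P :=
    (hmeas _ ⟨tm_nonneg _ _, by linarith⟩).sub (hmeas _ ⟨by linarith, by linarith⟩)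
  have hden := hDEN Ω P B hB (tm n j + tm n (4 ^ I)) (tm n k) (by linarith) hst' (by linarith)
  have hc := core hFUB W X hW hX hI _ (ENNReal.ofReal (2 * lam ^ I)) hden L (1 / 2 ^ n) (1 / 2 ^ m)
    (by
      rintro u ⟨hu1, hu2⟩
      refine le_trans (measure_mono ?_)
        (hdec Ω P B hB n m I (tm n j) (tm n k) u hnm hs1 hst hs2 hu1 hu2)
      intro ω hω a b ha hb hh
      refine hω a b ha hb ?_
      have hh' : Near (u + (B (tm n j + tm m a) ω - B (tm n j) ω))
        (B (tm n k + tm m b) ω - B (tm n k) ω) (1 / 2 ^ m) := hh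
      have ea : min a L = a := min_eq_left ha
      have eb : min b L = b := min_eq_left hb
      simp only [hWdef, u₁, v₁, if_true, Bool.false_eq_true, if_false, ea, eb]
      exact hh')
  refine le_trans (measure_mono ?_) (hc.trans ?_)
  · rintro ω ⟨h1, h2⟩
    have eL : min L L = L := min_self L
    have e1 : -(W ω (L, true)) - X ω = B (tm n j) ω - B (tm n k) ω := by
      simp only [hWdef, hXdef, u₁, v₁, if_true, eL, hTL]
      ring
    show (W ω, -(W ω (L, true)) - X ω) ∈ G L (1 / 2 ^ n) (1 / 2 ^ m)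
    rw [e1]
    refine ⟨?_, ?_⟩
    · refine ⟨?_, ?_⟩
      · rw [Complex.sub_re]
        exact h1.1
      · rw [Complex.sub_im]
        exact h1.2
    · intro a b ha hb hh
      refine h2 a b ha hb ?_
      have ea : min a L = a := min_eq_left ha
      have eb : min b L = b := min_eq_left hb
      simp only [hWdef, u₁, v₁, if_true, Bool.false_eq_true, if_false, ea, eb] at hh
      obtain ⟨g1, g2⟩ := hh
      simp only [Complex.add_re, Complex.sub_re, Complex.add_im, Complex.sub_im] at g1 g2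
      refine ⟨?_, ?_⟩
      · have : (B (tm n j + tm m a) ω).re - (B (tm n k + tm m b) ω).re =
          (B (tm n j) ω).re - (B (tm n k) ω).re + ((B (tm n j + tm m a) ω).re - (B (tm n j) ω).re) -
            ((B (tm n k + tm m b) ω).re - (B (tm n k) ω).re) := by ring
        rw [this]
        exact g1
      · have : (B (tm n j + tm m a) ω).im - (B (tm n k + tm m b) ω).im =
          (B (tm n j) ω).im - (B (tm n k) ω).im + ((B (tm n j + tm m a) ω).im - (B (tm n j) ω).im) -
            ((B (tm n k + tm m b) ω).im - (B (tm n k) ω).im) := by ring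
        rw [this]
        exact g2
  · rw [volume_box (by positivity), ← ENNReal.ofReal_mul (by positivity),
      ← ENNReal.ofReal_mul (by
        have : 0 < tm n k - (tm n j + tm n (4 ^ I)) := by linarith
        positivity)]
    refine ENNReal.ofReal_le_ofReal ?_
    have h4 : (0 : ℝ) < 4 ^ n := by positivity
    have e2 : tm n k - (tm n j + tm n (4 ^ I)) = ((k : ℝ) - j - 4 ^ I) / 4 ^ n := by
      unfold tm
      push_cast
      ring
    have hkj : (j : ℝ) + 2 * 4 ^ I ≤ k := by exact_mod_cast hjk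
    have hI1' : (1 : ℝ) ≤ 4 ^ I := by exact_mod_cast hI1
    have hd : (0 : ℝ) < (k : ℝ) - j := by linarith
    have hd2 : ((k : ℝ) - j) / 2 ≤ (k : ℝ) - j - 4 ^ I := by linarith
    have e3 : ((1 : ℝ) / 2 ^ n) ^ 2 = 1 / 4 ^ n := by
      rw [div_pow, one_pow, ← pow_mul, mul_comm n 2, pow_mul]
      norm_num
    rw [e2, e3]
    have hlI : 0 < lam ^ I := by positivity
    have hd3 : 0 < (k : ℝ) - j - 4 ^ I := by linarith
    have hpi := Real.pi_gt_three
    have e4 : 1 / (2 * Real.pi * (((k : ℝ) - j - 4 ^ I) / 4 ^ n)) * (2 * lam ^ I * (4 * (1 / 4 ^ n)))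
        = 4 * lam ^ I / (Real.pi * ((k : ℝ) - j - 4 ^ I)) := by
      field_simp
      try ring
    rw [e4, div_le_div_iff₀ (by positivity) hd]
    have h5 : 4 * ((k : ℝ) - j) ≤ 3 * (Real.pi * ((k : ℝ) - j - 4 ^ I)) := by
      have h6 : 3 * ((k : ℝ) - j - 4 ^ I) ≤ Real.pi * ((k : ℝ) - j - 4 ^ I) := by gcongr
      linarith
    nlinarith [mul_le_mul_of_nonneg_left h5 hlI.le]

end Pool.Agent.Lib.MP_8b264c_pr.QV
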