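import Pool.Agent.Lib.MP_8b264c_pr.QV.FIN

/-!
# SEG: null slices for the 4-adic pieces of the trace
-/

set_option autoImplicit false

open MeasureTheory Set ProbabilityTheory Filter Topology

namespace Pool.Agent.Lib.MP_8b264c_pr.QV

open Pool.Agent.BMR

/-- The piece of the trace over a 4-adic interval. -/
def pc (β : ℝ → ℂ) (m p : ℕ) : Set ℂ := β '' Icc (tm m p) (tm m (p + 1))

/-- Null slices for the 4-adic pieces. -/
def SpecSEG : Prop :=
  ∃ c : ℝ, 0 < c ∧
  ∀ (Ω : Type) [MeasurableSpace Ω] (P : Measure Ω) [IsProbabilityMeasure P] (B : ℝ → Ω → ℂ),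
    IsPBM P B → (∀ᵐ ω ∂P, volume (cc ⁻¹' (trace fun t => B t ω)) = 0) ∧
    ∀ m p : ℕ, p < 4 ^ m → ∀ᵐ ω ∂P, ∀ f : ℂ → ℂ, Continuous f →
      (∃ C : ℝ, ∀ n : ℕ, ∑ j ∈ Finset.range (4 ^ n),
        (osc (f ∘ fun t => B t ω) (m + n) (p * 4 ^ n + j)) ^ 2 ≤ C * ((n : ℝ) + 1) ^ c) →
      ∀ g h : ℂ → ℝ, (∀ z w, |g z - g w| ≤ ‖z - w‖) → (∀ z w, |h z - h w| ≤ ‖z - w‖) →
        ∀ᵐ v : ℝ, volume ((fun z => g (f z)) '' {z | z ∈ pc (fun t => B t ω) m p ∧ h z = v}) = 0

theorem specSEG (hASA : SpecASA) (hASD : SpecASD) : SpecSEG := by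
  obtain ⟨lam, l1, l2, hA⟩ := hASA
  obtain ⟨μ, m0, m1, mp, m4⟩ := FINM.exists_root l1 l2
  obtain ⟨c, c0, hc⟩ := FINM.exists_exp m0 m1
  have hκ : 1 < μ⁻¹ := by
    rw [lt_inv_comm₀ one_pos m0, inv_one]
    exact m1
  refine ⟨c, c0, ?_⟩
  intro Ω _ P _ B hB
  constructor
  · filter_upwards [hA Ω P B hB μ⁻¹ hκ] with ω hω
    obtain ⟨R, hR, hk⟩ := hω
    exact FINM.area_zero (hB.cont ω) hR m4 m0 fun k h1 => (hk k h1).1
  intro m p hp
  have p4 : (0 : ℝ) < 4 ^ m := by positivity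
  set s : ℝ := tm m p with hs
  set t : ℝ := tm m (p + 1) with ht
  have hst' : t - s = 1 / 4 ^ m := by
    rw [ht, hs]
    unfold tm
    push_cast
    ring
  have hst : s < t := by
    have : 0 < t - s := by rw [hst']; positivity
    linarith
  have hs0 : 0 ≤ s := by rw [hs]; unfold tm; positivity
  have ht1 : t ≤ 1 := by
    rw [ht]
    unfold tm
    rw [div_le_one p4]
    exact_mod_cast hp
  have hts1 : t - s ≤ 1 := by linarith
  have hsq : 0 < Real.sqrt (t - s) := Real.sqrt_pos.mpr (by linarith)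
  have hsq1 : Real.sqrt (t - s) ≤ 1 := by
    rw [Real.sqrt_le_one]
    exact hts1
  have hseg := hB.isPBM_seg hs0 hst ht1
  filter_upwards [hA Ω P (seg B s t) hseg μ⁻¹ hκ] with ω hω
  obtain ⟨R, hR, hk⟩ := hω
  intro f hf hQ g h hg hh
  obtain ⟨C, hC⟩ := hQ
  set σ : ℝ := Real.sqrt (t - s) with hσ
  -- the transported function
  set f' : ℂ → ℂ := fun z => f ((σ : ℂ) * z + B s ω) with hf'
  have hf'c : Continuous f' := hf.comp (by fun_prop)
  have hval : ∀ u : ℝ, (σ : ℂ) * seg B s t u ω + B s ω = B (s + u * (t - s)) ω := by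
    intro u
    unfold seg
    rw [← mul_assoc, ← Complex.ofReal_mul, mul_inv_cancel₀ hsq.ne', Complex.ofReal_one, one_mul,
      sub_add_cancel]
  have hQ2 : ∀ k : ℕ, 1 ≤ k → QS (f' ∘ fun u => seg B s t u ω) (nk k) ≤
      (|C| * 2 ^ c) * (μ⁻¹) ^ k := by
    intro k _
    have h1 : QS (f' ∘ fun u => seg B s t u ω) (nk k) ≤ C * ((nk k : ℝ) + 1) ^ c := by
      refine le_trans ?_ (hC (nk k))
      unfold QS
      refine Finset.sum_le_sum fun j hj => ?_
      rw [Finset.mem_range] at hj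
      set n := nk k with hn
      have e1 : ∀ i : ℕ, tm (m + n) (p * 4 ^ n + i) = s + tm n i * (t - s) := by
        intro i
        rw [hst', hs]
        unfold tm
        push_cast
        rw [pow_add]
        field_simp
      have hsub : (f' ∘ fun u => seg B s t u ω) '' Icc (tm n j) (tm n (j + 1)) ⊆
          (f ∘ fun t => B t ω) '' Icc (tm (m + n) (p * 4 ^ n + j))
            (tm (m + n) (p * 4 ^ n + j + 1)) := by
        rintro _ ⟨u, hu, rfl⟩
        refine ⟨s + u * (t - s), ⟨?_, ?_⟩, ?_⟩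
        · rw [e1]
          have : tm n j * (t - s) ≤ u * (t - s) :=
            mul_le_mul_of_nonneg_right hu.1 (by linarith)
          linarith
        · rw [add_assoc, e1]
          have : u * (t - s) ≤ tm n (j + 1) * (t - s) :=
            mul_le_mul_of_nonneg_right hu.2 (by linarith)
          linarith
        · simp only [Function.comp, hf']
          rw [hval]
      have hbd : Bornology.IsBounded ((f ∘ fun t => B t ω) '' Icc (tm (m + n) (p * 4 ^ n + j))
            (tm (m + n) (p * 4 ^ n + j + 1))) :=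
        (isCompact_Icc.image (hf.comp (hB.cont ω))).isBounded
      have hd := Metric.diam_mono hsub hbd
      unfold osc
      have h0 : 0 ≤ Metric.diam ((f' ∘ fun u => seg B s t u ω) '' Icc (tm n j) (tm n (j + 1))) :=
        Metric.diam_nonneg
      exact pow_le_pow_left₀ h0 hd 2
    refine h1.trans (le_trans ?_ (hc |C| (abs_nonneg C) k))
    exact mul_le_mul_of_nonneg_right (le_abs_self C) (by positivity)
  have hh' : ∀ z w : ℂ, |h ((σ : ℂ) * z + B s ω) - h ((σ : ℂ) * w + B s ω)| ≤ ‖z - w‖ := by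
    intro z w
    refine (hh _ _).trans ?_
    have e : (σ : ℂ) * z + B s ω - ((σ : ℂ) * w + B s ω) = (σ : ℂ) * (z - w) := by ring
    rw [e, norm_mul, Complex.norm_real, Real.norm_eq_abs, abs_of_pos hsq]
    exact mul_le_of_le_one_left (norm_nonneg _) hsq1
  have slices := hASD lam l1 l2 μ m0 mp (fun u => seg B s t u ω) f' R (|C| * 2 ^ c)
    (hseg.cont ω) hf'c hR (by positivity) hk hQ2 g (fun z => h ((σ : ℂ) * z + B s ω)) hg hh'
  filter_upwards [slices] with v hv
  refine measure_mono_null ?_ hv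
  rintro _ ⟨w, ⟨⟨r, hr, rfl⟩, hw⟩, rfl⟩
  have hu : (r - s) / (t - s) ∈ Icc (0 : ℝ) 1 := by
    have h5 : 0 < t - s := by linarith
    constructor
    · exact div_nonneg (by linarith [hr.1]) h5.le
    · rw [div_le_one h5]
      linarith [hr.2]
  have hr' : s + (r - s) / (t - s) * (t - s) = r := by
    have h5 : t - s ≠ 0 := by linarith
    field_simp
    ring
  refine ⟨seg B s t ((r - s) / (t - s)) ω, ⟨⟨_, hu, rfl⟩, ?_⟩, ?_⟩
  · rw [hval, hr']
    exact hw
  · simp only [hf']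
    rw [hval, hr']

end Pool.Agent.Lib.MP_8b264c_pr.QV
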