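import Pool.Agent.Lib.BMR.Pt2

/-!
# MP_8b264c_pr: conformal rigidity of the Brownian path (quadratic variation)

THEOREM. There is `c > 0` such that for every planar Brownian motion `B` on `[0,1]` almost surely:
every homeomorphism `f` of the plane, holomorphic off `K = B[0,1]`, with
`∑_{j < 4^n} (diam f(B[j 4^-n, (j+1) 4^-n]))^2 ≤ C (n+1)^c` for all `n` (some `C`), is holomorphic.
In particular, for every continuous process `Y` on the same probability space (ANY coupling) with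
`E |Y_t - Y_s|^(2q) ≤ C_q |t - s|^q` for all `q` (a Brownian motion, an Ito process with bounded
coefficients, ...) almost surely every homeomorphism `f` of the plane, holomorphic off `K`, with
`f (B_t) = Y_(τ t)` for a monotone `τ`, is affine.

PROOF IN SHORT (scale `n`, `L = 4^I` steps, fine mesh `4^-m`).
* The points `B(j 4^-n)` lie in `N ≤ 4^n vol(nb K 2^-n)` dyadic squares, `E N ≤ C 4^n / n` (library).
* Two pieces `E_j = [j 4^-n, (j+L) 4^-n]`, `E_k` whose starting points are within `2^-n` of each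
  other have disjoint images with probability `≤ 3 lam^I / |k - j|`; so the number `b` of such
  pairs has `E b ≤ C 4^n (4^I + (n+1) lam^I)`.
* If `B(E_i)` meets `B(E_k)` and `B(E_k)` meets `B(E_j)` then `|f(p) - f(q)| ≤ O_i + O_k + O_j` for
  `p ∈ B(E_i)`, `q ∈ B(E_j)`, `O_j` = sum of the oscillations of `f ∘ B` over the `L` steps. So the
  image of (most of) `K ∩ square` has diameter `≤ 3 max O_j`; the few lonely pieces are counted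
  one by one. By Cauchy-Schwarz `∫ |Re f (K ∩ line)| ≤ 36 √Q (H L √ν + H √(4^-n b / M₀ + M₀ ν) +
  √(4^-n F) / H)`, `Q = ∑ osc²(f ∘ B)`, `F = ∑ (2^n osc B)^4`, `ν = vol(nb K 2^-n)`, and along
  `n = 4^(8k)`, `I = k` this tends to `0`.
* So almost all lines have `|Re f(K ∩ line)| = |Im f (K ∩ line)| = 0`; ACL and Morera (library).

FILES. Module XXX: `Pool/Agent/Lib/MP_8b264c_pr/QV/XXX.lean`, imports this file only, namespace
`Pool.Agent.Lib.MP_8b264c_pr.QV`, one theorem `specXXX (hYYY : SpecYYY) ... : SpecXXX` with the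
hypotheses listed in `deps` of the table (all others are NOT needed), private lemmas in a namespace
`XXXM`.
-/

set_option autoImplicit false

open MeasureTheory Set ProbabilityTheory Filter Topology

namespace Pool.Agent.Lib.MP_8b264c_pr.QV

open Pool.Agent.BMR

/-- Sup norm closeness. -/
def Near (z w : ℂ) (r : ℝ) : Prop := |z.re - w.re| ≤ r ∧ |z.im - w.im| ≤ r

/-- The trace. -/
def trace (β : ℝ → ℂ) : Set ℂ := β '' Icc (0 : ℝ) 1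

/-- The time `j 4^-n`. -/
noncomputable def tm (n j : ℕ) : ℝ := (j : ℝ) / 4 ^ n

/-- Oscillation over the `j`-th interval of length `4^-n`. -/
noncomputable def osc (γ : ℝ → ℂ) (n j : ℕ) : ℝ := Metric.diam (γ '' Icc (tm n j) (tm n (j + 1)))

/-- The sum of the oscillations over the intervals `j, ..., j + 4^I - 1` (cut at `4^n`). -/
noncomputable def ext (γ : ℝ → ℂ) (n I j : ℕ) : ℝ :=
  ∑ i ∈ Finset.Ico j (min (j + 4 ^ I) (4 ^ n)), osc γ n i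

/-- The extended time interval `E_j`. -/
noncomputable def EI (n I j : ℕ) : Set ℝ := Icc (tm n j) (min 1 (tm n (j + 4 ^ I)))

/-- The two extended pieces meet. -/
def meet (β : ℝ → ℂ) (n I j k : ℕ) : Prop := ∃ s ∈ EI n I j, ∃ t ∈ EI n I k, β s = β t

open Classical in
/-- The number of pairs of close starting points whose extended pieces do not meet. -/
noncomputable def badN (β : ℝ → ℂ) (n I : ℕ) : ℕ :=
  (((Finset.range (4 ^ n)) ×ˢ (Finset.range (4 ^ n))).filter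
    (fun p => Near (β (tm n p.1)) (β (tm n p.2)) (1 / 2 ^ n) ∧ ¬ meet β n I p.1 p.2)).card

/-- The dyadic cell (side `2^-n`) of `β (j 4^-n)`. -/
noncomputable def cell (β : ℝ → ℂ) (n j : ℕ) : ℤ × ℤ :=
  (⌊2 ^ n * (β (tm n j)).re⌋, ⌊2 ^ n * (β (tm n j)).im⌋)

/-- The number of cells. -/
noncomputable def cellN (β : ℝ → ℂ) (n : ℕ) : ℕ := ((Finset.range (4 ^ n)).image (cell β n)).card

open Classical in
/-- The thin indices: the piece has diameter at most `H 2^-n`. -/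
noncomputable def thin (β : ℝ → ℂ) (n : ℕ) (H : ℝ) : Finset ℕ :=
  (Finset.range (4 ^ n)).filter (fun j => 2 ^ n * osc β n j ≤ H)

open Classical in
/-- The thin indices in a cell. -/
noncomputable def inCell (β : ℝ → ℂ) (n : ℕ) (H : ℝ) (c : ℤ × ℤ) : Finset ℕ :=
  (thin β n H).filter (fun j => cell β n j = c)

open Classical in
/-- The lonely indices: thin, and the cell has at most `M₀` thin indices, or at least a third of
the thin indices of the cell do not meet it. -/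
noncomputable def lonely (β : ℝ → ℂ) (n I : ℕ) (H M₀ : ℝ) : Finset ℕ :=
  (thin β n H).filter (fun j => ((inCell β n H (cell β n j)).card : ℝ) ≤ M₀ ∨
    (inCell β n H (cell β n j)).card ≤
      3 * ((inCell β n H (cell β n j)).filter (fun k => ¬ meet β n I j k)).card)

/-- The quadratic sum `Q`. -/
noncomputable def QS (γ : ℝ → ℂ) (n : ℕ) : ℝ := ∑ j ∈ Finset.range (4 ^ n), (osc γ n j) ^ 2

/-- The normalised sum of the powers `2q` of the oscillations. -/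
noncomputable def FS (γ : ℝ → ℂ) (q n : ℕ) : ℝ :=
  ∑ j ∈ Finset.range (4 ^ n), (2 ^ n * osc γ n j) ^ (2 * q)

/-- The area of the `2^-n`-neighbourhood of the trace. -/
noncomputable def nuK (β : ℝ → ℂ) (n : ℕ) : ℝ := (volume (nb (trace β) (1 / 2 ^ n))).toReal

/-- Processes whose increments have moments as Brownian motion. -/
structure MomP {Ω : Type} [MeasurableSpace Ω] (P : Measure Ω) (Y : ℝ → Ω → ℂ) : Prop where
  meas : ∀ t ∈ Icc (0 : ℝ) 1, AEMeasurable (Y t) P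
  cont : ∀ ω, ContinuousOn (fun t => Y t ω) (Icc 0 1)
  mom : ∀ q : ℕ, ∃ C : ℝ, ∀ s ∈ Icc (0 : ℝ) 1, ∀ t ∈ Icc (0 : ℝ) 1,
    ∫⁻ ω, ‖Y t ω - Y s ω‖ₑ ^ (2 * q) ∂P ≤ ENNReal.ofReal (C * |t - s| ^ q)

/-! ## Probability -/

/-- IND (100 lines). The values of a Brownian motion are a.e. measurable, and the increments over
two families of intervals, each interval of the first family being disjoint (up to end points) from
each interval of the second, are independent.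

PROOF. Measurability: `IsPBM.aemeasurable_co` for the two coordinates. Independence: COPY of
`IsPBM.indep_past` / `IsPBM.indep` in `Pool/Agent/Lib/BMR/{Ball,Scale}.lean`: the joint family of
the coordinates of the increments is a Gaussian process, the covariances
`min v v' - min v u' - min u v' + min u u'` (same coordinate) vanish when `v ≤ u'` or `v' ≤ u`, the
coordinates `re`, `im` are uncorrelated; `IsGaussianProcess.indepFun_of_covariance_eq_zero` gives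
independence of `(T₁ × Bool → ℝ)`- and `(T₂ × Bool → ℝ)`-valued maps; compose with the measurable
maps `(T × Bool → ℝ) → (T → ℂ)`. -/
def SpecIND : Prop :=
  ∀ (Ω : Type) [MeasurableSpace Ω] (P : Measure Ω) [IsProbabilityMeasure P] (B : ℝ → Ω → ℂ),
    IsPBM P B → (∀ t ∈ Icc (0 : ℝ) 1, AEMeasurable (B t) P) ∧
    ∀ (T₁ T₂ : Type) (u₁ v₁ : T₁ → ℝ) (u₂ v₂ : T₂ → ℝ),
      (∀ i, 0 ≤ u₁ i ∧ u₁ i ≤ v₁ i ∧ v₁ i ≤ 1) → (∀ i, 0 ≤ u₂ i ∧ u₂ i ≤ v₂ i ∧ v₂ i ≤ 1) →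
      (∀ i j, v₁ i ≤ u₂ j ∨ v₂ j ≤ u₁ i) →
      IndepFun (fun ω (i : T₁) => B (v₁ i) ω - B (u₁ i) ω)
        (fun ω (j : T₂) => B (v₂ j) ω - B (u₂ j) ω) P

/-- FUB (30 lines). Fubini for independent maps: the law of `(X, Y)` is the product of the laws
(`indepFun_iff_map_prod_eq_prod_map_map`), then `lintegral_map'` and `lintegral_prod`. -/
def SpecFUB : Prop :=
  ∀ (Ω : Type) [MeasurableSpace Ω] (P : Measure Ω) [IsProbabilityMeasure P] (E E' : Type)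
    [MeasurableSpace E] [MeasurableSpace E'] (X : Ω → E) (Y : Ω → E'),
    AEMeasurable X P → AEMeasurable Y P → IndepFun X Y P →
    ∀ F : E → E' → ENNReal, Measurable (Function.uncurry F) →
      ∫⁻ ω, F (X ω) (Y ω) ∂P = ∫⁻ ω, (∫⁻ ω', F (X ω) (Y ω') ∂P) ∂P

/-- DEN (80 lines). The law of an increment has density at most `1 / (2 π (t - s))`.

PROOF. By `IsPBM.isPBM_seg`, `(B t - B s) / √(t - s)` is the value at time `1` of a Brownian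
motion, whose coordinates are independent (copy from `IsPBM.ball_one`, `Ball.lean`) with law
`gaussianReal 0 1` (`IsPBM.map_one`), and `gaussianPDF 0 1 ≤ 1 / √(2π)`; so on rectangles / by the
product formula the law of the pair is `≤ (1/(2π)) • volume`; scale. (Or directly: the joint law is
`(gaussianReal 0 v).prod (gaussianReal 0 v)`, `v = t - s`, with density `≤ 1/(2 π v)`.) -/
def SpecDEN : Prop :=
  ∀ (Ω : Type) [MeasurableSpace Ω] (P : Measure Ω) [IsProbabilityMeasure P] (B : ℝ → Ω → ℂ),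
    IsPBM P B → ∀ s t : ℝ, 0 ≤ s → s < t → t ≤ 1 → ∀ E : Set ℂ, MeasurableSet E →
      P {ω | B t ω - B s ω ∈ E} ≤ ENNReal.ofReal (1 / (2 * Real.pi * (t - s))) * volume E

/-- LOW (100 lines). Lower bound for the probability that an increment is close to a point at
distance `O(√(t - s))`.

PROOF. As in `IsPBM.ball` / `ball_one` / `gauss_Icc` of `Ball.lean`: the two coordinates of
`(B t - B s) / √(t - s)` are independent standard normal, and for `|x| ≤ M`, `0 ≤ ρ ≤ 1` the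
interval `[x - ρ, x + ρ]` has mass at least `2 ρ (2π)^(-1/2) e^(-(M+1)²/2)`. So `c` is
`(2/π) e^(-(M+1)²)` (any positive constant is fine). -/
def SpecLOW : Prop :=
  ∀ M : ℝ, 0 ≤ M → ∃ c : ℝ, 0 < c ∧
  ∀ (Ω : Type) [MeasurableSpace Ω] (P : Measure Ω) [IsProbabilityMeasure P] (B : ℝ → Ω → ℂ),
    IsPBM P B → ∀ (s t ρ : ℝ) (z : ℂ), 0 ≤ s → s < t → t ≤ 1 → 0 ≤ ρ → ρ ^ 2 ≤ t - s →
      |z.re| ≤ M * Real.sqrt (t - s) → |z.im| ≤ M * Real.sqrt (t - s) →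
      ENNReal.ofReal (c * ρ ^ 2 / (t - s)) ≤ P {ω | Near (B t ω - B s ω) z ρ}

/-- MOM (80 lines). Moments of the increments; the constant is `2` for `q = 1`; a Brownian motion
is an instance of `MomP`.

PROOF. The coordinates of `B t - B s` have law `gaussianReal 0 |t - s|` (`IsPBM.map_lin`), so
`E |re|^(2q) = |t-s|^q m_q` with `m_q = E N^(2q) < ∞` (all moments of a Gaussian are finite:
`memLp_id_gaussianReal`), and `‖z‖^(2q) ≤ 2^q (|re z|^(2q) + |im z|^(2q))`. For `q = 1`: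
`‖z‖² = re² + im²` and the variance. -/
def SpecMOM : Prop :=
  ∀ (Ω : Type) [MeasurableSpace Ω] (P : Measure Ω) [IsProbabilityMeasure P] (B : ℝ → Ω → ℂ),
    IsPBM P B → MomP P B ∧
    ∀ s ∈ Icc (0 : ℝ) 1, ∀ t ∈ Icc (0 : ℝ) 1,
      ∫⁻ ω, ‖B t ω - B s ω‖ₑ ^ 2 ∂P ≤ ENNReal.ofReal (2 * |t - s|)

/-- The event that the two pieces, shifted by `d`, are close at the indices `a, b`. -/
def hit {Ω : Type} (B : ℝ → Ω → ℂ) (m : ℕ) (s₁ s₂ : ℝ) (d : ℂ) (a b : ℕ) : Set Ω :=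
  {ω | Near (d + (B (s₁ + tm m a) ω - B s₁ ω)) (B (s₂ + tm m b) ω - B s₂ ω) (1 / 2 ^ m)}

/-- TWL (80 lines, deps IND FUB LOW). One point lower bound.

PROOF. `X = B(s₁ + a 4^-m) - B(s₁)` and `Y = B(s₂ + b 4^-m) - B(s₂)` are independent (IND: the
intervals are disjoint because `s₁ + 2A 4^-m ≤ s₂`). By LOW with `M = 0`, `z = 0`,
`ρ² = b 4^-m`: `P(Near Y 0 √(b 4^-m)) ≥ c₀`. If `Near Y 0 √(b 4^-m)`, then `z = Y - d` has
coordinates `≤ √(2A 4^-m) + 10 √(A 4^-m) ≤ 12 √(a 4^-m)`, so by LOW with `M = 12`, `ρ = 2^-m`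
(`ρ² = 4^-m ≤ a 4^-m`): `P(Near X z 2^-m) ≥ c₁ / a ≥ c₁ / (2A)`. Fubini (FUB) with
`F(y, x) = 1{Near y 0 ..} 1{Near (d + x) y 2^-m}`: the probability is at least `c₀ c₁ / (2A)`. -/
def SpecTWL : Prop :=
  ∃ c : ℝ, 0 < c ∧
  ∀ (Ω : Type) [MeasurableSpace Ω] (P : Measure Ω) [IsProbabilityMeasure P] (B : ℝ → Ω → ℂ),
    IsPBM P B → ∀ (m A : ℕ) (s₁ s₂ : ℝ) (d : ℂ), 1 ≤ A → 0 ≤ s₁ → s₁ + tm m (2 * A) ≤ s₂ →
      s₂ + tm m (2 * A) ≤ 1 → |d.re| ≤ 10 * Real.sqrt (tm m A) → |d.im| ≤ 10 * Real.sqrt (tm m A) →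
      ∀ a b : ℕ, A ≤ a → a < 2 * A → A ≤ b → b < 2 * A →
        ENNReal.ofReal (c / A) ≤ P (hit B m s₁ s₂ d a b)

/-- TWU (150 lines, deps IND FUB DEN). Two point upper bound.

PROOF. By symmetry (exchange the two points) let `a ≤ a'`. On `hit(a,b) ∩ hit(a',b')` the increment
`Δ = (B(s₁ + a' 4^-m) - B(s₁ + a 4^-m)) - (B(s₂ + b' 4^-m) - B(s₂ + b 4^-m))` is within `2·2^-m` of
`0` in sup norm, and `X = B(s₁ + a 4^-m) - B(s₁)` is within `2^-m` of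
`(B(s₂ + b 4^-m) - B(s₂)) - d`. `X` is independent of `(B(s₁ + a' 4^-m) - B(s₁ + a 4^-m),
B(s₂ + b 4^-m) - B(s₂), B(s₂ + b' 4^-m) - B(s₂))` (IND). FUB and DEN: the probability is at most
`(2·2^-m)² / (2 π a 4^-m) · P(Near Δ 0 (2·2^-m)) ≤ (1/a) P(Near Δ 0 (2·2^-m))`, `a ≥ A`. If
`a' - a ≥ |b' - b|` and `a' > a`: `B(s₁ + a' 4^-m) - B(s₁ + a 4^-m)` is independent of the other
part, so `P(Near Δ 0 (2·2^-m)) ≤ (4·2^-m)² / (2 π (a' - a) 4^-m) ≤ 4/(a' - a)`; if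
`|b' - b| > a' - a` the same with the increment over `[s₂ + min(b,b') 4^-m, s₂ + max(b,b') 4^-m]`.
With `M = max (a' - a) |b' - b|`: `min (1, 4/M) ≤ 8/(M+1)` (`M ≥ 1`), and `1 ≤ 8` for `M = 0`. -/
def SpecTWU : Prop :=
  ∀ (Ω : Type) [MeasurableSpace Ω] (P : Measure Ω) [IsProbabilityMeasure P] (B : ℝ → Ω → ℂ),
    IsPBM P B → ∀ (m A : ℕ) (s₁ s₂ : ℝ) (d : ℂ), 1 ≤ A → 0 ≤ s₁ → s₁ + tm m (2 * A) ≤ s₂ →
      s₂ + tm m (2 * A) ≤ 1 →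
      ∀ a b a' b' : ℕ, A ≤ a → a < 2 * A → A ≤ b → b < 2 * A → A ≤ a' → a' < 2 * A → A ≤ b' →
        b' < 2 * A → P (hit B m s₁ s₂ d a b ∩ hit B m s₁ s₂ d a' b') ≤
          ENNReal.ofReal (8 / (A * ((max (Nat.dist a a') (Nat.dist b b') : ℕ) + 1)))

/-- TWO (80 lines, deps IND TWL TWU). Two pieces of length `2A` fine steps meet (on the grid) with
probability at least `δ`, uniformly.

PROOF. `Z = ∑_{(a,b) ∈ [A,2A)²} 1_{hit(a,b)}`. `E Z ≥ A² c / A = c A` (TWL). `E Z² ≤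
∑_{(a,b)} ∑_{(a',b')} 8/(A (M+1)) ≤ A² (8/A) (1 + ∑_{k=1}^{A} 8k/(k+1)) ≤ A² (8/A)(1 + 8A) ≤ 72 A²`
(at most `8k` pairs `(i,j) ∈ ℤ²` have `max(|i|,|j|) = k`; a cruder count is fine, any constant
`C₂` with `E Z² ≤ C₂ A²` will do, e.g. `∑_{a',b'} 1/(M+1) ≤ ∑_{a'} ∑_{b'} ...`: for given `a'`
with `i = |a - a'|`: `∑_{b'} 1/(max(i,|b-b'|)+1) `; simplest: `#{(a',b') : M = k} ≤ 8k + 1 ≤
8(k+1)`, so the sum is at most `8 A`). For all `t ≥ 0`: `1_{Z > 0} ≥ 2 t Z - t² Z²` (as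
`(1 - tZ)² ≥ 0`), so with `t = c/(C₂ A)`: `P(Z > 0) ≥ 2 t c A - t² C₂ A² = c²/C₂ =: δ` (take
`min δ 1`). Measurability (null sets) of the hits: IND. -/
def SpecTWO : Prop :=
  ∃ δ : ℝ, 0 < δ ∧ δ ≤ 1 ∧
  ∀ (Ω : Type) [MeasurableSpace Ω] (P : Measure Ω) [IsProbabilityMeasure P] (B : ℝ → Ω → ℂ),
    IsPBM P B → ∀ (m A : ℕ) (s₁ s₂ : ℝ) (d : ℂ), 1 ≤ A → 0 ≤ s₁ → s₁ + tm m (2 * A) ≤ s₂ →
      s₂ + tm m (2 * A) ≤ 1 → |d.re| ≤ 10 * Real.sqrt (tm m A) → |d.im| ≤ 10 * Real.sqrt (tm m A) →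
      ENNReal.ofReal δ ≤ P {ω | ∃ a b : ℕ, A ≤ a ∧ a < 2 * A ∧ A ≤ b ∧ b < 2 * A ∧
        ω ∈ hit B m s₁ s₂ d a b}

/-- DEC (200 lines, deps IND FUB MOM TWO). Two pieces of `4^I` steps of length `4^-n`, started
within `2^-n`, are disjoint on the fine grid with probability at most `2 lam^I`.

PROOF. `τ = 4^-m`, `A_i = 4^i 4^(m-n)`, `W₁(a) = B(s₁ + aτ) - B(s₁)`, `W₂(b) = B(s₂ + bτ) - B(s₂)`,
`NI_i` = no hit `(a,b)` with `a, b ≤ A_i`, `D_i = u + W₁(A_i) - W₂(A_i)`, `α = δ/124`,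
`lam = 1 - δ/10`, `Φ_i = E[(1 + α ‖D_i‖²/(A_i τ)) 1_{NI_i}]`. CLAIM: `Φ_{i+1} ≤ lam Φ_i` for `i < I`.
The past `Y = ((W₁(a))_{a ≤ A_i}, (W₂(b))_{b ≤ A_i})` and the future
`Y' = ((B(s₁ + (A_i + a)τ) - B(s₁ + A_i τ))_{a ≤ 3A_i}, (B(s₂ + (A_i + b)τ) - B(s₂ + A_i τ))_{b ≤ 3A_i})`
are independent (IND), and `NI_{i+1} ⊆ NI_i ∩ NI'(D_i)`, `NI'(d)` = no
`a, b ∈ [A_i, 2A_i)` with `Near (d + Y'₁(a)) (Y'₂(b)) 2^-m`; `D_{i+1} = D_i + X₁ - X₂` with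
`X₁, X₂` the increments of `Y'` up to `3A_i`, `E ‖X₁‖² , E ‖X₂‖² ≤ 2·3A_i τ` (MOM). By FUB it
suffices that for every FIXED `d`, with `x = ‖d‖²/(A_i τ)`:
`E[(1 + α ‖d + X₁ - X₂‖²/(4A_i τ)) 1_{NI'(d)}] ≤ lam (1 + α x)`. Now `‖d + X₁ - X₂‖² ≤ 2‖d‖² +
4‖X₁‖² + 4‖X₂‖²`, so `E ‖..‖²/(4A_iτ) ≤ x/2 + 12`. If `x ≤ 100`, then `|re d|, |im d| ≤
10 √(A_i τ)` and TWO (times `s₁ + A_iτ`, `s₂ + A_iτ`) gives `P(NI'(d)) ≤ 1 - δ`, so the left side is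
`≤ 1 - δ + α (50 + 12) = 1 - δ/2 ≤ lam`. If `x > 100`, the left side is `≤ 1 + α(x/2 + 12)`, and
`lam (1 + αx) - 1 - αx/2 - 12α = -δ/10 + αx(lam - 1/2) - 12α ≥ -δ/10 + 40α - 12α ≥ 0`
(`lam ≥ 9/10`, `28α = 28δ/124 > δ/10`). START: `‖u‖² ≤ 2·4^-n = 2A_0τ`, `E ‖D_0‖² ≤ 2·2A_0τ +
4·2A_0τ + 4·2A_0τ = 20 A_0 τ`, so `Φ_0 ≤ 1 + 20α ≤ 2`. END: `P(NI_I) ≤ Φ_I ≤ lam^I Φ_0`. (The
disjointness needed by TWO: `s₁ + A_{i+1} τ ≤ s₂`, and `A_i + 2 A_i ≤ A_{i+1}`.) -/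
def SpecDEC : Prop :=
  ∃ lam : ℝ, 0 < lam ∧ lam < 1 ∧
  ∀ (Ω : Type) [MeasurableSpace Ω] (P : Measure Ω) [IsProbabilityMeasure P] (B : ℝ → Ω → ℂ),
    IsPBM P B → ∀ (n m I : ℕ) (s₁ s₂ : ℝ) (u : ℂ), n ≤ m → 0 ≤ s₁ → s₁ + tm n (4 ^ I) ≤ s₂ →
      s₂ + tm n (4 ^ I) ≤ 1 → |u.re| ≤ 1 / 2 ^ n → |u.im| ≤ 1 / 2 ^ n →
      P {ω | ∀ a b : ℕ, a ≤ 4 ^ I * 4 ^ (m - n) → b ≤ 4 ^ I * 4 ^ (m - n) →
        ω ∉ hit B m s₁ s₂ u a b} ≤ ENNReal.ofReal (2 * lam ^ I)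

/-- PAI (150 lines, deps IND FUB DEN DEC). For far apart `j < k`, the starting points are close and
the pieces are disjoint on the grid with probability at most `3 lam^I / (k - j)`.

PROOF. `s₁ = tm n j`, `s₂ = tm n k`, `T = tm n (4^I)`; `W₁(a) = B(s₁ + a 4^-m) - B(s₁)`, `W₂(b)`
likewise, `a, b ≤ 4^I 4^(m-n)` (so the last `W₁` is over `[s₁, s₁ + T]`), and
`X = B(s₂) - B(s₁ + T)` is independent of `(W₁, W₂)` (IND). With `u = -(W₁(end) + X) =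
B(s₁) - B(s₂)` the event is `{Near u 0 2^-n, no (a,b) with Near (u + W₁(a)) (W₂(b)) 2^-m}`. By FUB
(outer variable `(W₁, W₂)`), DEN (the law of `X` is `≤ κ • volume`, `κ = 1/(2π σ²)`,
`σ² = tm n k - tm n j - T ≥ (k - j) 4^-n / 2`), and the change of variable `x ↦ -(w + x)` in the
plane, the probability is at most `κ ∫⁻_Ω ∫⁻_{|u|_∞ ≤ 2^-n} 1{NI(u)} du dP =
κ ∫⁻_{|u|_∞ ≤ 2^-n} P(NI(u)) du ≤ κ (2·2^-n)² 2 lam^I ≤ (8/π) lam^I/(k-j) ≤ 3 lam^I/(k-j)` (Tonelli,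
DEC). `{Near (B s₁) (B s₂) 2^-n}` = `{|u|_∞ ≤ 2^-n}`; the hits in the statement use `d = 0` after
writing `Near (B(s₁ + a 4^-m)) (B(s₂ + b 4^-m)) 2^-m`. -/
def SpecPAI : Prop :=
  ∃ lam : ℝ, 0 < lam ∧ lam < 1 ∧
  ∀ (Ω : Type) [MeasurableSpace Ω] (P : Measure Ω) [IsProbabilityMeasure P] (B : ℝ → Ω → ℂ),
    IsPBM P B → ∀ n m I j k : ℕ, n ≤ m → j + 2 * 4 ^ I ≤ k → k + 4 ^ I ≤ 4 ^ n →
      P {ω | Near (B (tm n j) ω) (B (tm n k) ω) (1 / 2 ^ n) ∧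
        ∀ a b : ℕ, a ≤ 4 ^ I * 4 ^ (m - n) → b ≤ 4 ^ I * 4 ^ (m - n) →
          ¬ Near (B (tm n j + tm m a) ω) (B (tm n k + tm m b) ω) (1 / 2 ^ m)} ≤
      ENNReal.ofReal (3 * lam ^ I / ((k : ℝ) - j))

/-- BAD (200 lines, deps IND DEN PAI). A measurable majorant of the number of bad pairs.

PROOF. For `m ≥ n` let `V_m(ω) = ∑_{(j,k)} v_m(j,k)(ω)` over `j, k < 4^n` where `v_m(j,k)` is: `1` if
`|j - k| < 2·4^I`; the indicator of `Near (B(tm n j)) (B(tm n k)) 2^-n` if `|j - k| ≥ 2·4^I` and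
`max(j,k) + 4^I > 4^n`; the indicator of the event of PAI (ordered pair) otherwise.
(1) `badN ≤ liminf_m V_m`: if `B(E_j)`, `B(E_k)` are disjoint (compact), their sup norm distance is
`> 2^-m` for large `m`, so the pair is counted in `V_m` for all large `m`
(`tm n j + tm m a ∈ EI n I j` for `a ≤ 4^I 4^(m-n)` when `j + 4^I ≤ 4^n`).
(2) `E V_m ≤ 12·4^n (4^I + (n+1) lam^I)`-like: the near pairs are `≤ 4^n · 4·4^I`; an edge pair has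
probability `≤ (2·2^-n)²/(2π |k-j| 4^-n) ≤ 1/|k-j|` (DEN), and `∑ ≤ 2·4^I ∑_{l=1}^{4^n} 1/l ≤
2·4^I (1 + 2n) ≤ 4·4^I 4^n`; the others give `≤ 2·4^n ∑_l 3 lam^I / l ≤ 6·4^n lam^I (1 + 2n)`
(`∑_{l=1}^{4^n} 1/l ≤ 1 + log 4^n ≤ 1 + 2n`). Any constant `C` is fine. `W = liminf_m V_m`
(`aemeasurable_liminf` of `Area2.lean`), Fatou (`lintegral_liminf_le'`). -/
def SpecBAD : Prop :=
  ∃ C lam : ℝ, 0 ≤ C ∧ 0 < lam ∧ lam < 1 ∧
  ∀ (Ω : Type) [MeasurableSpace Ω] (P : Measure Ω) [IsProbabilityMeasure P] (B : ℝ → Ω → ℂ),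
    IsPBM P B → ∀ n I : ℕ, I ≤ n → ∃ W : Ω → ENNReal, AEMeasurable W P ∧
      ∫⁻ ω, W ω ∂P ≤ ENNReal.ofReal (C * 4 ^ n * (4 ^ I + (n + 1) * lam ^ I)) ∧
      ∀ ω, (badN (fun t => B t ω) n I : ENNReal) ≤ W ω

/-- OSC (150 lines, no deps). Chaining: the oscillations of a process of type `MomP`.

PROOF. Fix `n, j`, `s₀ = tm n j`, `h = 4^-n`. `Z_l = max_{i < 2^l} ‖Y(s₀ + (i+1) h 2^-l) -
Y(s₀ + i h 2^-l)‖`. For `t ∈ [s₀, s₀ + h)`, `t_l = s₀ + ⌊(t - s₀) 2^l / h⌋ h 2^-l → t`, `t_0 = s₀`,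
`‖Y(t_{l+1}) - Y(t_l)‖ ≤ Z_{l+1}`, so by continuity `‖Y t - Y s₀‖ ≤ ∑_l Z_l` (`t = s₀ + h`: `Z_0`) and
`osc ≤ 2 ∑_l Z_l`. With `ρ = 2^(-1/8)`: `∑ Z_l ≤ (∑ ρ^l) sup_l ρ^-l Z_l`, so
`(2^n osc)^(2q) ≤ (2^n)^(2q) C_ρ ∑_l ρ^(-2ql) Z_l^(2q)` and `E Z_l^(2q) ≤ 2^l C_q (h 2^-l)^q`; as
`(2^n)^(2q) h^q = 1` the expectation is `≤ C_ρ C_q ∑_l 2^(ql/4) 2^(l(1-q)) < ∞` for `q ≥ 2`. Work in
`ENNReal`; `W = ∑_j C_ρ 2^(2qn) ∑_l ρ^(-2ql) ∑_{i<2^l} ‖..‖ₑ^(2q)` (sum instead of max). -/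
def SpecOSC : Prop :=
  ∀ (Ω : Type) [MeasurableSpace Ω] (P : Measure Ω) [IsProbabilityMeasure P] (Y : ℝ → Ω → ℂ),
    MomP P Y → ∀ q : ℕ, 2 ≤ q → ∃ C : ℝ, 0 ≤ C ∧ ∀ n : ℕ, ∃ W : Ω → ENNReal, AEMeasurable W P ∧
      ∫⁻ ω, W ω ∂P ≤ ENNReal.ofReal (C * 4 ^ n) ∧
      ∀ ω, ENNReal.ofReal (FS (fun t => Y t ω) q n) ≤ W ω

/-- VAA (50 lines, deps OSC). Almost surely `FS ≤ C (n+1)² 4^n` for all `n`.

PROOF. `S = ∑' n, W_n / ((n+1)² 4^n)` has `∫⁻ S ≤ C ∑ 1/(n+1)² < ∞` (`lintegral_tsum`), so `S < ∞`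
a.s. (`ae_lt_top'`), and `W_n ≤ S (n+1)² 4^n`. -/
def SpecVAA : Prop :=
  ∀ (Ω : Type) [MeasurableSpace Ω] (P : Measure Ω) [IsProbabilityMeasure P] (Y : ℝ → Ω → ℂ),
    MomP P Y → ∀ q : ℕ, 2 ≤ q → ∀ᵐ ω ∂P, ∃ C : ℝ, ∀ n : ℕ,
      FS (fun t => Y t ω) q n ≤ C * (n + 1) ^ 2 * 4 ^ n

/-- VAD (250 lines, no deps). Deterministic: the squares of the oscillations over ANY `4^n` disjoint
intervals sum up to at most `C' (n+1)^(3/q)`.

PROOF. Let `J_i = [u_i, v_i]`, `i < N = 4^n` (drop the degenerate ones: oscillation `0`). Level `l` of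
`J`: `4^-(l+1) < |J| ≤ 4^-l`. `J` of level `l` lies in the union of two adjacent (or one) intervals
`D` of length `4^-l`, so `diam γ(J) ≤ osc D + osc D'`. A given `D` is used by at most `12` intervals
`J` of level `l` (they are disjoint, longer than `4^-(l+1)` and contained in an interval of length
`3·4^-l`). So `∑_{J level l} diam^(2q) ≤ C_q ∑_D osc(D)^(2q) ≤ C_q (2^l)^(-2q) C (l+1)² 4^l =
C'(l+1)² 4^(l(1-q))`. With `m_l` = number of `J` of level `l`, `x_l = m_l 4^-l`, Hoelder gives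
`∑_{J level l} diam² ≤ (C'(l+1)² 4^(l(1-q)))^(1/q) m_l^(1-1/q) = (C'(l+1)²)^(1/q) x_l^(1-1/q)`. Here
`∑_l x_l ≤ 4 ∑|J| ≤ 4` and `x_l ≤ 4^(n-l)`. Sum over `l ≤ 2n`: Hoelder again,
`≤ C'^(1/q) (∑_{l ≤ 2n} (l+1)²)^(1/q) (∑ x_l)^(1-1/q) ≤ C'' ((2n+1)³)^(1/q)`. Sum over `l > 2n`:
`≤ C'^(1/q) ∑_{l > 2n} (l+1)^(2/q) 4^((n-l)(1-1/q)) ≤ C'^(1/q) ∑_{l>2n} (l+1) 4^(-l/4) ≤ C'''`
(`l - n ≥ l/2`, `1 - 1/q ≥ 1/2`). (All `diam ≤ diam γ([0,1])`; only finitely many levels occur.) -/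
def SpecVAD : Prop :=
  ∀ (γ : ℝ → ℂ) (q : ℕ) (C : ℝ), ContinuousOn γ (Icc 0 1) → 2 ≤ q →
    (∀ l : ℕ, FS γ q l ≤ C * (l + 1) ^ 2 * 4 ^ l) →
    ∃ C' : ℝ, ∀ (n : ℕ) (u v : ℕ → ℝ), (∀ i < 4 ^ n, 0 ≤ u i ∧ u i ≤ v i ∧ v i ≤ 1) →
      (∀ i < 4 ^ n, ∀ j < 4 ^ n, i < j → v i ≤ u j ∨ v j ≤ u i) →
      ∑ i ∈ Finset.range (4 ^ n), (Metric.diam (γ '' Icc (u i) (v i))) ^ 2 ≤
        C' * ((n : ℝ) + 1) ^ (3 / (q : ℝ))

/-! ## The deterministic inequality -/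

/-- EXT (100 lines, no deps). The extended oscillations.

PROOF. (a) `s, t ∈ EI n I j` with `s ≤ t`: `s` lies in the interval number `i`, `t` in the interval
number `i' ≥ i` (`j ≤ i ≤ i' < min (j + 4^I) (4^n)`; at a right end point take the interval to the
left), consecutive intervals share an end point: triangle inequality through the end points,
`dist ≤ ∑_{i ≤ l ≤ i'} osc γ n l ≤ ext`. (`Metric.dist_le_diam_of_mem`, compact images.)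
(b) `ext² ≤ 4^I ∑_{i ∈ window} osc_i²` (Cauchy-Schwarz, the window has at most `4^I` elements) and
every `i` is in at most `4^I` windows. (c) `osc ≤ ext` for `j < 4^n` (`4^I ≥ 1`), and `0 ≤ osc`. -/
def SpecEXT : Prop :=
  ∀ (γ : ℝ → ℂ) (n I : ℕ), ContinuousOn γ (Icc 0 1) →
    (∀ j < 4 ^ n, ∀ s ∈ EI n I j, ∀ t ∈ EI n I j, dist (γ s) (γ t) ≤ ext γ n I j) ∧
    ∑ j ∈ Finset.range (4 ^ n), (ext γ n I j) ^ 2 ≤ (4 ^ I) ^ 2 * QS γ n

/-- CEL (60 lines, no deps). The number of cells is at most `4^n` times the area of the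
neighbourhood.

PROOF. The half open squares `{p : ⌊2^n p.1⌋ = c.1, ⌊2^n p.2⌋ = c.2}` (area `4^-n`) of different
cells are disjoint and measurable; if `c = cell β n j` the square is contained in
`nb (trace β) (2^-n)` (`z = β (tm n j)` is in the same square); `nb` has finite volume
(`vol_nb_ne_top`, `Area2.lean`). -/
def SpecCEL : Prop :=
  ∀ (β : ℝ → ℂ) (n : ℕ), Continuous β → (cellN β n : ℝ) ≤ 4 ^ n * nuK β n

/-- LON (100 lines, no deps). The lonely indices.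

PROOF. (a) Group the lonely indices by cells. A cell with at most `M₀` thin indices has at most `M₀`
lonely ones, there are at most `cellN` cells. In a cell with `M > M₀` thin indices, a lonely `j` has
at least `M/3` indices `k` of the same cell with `¬ meet j k`; these pairs are bad (same cell implies
`Near (β(tm n j)) (β(tm n k)) 2^-n`), so the number of lonely indices in the cell is at most
`3 b_c / M ≤ 3 b_c / M₀`, `b_c` = number of bad pairs in the cell, `∑_c b_c ≤ badN`.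
(b) If `i, j` are thin, not lonely, in the same cell with `M` thin indices, then fewer than `M/3`
indices of the cell do not meet `i`, fewer than `M/3` do not meet `j`; so some `k` meets both. -/
def SpecLON : Prop :=
  ∀ (β : ℝ → ℂ) (n I : ℕ) (H M₀ : ℝ), 0 < M₀ →
    ((lonely β n I H M₀).card : ℝ) ≤ 3 * badN β n I / M₀ + M₀ * cellN β n ∧
    ∀ i ∈ thin β n H, ∀ j ∈ thin β n H, i ∉ lonely β n I H M₀ → j ∉ lonely β n I H M₀ →
      cell β n i = cell β n j → ∃ k ∈ inCell β n H (cell β n i), meet β n I i k ∧ meet β n I j k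

/-- DET (250 lines, deps EXT CEL LON). The integral over the lines of the measure of the image of
the slice of the trace.

PROOF. `γ = f ∘ β`, `K = trace β`, `T` = thin, `Lo` = lonely, `x_j = β (tm n j)`. The slice
`{z ∈ K | h z = v}` is covered by the pieces `β(I_j)`, `j < 4^n`. Let `𝒟` be the set of cells of the
indices in `T \ Lo`, for `c ∈ 𝒟` choose `i_c ∈ T \ Lo` with this cell and put
`m_c = max_{k ∈ inCell c} ext γ n I k`. Majorant: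
`G(v) = ∑_{c ∈ 𝒟} 1{|v - h(x_{i_c})| ≤ (H+2) 2^-n} ofReal (6 m_c)
 + ∑_{j ∈ Lo} 1{|v - h(x_j)| ≤ H 2^-n} ofReal (2 osc γ n j)
 + ∑_{j < 4^n, j ∉ T} 1{|v - h(x_j)| ≤ osc β n j} ofReal (2 osc γ n j)`.
(1) `vol (g ∘ f '' slice) ≤ G v`: a piece `j ∈ T \ Lo` of cell `c` that contains a point `z` with
`h z = v` has `|v - h(x_{i_c})| ≤ ‖z - x_j‖ + ‖x_j - x_{i_c}‖ ≤ H 2^-n + 2·2^-n` (same cell, `√2 ≤ 2`),
and by LON (b), EXT (a) (a meeting point `β s = β t` gives `γ s = γ t`) all its points `γ t` are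
within `3 m_c` of `γ(tm n i_c)`; so these pieces contribute a set of `g`-values inside an interval
of length `6 m_c`. The pieces of `Lo` and the fat pieces: `g`-values within `osc γ n j` of
`g(γ(tm n j))`.
(2) `∫⁻ G ≤ ∑_c 2(H+2)2^-n 6 m_c + ∑_{Lo} 2H 2^-n 2 osc γ + ∑_{fat} 2 osc β 2 osc γ`
`≤ 36 H 2^-n ∑_c m_c + 4H 2^-n ∑_{Lo} osc γ + 4·2^-n ∑_{fat} (2^n osc β) osc γ` (`H ≥ 1`).
`∑_c m_c ≤ √(cellN) √(∑_k ext²) ≤ √(4^n ν) 4^I √Q` (`m_c² ≤ ∑_{k ∈ inCell c} ext_k²`, the cells are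
disjoint), `∑_{Lo} osc γ ≤ √#Lo √Q ≤ √(3 (badN/M₀ + M₀ 4^n ν)) √Q`,
`∑_{fat} (2^n osc β) osc γ ≤ √(∑_{fat} (2^n osc β)²) √Q ≤ √(FS β 2 n / H²) √Q`
(`w² ≤ w⁴/H²` for `w > H`). Everything is `≤ 36 √Q (...)`. -/
def SpecDET : Prop :=
  ∀ (β : ℝ → ℂ) (f : ℂ → ℂ) (g h : ℂ → ℝ) (n I : ℕ) (H M₀ : ℝ), Continuous β → Continuous f →
    (∀ z w, |g z - g w| ≤ ‖z - w‖) → (∀ z w, |h z - h w| ≤ ‖z - w‖) → 1 ≤ H → 0 < M₀ →
    ∃ G : ℝ → ENNReal, Measurable G ∧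
      (∀ v, volume ((fun z => g (f z)) '' {z | z ∈ trace β ∧ h z = v}) ≤ G v) ∧
      ∫⁻ v, G v ≤ ENNReal.ofReal (36 * Real.sqrt (QS (f ∘ β) n) *
        (H * 4 ^ I * Real.sqrt (nuK β n) +
          H * Real.sqrt (badN β n I / (4 ^ n * M₀) + M₀ * nuK β n) +
          Real.sqrt (FS β 2 n / 4 ^ n) / H))

/-! ## Asymptotics -/

/-- The scale `n_k = 4^(8k)`. -/
def nk (k : ℕ) : ℕ := 4 ^ (8 * k)

/-- ASA (150 lines, deps IND MOM BAD OSC). Almost sure bounds along the scales `n_k`.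

PROOF. `h.areaBd` (`Area2.lean`) gives majorants `W_n` of `vol(nb K 2^-n)` (`n ≥ 2`) with
`n E W_n ≤ C`. For `κ > 1` the series `∑_k κ^-k [n_k W_{n_k} + badW_k/(4^{n_k} n_k lam^k) +
F_{n_k}/4^{n_k}]` has finite expectation when `lam` is replaced by `lam₁ = max lam 4^-7` (BAD:
`E badW_k ≤ C 4^{n_k}(4^k + (n_k+1) lam^k) ≤ 3 C 4^{n_k} n_k lam₁^k`, as `4^k = n_k 4^{-7k}`), so it
is a.s. finite, hence each term is bounded by a (random) constant `R`. -/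
def SpecASA : Prop :=
  ∃ lam : ℝ, 1 / 4 ^ 7 ≤ lam ∧ lam < 1 ∧
  ∀ (Ω : Type) [MeasurableSpace Ω] (P : Measure Ω) [IsProbabilityMeasure P] (B : ℝ → Ω → ℂ),
    IsPBM P B → ∀ κ : ℝ, 1 < κ → ∀ᵐ ω ∂P, ∃ R : ℝ, 0 ≤ R ∧ ∀ k : ℕ, 1 ≤ k →
      nuK (fun t => B t ω) (nk k) ≤ R * κ ^ k / nk k ∧
      (badN (fun t => B t ω) (nk k) k : ℝ) ≤ R * κ ^ k * (4 ^ (nk k) * nk k * lam ^ k) ∧
      FS (fun t => B t ω) 2 (nk k) ≤ R * κ ^ k * 4 ^ (nk k)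

/-- ASD (120 lines, deps DET). Deterministic: the slices are null.

PROOF. `μ = lam^(1/32)`, hypotheses with `κ = μ^-1`, `χ = μ^-1`. Apply DET with `n = n_k`, `I = k`,
`H = μ^(-2k)` (`= lam^(-k/16)`), `M₀ = n_k μ^(16k)` (`= n_k lam^(k/2)`). The bound is at most
`36 √C μ^(-k/2) (μ^(-2k) 4^k √R μ^(-k/2) 4^(-4k) + μ^(-2k) √(R μ^-k μ^(32k) μ^(-16k) + R μ^(-k) μ^(16k))
+ √R μ^(-k/2) μ^(2k)) ≤ C' (μ^(-3k) 4^(-3k) + μ^(-3k) μ^(8k) + μ^k)`, which tends to `0` because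
`μ < 1` and `μ ≥ 4^(-7/32)` (`μ^-3 4^-3 ≤ 4^(21/32 - 3) < 1`). So `∫⁻` of suitable majorants tends
to `0` and the function `v ↦ vol(...)` vanishes a.e. (as in `null_of`, `Slice.lean`). -/
def SpecASD : Prop :=
  ∀ (lam : ℝ), 1 / 4 ^ 7 ≤ lam → lam < 1 → ∀ μ : ℝ, 0 < μ → μ ^ 32 = lam →
    ∀ (β : ℝ → ℂ) (f : ℂ → ℂ) (R C : ℝ), Continuous β → Continuous f → 0 ≤ R → 0 ≤ C →
      (∀ k : ℕ, 1 ≤ k → nuK β (nk k) ≤ R * (μ⁻¹) ^ k / nk k ∧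
        (badN β (nk k) k : ℝ) ≤ R * (μ⁻¹) ^ k * (4 ^ (nk k) * nk k * lam ^ k) ∧
        FS β 2 (nk k) ≤ R * (μ⁻¹) ^ k * 4 ^ (nk k)) →
      (∀ k : ℕ, 1 ≤ k → QS (f ∘ β) (nk k) ≤ C * (μ⁻¹) ^ k) →
      ∀ g h : ℂ → ℝ, (∀ z w, |g z - g w| ≤ ‖z - w‖) → (∀ z w, |h z - h w| ≤ ‖z - w‖) →
        ∀ᵐ v : ℝ, volume ((fun z => g (f z)) '' {z | z ∈ trace β ∧ h z = v}) = 0

/-- CRI (150 lines, no deps). Null slices imply holomorphic: the second half of `criterion_pt`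
(`Pool/Agent/Lib/BMR/Pt2.lean`) with the hypotheses `r1, r2, i1, i2` given and `S = ∅`.

PROOF. COPY of the proof of `criterion_pt` from `refine differentiable_of_bd` on. The area of `K` is
zero by the hypothesis `volume (cc ⁻¹' K) = 0` (this is `hnull` there). `hu3' : volume ((fun a : ℝ =>
(f (a + u I)).re) '' {a | a + u I ∈ K ∧ ..}) = 0` follows from the null slice
`{z ∈ K | z.im = u}` by monotonicity of the image. -/
def SpecCRI : Prop :=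
  ∀ (K : Set ℂ) (f : ℂ ≃ₜ ℂ), IsClosed K → DifferentiableOn ℂ (⇑f) Kᶜ →
    volume (cc ⁻¹' K) = 0 →
    (∀ᵐ v : ℝ, volume ((fun z => (f z).re) '' {z | z ∈ K ∧ z.im = v}) = 0) →
    (∀ᵐ v : ℝ, volume ((fun z => (f z).im) '' {z | z ∈ K ∧ z.im = v}) = 0) →
    (∀ᵐ v : ℝ, volume ((fun z => (f z).re) '' {z | z ∈ K ∧ z.re = v}) = 0) →
    (∀ᵐ v : ℝ, volume ((fun z => (f z).im) '' {z | z ∈ K ∧ z.re = v}) = 0) →
    Differentiable ℂ (⇑f)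

/-- MAIN, part A (proved in FIN from ASA, ASD, CRI). -/
def SpecMA : Prop :=
  ∃ c : ℝ, 0 < c ∧
  ∀ (Ω : Type) [MeasurableSpace Ω] (P : Measure Ω) [IsProbabilityMeasure P] (B : ℝ → Ω → ℂ),
    IsPBM P B → ∀ᵐ ω ∂P, ∀ f : ℂ ≃ₜ ℂ,
      DifferentiableOn ℂ (⇑f) ((fun t => B t ω) '' Icc (0 : ℝ) 1)ᶜ →
      (∃ C : ℝ, ∀ n : ℕ, ∑ j ∈ Finset.range (4 ^ n),
        (Metric.diam ((fun t => f (B t ω)) '' Icc ((j : ℝ) / 4 ^ n) (((j : ℝ) + 1) / 4 ^ n))) ^ 2 ≤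
          C * ((n : ℝ) + 1) ^ c) →
      Differentiable ℂ (⇑f)

/-- MAIN, part B (proved in FIN from MA, VAA, VAD). -/
def SpecMB : Prop :=
  ∀ (Ω : Type) [MeasurableSpace Ω] (P : Measure Ω) [IsProbabilityMeasure P] (B Y : ℝ → Ω → ℂ),
    IsPBM P B → MomP P Y → ∀ᵐ ω ∂P, ∀ (f : ℂ ≃ₜ ℂ) (τ : ℝ → ℝ),
      DifferentiableOn ℂ (⇑f) ((fun t => B t ω) '' Icc (0 : ℝ) 1)ᶜ →
      MapsTo τ (Icc 0 1) (Icc 0 1) → (MonotoneOn τ (Icc 0 1) ∨ AntitoneOn τ (Icc 0 1)) →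
      (∀ t ∈ Icc (0 : ℝ) 1, f (B t ω) = Y (τ t) ω) →
      Differentiable ℂ (⇑f)

end Pool.Agent.Lib.MP_8b264c_pr.QV
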