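import Pool.Agent.Lib.MP_8b264c_pr.QV.Spec

/-!
# TWL: one point lower bound
-/

set_option autoImplicit false

open MeasureTheory Set ProbabilityTheory Filter Topology

namespace Pool.Agent.Lib.MP_8b264c_pr.QV

open Pool.Agent.BMR

namespace TWLM

lemma meas_near (r : ℝ) (f g : ℂ × ℂ → ℂ) (hf : Continuous f) (hg : Continuous g) :
    MeasurableSet {p : ℂ × ℂ | Near (f p) (g p) r} := by
  have h1 : IsClosed {p : ℂ × ℂ | |(f p).re - (g p).re| ≤ r} :=
    isClosed_le ((Complex.continuous_re.comp hf).sub (Complex.continuous_re.comp hg)).abs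
      continuous_const
  have h2 : IsClosed {p : ℂ × ℂ | |(f p).im - (g p).im| ≤ r} :=
    isClosed_le ((Complex.continuous_im.comp hf).sub (Complex.continuous_im.comp hg)).abs
      continuous_const
  exact (h1.inter h2).measurableSet

lemma meas_near' (r : ℝ) (f g : ℂ → ℂ) (hf : Continuous f) (hg : Continuous g) :
    MeasurableSet {p : ℂ | Near (f p) (g p) r} := by
  have h1 : IsClosed {p : ℂ | |(f p).re - (g p).re| ≤ r} :=
    isClosed_le ((Complex.continuous_re.comp hf).sub (Complex.continuous_re.comp hg)).abs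
      continuous_const
  have h2 : IsClosed {p : ℂ | |(f p).im - (g p).im| ≤ r} :=
    isClosed_le ((Complex.continuous_im.comp hf).sub (Complex.continuous_im.comp hg)).abs
      continuous_const
  exact (h1.inter h2).measurableSet

lemma tm_mono {m a b : ℕ} (h : a ≤ b) : tm m a ≤ tm m b := by
  unfold tm
  exact div_le_div_of_nonneg_right (by exact_mod_cast h) (by positivity)

lemma tm_pos {m a : ℕ} (h : 0 < a) : 0 < tm m a := by
  unfold tm
  have : (0 : ℝ) < a := by exact_mod_cast h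
  positivity

lemma coord {x e S T : ℝ} (h1 : |x| ≤ S) (h2 : |e| ≤ 10 * T) (hS : S ≤ 2 * T) :
    |x - e| ≤ 12 * T := by
  have h3 := abs_sub x e
  linarith

end TWLM

open TWLM in
theorem specTWL (hIND : SpecIND) (hFUB : SpecFUB) (hLOW : SpecLOW) : SpecTWL := by
  classical
  obtain ⟨c₀, hc₀, hl₀⟩ := hLOW 0 le_rfl
  obtain ⟨c₁, hc₁, hl₁⟩ := hLOW 12 (by norm_num)
  refine ⟨c₀ * c₁ / 2, by positivity, ?_⟩
  intro Ω _ P _ B hB m A s₁ s₂ d hA hs₁ hs₂ hs₃ hd1 hd2 a b ha1 ha2 hb1 hb2
  obtain ⟨hm, hI⟩ := hIND Ω P B hB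
  have hAp : 0 < tm m A := tm_pos (by omega)
  have hap : 0 < tm m a := tm_pos (by omega)
  have hbp : 0 < tm m b := tm_pos (by omega)
  have ha3 : tm m a ≤ tm m (2 * A) := tm_mono ha2.le
  have hb3 : tm m b ≤ tm m (2 * A) := tm_mono hb2.le
  have hAa : tm m A ≤ tm m a := tm_mono ha1
  have h2A : tm m (2 * A) = 2 * tm m A := by
    unfold tm
    push_cast
    ring
  have hAR : (0 : ℝ) < A := by exact_mod_cast hA
  have haR : (0 : ℝ) < a := by exact_mod_cast (show 0 < a by omega)
  have m1 : s₁ + tm m a ∈ Icc (0 : ℝ) 1 := ⟨by linarith, by linarith⟩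
  have m1' : s₁ ∈ Icc (0 : ℝ) 1 := ⟨hs₁, by linarith⟩
  have m2 : s₂ + tm m b ∈ Icc (0 : ℝ) 1 := ⟨by linarith, by linarith⟩
  have m2' : s₂ ∈ Icc (0 : ℝ) 1 := ⟨by linarith, by linarith⟩
  obtain ⟨X, hX⟩ : ∃ X : Ω → ℂ, X = fun ω => B (s₁ + tm m a) ω - B s₁ ω := ⟨_, rfl⟩
  obtain ⟨Y, hY⟩ : ∃ Y : Ω → ℂ, Y = fun ω => B (s₂ + tm m b) ω - B s₂ ω := ⟨_, rfl⟩
  have hXm : AEMeasurable X P := by
    rw [hX]
    exact (hm _ m1).sub (hm _ m1')
  have hYm : AEMeasurable Y P := by
    rw [hY]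
    exact (hm _ m2).sub (hm _ m2')
  have hind : IndepFun Y X P := by
    have h1 := hI Unit Unit (fun _ => s₂) (fun _ => s₂ + tm m b) (fun _ => s₁)
      (fun _ => s₁ + tm m a) (fun _ => ⟨m2'.1, by linarith, m2.2⟩)
      (fun _ => ⟨m1'.1, by linarith, m1.2⟩) (fun _ _ => Or.inr (by linarith))
    have h2 := h1.comp (measurable_pi_apply ()) (measurable_pi_apply ())
    rw [hX, hY]
    exact h2
  obtain ⟨r, hr⟩ : ∃ r : ℝ, r = Real.sqrt (tm m b) := ⟨_, rfl⟩
  obtain ⟨Sy, hSy⟩ : ∃ Sy : Set (ℂ × ℂ), Sy = {p | Near p.1 0 r} ∩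
      {p | Near (d + p.2) p.1 (1 / 2 ^ m)} := ⟨_, rfl⟩
  have hSm : MeasurableSet Sy := by
    rw [hSy]
    exact (meas_near r (fun p => p.1) (fun _ => 0) continuous_fst continuous_const).inter
      (meas_near _ (fun p => d + p.2) (fun p => p.1) (continuous_const.add continuous_snd)
        continuous_fst)
  have hF := hFUB Ω P ℂ ℂ Y X hYm hXm hind (fun y x => Sy.indicator 1 (y, x))
    (measurable_one.indicator hSm)
  have hup : ∫⁻ ω, Sy.indicator (1 : ℂ × ℂ → ENNReal) (Y ω, X ω) ∂P ≤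
      P (hit B m s₁ s₂ d a b) := by
    have h1 : (fun ω => Sy.indicator (1 : ℂ × ℂ → ENNReal) (Y ω, X ω)) =
        ((fun ω => (Y ω, X ω)) ⁻¹' Sy).indicator 1 := by
      funext ω
      rfl
    rw [h1]
    refine (lintegral_indicator_one_le _).trans (measure_mono ?_)
    intro ω hω
    rw [hSy] at hω
    have h2 := hω.2
    rw [hX, hY] at h2
    exact h2
  refine le_trans ?_ hup
  rw [hF]
  have hlow0 : ENNReal.ofReal c₀ ≤ P {ω | Near (Y ω) 0 r} := by
    have h1 := hl₀ Ω P B hB s₂ (s₂ + tm m b) r 0 m2'.1 (by linarith) m2.2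
      (by rw [hr]; exact Real.sqrt_nonneg _)
      (by rw [hr, Real.sq_sqrt hbp.le]; linarith) (by simp) (by simp)
    have h2 : c₀ * r ^ 2 / (s₂ + tm m b - s₂) = c₀ := by
      rw [hr, Real.sq_sqrt hbp.le, add_sub_cancel_left]
      field_simp
    rw [h2] at h1
    rw [hY]
    exact h1
  have hinner : ∀ y : ℂ, Near y 0 r → ENNReal.ofReal (c₁ / (2 * A)) ≤
      ∫⁻ ω', Sy.indicator (1 : ℂ × ℂ → ENNReal) (y, X ω') ∂P := by
    intro y hy
    have h0 : NullMeasurableSet (X ⁻¹' {x | Near (d + x) y (1 / 2 ^ m)}) P :=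
      hXm.nullMeasurable (meas_near' _ (fun x => d + x) (fun _ => y)
        (continuous_const.add continuous_id) continuous_const)
    have h1 : (fun ω' => Sy.indicator (1 : ℂ × ℂ → ENNReal) (y, X ω')) =
        (X ⁻¹' {x | Near (d + x) y (1 / 2 ^ m)}).indicator 1 := by
      funext ω'
      by_cases h : Near (d + X ω') y (1 / 2 ^ m)
      · rw [indicator_of_mem (by rw [hSy]; exact ⟨hy, h⟩), indicator_of_mem (by exact h)]
        rfl
      · rw [indicator_of_notMem (by rw [hSy]; exact fun hh => h hh.2),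
          indicator_of_notMem (by exact h)]
    rw [h1, lintegral_indicator_one₀ h0]
    have hsq : Real.sqrt (tm m b) ≤ 2 * Real.sqrt (tm m A) := by
      have h2 : (2 : ℝ) * Real.sqrt (tm m A) = Real.sqrt (4 * tm m A) := by
        rw [Real.sqrt_mul (by norm_num), show (4 : ℝ) = 2 ^ 2 by norm_num,
          Real.sqrt_sq (by norm_num)]
      rw [h2]
      exact Real.sqrt_le_sqrt (by linarith)
    have hsa : Real.sqrt (tm m A) ≤ Real.sqrt (s₁ + tm m a - s₁) :=
      Real.sqrt_le_sqrt (by linarith)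
    have hre : |(y - d).re| ≤ 12 * Real.sqrt (s₁ + tm m a - s₁) := by
      have h2 := hy.1
      rw [Complex.zero_re, sub_zero, hr] at h2
      have h3 := coord h2 hd1 hsq
      rw [Complex.sub_re]
      linarith
    have him : |(y - d).im| ≤ 12 * Real.sqrt (s₁ + tm m a - s₁) := by
      have h2 := hy.2
      rw [Complex.zero_im, sub_zero, hr] at h2
      have h3 := coord h2 hd2 hsq
      rw [Complex.sub_im]
      linarith
    have h2 := hl₁ Ω P B hB s₁ (s₁ + tm m a) (1 / 2 ^ m) (y - d) hs₁ (by linarith) m1.2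
      (by positivity) (by
        rw [add_sub_cancel_left]
        unfold tm
        rw [div_pow, one_pow, ← pow_mul, mul_comm m 2, pow_mul]
        norm_num
        rw [inv_eq_one_div]
        refine div_le_div_of_nonneg_right ?_ (by positivity)
        exact_mod_cast (show 1 ≤ a by omega)) hre him
    have h3 : c₁ / (2 * A) ≤ c₁ * (1 / 2 ^ m) ^ 2 / (s₁ + tm m a - s₁) := by
      have h4 : c₁ * (1 / 2 ^ m) ^ 2 / (s₁ + tm m a - s₁) = c₁ / a := by
        rw [add_sub_cancel_left]
        unfold tm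
        rw [div_pow, one_pow, ← pow_mul, mul_comm m 2, pow_mul]
        norm_num
        field_simp
      rw [h4]
      refine div_le_div_of_nonneg_left hc₁.le haR ?_
      have : (a : ℝ) ≤ ((2 * A : ℕ) : ℝ) := by exact_mod_cast ha2.le
      push_cast at this
      exact this
    refine (ENNReal.ofReal_le_ofReal h3).trans (h2.trans (measure_mono ?_))
    intro ω' hω'
    change Near (d + X ω') y (1 / 2 ^ m)
    rw [hX]
    obtain ⟨g1, g2⟩ := hω'
    constructor
    · rw [Complex.sub_re] at g1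
      rw [Complex.add_re]
      have : d.re + (B (s₁ + tm m a) ω' - B s₁ ω').re - y.re =
        (B (s₁ + tm m a) ω' - B s₁ ω').re - (y.re - d.re) := by ring
      rw [this]
      exact g1
    · rw [Complex.sub_im] at g2
      rw [Complex.add_im]
      have : d.im + (B (s₁ + tm m a) ω' - B s₁ ω').im - y.im =
        (B (s₁ + tm m a) ω' - B s₁ ω').im - (y.im - d.im) := by ring
      rw [this]
      exact g2
  have hnull : NullMeasurableSet (Y ⁻¹' {y | Near y 0 r}) P :=
    hYm.nullMeasurable (meas_near' _ (fun x => x) (fun _ => 0) continuous_id continuous_const)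
  calc ENNReal.ofReal (c₀ * c₁ / 2 / A) = ENNReal.ofReal (c₁ / (2 * A)) * ENNReal.ofReal c₀ := by
        rw [← ENNReal.ofReal_mul (by positivity)]
        congr 1
        field_simp
    _ ≤ ENNReal.ofReal (c₁ / (2 * A)) * P (Y ⁻¹' {y | Near y 0 r}) := mul_le_mul_right hlow0 _
    _ = ∫⁻ ω, (Y ⁻¹' {y | Near y 0 r}).indicator (fun _ => ENNReal.ofReal (c₁ / (2 * A))) ω ∂P :=
        (lintegral_indicator_const₀ hnull _).symm
    _ ≤ ∫⁻ ω, ∫⁻ ω', Sy.indicator (1 : ℂ × ℂ → ENNReal) (Y ω, X ω') ∂P ∂P := by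
        refine lintegral_mono fun ω => ?_
        by_cases h : Near (Y ω) 0 r
        · rw [indicator_of_mem (by exact h)]
          exact hinner _ h
        · rw [indicator_of_notMem (by exact h)]
          exact zero_le

end Pool.Agent.Lib.MP_8b264c_pr.QV
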