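import Pool.Agent.Lib.MP_8b264c_pr.QV.Spec

/-!
# TWO: two pieces meet on the grid with uniformly positive probability
-/

set_option autoImplicit false

open MeasureTheory Set ProbabilityTheory Filter Topology

namespace Pool.Agent.Lib.MP_8b264c_pr.QV

open Pool.Agent.BMR

namespace TWOM

lemma inv_sqrt_le (i : ℕ) : 1 / Real.sqrt ((i : ℝ) + 1) ≤
    2 * (Real.sqrt ((i : ℝ) + 1) - Real.sqrt i) := by
  have h0 : (0 : ℝ) ≤ i := Nat.cast_nonneg i
  have h1 : 0 < Real.sqrt ((i : ℝ) + 1) := Real.sqrt_pos.mpr (by linarith)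
  have h2 : Real.sqrt i ≤ Real.sqrt ((i : ℝ) + 1) := Real.sqrt_le_sqrt (by linarith)
  have h3 := Real.sq_sqrt h0
  have h4 := Real.sq_sqrt (show (0 : ℝ) ≤ (i : ℝ) + 1 by linarith)
  rw [div_le_iff₀ h1]
  nlinarith [Real.sqrt_nonneg (i : ℝ), sq_nonneg (Real.sqrt ((i : ℝ) + 1) - Real.sqrt i)]

lemma sum_inv_sqrt (A : ℕ) : ∑ i ∈ Finset.range A, 1 / Real.sqrt ((i : ℝ) + 1) ≤
    2 * Real.sqrt A := by
  induction A with
  | zero => simp
  | succ A ih =>
    rw [Finset.sum_range_succ]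
    have := inv_sqrt_le A
    push_cast
    linarith

lemma sum_dist (A a : ℕ) (ha : A ≤ a) (ha2 : a < 2 * A) :
    ∑ x ∈ Finset.Ico A (2 * A), 1 / Real.sqrt ((Nat.dist a x : ℝ) + 1) ≤ 4 * Real.sqrt A := by
  classical
  have hpos : ∀ i : ℕ, 0 ≤ 1 / Real.sqrt ((i : ℝ) + 1) := fun i => by positivity
  have key : ∀ s : Finset ℕ, (∀ x ∈ s, Nat.dist a x < A) →
      (Set.InjOn (fun x => Nat.dist a x) (s : Set ℕ)) →
      ∑ x ∈ s, 1 / Real.sqrt ((Nat.dist a x : ℝ) + 1) ≤ 2 * Real.sqrt A := by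
    intro s hs hinj
    refine le_trans ?_ (sum_inv_sqrt A)
    rw [← Finset.sum_image (f := fun i : ℕ => 1 / Real.sqrt ((i : ℝ) + 1)) hinj]
    refine Finset.sum_le_sum_of_subset_of_nonneg ?_ fun i _ _ => hpos i
    intro i hi
    rw [Finset.mem_image] at hi
    obtain ⟨x, hx, rfl⟩ := hi
    exact Finset.mem_range.mpr (hs x hx)
  have hsplit := Finset.sum_filter_add_sum_filter_not (Finset.Ico A (2 * A)) (fun x => a ≤ x)
    (fun x => 1 / Real.sqrt ((Nat.dist a x : ℝ) + 1))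
  rw [← hsplit]
  have h1 := key ((Finset.Ico A (2 * A)).filter (fun x => a ≤ x)) (by
    intro x hx
    rw [Finset.mem_filter, Finset.mem_Ico] at hx
    unfold Nat.dist
    omega) (by
    intro x hx y hy hxy
    rw [Finset.mem_coe, Finset.mem_filter, Finset.mem_Ico] at hx hy
    simp only [Nat.dist] at hxy
    omega)
  have h2 := key ((Finset.Ico A (2 * A)).filter (fun x => ¬ a ≤ x)) (by
    intro x hx
    rw [Finset.mem_filter, Finset.mem_Ico] at hx
    unfold Nat.dist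
    omega) (by
    intro x hx y hy hxy
    rw [Finset.mem_coe, Finset.mem_filter, Finset.mem_Ico] at hx hy
    simp only [Nat.dist] at hxy
    omega)
  linarith

lemma max_ge (i j : ℕ) : 1 / (((max i j : ℕ) : ℝ) + 1) ≤
    (1 / Real.sqrt ((i : ℝ) + 1)) * (1 / Real.sqrt ((j : ℝ) + 1)) := by
  have hi : (i : ℝ) + 1 ≤ ((max i j : ℕ) : ℝ) + 1 := by
    have : (i : ℝ) ≤ ((max i j : ℕ) : ℝ) := by exact_mod_cast le_max_left i j
    linarith
  have hj : (j : ℝ) + 1 ≤ ((max i j : ℕ) : ℝ) + 1 := by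
    have : (j : ℝ) ≤ ((max i j : ℕ) : ℝ) := by exact_mod_cast le_max_right i j
    linarith
  have i0 : (0 : ℝ) < (i : ℝ) + 1 := by positivity
  have j0 : (0 : ℝ) < (j : ℝ) + 1 := by positivity
  have m0 : (0 : ℝ) < ((max i j : ℕ) : ℝ) + 1 := by positivity
  rw [div_mul_div_comm, one_mul, ← Real.sqrt_mul i0.le]
  refine one_div_le_one_div_of_le (Real.sqrt_pos.mpr (by positivity)) ?_
  rw [Real.sqrt_le_left m0.le, sq]
  exact mul_le_mul hi hj j0.le m0.le

lemma sum_max (A a b : ℕ) (ha : A ≤ a) (ha2 : a < 2 * A) (hb : A ≤ b) (hb2 : b < 2 * A) :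
    ∑ q ∈ Finset.Ico A (2 * A) ×ˢ Finset.Ico A (2 * A),
      1 / (((max (Nat.dist a q.1) (Nat.dist b q.2) : ℕ) : ℝ) + 1) ≤ 16 * A := by
  calc ∑ q ∈ Finset.Ico A (2 * A) ×ˢ Finset.Ico A (2 * A),
      1 / (((max (Nat.dist a q.1) (Nat.dist b q.2) : ℕ) : ℝ) + 1)
      ≤ ∑ q ∈ Finset.Ico A (2 * A) ×ˢ Finset.Ico A (2 * A),
        (1 / Real.sqrt ((Nat.dist a q.1 : ℝ) + 1)) * (1 / Real.sqrt ((Nat.dist b q.2 : ℝ) + 1)) :=
        Finset.sum_le_sum fun q _ => max_ge _ _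
    _ = (∑ x ∈ Finset.Ico A (2 * A), 1 / Real.sqrt ((Nat.dist a x : ℝ) + 1)) *
        ∑ y ∈ Finset.Ico A (2 * A), 1 / Real.sqrt ((Nat.dist b y : ℝ) + 1) := by
        rw [Finset.sum_mul_sum, Finset.sum_product]
    _ ≤ (4 * Real.sqrt A) * (4 * Real.sqrt A) :=
        mul_le_mul (sum_dist A a ha ha2) (sum_dist A b hb hb2)
          (Finset.sum_nonneg fun _ _ => by positivity) (by positivity)
    _ = 16 * A := by
        have := Real.mul_self_sqrt (Nat.cast_nonneg (α := ℝ) A)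
        linarith

/-- The second moment inequality. -/
lemma second_moment {Ω : Type} [MeasurableSpace Ω] {P : Measure Ω} [IsProbabilityMeasure P]
    {ι : Type} (G : Finset ι) (H : ι → Set Ω) (hH : ∀ p ∈ G, NullMeasurableSet (H p) P) (t : ℝ) :
    2 * t * ∑ p ∈ G, P.real (H p) - t ^ 2 * ∑ p ∈ G, ∑ q ∈ G, P.real (H p ∩ H q) ≤
      P.real (⋃ p ∈ G, H p) := by
  classical
  have hU : NullMeasurableSet (⋃ p ∈ G, H p) P := by
    refine NullMeasurableSet.biUnion (Finset.countable_toSet G) fun p hp => hH p hp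
  let I : Set Ω → Ω → ℝ := fun s ω => s.indicator (fun _ => (1 : ℝ)) ω
  have hint : ∀ s : Set Ω, NullMeasurableSet s P → Integrable (I s) P := fun s hs =>
    (integrable_const (1 : ℝ)).indicator₀ hs
  have hval : ∀ s : Set Ω, NullMeasurableSet s P → ∫ ω, I s ω ∂P = P.real s := by
    intro s hs
    change ∫ ω, s.indicator (fun _ => (1 : ℝ)) ω ∂P = _
    rw [integral_indicator₀ hs, setIntegral_const, smul_eq_mul, mul_one]
  have h2 : ∀ p ∈ G, ∀ q ∈ G, NullMeasurableSet (H p ∩ H q) P := fun p hp q hq =>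
    (hH p hp).inter (hH q hq)
  have e1 : ∑ p ∈ G, P.real (H p) = ∫ ω, ∑ p ∈ G, I (H p) ω ∂P := by
    rw [integral_finsetSum G fun p hp => hint _ (hH p hp)]
    exact Finset.sum_congr rfl fun p hp => (hval _ (hH p hp)).symm
  have e2 : ∑ p ∈ G, ∑ q ∈ G, P.real (H p ∩ H q) =
      ∫ ω, ∑ p ∈ G, ∑ q ∈ G, I (H p ∩ H q) ω ∂P := by
    rw [integral_finsetSum G fun p hp => integrable_finsetSum G fun q hq =>
      hint _ (h2 p hp q hq)]
    refine Finset.sum_congr rfl fun p hp => ?_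
    rw [integral_finsetSum G fun q hq => hint _ (h2 p hp q hq)]
    exact Finset.sum_congr rfl fun q hq => (hval _ (h2 p hp q hq)).symm
  rw [e1, e2, ← hval _ hU, ← integral_const_mul, ← integral_const_mul, ← integral_sub]
  · refine integral_mono ?_ (hint _ hU) fun ω => ?_
    · refine Integrable.sub ?_ ?_
      · exact (integrable_finsetSum G fun p hp => hint _ (hH p hp)).const_mul _
      · exact (integrable_finsetSum G fun p hp => integrable_finsetSum G fun q hq =>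
          hint _ (h2 p hp q hq)).const_mul _
    · have e3 : ∑ p ∈ G, ∑ q ∈ G, I (H p ∩ H q) ω = (∑ p ∈ G, I (H p) ω) ^ 2 := by
        rw [sq, Finset.sum_mul_sum]
        refine Finset.sum_congr rfl fun p _ => Finset.sum_congr rfl fun q _ => ?_
        change (H p ∩ H q).indicator (fun _ => (1 : ℝ)) ω = (H p).indicator (fun _ => (1 : ℝ)) ω *
          (H q).indicator (fun _ => (1 : ℝ)) ω
        by_cases hp : ω ∈ H p <;> by_cases hq : ω ∈ H q <;> simp [hp, hq]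
      change 2 * t * ∑ p ∈ G, I (H p) ω - t ^ 2 * ∑ p ∈ G, ∑ q ∈ G, I (H p ∩ H q) ω ≤
        (⋃ p ∈ G, H p).indicator (fun _ => (1 : ℝ)) ω
      rw [e3]
      by_cases hω : ω ∈ ⋃ p ∈ G, H p
      · rw [indicator_of_mem hω]
        nlinarith [sq_nonneg (1 - t * ∑ p ∈ G, I (H p) ω)]
      · rw [indicator_of_notMem hω]
        have h0 : ∑ p ∈ G, I (H p) ω = 0 := by
          refine Finset.sum_eq_zero fun p hp => ?_
          have : ω ∉ H p := fun hcon => hω (mem_iUnion₂.mpr ⟨p, hp, hcon⟩)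
          exact indicator_of_notMem this _
        rw [h0]
        simp
  · exact (integrable_finsetSum G fun p hp => hint _ (hH p hp)).const_mul _
  · exact (integrable_finsetSum G fun p hp => integrable_finsetSum G fun q hq =>
      hint _ (h2 p hp q hq)).const_mul _

lemma measurableSet_near' : ∀ r : ℝ, MeasurableSet {x : ℂ × ℂ | Near x.1 x.2 r} := by
  intro r
  have h1 : Measurable fun x : ℂ × ℂ => |x.1.re - x.2.re| := by fun_prop
  have h2 : Measurable fun x : ℂ × ℂ => |x.1.im - x.2.im| := by fun_prop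
  exact (h1 measurableSet_Iic).inter (h2 measurableSet_Iic)

end TWOM

theorem specTWO (hIND : SpecIND) (hTWL : SpecTWL) (hTWU : SpecTWU) : SpecTWO := by
  obtain ⟨c, c0, hL⟩ := hTWL
  refine ⟨min (c ^ 2 / 128) 1, by positivity, min_le_right _ _, ?_⟩
  intro Ω _ P _ B hB m A s₁ s₂ d hA h1 h2 h3 hd1 hd2
  have hmeas := (hIND Ω P B hB).1
  have hA0 : (0 : ℝ) < A := by exact_mod_cast hA
  have hL' := hL Ω P B hB m A s₁ s₂ d hA h1 h2 h3 hd1 hd2
  have hU' := hTWU Ω P B hB m A s₁ s₂ d hA h1 h2 h3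
  have tm0 : ∀ a : ℕ, 0 ≤ tm m a := fun a => by unfold tm; positivity
  have tmm : ∀ a : ℕ, a < 2 * A → tm m a ≤ tm m (2 * A) := fun a ha => by
    unfold tm
    have : (a : ℝ) ≤ ((2 * A : ℕ) : ℝ) := by exact_mod_cast ha.le
    gcongr
  have t2 := tm0 (2 * A)
  set G : Finset (ℕ × ℕ) := Finset.Ico A (2 * A) ×ˢ Finset.Ico A (2 * A) with hG
  have hmem : ∀ p ∈ G, (A ≤ p.1 ∧ p.1 < 2 * A) ∧ (A ≤ p.2 ∧ p.2 < 2 * A) := by
    intro p hp
    rw [hG, Finset.mem_product, Finset.mem_Ico, Finset.mem_Ico] at hp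
    exact hp
  have hnull : ∀ p ∈ G, NullMeasurableSet (hit B m s₁ s₂ d p.1 p.2) P := by
    intro p hp
    obtain ⟨⟨-, a2⟩, ⟨-, b2⟩⟩ := hmem p hp
    have k1 := tm0 p.1
    have k2 := tm0 p.2
    have k3 := tmm p.1 a2
    have k4 := tmm p.2 b2
    have hm : AEMeasurable (fun ω => (d + (B (s₁ + tm m p.1) ω - B s₁ ω),
        B (s₂ + tm m p.2) ω - B s₂ ω)) P :=
      (((hmeas _ ⟨by linarith, by linarith⟩).sub
        (hmeas _ ⟨by linarith, by linarith⟩)).const_add d).prodMk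
        ((hmeas _ ⟨by linarith, by linarith⟩).sub (hmeas _ ⟨by linarith, by linarith⟩))
    exact hm.nullMeasurableSet_preimage (TWOM.measurableSet_near' (1 / 2 ^ m))
  have hsm := TWOM.second_moment G (fun p => hit B m s₁ s₂ d p.1 p.2) hnull (c / (128 * A))
  -- first moment
  have hfirst : c * A ≤ ∑ p ∈ G, P.real (hit B m s₁ s₂ d p.1 p.2) := by
    have h5 : ∀ p ∈ G, c / A ≤ P.real (hit B m s₁ s₂ d p.1 p.2) := by
      intro p hp
      obtain ⟨⟨a1, a2⟩, ⟨b1, b2⟩⟩ := hmem p hp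
      have := hL' p.1 p.2 a1 a2 b1 b2
      exact (ENNReal.ofReal_le_iff_le_toReal (measure_ne_top P _)).mp this
    have h6 := Finset.card_nsmul_le_sum G _ _ h5
    have h7 : G.card = A * A := by
      rw [hG, Finset.card_product, Nat.card_Ico]
      congr 1 <;> omega
    rw [h7, nsmul_eq_mul] at h6
    refine le_trans (le_of_eq ?_) h6
    push_cast
    field_simp
  -- second moment
  have hsecond : ∑ p ∈ G, ∑ q ∈ G, P.real (hit B m s₁ s₂ d p.1 p.2 ∩ hit B m s₁ s₂ d q.1 q.2) ≤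
      128 * A ^ 2 := by
    have h5 : ∀ p ∈ G, ∑ q ∈ G, P.real (hit B m s₁ s₂ d p.1 p.2 ∩ hit B m s₁ s₂ d q.1 q.2) ≤
        128 := by
      intro p hp
      obtain ⟨⟨a1, a2⟩, ⟨b1, b2⟩⟩ := hmem p hp
      calc ∑ q ∈ G, P.real (hit B m s₁ s₂ d p.1 p.2 ∩ hit B m s₁ s₂ d q.1 q.2)
          ≤ ∑ q ∈ G, (8 / A) * (1 / (((max (Nat.dist p.1 q.1) (Nat.dist p.2 q.2) : ℕ) : ℝ) + 1)) := by
            refine Finset.sum_le_sum fun q hq => ?_
            obtain ⟨⟨a3, a4⟩, ⟨b3, b4⟩⟩ := hmem q hq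
            have h6 := hU' p.1 p.2 q.1 q.2 a1 a2 b1 b2 a3 a4 b3 b4
            have h7 := ENNReal.toReal_mono ENNReal.ofReal_ne_top h6
            rw [ENNReal.toReal_ofReal (by positivity)] at h7
            refine h7.trans (le_of_eq ?_)
            rw [div_mul_div_comm, mul_one]
        _ = (8 / A) * ∑ q ∈ G,
            1 / (((max (Nat.dist p.1 q.1) (Nat.dist p.2 q.2) : ℕ) : ℝ) + 1) := by
            rw [Finset.mul_sum]
        _ ≤ (8 / A) * (16 * A) :=
            mul_le_mul_of_nonneg_left (TWOM.sum_max A p.1 p.2 a1 a2 b1 b2) (by positivity)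
        _ = 128 := by
            field_simp
            norm_num
    have h6 := Finset.sum_le_card_nsmul G _ _ h5
    have h7 : G.card = A * A := by
      rw [hG, Finset.card_product, Nat.card_Ico]
      congr 1 <;> omega
    rw [h7, nsmul_eq_mul] at h6
    refine h6.trans (le_of_eq ?_)
    push_cast
    ring
  have hP : c ^ 2 / 128 ≤ P.real (⋃ p ∈ G, hit B m s₁ s₂ d p.1 p.2) := by
    refine le_trans ?_ hsm
    have t0 : 0 ≤ c / (128 * A) := by positivity
    have h5 : 2 * (c / (128 * A)) * (c * A) ≤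
        2 * (c / (128 * A)) * ∑ p ∈ G, P.real (hit B m s₁ s₂ d p.1 p.2) :=
      mul_le_mul_of_nonneg_left hfirst (by positivity)
    have h6 : (c / (128 * A)) ^ 2 *
        ∑ p ∈ G, ∑ q ∈ G, P.real (hit B m s₁ s₂ d p.1 p.2 ∩ hit B m s₁ s₂ d q.1 q.2) ≤
        (c / (128 * A)) ^ 2 * (128 * A ^ 2) :=
      mul_le_mul_of_nonneg_left hsecond (by positivity)
    have e1 : 2 * (c / (128 * A)) * (c * A) = 2 * (c ^ 2 / 128) := by
      field_simp
    have e2 : (c / (128 * (A : ℝ))) ^ 2 * (128 * A ^ 2) = c ^ 2 / 128 := by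
      field_simp
    linarith
  have hset : (⋃ p ∈ G, hit B m s₁ s₂ d p.1 p.2) ⊆ {ω | ∃ a b : ℕ, A ≤ a ∧ a < 2 * A ∧ A ≤ b ∧
      b < 2 * A ∧ ω ∈ hit B m s₁ s₂ d a b} := by
    intro ω hω
    obtain ⟨p, hp, hpω⟩ := mem_iUnion₂.mp hω
    obtain ⟨⟨a1, a2⟩, ⟨b1, b2⟩⟩ := hmem p hp
    exact ⟨p.1, p.2, a1, a2, b1, b2, hpω⟩
  refine le_trans ?_ (measure_mono hset)
  rw [ENNReal.ofReal_le_iff_le_toReal (measure_ne_top P _)]
  exact (min_le_left _ _).trans hP

end Pool.Agent.Lib.MP_8b264c_pr.QV
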