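import Pool.Agent.Lib.MP_8b264c_pr.QV.Spec

/-!
# MP_8b264c_pr, module TWU: two point upper bound
-/

set_option autoImplicit false

open MeasureTheory Set ProbabilityTheory Filter Topology

namespace Pool.Agent.Lib.MP_8b264c_pr.QV

open Pool.Agent.BMR

namespace TWUM

private theorem vol_near (w : ℂ) {r : ℝ} (hr : 0 ≤ r) :
    MeasurableSet {z : ℂ | Near z w r} ∧
      volume {z : ℂ | Near z w r} = ENNReal.ofReal ((2 * r) ^ 2) := by
  have he : {z : ℂ | Near z w r} = Complex.measurableEquivRealProd ⁻¹'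
      (Icc (w.re - r) (w.re + r) ×ˢ Icc (w.im - r) (w.im + r)) := by
    ext z
    simp only [Near, mem_ofPred_eq, mem_preimage, Complex.measurableEquivRealProd_apply, mem_prod,
      mem_Icc, abs_le]
    constructor
    · rintro ⟨⟨h1, h2⟩, h3, h4⟩
      exact ⟨⟨by linarith, by linarith⟩, by linarith, by linarith⟩
    · rintro ⟨⟨h1, h2⟩, h3, h4⟩
      exact ⟨⟨by linarith, by linarith⟩, by linarith, by linarith⟩
  have hm : MeasurableSet (Icc (w.re - r) (w.re + r) ×ˢ Icc (w.im - r) (w.im + r)) :=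
    measurableSet_Icc.prod measurableSet_Icc
  rw [he]
  refine ⟨Complex.measurableEquivRealProd.measurable hm, ?_⟩
  rw [Complex.volume_preserving_equiv_real_prod.measure_preimage hm.nullMeasurableSet,
    Measure.volume_eq_prod, Measure.prod_prod, Real.volume_Icc, Real.volume_Icc,
    ← ENNReal.ofReal_mul (by linarith)]
  congr 1
  ring

private theorem gen (hIND : SpecIND) (hFUB : SpecFUB) (hDEN : SpecDEN)
    {Ω : Type} [MeasurableSpace Ω] (P : Measure Ω) [IsProbabilityMeasure P] (B : ℝ → Ω → ℂ)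
    (hB : IsPBM P B) (T : Type) [Countable T] (u v : T → ℝ) (s t r : ℝ) (hs : 0 ≤ s) (hst : s < t)
    (ht : t ≤ 1) (hr : 0 ≤ r) (huv : ∀ i, 0 ≤ u i ∧ u i ≤ v i ∧ v i ≤ 1)
    (hd : ∀ i, v i ≤ s ∨ t ≤ u i) (g : (T → ℂ) → ℂ) (hg : Measurable g) (G : Set (T → ℂ))
    (hG : MeasurableSet G) :
    P {ω | Near (B t ω - B s ω) (g (fun i => B (v i) ω - B (u i) ω)) r ∧
        (fun i => B (v i) ω - B (u i) ω) ∈ G} ≤
      ENNReal.ofReal ((2 * r) ^ 2 / (2 * Real.pi * (t - s))) *
        P {ω | (fun i => B (v i) ω - B (u i) ω) ∈ G} := by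
  classical
  obtain ⟨hm, hi⟩ := hIND Ω P B hB
  set V : Ω → (T → ℂ) := fun ω i => B (v i) ω - B (u i) ω with hV
  set X : Ω → ℂ := fun ω => B t ω - B s ω with hX
  have hVm : AEMeasurable V P := by
    refine aemeasurable_pi_lambda _ fun i => ?_
    obtain ⟨h1, h2, h3⟩ := huv i
    exact (hm _ ⟨h1.trans h2, h3⟩).sub (hm _ ⟨h1, h2.trans h3⟩)
  have hXm : AEMeasurable X P :=
    (hm t ⟨hs.trans hst.le, ht⟩).sub (hm s ⟨hs, hst.le.trans ht⟩)
  have hind : IndepFun V X P := by
    have h := hi T Unit u v (fun _ => s) (fun _ => t) huv (fun _ => ⟨hs, hst.le, ht⟩)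
      (fun i _ => (hd i))
    exact h.comp measurable_id (measurable_pi_apply ())
  set S : Set ((T → ℂ) × ℂ) := {p | Near p.2 (g p.1) r ∧ p.1 ∈ G} with hS
  have hSm : MeasurableSet S := by
    have h1 : Measurable fun p : (T → ℂ) × ℂ => |p.2.re - (g p.1).re| :=
      ((Complex.measurable_re.comp measurable_snd).sub
        (Complex.measurable_re.comp (hg.comp measurable_fst))).abs
    have h2 : Measurable fun p : (T → ℂ) × ℂ => |p.2.im - (g p.1).im| :=
      ((Complex.measurable_im.comp measurable_snd).sub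
        (Complex.measurable_im.comp (hg.comp measurable_fst))).abs
    exact ((measurableSet_le h1 measurable_const).inter
      (measurableSet_le h2 measurable_const)).inter (measurable_fst hG)
  let F : (T → ℂ) → ℂ → ENNReal := fun a b => S.indicator 1 (a, b)
  have hF : Measurable (Function.uncurry F) := by
    have : Function.uncurry F = S.indicator 1 := by
      ext ⟨a, b⟩
      rfl
    rw [this]
    exact measurable_one.indicator hSm
  have hev : NullMeasurableSet {ω | (V ω, X ω) ∈ S} P :=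
    (hVm.prodMk hXm).nullMeasurable hSm
  have e1 : P {ω | (V ω, X ω) ∈ S} = ∫⁻ ω, F (V ω) (X ω) ∂P := by
    rw [← lintegral_indicator_one₀ hev]
    rfl
  set κ : ENNReal := ENNReal.ofReal ((2 * r) ^ 2 / (2 * Real.pi * (t - s))) with hκ
  have hGm : NullMeasurableSet {ω | V ω ∈ G} P := hVm.nullMeasurable hG
  have hin : ∀ ω, ∫⁻ ω', F (V ω) (X ω') ∂P ≤ {ω | V ω ∈ G}.indicator (fun _ => κ) ω := by
    intro ω
    by_cases hω : V ω ∈ G
    · rw [indicator_of_mem (show ω ∈ {ω | V ω ∈ G} from hω)]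
      obtain ⟨hE, hvol⟩ := vol_near (g (V ω)) hr
      have e2 : ∀ ω', F (V ω) (X ω') = {ω' | X ω' ∈ {z : ℂ | Near z (g (V ω)) r}}.indicator 1 ω' := by
        intro ω'
        by_cases h : Near (X ω') (g (V ω)) r
        · rw [indicator_of_mem (show ω' ∈ {ω' | X ω' ∈ {z : ℂ | Near z (g (V ω)) r}} from h)]
          exact indicator_of_mem (show (V ω, X ω') ∈ S from ⟨h, hω⟩) _
        · rw [indicator_of_notMem (show ω' ∉ {ω' | X ω' ∈ {z : ℂ | Near z (g (V ω)) r}} from h)]
          exact indicator_of_notMem (show (V ω, X ω') ∉ S from fun hh => h hh.1) _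
      rw [lintegral_congr e2]
      refine (lintegral_indicator_one_le _).trans ?_
      refine (hDEN Ω P B hB s t hs hst ht _ hE).trans ?_
      have hts : 0 < t - s := by linarith
      rw [hvol, ← ENNReal.ofReal_mul (by positivity), hκ]
      refine ENNReal.ofReal_le_ofReal (le_of_eq ?_)
      ring
    · rw [indicator_of_notMem (show ω ∉ {ω | V ω ∈ G} from hω)]
      have e2 : ∀ ω', F (V ω) (X ω') = 0 := fun ω' =>
        indicator_of_notMem (show (V ω, X ω') ∉ S from fun hh => hω hh.2) _
      rw [lintegral_congr e2, lintegral_zero]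
  calc P {ω | (V ω, X ω) ∈ S} = ∫⁻ ω, F (V ω) (X ω) ∂P := e1
    _ = ∫⁻ ω, (∫⁻ ω', F (V ω) (X ω') ∂P) ∂P := hFUB Ω P _ _ V X hVm hXm hind F hF
    _ ≤ ∫⁻ ω, {ω | V ω ∈ G}.indicator (fun _ => κ) ω ∂P := lintegral_mono hin
    _ = κ * P {ω | V ω ∈ G} := by
        rw [lintegral_indicator₀ hGm, lintegral_const, Measure.restrict_apply MeasurableSet.univ,
          univ_inter]

private theorem tm_mono {m a b : ℕ} (h : a ≤ b) : tm m a ≤ tm m b := by
  unfold tm
  have : (a : ℝ) ≤ b := by exact_mod_cast h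
  gcongr

private theorem tm_lt {m a b : ℕ} (h : a < b) : tm m a < tm m b := by
  unfold tm
  have : (a : ℝ) < b := by exact_mod_cast h
  gcongr

private theorem tm_nonneg (m a : ℕ) : 0 ≤ tm m a := by unfold tm; positivity

private theorem tm_sub {m a b : ℕ} (h : a ≤ b) : tm m b - tm m a = ((b - a : ℕ) : ℝ) / 4 ^ m := by
  unfold tm
  rw [Nat.cast_sub h]
  ring

/-- The difference of the increments is small with probability at most `8 / (M + 1)`. -/
private theorem diff (hIND : SpecIND) (hFUB : SpecFUB) (hDEN : SpecDEN)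
    {Ω : Type} [MeasurableSpace Ω] (P : Measure Ω) [IsProbabilityMeasure P] (B : ℝ → Ω → ℂ)
    (hB : IsPBM P B) (m A : ℕ) (s₁ s₂ : ℝ) (h0 : 0 ≤ s₁) (h12 : s₁ + tm m (2 * A) ≤ s₂)
    (h21 : s₂ + tm m (2 * A) ≤ 1) (a b a' b' : ℕ) (haa : a ≤ a') (ha2 : a' < 2 * A)
    (hb : b < 2 * A) (hb' : b' < 2 * A) :
    P {ω | Near (B (s₁ + tm m a') ω - B (s₁ + tm m a) ω)
      ((B (s₂ + tm m b') ω - B s₂ ω) - (B (s₂ + tm m b) ω - B s₂ ω)) (2 / 2 ^ m)} ≤
      ENNReal.ofReal (8 / (((max (Nat.dist a a') (Nat.dist b b') : ℕ) : ℝ) + 1)) := by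
  have hd1 : Nat.dist a a' = a' - a := by
    unfold Nat.dist
    omega
  have h4m : (0 : ℝ) < 4 ^ m := by positivity
  have h24 : ((2 : ℝ) ^ m) ^ 2 = 4 ^ m := by
    rw [← pow_mul, mul_comm, pow_mul]
    norm_num
  have hs2 : 0 ≤ s₂ := h0.trans ((le_add_of_nonneg_right (tm_nonneg _ _)).trans h12)
  have hpi := Real.pi_gt_three
  -- the numerical bound
  have num : ∀ k : ℕ, 1 ≤ k → ∀ L : ℝ, L = (k : ℝ) / 4 ^ m →
      (2 * (2 / 2 ^ m : ℝ)) ^ 2 / (2 * Real.pi * L) ≤ 8 / ((k : ℝ) + 1) := by
    intro k hk L hL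
    have hk' : (1 : ℝ) ≤ k := by exact_mod_cast hk
    have e : (2 * (2 / 2 ^ m : ℝ)) ^ 2 / (2 * Real.pi * L) = 8 / (Real.pi * k) := by
      rw [hL, mul_pow, div_pow, h24]
      field_simp
      ring
    rw [e]
    apply div_le_div_of_nonneg_left (by norm_num) (by positivity)
    nlinarith
  rcases Nat.eq_zero_or_pos (max (Nat.dist a a') (Nat.dist b b')) with hM | hM
  · rw [hM]
    refine prob_le_one.trans ?_
    rw [ENNReal.one_le_ofReal]
    norm_num
  by_cases hc : Nat.dist b b' ≤ Nat.dist a a'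
  · -- the first increment
    rw [max_eq_left hc, hd1] at hM ⊢
    have hlt : a < a' := by omega
    have hmeas : Measurable fun w : Fin 2 → ℂ => w 1 - w 0 :=
      (measurable_pi_apply 1).sub (measurable_pi_apply 0)
    have hk := gen hIND hFUB hDEN P B hB (Fin 2) (fun _ => s₂)
      (fun i => if i = 0 then s₂ + tm m b else s₂ + tm m b') (s₁ + tm m a) (s₁ + tm m a')
      (2 / 2 ^ m) (add_nonneg h0 (tm_nonneg _ _)) (by have := tm_lt (m := m) hlt; linarith)
      (by
        have h1 : tm m a' ≤ tm m (2 * A) := tm_mono ha2.le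
        have h2 := tm_nonneg m (2 * A)
        linarith) (by positivity)
      (by
        intro i
        have h1 : tm m b ≤ tm m (2 * A) := tm_mono hb.le
        have h1' : tm m b' ≤ tm m (2 * A) := tm_mono hb'.le
        have h2 := tm_nonneg m b
        have h3 := tm_nonneg m b'
        refine ⟨hs2, ?_, ?_⟩ <;> (try dsimp only) <;> split_ifs <;> linarith)
      (by
        intro i
        right
        have h1 : tm m a' ≤ tm m (2 * A) := tm_mono ha2.le
        try dsimp only
        linarith) _ hmeas univ MeasurableSet.univ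
    refine (le_trans (le_of_eq ?_) hk).trans ?_
    · congr 1
      ext ω
      simp
    · simp only [mem_univ, ofPred_true, measure_univ, mul_one]
      refine ENNReal.ofReal_le_ofReal (num (a' - a) (by omega) _ ?_)
      rw [← tm_sub haa]
      ring
  · -- the second increment
    push Not at hc
    rw [max_eq_right hc.le] at hM ⊢
    have hne : b ≠ b' := by
      rintro rfl
      simp [Nat.dist_self] at hM
    rcases lt_or_gt_of_ne hne with hlt | hlt
    · have hdb : Nat.dist b b' = b' - b := by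
        unfold Nat.dist
        omega
      rw [hdb]
      have hk := gen hIND hFUB hDEN P B hB Unit (fun _ => s₁ + tm m a)
        (fun _ => s₁ + tm m a') (s₂ + tm m b) (s₂ + tm m b')
        (2 / 2 ^ m) (add_nonneg hs2 (tm_nonneg _ _)) (by have := tm_lt (m := m) hlt; linarith)
        (by
          have h1 : tm m b' ≤ tm m (2 * A) := tm_mono hb'.le
          linarith) (by positivity)
        (by
          intro i
          have h1 : tm m a' ≤ tm m (2 * A) := tm_mono ha2.le
          have h2 := tm_nonneg m a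
          have h3 : tm m a ≤ tm m a' := tm_mono haa
          have h4 := tm_nonneg m (2 * A)
          refine ⟨?_, ?_, ?_⟩ <;> (try dsimp only) <;> linarith)
        (by
          intro i
          left
          have h1 : tm m a' ≤ tm m (2 * A) := tm_mono ha2.le
          have h2 := tm_nonneg m b
          try dsimp only
          linarith) (fun w => w ()) (measurable_pi_apply ()) univ MeasurableSet.univ
      refine (le_trans (le_of_eq ?_) hk).trans ?_
      · congr 1
        ext ω
        simp only [mem_univ, and_true, mem_ofPred_eq, Near, Complex.sub_re, Complex.sub_im]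
        constructor
        · rintro ⟨h1, h2⟩
          rw [abs_le] at h1 h2
          exact ⟨abs_le.2 ⟨by linarith, by linarith⟩, abs_le.2 ⟨by linarith, by linarith⟩⟩
        · rintro ⟨h1, h2⟩
          rw [abs_le] at h1 h2
          exact ⟨abs_le.2 ⟨by linarith, by linarith⟩, abs_le.2 ⟨by linarith, by linarith⟩⟩
      · simp only [mem_univ, ofPred_true, measure_univ, mul_one]
        refine ENNReal.ofReal_le_ofReal (num (b' - b) (by omega) _ ?_)
        rw [← tm_sub hlt.le]
        ring
    · have hdb : Nat.dist b b' = b - b' := by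
        unfold Nat.dist
        omega
      rw [hdb]
      have hk := gen hIND hFUB hDEN P B hB Unit (fun _ => s₁ + tm m a)
        (fun _ => s₁ + tm m a') (s₂ + tm m b') (s₂ + tm m b)
        (2 / 2 ^ m) (add_nonneg hs2 (tm_nonneg _ _)) (by have := tm_lt (m := m) hlt; linarith)
        (by
          have h1 : tm m b ≤ tm m (2 * A) := tm_mono hb.le
          linarith) (by positivity)
        (by
          intro i
          have h1 : tm m a' ≤ tm m (2 * A) := tm_mono ha2.le
          have h2 := tm_nonneg m a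
          have h3 : tm m a ≤ tm m a' := tm_mono haa
          have h4 := tm_nonneg m (2 * A)
          refine ⟨?_, ?_, ?_⟩ <;> (try dsimp only) <;> linarith)
        (by
          intro i
          left
          have h1 : tm m a' ≤ tm m (2 * A) := tm_mono ha2.le
          have h2 := tm_nonneg m b'
          try dsimp only
          linarith) (fun w => -w ()) (measurable_pi_apply ()).neg univ MeasurableSet.univ
      refine (le_trans (le_of_eq ?_) hk).trans ?_
      · congr 1
        ext ω
        simp only [mem_univ, and_true, mem_ofPred_eq, Near, Complex.sub_re, Complex.sub_im,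
          Complex.neg_re, Complex.neg_im]
        constructor
        · rintro ⟨h1, h2⟩
          rw [abs_le] at h1 h2
          exact ⟨abs_le.2 ⟨by linarith, by linarith⟩, abs_le.2 ⟨by linarith, by linarith⟩⟩
        · rintro ⟨h1, h2⟩
          rw [abs_le] at h1 h2
          exact ⟨abs_le.2 ⟨by linarith, by linarith⟩, abs_le.2 ⟨by linarith, by linarith⟩⟩
      · simp only [mem_univ, ofPred_true, measure_univ, mul_one]
        refine ENNReal.ofReal_le_ofReal (num (b - b') (by omega) _ ?_)
        rw [← tm_sub hlt.le]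
        ring

private theorem ordered (hIND : SpecIND) (hFUB : SpecFUB) (hDEN : SpecDEN)
    {Ω : Type} [MeasurableSpace Ω] (P : Measure Ω) [IsProbabilityMeasure P] (B : ℝ → Ω → ℂ)
    (hB : IsPBM P B) (m A : ℕ) (s₁ s₂ : ℝ) (d : ℂ) (hA : 1 ≤ A) (h0 : 0 ≤ s₁)
    (h12 : s₁ + tm m (2 * A) ≤ s₂) (h21 : s₂ + tm m (2 * A) ≤ 1) (a b a' b' : ℕ) (haA : A ≤ a)
    (haa : a ≤ a') (ha2 : a' < 2 * A) (hb : b < 2 * A) (hb' : b' < 2 * A) :
    P (hit B m s₁ s₂ d a b ∩ hit B m s₁ s₂ d a' b') ≤
      ENNReal.ofReal (8 / (A * ((max (Nat.dist a a') (Nat.dist b b') : ℕ) + 1))) := by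
  have h4m : (0 : ℝ) < 4 ^ m := by positivity
  have h24 : ((2 : ℝ) ^ m) ^ 2 = 4 ^ m := by
    rw [← pow_mul, mul_comm, pow_mul]
    norm_num
  have hs2 : 0 ≤ s₂ := h0.trans ((le_add_of_nonneg_right (tm_nonneg _ _)).trans h12)
  have hpi := Real.pi_gt_three
  have hA' : (1 : ℝ) ≤ A := by exact_mod_cast hA
  have haA' : (A : ℝ) ≤ a := by exact_mod_cast haA
  let G : Set (Fin 3 → ℂ) := {w | Near (w 0) (w 2 - w 1) (2 / 2 ^ m)}
  have hG : MeasurableSet G := by
    have m0 : Measurable fun w : Fin 3 → ℂ => w 0 := measurable_pi_apply 0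
    have m1 : Measurable fun w : Fin 3 → ℂ => w 2 - w 1 :=
      (measurable_pi_apply 2).sub (measurable_pi_apply 1)
    exact (measurableSet_le ((Complex.measurable_re.comp m0).sub
      (Complex.measurable_re.comp m1)).abs measurable_const).inter
      (measurableSet_le ((Complex.measurable_im.comp m0).sub
      (Complex.measurable_im.comp m1)).abs measurable_const)
  have ha1 : 0 < a := by omega
  have t1 : tm m a ≤ tm m (2 * A) := tm_mono (by omega)
  have t2 : tm m a' ≤ tm m (2 * A) := tm_mono ha2.le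
  have t3 : tm m b ≤ tm m (2 * A) := tm_mono hb.le
  have t4 : tm m b' ≤ tm m (2 * A) := tm_mono hb'.le
  have t5 : tm m a ≤ tm m a' := tm_mono haa
  have t6 := tm_nonneg m a
  have t7 := tm_nonneg m b
  have t8 := tm_nonneg m b'
  have t9 := tm_nonneg m (2 * A)
  have t0 : 0 < tm m a := by
    unfold tm
    have : (0 : ℝ) < a := by exact_mod_cast ha1
    positivity
  have hk := gen hIND hFUB hDEN P B hB (Fin 3) ![s₁ + tm m a, s₂, s₂]
    ![s₁ + tm m a', s₂ + tm m b, s₂ + tm m b'] s₁ (s₁ + tm m a) (1 / 2 ^ m) h0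
    (by linarith) (by linarith) (by positivity)
    (by
      intro i
      fin_cases i
      · exact ⟨by simp; linarith, by simp; linarith, by simp; linarith⟩
      · exact ⟨by simp; linarith, by simp; linarith, by simp; linarith⟩
      · exact ⟨by simp; linarith, by simp; linarith, by simp; linarith⟩)
    (by
      intro i
      right
      fin_cases i
      · simp
      · simp
        linarith
      · simp
        linarith)
    (fun w => w 1 - d)
    ((show Measurable fun w : Fin 3 → ℂ => w 1 from measurable_pi_apply 1).sub_const d) G hG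
  have hk2 := diff hIND hFUB hDEN P B hB m A s₁ s₂ h0 h12 h21 a b a' b' haa ha2 hb hb'
  have hsub : hit B m s₁ s₂ d a b ∩ hit B m s₁ s₂ d a' b' ⊆
      {ω | Near (B (s₁ + tm m a) ω - B s₁ ω)
        ((fun w : Fin 3 → ℂ => w 1 - d) (fun i => B (![s₁ + tm m a', s₂ + tm m b, s₂ + tm m b'] i) ω -
          B (![s₁ + tm m a, s₂, s₂] i) ω)) (1 / 2 ^ m) ∧
        (fun i => B (![s₁ + tm m a', s₂ + tm m b, s₂ + tm m b'] i) ω -
          B (![s₁ + tm m a, s₂, s₂] i) ω) ∈ G} := by
    rintro ω ⟨⟨h1, h2⟩, h3, h4⟩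
    simp only [Complex.add_re, Complex.sub_re, Complex.add_im, Complex.sub_im] at h1 h2 h3 h4
    rw [abs_le] at h1 h2 h3 h4
    have e : (2 : ℝ) / 2 ^ m = 1 / 2 ^ m + 1 / 2 ^ m := by ring
    refine ⟨⟨?_, ?_⟩, ?_, ?_⟩
    · simp only [Matrix.cons_val_one, Matrix.cons_val_zero, Complex.sub_re]
      exact abs_le.2 ⟨by linarith, by linarith⟩
    · simp only [Matrix.cons_val_one, Matrix.cons_val_zero, Complex.sub_im]
      exact abs_le.2 ⟨by linarith, by linarith⟩
    · simp only [Matrix.cons_val_one, Matrix.cons_val_zero, Matrix.cons_val, Complex.sub_re]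
      rw [e]
      exact abs_le.2 ⟨by linarith, by linarith⟩
    · simp only [Matrix.cons_val_one, Matrix.cons_val_zero, Matrix.cons_val, Complex.sub_im]
      rw [e]
      exact abs_le.2 ⟨by linarith, by linarith⟩
  refine (measure_mono hsub).trans (hk.trans ?_)
  have hGe : {ω | (fun i => B (![s₁ + tm m a', s₂ + tm m b, s₂ + tm m b'] i) ω -
      B (![s₁ + tm m a, s₂, s₂] i) ω) ∈ G} =
      {ω | Near (B (s₁ + tm m a') ω - B (s₁ + tm m a) ω)
      ((B (s₂ + tm m b') ω - B s₂ ω) - (B (s₂ + tm m b) ω - B s₂ ω)) (2 / 2 ^ m)} := rfl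
  rw [hGe]
  have hM : (0 : ℝ) < ((max (Nat.dist a a') (Nat.dist b b') : ℕ) : ℝ) + 1 := by positivity
  calc _ ≤ ENNReal.ofReal ((2 * (1 / 2 ^ m)) ^ 2 / (2 * Real.pi * (s₁ + tm m a - s₁))) *
        ENNReal.ofReal (8 / (((max (Nat.dist a a') (Nat.dist b b') : ℕ) : ℝ) + 1)) :=
        mul_le_mul_right hk2 _
    _ ≤ ENNReal.ofReal (1 / A) *
        ENNReal.ofReal (8 / (((max (Nat.dist a a') (Nat.dist b b') : ℕ) : ℝ) + 1)) := by
        refine mul_le_mul_left (ENNReal.ofReal_le_ofReal ?_) _
        have e : (2 * (1 / 2 ^ m : ℝ)) ^ 2 / (2 * Real.pi * (s₁ + tm m a - s₁)) =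
            2 / (Real.pi * a) := by
          have ha0 : (a : ℝ) ≠ 0 := by positivity
          rw [mul_pow, div_pow, h24]
          unfold tm
          rw [add_sub_cancel_left]
          field_simp
        rw [e, div_le_div_iff₀ (by positivity) (by positivity)]
        nlinarith
    _ = _ := by
        rw [← ENNReal.ofReal_mul (by positivity)]
        congr 1
        field_simp

end TWUM

open TWUM in
theorem specTWU (hIND : SpecIND) (hFUB : SpecFUB) (hDEN : SpecDEN) : SpecTWU := by
  intro Ω _ P _ B hB m A s₁ s₂ d hA h0 h12 h21 a b a' b' ha ha2 hb hb2 ha' ha2' hb' hb2'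
  rcases le_total a a' with h | h
  · exact ordered hIND hFUB hDEN P B hB m A s₁ s₂ d hA h0 h12 h21 a b a' b' ha h ha2' hb2 hb2'
  · rw [inter_comm, Nat.dist_comm a, Nat.dist_comm b]
    exact ordered hIND hFUB hDEN P B hB m A s₁ s₂ d hA h0 h12 h21 a' b' a b ha' h ha2 hb2' hb2

end Pool.Agent.Lib.MP_8b264c_pr.QV
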