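import Pool.Agent.Lib.MP_8b264c_pr.QV.Spec

/-!
# VAA: the almost sure bound for the power sums of the oscillations
-/

set_option autoImplicit false

open MeasureTheory Set ProbabilityTheory Filter Topology

namespace Pool.Agent.Lib.MP_8b264c_pr.QV

open Pool.Agent.BMR

theorem specVAA (hOSC : SpecOSC) : SpecVAA := by
  intro Ω _ P _ Y hY q hq
  obtain ⟨C, hC, h⟩ := hOSC Ω P Y hY q hq
  choose W hW1 hW2 hW3 using h
  obtain ⟨c, hc⟩ : ∃ c : ℕ → ℝ, ∀ n, c n = ((n : ℝ) + 1) ^ 2 * (4 : ℝ) ^ n :=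
    ⟨fun n => ((n : ℝ) + 1) ^ 2 * (4 : ℝ) ^ n, fun _ => rfl⟩
  have hcp : ∀ n, 0 < c n := fun n => by
    rw [hc]
    positivity
  have hS1 : AEMeasurable (fun ω => ∑' n, ENNReal.ofReal (1 / c n) * W n ω) P :=
    AEMeasurable.ennreal_tsum fun n => (hW1 n).const_mul _
  have hS2 : ∫⁻ ω, ∑' n, ENNReal.ofReal (1 / c n) * W n ω ∂P ≠ ⊤ := by
    rw [lintegral_tsum fun n => (hW1 n).const_mul _]
    have h1 : ∀ n, ∫⁻ ω, ENNReal.ofReal (1 / c n) * W n ω ∂P ≤
        ENNReal.ofReal (C * (1 / ((n : ℝ) + 1) ^ 2)) := by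
      intro n
      rw [lintegral_const_mul'' _ (hW1 n)]
      calc ENNReal.ofReal (1 / c n) * ∫⁻ ω, W n ω ∂P
          ≤ ENNReal.ofReal (1 / c n) * ENNReal.ofReal (C * 4 ^ n) := mul_le_mul_right (hW2 n) _
        _ = ENNReal.ofReal (C * (1 / ((n : ℝ) + 1) ^ 2)) := by
          rw [← ENNReal.ofReal_mul (one_div_nonneg.2 (hcp n).le)]
          congr 1
          rw [hc]
          have h4 : (4 : ℝ) ^ n ≠ 0 := by positivity
          have h5 : ((n : ℝ) + 1) ^ 2 ≠ 0 := by positivity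
          field_simp
    have h2 : Summable fun n : ℕ => C * (1 / ((n : ℝ) + 1) ^ 2) := by
      have h3 := (summable_nat_add_iff (f := fun n : ℕ => 1 / (n : ℝ) ^ 2) 1).2
        (Real.summable_one_div_nat_pow.2 one_lt_two)
      refine Summable.mul_left C ?_
      refine h3.congr fun n => ?_
      push_cast
      rfl
    exact ((ENNReal.tsum_le_tsum h1).trans_lt h2.tsum_ofReal_lt_top).ne
  filter_upwards [ae_lt_top' hS1 hS2] with ω hω
  refine ⟨(∑' n, ENNReal.ofReal (1 / c n) * W n ω).toReal, fun n => ?_⟩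
  have h1 : ENNReal.ofReal (1 / c n * FS (fun t => Y t ω) q n) ≤
      ∑' n, ENNReal.ofReal (1 / c n) * W n ω := by
    rw [ENNReal.ofReal_mul (one_div_nonneg.2 (hcp n).le)]
    exact (mul_le_mul_right (hW3 n ω) _).trans
      (ENNReal.le_tsum (f := fun n => ENNReal.ofReal (1 / c n) * W n ω) n)
  have h2 := (ENNReal.ofReal_le_iff_le_toReal hω.ne).1 h1
  rw [one_div, inv_mul_le_iff₀ (hcp n)] at h2
  refine h2.trans (le_of_eq ?_)
  rw [hc]
  ring

end Pool.Agent.Lib.MP_8b264c_pr.QV
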