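import Pool.Agent.Lib.MP_8b264c_pr.QV.Spec

/-!
# Module VAD: the sum of the squares of the oscillations over disjoint intervals
-/

set_option autoImplicit false

open MeasureTheory Set ProbabilityTheory Filter Topology

namespace Pool.Agent.Lib.MP_8b264c_pr.QV

open Pool.Agent.BMR

namespace VADM

/-- the lengths of disjoint intervals -/
theorem sum_len (S : Finset ℕ) (u v : ℕ → ℝ) (a b : ℝ) (hab : a ≤ b)
    (h : ∀ i ∈ S, a ≤ u i ∧ u i ≤ v i ∧ v i ≤ b)
    (hd : ∀ i ∈ S, ∀ j ∈ S, i ≠ j → v i ≤ u j ∨ v j ≤ u i) : ∑ i ∈ S, (v i - u i) ≤ b - a := by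
  have h1 : volume (⋃ i ∈ S, Ioc (u i) (v i)) = ∑ i ∈ S, volume (Ioc (u i) (v i)) := by
    refine measure_biUnion_finset ?_ fun i _ => measurableSet_Ioc
    intro i hi j hj hij
    rw [Function.onFun, Set.disjoint_left]
    rintro x ⟨h2, h3⟩ ⟨h4, h5⟩
    rcases hd i hi j hj hij with h6 | h6
    · exact absurd (h3.trans h6) (not_le.2 h4)
    · exact absurd (h5.trans h6) (not_le.2 h2)
  have h2 : volume (⋃ i ∈ S, Ioc (u i) (v i)) ≤ volume (Ioc a b) := by
    refine measure_mono (Set.iUnion₂_subset fun i hi => ?_)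
    exact Ioc_subset_Ioc (h i hi).1 (h i hi).2.2
  rw [h1, Real.volume_Ioc] at h2
  simp only [Real.volume_Ioc] at h2
  rw [← ENNReal.ofReal_sum_of_nonneg fun i hi => sub_nonneg.2 (h i hi).2.1,
    ENNReal.ofReal_le_ofReal_iff (sub_nonneg.2 hab)] at h2
  exact h2

theorem sq_sum (L : ℕ) : ∑ l ∈ Finset.range L, ((l : ℝ) + 1) ^ 2 * (1 / 2) ^ l =
    12 - (2 * (L : ℝ) ^ 2 + 8 * L + 12) * (1 / 2) ^ L := by
  induction L with
  | zero => norm_num
  | succ L ih =>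
    rw [Finset.sum_range_succ, ih, pow_succ]
    push_cast
    ring

theorem sq_sum_le (L : ℕ) : ∑ l ∈ Finset.range L, ((l : ℝ) + 1) ^ 2 * (1 / 2) ^ l ≤ 12 := by
  rw [sq_sum]
  have : 0 ≤ (2 * (L : ℝ) ^ 2 + 8 * L + 12) * (1 / 2) ^ L := by positivity
  linarith

theorem young {x w : ℝ} (hx : 0 ≤ x) (hw : 0 < w) (r : ℕ) : x ≤ w + x ^ (r + 1) / w ^ r := by
  have h0 : 0 ≤ x ^ (r + 1) / w ^ r := by positivity
  by_cases h : x ≤ w
  · linarith
  · push Not at h
    have h1 : x ≤ x ^ (r + 1) / w ^ r := by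
      rw [le_div_iff₀ (by positivity), pow_succ, mul_comm]
      exact mul_le_mul_of_nonneg_right (pow_le_pow_left₀ hw.le h.le r) hx
    linarith

theorem pow_two_mul {a b : ℝ} (ha : 0 ≤ a) (hb : 0 ≤ b) (q : ℕ) :
    (a + b) ^ (2 * q) ≤ 4 ^ q * (a ^ (2 * q) + b ^ (2 * q)) := by
  have h1 := add_pow_le ha hb (2 * q)
  refine h1.trans (mul_le_mul_of_nonneg_right ?_ (by positivity))
  have h2 : (4 : ℝ) ^ q = 2 ^ (2 * q) := by
    rw [pow_mul]
    norm_num
  rw [h2]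
  exact pow_le_pow_right₀ (by norm_num) (Nat.sub_le _ _)

open Classical in
/-- the oscillation, zero outside the range -/
noncomputable def O (γ : ℝ → ℂ) (l j : ℕ) : ℝ := if j < 4 ^ l then osc γ l j else 0

theorem O_nonneg (γ : ℝ → ℂ) (l j : ℕ) : 0 ≤ O γ l j := by
  unfold O
  split_ifs
  · exact Metric.diam_nonneg
  · exact le_rfl

theorem tm_le {n j k : ℕ} (h : j ≤ k) : tm n j ≤ tm n k := by
  unfold tm
  have : (j : ℝ) ≤ (k : ℝ) := by exact_mod_cast h
  gcongr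

theorem tm_nonneg (n j : ℕ) : 0 ≤ tm n j := by
  unfold tm
  positivity

theorem tm_le_one {n j : ℕ} (h : j ≤ 4 ^ n) : tm n j ≤ 1 := by
  unfold tm
  rw [div_le_one (by positivity)]
  exact_mod_cast h

theorem bdd {γ : ℝ → ℂ} (hγ : ContinuousOn γ (Icc 0 1)) {l j : ℕ} (hj : j < 4 ^ l) :
    Bornology.IsBounded (γ '' Icc (tm l j) (tm l (j + 1))) := by
  refine (isCompact_Icc.image_of_continuousOn hγ).isBounded.subset (image_mono ?_)
  exact Icc_subset_Icc (tm_nonneg l j) (tm_le_one hj)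

/-- the oscillation over an interval of level `l` -/
theorem diam_le {γ : ℝ → ℂ} (hγ : ContinuousOn γ (Icc 0 1)) {u v : ℝ} {l : ℕ} (hu : 0 ≤ u)
    (huv : u < v) (hv : v ≤ 1) (hl : v - u ≤ (1 / 4) ^ l) :
    ⌊u * 4 ^ l⌋₊ < 4 ^ l ∧ Metric.diam (γ '' Icc u v) ≤
      O γ l ⌊u * 4 ^ l⌋₊ + O γ l (⌊u * 4 ^ l⌋₊ + 1) := by
  have h4 : (0 : ℝ) < 4 ^ l := by positivity
  have hu0 : 0 ≤ u * 4 ^ l := mul_nonneg hu h4.le
  set j := ⌊u * 4 ^ l⌋₊ with hj
  have hj1 : (j : ℝ) ≤ u * 4 ^ l := Nat.floor_le hu0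
  have hj2 : u * 4 ^ l < j + 1 := Nat.lt_floor_add_one _
  have hjl : j < 4 ^ l := by
    have h1 : (j : ℝ) < 4 ^ l := by
      refine hj1.trans_lt ?_
      have : u < 1 := huv.trans_le hv
      nlinarith
    exact_mod_cast h1
  refine ⟨hjl, ?_⟩
  have t1 : tm l j ≤ u := by
    unfold tm
    rw [div_le_iff₀ h4]
    exact hj1
  have t2 : u ≤ tm l (j + 1) := by
    unfold tm
    rw [le_div_iff₀ h4]
    push_cast
    exact hj2.le
  have e1 : O γ l j = osc γ l j := if_pos hjl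
  by_cases hc : v ≤ tm l (j + 1)
  · have h1 : Metric.diam (γ '' Icc u v) ≤ osc γ l j :=
      Metric.diam_mono (image_mono (Icc_subset_Icc t1 hc)) (bdd hγ hjl)
    have h2 := O_nonneg γ l (j + 1)
    rw [e1]
    linarith
  · push Not at hc
    have hjl' : j + 1 < 4 ^ l := by
      have h1 : ((j + 1 : ℕ) : ℝ) < 4 ^ l := by
        have h2 : tm l (j + 1) < 1 := hc.trans_le hv
        unfold tm at h2
        rw [div_lt_one h4] at h2
        exact h2
      exact_mod_cast h1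
    have e2 : O γ l (j + 1) = osc γ l (j + 1) := if_pos hjl'
    have t3 : v ≤ tm l (j + 1 + 1) := by
      have h1 : v ≤ u + (1 / 4) ^ l := by linarith
      have h2 : tm l (j + 1 + 1) = tm l (j + 1) + (1 / 4) ^ l := by
        unfold tm
        rw [one_div, inv_pow]
        push_cast
        field_simp
      rw [h2]
      linarith
    rw [e1, e2]
    have h1 : γ '' Icc u v ⊆ γ '' Icc (tm l j) (tm l (j + 1)) ∪
        γ '' Icc (tm l (j + 1)) (tm l (j + 1 + 1)) := by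
      rw [← image_union]
      refine image_mono ?_
      intro x hx
      rcases le_total x (tm l (j + 1)) with h | h
      · exact Or.inl ⟨t1.trans hx.1, h⟩
      · exact Or.inr ⟨h, hx.2.trans t3⟩
    refine (Metric.diam_mono h1 ((bdd hγ hjl).union (bdd hγ hjl'))).trans ?_
    refine Metric.diam_union' ⟨γ (tm l (j + 1)), ?_, ?_⟩
    · exact mem_image_of_mem _ ⟨tm_le (Nat.le_succ j), le_rfl⟩
    · exact mem_image_of_mem _ ⟨le_rfl, tm_le (Nat.le_succ (j + 1))⟩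

/-- the sum over one level -/
theorem level {γ : ℝ → ℂ} {r : ℕ} {C : ℝ} {l : ℕ}
    (hFS : FS γ (r + 1) l ≤ C * (l + 1) ^ 2 * 4 ^ l) :
    ∑ j ∈ Finset.range (4 ^ l), (O γ l j ^ (2 * (r + 1)) + O γ l (j + 1) ^ (2 * (r + 1))) ≤
      2 * (C * (l + 1) ^ 2 / 4 ^ (l * r)) := by
  have h1 : ∑ j ∈ Finset.range (4 ^ l), O γ l j ^ (2 * (r + 1)) ≤
      C * (l + 1) ^ 2 / 4 ^ (l * r) := by
    have h2 : FS γ (r + 1) l =
        4 ^ (l * (r + 1)) * ∑ j ∈ Finset.range (4 ^ l), O γ l j ^ (2 * (r + 1)) := by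
      unfold FS
      rw [Finset.mul_sum]
      refine Finset.sum_congr rfl fun j hj => ?_
      have e1 : O γ l j = osc γ l j := if_pos (Finset.mem_range.1 hj)
      rw [e1, mul_pow]
      congr 1
      rw [← pow_mul, mul_left_comm, pow_mul]
      norm_num
    rw [h2] at hFS
    rw [le_div_iff₀ (by positivity)]
    have h3 : (4 : ℝ) ^ (l * (r + 1)) = 4 ^ l * 4 ^ (l * r) := by
      rw [← pow_add]
      congr 1
      ring
    rw [h3] at hFS
    have h4 : (0 : ℝ) < 4 ^ l := by positivity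
    have h5 : 4 ^ l * ((∑ j ∈ Finset.range (4 ^ l), O γ l j ^ (2 * (r + 1))) * 4 ^ (l * r)) ≤
        4 ^ l * (C * (l + 1) ^ 2) := by
      calc _ = 4 ^ l * 4 ^ (l * r) * ∑ j ∈ Finset.range (4 ^ l), O γ l j ^ (2 * (r + 1)) := by ring
        _ ≤ C * (l + 1) ^ 2 * 4 ^ l := hFS
        _ = _ := by ring
    exact le_of_mul_le_mul_left h5 h4
  have h2 : ∑ j ∈ Finset.range (4 ^ l), O γ l (j + 1) ^ (2 * (r + 1)) ≤
      ∑ j ∈ Finset.range (4 ^ l), O γ l j ^ (2 * (r + 1)) := by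
    have h3 := Finset.sum_range_succ' (fun j => O γ l j ^ (2 * (r + 1))) (4 ^ l)
    have h4 := Finset.sum_range_succ (fun j => O γ l j ^ (2 * (r + 1))) (4 ^ l)
    have h5 : O γ l (4 ^ l) = 0 := if_neg (lt_irrefl _)
    have h6 : 0 ≤ O γ l 0 ^ (2 * (r + 1)) := pow_nonneg (O_nonneg _ _ _) _
    simp only [h5] at h4
    rw [zero_pow (by omega), add_zero] at h4
    linarith
  rw [Finset.sum_add_distrib]
  linarith

/-- few intervals of level `l` start in a given dyadic interval -/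
theorem card_fibre (S : Finset ℕ) (u v : ℕ → ℝ) (l j : ℕ)
    (h : ∀ i ∈ S, 0 ≤ u i ∧ u i < v i ∧ (1 / 4 : ℝ) ^ (l + 1) < v i - u i ∧
      v i - u i ≤ (1 / 4) ^ l ∧ ⌊u i * 4 ^ l⌋₊ = j)
    (hd : ∀ i ∈ S, ∀ j ∈ S, i ≠ j → v i ≤ u j ∨ v j ≤ u i) : S.card ≤ 8 := by
  have h4 : (0 : ℝ) < 4 ^ l := by positivity
  have h1 := sum_len S u v ((j : ℝ) / 4 ^ l) (((j : ℝ) + 2) / 4 ^ l) (by gcongr; linarith) (by
    intro i hi
    obtain ⟨h2, h3, -, h5, h6⟩ := h i hi
    have h7 : (j : ℝ) ≤ u i * 4 ^ l := by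
      rw [← h6]
      exact Nat.floor_le (mul_nonneg h2 h4.le)
    have h8 : u i * 4 ^ l < j + 1 := by
      rw [← h6]
      exact Nat.lt_floor_add_one _
    refine ⟨?_, h3.le, ?_⟩
    · rw [div_le_iff₀ h4]
      exact h7
    · rw [le_div_iff₀ h4]
      have h9 : v i * 4 ^ l ≤ u i * 4 ^ l + 1 := by
        have h10 : (v i - u i) * 4 ^ l ≤ (1 / 4) ^ l * 4 ^ l :=
          mul_le_mul_of_nonneg_right h5 h4.le
        rw [← mul_pow] at h10
        norm_num at h10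
        linarith
      linarith) hd
  have h2 : (S.card : ℝ) * (1 / 4 : ℝ) ^ (l + 1) ≤ ∑ i ∈ S, (v i - u i) := by
    rw [← nsmul_eq_mul, ← Finset.sum_const]
    exact Finset.sum_le_sum fun i hi => (h i hi).2.2.1.le
  have h3 : (S.card : ℝ) * (1 / 4 : ℝ) ^ (l + 1) ≤ 2 / 4 ^ l := by
    refine h2.trans (h1.trans (le_of_eq ?_))
    ring
  have h5 : (S.card : ℝ) ≤ 8 := by
    have h6 : (1 / 4 : ℝ) ^ (l + 1) = 1 / 4 / 4 ^ l := by
      rw [pow_succ, one_div, inv_pow]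
      field_simp
    rw [h6] at h3
    have h7 : (S.card : ℝ) * (1 / 4 / 4 ^ l) * 4 ^ l ≤ 2 / 4 ^ l * 4 ^ l :=
      mul_le_mul_of_nonneg_right h3 h4.le
    have h8 : (S.card : ℝ) * (1 / 4 / 4 ^ l) * 4 ^ l = S.card / 4 := by
      field_simp
    have h9 : (2 : ℝ) / 4 ^ l * 4 ^ l = 2 := by
      field_simp
    rw [h8, h9] at h7
    linarith
  exact_mod_cast h5

end VADM

open VADM in
theorem specVAD : SpecVAD := by
  classical
  intro γ q C hγ hq hFS
  obtain ⟨r, rfl⟩ : ∃ r, q = r + 1 := ⟨q - 1, by omega⟩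
  have hr : 1 ≤ r := by omega
  have hC : 0 ≤ C := by
    have h1 := hFS 0
    have h2 : 0 ≤ FS γ (r + 1) 0 :=
      Finset.sum_nonneg fun j _ => pow_nonneg (mul_nonneg (by positivity) Metric.diam_nonneg) _
    have h3 := h2.trans h1
    norm_num at h3
    exact h3
  refine ⟨2 + 16 * 4 ^ (r + 1) * C * (8 * 4 ^ r + 12), fun n u v huv hd => ?_⟩
  have hn1 : (1 : ℝ) ≤ (n : ℝ) + 1 := by
    have : (0 : ℝ) ≤ (n : ℝ) := Nat.cast_nonneg n
    linarith
  obtain ⟨A, hA⟩ : ∃ A : ℝ, A = ((n : ℝ) + 1) ^ (3 / ((r + 1 : ℕ) : ℝ)) := ⟨_, rfl⟩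
  rw [← hA]
  have hA1 : 1 ≤ A := by
    rw [hA]
    exact Real.one_le_rpow hn1 (by positivity)
  have hA0 : 0 < A := by linarith
  have hAq : A ^ (r + 1) = ((n : ℝ) + 1) ^ 3 := by
    rw [hA, ← Real.rpow_natCast (((n : ℝ) + 1) ^ (3 / ((r + 1 : ℕ) : ℝ))) (r + 1),
      ← Real.rpow_mul (by positivity), div_mul_cancel₀ _ (by positivity)]
    norm_cast
  -- the nondegenerate intervals
  let S : Finset ℕ := (Finset.range (4 ^ n)).filter (fun i => u i < v i)
  have hS : ∀ i ∈ S, i < 4 ^ n ∧ u i < v i := by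
    intro i hi
    have h1 := Finset.mem_filter.1 hi
    exact ⟨Finset.mem_range.1 h1.1, h1.2⟩
  have hzero : ∑ i ∈ Finset.range (4 ^ n), (Metric.diam (γ '' Icc (u i) (v i))) ^ 2 =
      ∑ i ∈ S, (Metric.diam (γ '' Icc (u i) (v i))) ^ 2 := by
    symm
    refine Finset.sum_subset (Finset.filter_subset _ _) fun i hi hi' => ?_
    have h1 : ¬ u i < v i := fun h => hi' (Finset.mem_filter.2 ⟨hi, h⟩)
    have h2 : u i = v i := le_antisymm (huv i (Finset.mem_range.1 hi)).2.1 (not_lt.1 h1)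
    rw [h2, Icc_self, image_singleton, Metric.diam_singleton]
    norm_num
  have hlev : ∀ i ∈ S, ∃ l : ℕ, (1 / 4 : ℝ) ^ (l + 1) < v i - u i ∧ v i - u i ≤ (1 / 4) ^ l := by
    intro i hi
    have h1 := huv i (hS i hi).1
    exact exists_nat_pow_near_of_lt_one (sub_pos.2 (hS i hi).2) (by linarith) (by norm_num)
      (by norm_num)
  choose! L hL1 hL2 using hlev
  let J : ℕ → ℕ := fun i => ⌊u i * 4 ^ L i⌋₊
  have hdiam : ∀ i ∈ S, J i < 4 ^ L i ∧ Metric.diam (γ '' Icc (u i) (v i)) ≤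
      O γ (L i) (J i) + O γ (L i) (J i + 1) := by
    intro i hi
    have h1 := huv i (hS i hi).1
    exact diam_le hγ h1.1 (hS i hi).2 h1.2.2 (hL2 i hi)
  let w : ℕ → ℝ := fun i => if L i ≤ 2 * n then A * (v i - u i) else (1 / 4) ^ n
  let W : ℕ → ℝ := fun l => if l ≤ 2 * n then A * (1 / 4) ^ (l + 1) else (1 / 4) ^ n
  have hW0 : ∀ l, 0 < W l := by
    intro l
    simp only [W]
    split_ifs
    · positivity
    · positivity
  have hWw : ∀ i ∈ S, W (L i) ≤ w i := by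
    intro i hi
    simp only [W, w]
    split_ifs
    · exact mul_le_mul_of_nonneg_left (hL1 i hi).le hA0.le
    · exact le_rfl
  have hw0 : ∀ i ∈ S, 0 < w i := fun i hi => (hW0 _).trans_le (hWw i hi)
  have hdd : ∀ i ∈ S, ∀ j ∈ S, i ≠ j → v i ≤ u j ∨ v j ≤ u i := by
    intro i hi j hj hij
    rcases lt_or_gt_of_ne hij with h | h
    · exact hd i (hS i hi).1 j (hS j hj).1 h
    · exact (hd j (hS j hj).1 i (hS i hi).1 h).symm
  have hwsum : ∑ i ∈ S, w i ≤ A + 1 := by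
    have h1 : ∀ i ∈ S, w i ≤ A * (v i - u i) + (1 / 4) ^ n := by
      intro i hi
      have h2 : 0 ≤ A * (v i - u i) := mul_nonneg hA0.le (sub_nonneg.2 (hS i hi).2.le)
      have h3 : (0 : ℝ) ≤ (1 / 4) ^ n := by positivity
      simp only [w]
      split_ifs <;> linarith
    refine (Finset.sum_le_sum h1).trans ?_
    rw [Finset.sum_add_distrib, ← Finset.mul_sum, Finset.sum_const, nsmul_eq_mul]
    have h2 : ∑ i ∈ S, (v i - u i) ≤ 1 - 0 :=
      sum_len S u v 0 1 zero_le_one (fun i hi => huv i (hS i hi).1) hdd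
    have h3 : (S.card : ℝ) * (1 / 4) ^ n ≤ 1 := by
      have h4 : (S.card : ℝ) ≤ 4 ^ n := by
        have h5 : S.card ≤ (Finset.range (4 ^ n)).card := Finset.card_le_card (Finset.filter_subset _ _)
        rw [Finset.card_range] at h5
        exact_mod_cast h5
      calc (S.card : ℝ) * (1 / 4) ^ n ≤ 4 ^ n * (1 / 4) ^ n :=
            mul_le_mul_of_nonneg_right h4 (by positivity)
        _ = 1 := by
            rw [← mul_pow]
            norm_num
    have h4 := mul_le_mul_of_nonneg_left h2 hA0.le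
    linarith
  -- the second terms
  let F : ℕ → ℕ → ℝ := fun l j => 4 ^ (r + 1) * (O γ l j ^ (2 * (r + 1)) +
    O γ l (j + 1) ^ (2 * (r + 1))) / W l ^ r
  have hF0 : ∀ l j, 0 ≤ F l j := by
    intro l j
    have h1 := O_nonneg γ l j
    have h2 := O_nonneg γ l (j + 1)
    have h3 := hW0 l
    positivity
  have hterm : ∀ i ∈ S, (Metric.diam (γ '' Icc (u i) (v i))) ^ 2 ≤ w i + F (L i) (J i) := by
    intro i hi
    have h1 := young (sq_nonneg (Metric.diam (γ '' Icc (u i) (v i)))) (hw0 i hi) r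
    refine h1.trans (add_le_add le_rfl ?_)
    have h2 : ((Metric.diam (γ '' Icc (u i) (v i))) ^ 2) ^ (r + 1) ≤
        4 ^ (r + 1) * (O γ (L i) (J i) ^ (2 * (r + 1)) + O γ (L i) (J i + 1) ^ (2 * (r + 1))) := by
      rw [← pow_mul]
      exact (pow_le_pow_left₀ Metric.diam_nonneg (hdiam i hi).2 _).trans
        (pow_two_mul (O_nonneg _ _ _) (O_nonneg _ _ _) _)
    have h3 : 0 ≤ 4 ^ (r + 1) * (O γ (L i) (J i) ^ (2 * (r + 1)) +
        O γ (L i) (J i + 1) ^ (2 * (r + 1))) := by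
      have h4 := O_nonneg γ (L i) (J i)
      have h5 := O_nonneg γ (L i) (J i + 1)
      positivity
    exact div_le_div₀ h3 h2 (pow_pos (hW0 _) _) (pow_le_pow_left₀ (hW0 _).le (hWw i hi) r)
  have hgroup : ∑ i ∈ S, F (L i) (J i) ≤ 8 * ∑ l ∈ Finset.range (S.sup L + 1),
      ∑ j ∈ Finset.range (4 ^ l), F l j := by
    have h1 : ∀ i ∈ S, (⟨L i, J i⟩ : Σ _ : ℕ, ℕ) ∈
        (Finset.range (S.sup L + 1)).sigma (fun l => Finset.range (4 ^ l)) := by
      intro i hi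
      rw [Finset.mem_sigma, Finset.mem_range, Finset.mem_range]
      exact ⟨Nat.lt_succ_of_le (Finset.le_sup hi), (hdiam i hi).1⟩
    have h2 : ∑ l ∈ Finset.range (S.sup L + 1), ∑ j ∈ Finset.range (4 ^ l), F l j =
        ∑ p ∈ (Finset.range (S.sup L + 1)).sigma (fun l => Finset.range (4 ^ l)), F p.1 p.2 :=
      (Finset.sum_sigma _ _ (fun p : Σ _ : ℕ, ℕ => F p.1 p.2)).symm
    rw [h2, ← Finset.sum_fiberwise_of_maps_to h1, Finset.mul_sum]
    refine Finset.sum_le_sum fun p _ => ?_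
    have h3 : ∀ i ∈ S.filter (fun i => (⟨L i, J i⟩ : Σ _ : ℕ, ℕ) = p),
        F (L i) (J i) = F p.1 p.2 := by
      intro i hi
      rw [← (Finset.mem_filter.1 hi).2]
    rw [Finset.sum_congr rfl h3, Finset.sum_const, nsmul_eq_mul]
    refine mul_le_mul_of_nonneg_right ?_ (hF0 _ _)
    have h4 : (S.filter (fun i => (⟨L i, J i⟩ : Σ _ : ℕ, ℕ) = p)).card ≤ 8 := by
      refine card_fibre _ u v p.1 p.2 ?_ ?_
      · intro i hi
        obtain ⟨hi1, hi2⟩ := Finset.mem_filter.1 hi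
        have h5 : L i = p.1 := by rw [← hi2]
        have h6 : J i = p.2 := by rw [← hi2]
        refine ⟨(huv i (hS i hi1).1).1, (hS i hi1).2, ?_, ?_, ?_⟩
        · rw [← h5]
          exact hL1 i hi1
        · rw [← h5]
          exact hL2 i hi1
        · rw [← h5, ← h6]
      · intro i hi j hj hij
        exact hdd i (Finset.mem_filter.1 hi).1 j (Finset.mem_filter.1 hj).1 hij
    exact_mod_cast h4
  have hlevel : ∀ l, ∑ j ∈ Finset.range (4 ^ l), F l j ≤
      2 * 4 ^ (r + 1) * C * (((l : ℝ) + 1) ^ 2 * (1 / 4 ^ (l * r) / W l ^ r)) := by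
    intro l
    have h1 := level (hFS l)
    have h2 : ∑ j ∈ Finset.range (4 ^ l), F l j = 4 ^ (r + 1) / W l ^ r *
        ∑ j ∈ Finset.range (4 ^ l), (O γ l j ^ (2 * (r + 1)) + O γ l (j + 1) ^ (2 * (r + 1))) := by
      rw [Finset.mul_sum]
      refine Finset.sum_congr rfl fun j _ => ?_
      simp only [F]
      ring
    have h3 := hW0 l
    rw [h2]
    refine (mul_le_mul_of_nonneg_left h1 (by positivity)).trans (le_of_eq ?_)
    ring
  have hlevel2 : ∀ l, 1 / (4 : ℝ) ^ (l * r) / W l ^ r ≤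
      (if l ≤ 2 * n then 4 ^ r / A ^ r else 0) + (1 / 2) ^ l := by
    intro l
    simp only [W]
    split_ifs with h
    · have h1 : 1 / (4 : ℝ) ^ (l * r) / (A * (1 / 4) ^ (l + 1)) ^ r = 4 ^ r / A ^ r := by
        rw [mul_pow, ← pow_mul, one_div_pow, add_mul, one_mul, pow_add]
        field_simp
      rw [h1]
      have h2 : (0 : ℝ) ≤ (1 / 2) ^ l := by positivity
      linarith
    · rw [zero_add]
      push Not at h
      have h1 : 1 / (4 : ℝ) ^ (l * r) / ((1 / 4) ^ n) ^ r = (4 ^ n / 4 ^ l) ^ r := by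
        rw [← pow_mul, one_div_pow, div_pow, ← pow_mul, ← pow_mul]
        field_simp
      have h2 : (4 : ℝ) ^ n / 4 ^ l ≤ (1 / 2) ^ l := by
        rw [div_le_iff₀ (by positivity), ← mul_pow]
        have h3 : (4 : ℝ) ^ n = 2 ^ (2 * n) := by
          rw [pow_mul]
          norm_num
        rw [h3]
        norm_num
        exact pow_le_pow_right₀ (by norm_num) h.le
      have h3 : (1 / 2 : ℝ) ^ l ≤ 1 := pow_le_one₀ (by norm_num) (by norm_num)
      rw [h1]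
      calc ((4 : ℝ) ^ n / 4 ^ l) ^ r ≤ ((1 / 2) ^ l) ^ r := pow_le_pow_left₀ (by positivity) h2 r
        _ ≤ ((1 / 2) ^ l) ^ 1 := pow_le_pow_of_le_one (by positivity) h3 hr
        _ = (1 / 2) ^ l := pow_one _
  have hsum : ∑ l ∈ Finset.range (S.sup L + 1),
      ((l : ℝ) + 1) ^ 2 * (1 / 4 ^ (l * r) / W l ^ r) ≤ 8 * 4 ^ r * A + 12 := by
    have h1 : ∀ l ∈ Finset.range (S.sup L + 1),
        ((l : ℝ) + 1) ^ 2 * (1 / 4 ^ (l * r) / W l ^ r) ≤
        (if l ≤ 2 * n then ((l : ℝ) + 1) ^ 2 * (4 ^ r / A ^ r) else 0) +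
          ((l : ℝ) + 1) ^ 2 * (1 / 2) ^ l := by
      intro l _
      refine (mul_le_mul_of_nonneg_left (hlevel2 l) (by positivity)).trans (le_of_eq ?_)
      split_ifs <;> ring
    refine (Finset.sum_le_sum h1).trans ?_
    rw [Finset.sum_add_distrib]
    refine add_le_add ?_ (sq_sum_le _)
    rw [← Finset.sum_filter]
    have h2 : (Finset.range (S.sup L + 1)).filter (fun l => l ≤ 2 * n) ⊆
        Finset.range (2 * n + 1) := by
      intro l hl
      exact Finset.mem_range.2 (Nat.lt_succ_of_le (Finset.mem_filter.1 hl).2)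
    refine (Finset.sum_le_sum_of_subset_of_nonneg h2 fun l _ _ => by positivity).trans ?_
    have h3 : ∀ l ∈ Finset.range (2 * n + 1), ((l : ℝ) + 1) ^ 2 * (4 ^ r / A ^ r) ≤
        (2 * ((n : ℝ) + 1)) ^ 2 * (4 ^ r / A ^ r) := by
      intro l hl
      have h4 : (l : ℝ) ≤ 2 * n := by
        have := Nat.lt_succ_iff.1 (Finset.mem_range.1 hl)
        exact_mod_cast this
      have h5 : (0 : ℝ) ≤ (l : ℝ) := Nat.cast_nonneg l
      refine mul_le_mul_of_nonneg_right (pow_le_pow_left₀ (by linarith) (by linarith) 2)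
        (by positivity)
    refine (Finset.sum_le_sum h3).trans ?_
    rw [Finset.sum_const, Finset.card_range, nsmul_eq_mul]
    have h4 : ((2 * n + 1 : ℕ) : ℝ) ≤ 2 * ((n : ℝ) + 1) := by
      push_cast
      linarith
    calc ((2 * n + 1 : ℕ) : ℝ) * ((2 * ((n : ℝ) + 1)) ^ 2 * (4 ^ r / A ^ r))
        ≤ (2 * ((n : ℝ) + 1)) * ((2 * ((n : ℝ) + 1)) ^ 2 * (4 ^ r / A ^ r)) :=
          mul_le_mul_of_nonneg_right h4 (by positivity)
      _ = 8 * 4 ^ r * (((n : ℝ) + 1) ^ 3 / A ^ r) := by ring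
      _ = 8 * 4 ^ r * A := by
          rw [← hAq, pow_succ]
          field_simp
  -- conclusion
  rw [hzero]
  have h1 : ∑ i ∈ S, (Metric.diam (γ '' Icc (u i) (v i))) ^ 2 ≤
      (A + 1) + 8 * ∑ l ∈ Finset.range (S.sup L + 1), ∑ j ∈ Finset.range (4 ^ l), F l j := by
    refine (Finset.sum_le_sum hterm).trans ?_
    rw [Finset.sum_add_distrib]
    exact add_le_add hwsum hgroup
  have h2 : ∑ l ∈ Finset.range (S.sup L + 1), ∑ j ∈ Finset.range (4 ^ l), F l j ≤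
      2 * 4 ^ (r + 1) * C * (8 * 4 ^ r * A + 12) := by
    refine (Finset.sum_le_sum fun l _ => hlevel l).trans ?_
    rw [← Finset.mul_sum]
    exact mul_le_mul_of_nonneg_left hsum (by positivity)
  have h3 : 0 ≤ 16 * 4 ^ (r + 1) * C * 12 * (A - 1) :=
    mul_nonneg (by positivity) (by linarith)
  calc ∑ i ∈ S, (Metric.diam (γ '' Icc (u i) (v i))) ^ 2
      ≤ (A + 1) + 8 * (2 * 4 ^ (r + 1) * C * (8 * 4 ^ r * A + 12)) := by linarith
    _ ≤ (2 + 16 * 4 ^ (r + 1) * C * (8 * 4 ^ r + 12)) * A := by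
        have h4 : (2 + 16 * 4 ^ (r + 1) * C * (8 * 4 ^ r + 12)) * A -
            ((A + 1) + 8 * (2 * 4 ^ (r + 1) * C * (8 * 4 ^ r * A + 12))) =
            (A - 1) + 16 * 4 ^ (r + 1) * C * 12 * (A - 1) := by ring
        linarith

end Pool.Agent.Lib.MP_8b264c_pr.QV
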